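import Mathlib

/-!
# Sine and cosine bases of `L²(0,1)`: completeness (the sine part is adapted from
`Pool/Agent/Helper27/Har/P_sine_complete_1d.lean`)
-/

set_option autoImplicit false

open MeasureTheory Set Real Filter Topology
open scoped ENNReal NNReal

namespace Pool.Agent.Y308.BC

/-- the measure on `(0,1)` -/
noncomputable abbrev mu : Measure ℝ := volume.restrict (Ioo (0:ℝ) 1)

lemma complete_aux (h : ℝ → ℝ) (hh : MemLp h 2 mu) (w : ℝ → ℝ) (hw : Continuous w)
    (hwpos : ∀ x ∈ Ioo (0:ℝ) 1, w x ≠ 0)
    (h2 : ∀ P : Polynomial ℝ,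
      ∫ x in Ioo (0:ℝ) 1, h x * (w x * P.eval (Real.cos (π * x))) = 0) :
    h =ᵐ[mu] 0 := by
  have hI : IntegrableOn h (Ioo 0 1) := hh.integrable (by norm_num)
  have hmul : ∀ φ : ℝ → ℝ, Continuous φ → IntegrableOn (fun x => h x * φ x) (Ioo 0 1) :=
    fun φ hφ => hI.mul_continuousOn_of_subset hφ.continuousOn measurableSet_Ioo isCompact_Icc
      Ioo_subset_Icc_self
  have hcc : Continuous fun x : ℝ => Real.cos (π * x) := by fun_prop
  have h3 : ∀ g : ℝ → ℝ, Continuous g → ∫ x in Ioo (0:ℝ) 1, h x * (w x * g x) = 0 := by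
    intro g hg
    set C : ℝ := ∫ x in Ioo (0:ℝ) 1, |h x * w x| with hC
    have hC0 : 0 ≤ C := integral_nonneg fun x => abs_nonneg _
    have key : ∀ ε : ℝ, 0 < ε → |∫ x in Ioo (0:ℝ) 1, h x * (w x * g x)| ≤ ε * C := by
      intro ε hε
      obtain ⟨P, hP⟩ := exists_polynomial_near_of_continuousOn (-1) 1
        (fun y => g (Real.arccos y / π))
        (hg.comp (Real.continuous_arccos.div_const π)).continuousOn ε hε
      have i1 : IntegrableOn (fun x => h x * (w x * g x)) (Ioo 0 1) :=
        hmul _ (hw.mul hg)
      have i2 : IntegrableOn (fun x => h x * (w x * P.eval (Real.cos (π * x)))) (Ioo 0 1) :=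
        hmul _ (hw.mul (P.continuous.comp hcc))
      have i3 : IntegrableOn (fun x => |h x * w x|) (Ioo 0 1) :=
        (hmul _ hw).abs
      have e : ∫ x in Ioo (0:ℝ) 1, h x * (w x * g x) =
          ∫ x in Ioo (0:ℝ) 1, (h x * (w x * g x) -
            h x * (w x * P.eval (Real.cos (π * x)))) := by
        rw [integral_sub i1 i2, h2 P, sub_zero]
      rw [e]
      have hb : ∀ᵐ x ∂(volume.restrict (Ioo (0:ℝ) 1)), ‖h x * (w x * g x) -
            h x * (w x * P.eval (Real.cos (π * x)))‖ ≤ ε * |h x * w x| := by
        rw [ae_restrict_iff' measurableSet_Ioo]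
        refine Filter.Eventually.of_forall fun x hx => ?_
        have h5 := hP (Real.cos (π * x)) ⟨Real.neg_one_le_cos _, Real.cos_le_one _⟩
        have hpx : Real.arccos (Real.cos (π * x)) = π * x := by
          apply Real.arccos_cos
          · have := Real.pi_pos; have := hx.1; positivity
          · have := Real.pi_pos; nlinarith [hx.2]
        simp only [hpx] at h5
        have hpx2 : π * x / π = x := by field_simp
        rw [hpx2] at h5
        have h6 : h x * (w x * g x) - h x * (w x * P.eval (Real.cos (π * x))) =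
            -((P.eval (Real.cos (π * x)) - g x) * (h x * w x)) := by ring
        rw [h6, norm_neg, norm_mul, Real.norm_eq_abs, Real.norm_eq_abs]
        exact mul_le_mul_of_nonneg_right h5.le (abs_nonneg _)
      have h7 := norm_integral_le_of_norm_le (i3.const_mul ε) hb
      rw [Real.norm_eq_abs, integral_const_mul] at h7
      exact h7
    have hle : |∫ x in Ioo (0:ℝ) 1, h x * (w x * g x)| ≤ 0 := by
      refine le_of_forall_pos_le_add fun δ hδ => ?_
      have h8 := key (δ / (C + 1)) (by positivity)
      have h9 : δ / (C + 1) * C ≤ δ := by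
        rw [div_mul_eq_mul_div, div_le_iff₀ (by positivity)]
        nlinarith
      linarith
    exact abs_nonpos_iff.1 hle
  have hL : LocallyIntegrableOn (fun x => h x * w x) (Ioo 0 1) :=
    (hmul _ hw).locallyIntegrableOn
  have hfin := isOpen_Ioo.ae_eq_zero_of_integral_contDiff_smul_eq_zero hL (by
    intro g hg _ hsupp
    have hz : ∀ x, x ∉ Ioo (0:ℝ) 1 → g x • (h x * w x) = 0 := by
      intro x hx
      have : g x = 0 := by
        by_contra hne
        exact hx (hsupp (subset_tsupport g hne))
      rw [this, zero_smul]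
    rw [← setIntegral_eq_integral_of_forall_compl_eq_zero hz]
    have h12 : (fun x => g x • (h x * w x)) = fun x => h x * (w x * g x) := by
      funext x
      rw [smul_eq_mul]
      ring
    rw [h12]
    exact h3 g hg.continuous)
  rw [Filter.EventuallyEq, ae_restrict_iff' measurableSet_Ioo]
  filter_upwards [hfin] with x hx hxm
  have h10 := hx hxm
  rcases mul_eq_zero.1 h10 with h11 | h11
  · exact h11
  · exact absurd h11 (hwpos x hxm)

/-- completeness of the sine functions on `(0,1)` -/
theorem sine_complete (h : ℝ → ℝ) (hh : MemLp h 2 mu)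
    (h0 : ∀ n : ℕ, ∫ x in Ioo (0:ℝ) 1, h x * Real.sin (((n : ℝ) + 1) * π * x) = 0) :
    h =ᵐ[mu] 0 := by
  have hI : IntegrableOn h (Ioo 0 1) := hh.integrable (by norm_num)
  have hmul : ∀ φ : ℝ → ℝ, Continuous φ → IntegrableOn (fun x => h x * φ x) (Ioo 0 1) :=
    fun φ hφ => hI.mul_continuousOn_of_subset hφ.continuousOn measurableSet_Ioo isCompact_Icc
      Ioo_subset_Icc_self
  have h1 : ∀ k n : ℕ,
      ∫ x in Ioo (0:ℝ) 1, h x * (Real.sin (((n : ℝ) + 1) * π * x) * Real.cos (π * x) ^ k) = 0 := by
    intro k
    induction k with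
    | zero =>
      intro n
      simpa using h0 n
    | succ k ih =>
      intro n
      have i1 : IntegrableOn (fun x => h x * (Real.sin ((((n + 1 : ℕ) : ℝ) + 1) * π * x) *
          Real.cos (π * x) ^ k)) (Ioo 0 1) := hmul _ (by fun_prop)
      have hA : ∫ x in Ioo (0:ℝ) 1,
          h x * (Real.sin ((n : ℝ) * π * x) * Real.cos (π * x) ^ k) = 0 := by
        cases n with
        | zero => simp
        | succ n =>
          have := ih n
          push_cast at this ⊢
          exact this
      have i2 : IntegrableOn (fun x => h x * (Real.sin ((n : ℝ) * π * x) *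
          Real.cos (π * x) ^ k)) (Ioo 0 1) := hmul _ (by fun_prop)
      have hs : (fun x => h x * (Real.sin (((n : ℝ) + 1) * π * x) *
          Real.cos (π * x) ^ (k + 1))) =
          fun x => (1 / 2 : ℝ) * (h x * (Real.sin ((((n + 1 : ℕ) : ℝ) + 1) * π * x) *
            Real.cos (π * x) ^ k) +
            h x * (Real.sin ((n : ℝ) * π * x) * Real.cos (π * x) ^ k)) := by
        funext x
        have e1 : Real.sin ((((n + 1 : ℕ) : ℝ) + 1) * π * x) =
            Real.sin (((n : ℝ) + 1) * π * x) * Real.cos (π * x) +
              Real.cos (((n : ℝ) + 1) * π * x) * Real.sin (π * x) := by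
          rw [← Real.sin_add]; congr 1; push_cast; ring
        have e2 : Real.sin ((n : ℝ) * π * x) =
            Real.sin (((n : ℝ) + 1) * π * x) * Real.cos (π * x) -
              Real.cos (((n : ℝ) + 1) * π * x) * Real.sin (π * x) := by
          rw [← Real.sin_sub]; congr 1; ring
        rw [e1, e2, pow_succ]
        ring
      rw [hs, integral_const_mul, integral_add i1 i2, hA, ih (n + 1)]
      ring
  refine complete_aux h hh (fun x => Real.sin (π * x)) (by fun_prop) ?_ ?_
  · intro x hx
    apply ne_of_gt
    apply Real.sin_pos_of_mem_Ioo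
    have := Real.pi_pos
    exact ⟨by have := hx.1; positivity, by nlinarith [hx.2]⟩
  · intro P
    induction P using Polynomial.induction_on' with
    | add p q hp hq =>
      have i1 : IntegrableOn (fun x => h x * (Real.sin (π * x) * p.eval (Real.cos (π * x))))
          (Ioo 0 1) := hmul _ ((by fun_prop : Continuous fun x : ℝ => Real.sin (π * x)).mul
            (p.continuous.comp (by fun_prop)))
      have i2 : IntegrableOn (fun x => h x * (Real.sin (π * x) * q.eval (Real.cos (π * x))))
          (Ioo 0 1) := hmul _ ((by fun_prop : Continuous fun x : ℝ => Real.sin (π * x)).mul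
            (q.continuous.comp (by fun_prop)))
      have e : (fun x => h x * (Real.sin (π * x) * (p + q).eval (Real.cos (π * x)))) = fun x =>
          h x * (Real.sin (π * x) * p.eval (Real.cos (π * x))) +
            h x * (Real.sin (π * x) * q.eval (Real.cos (π * x))) := by
        funext x
        rw [Polynomial.eval_add]
        ring
      rw [e, integral_add i1 i2, hp, hq, add_zero]
    | monomial n a =>
      have e : (fun x => h x * (Real.sin (π * x) *
          (Polynomial.monomial n a).eval (Real.cos (π * x)))) =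
          fun x => a * (h x * (Real.sin ((((0 : ℕ) : ℝ) + 1) * π * x) *
            Real.cos (π * x) ^ n)) := by
        funext x
        rw [Polynomial.eval_monomial]
        simp
        ring
      rw [e, integral_const_mul, h1 n 0, mul_zero]

/-- completeness of the cosine functions on `(0,1)` -/
theorem cosine_complete (h : ℝ → ℝ) (hh : MemLp h 2 mu)
    (h0 : ∀ n : ℕ, ∫ x in Ioo (0:ℝ) 1, h x * Real.cos ((n : ℝ) * π * x) = 0) :
    h =ᵐ[mu] 0 := by
  have hI : IntegrableOn h (Ioo 0 1) := hh.integrable (by norm_num)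
  have hmul : ∀ φ : ℝ → ℝ, Continuous φ → IntegrableOn (fun x => h x * φ x) (Ioo 0 1) :=
    fun φ hφ => hI.mul_continuousOn_of_subset hφ.continuousOn measurableSet_Ioo isCompact_Icc
      Ioo_subset_Icc_self
  have h1 : ∀ k n : ℕ,
      ∫ x in Ioo (0:ℝ) 1, h x * (Real.cos ((n : ℝ) * π * x) * Real.cos (π * x) ^ k) = 0 := by
    intro k
    induction k with
    | zero =>
      intro n
      simpa using h0 n
    | succ k ih =>
      intro n
      have i1 : IntegrableOn (fun x => h x * (Real.cos (((n + 1 : ℕ) : ℝ) * π * x) *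
          Real.cos (π * x) ^ k)) (Ioo 0 1) := hmul _ (by fun_prop)
      have hA : ∫ x in Ioo (0:ℝ) 1,
          h x * (Real.cos (((n : ℝ) - 1) * π * x) * Real.cos (π * x) ^ k) = 0 := by
        cases n with
        | zero =>
          refine Eq.trans ?_ (ih 1)
          congr 1
          funext x
          congr 2
          rw [← Real.cos_neg]
          congr 1
          push_cast
          ring
        | succ n =>
          refine Eq.trans ?_ (ih n)
          congr 1
          funext x
          congr 2
          congr 1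
          push_cast
          ring
      have i2 : IntegrableOn (fun x => h x * (Real.cos (((n : ℝ) - 1) * π * x) *
          Real.cos (π * x) ^ k)) (Ioo 0 1) := hmul _ (by fun_prop)
      have hs : (fun x => h x * (Real.cos ((n : ℝ) * π * x) *
          Real.cos (π * x) ^ (k + 1))) =
          fun x => (1 / 2 : ℝ) * (h x * (Real.cos (((n + 1 : ℕ) : ℝ) * π * x) *
            Real.cos (π * x) ^ k) +
            h x * (Real.cos (((n : ℝ) - 1) * π * x) * Real.cos (π * x) ^ k)) := by
        funext x
        have e1 : Real.cos (((n + 1 : ℕ) : ℝ) * π * x) =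
            Real.cos ((n : ℝ) * π * x) * Real.cos (π * x) -
              Real.sin ((n : ℝ) * π * x) * Real.sin (π * x) := by
          rw [← Real.cos_add]; congr 1; push_cast; ring
        have e2 : Real.cos (((n : ℝ) - 1) * π * x) =
            Real.cos ((n : ℝ) * π * x) * Real.cos (π * x) +
              Real.sin ((n : ℝ) * π * x) * Real.sin (π * x) := by
          rw [← Real.cos_sub]; congr 1; ring
        rw [e1, e2, pow_succ]
        ring
      rw [hs, integral_const_mul, integral_add i1 i2, hA, ih (n + 1)]
      ring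
  refine complete_aux h hh (fun _ => 1) (by fun_prop) (fun x _ => one_ne_zero) ?_
  intro P
  induction P using Polynomial.induction_on' with
  | add p q hp hq =>
    have i1 : IntegrableOn (fun x => h x * (1 * p.eval (Real.cos (π * x))))
        (Ioo 0 1) := hmul _ (continuous_const.mul (p.continuous.comp (by fun_prop)))
    have i2 : IntegrableOn (fun x => h x * (1 * q.eval (Real.cos (π * x))))
        (Ioo 0 1) := hmul _ (continuous_const.mul (q.continuous.comp (by fun_prop)))
    have e : (fun x => h x * (1 * (p + q).eval (Real.cos (π * x)))) = fun x =>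
        h x * (1 * p.eval (Real.cos (π * x))) + h x * (1 * q.eval (Real.cos (π * x))) := by
      funext x
      rw [Polynomial.eval_add]
      ring
    rw [e, integral_add i1 i2, hp, hq, add_zero]
  | monomial n a =>
    have e : (fun x => h x * (1 * (Polynomial.monomial n a).eval (Real.cos (π * x)))) =
        fun x => a * (h x * (Real.cos (((0 : ℕ) : ℝ) * π * x) *
          Real.cos (π * x) ^ n)) := by
      funext x
      rw [Polynomial.eval_monomial]
      simp
      ring
    rw [e, integral_const_mul, h1 n 0, mul_zero]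

/-- Parseval for a complete orthonormal system of continuous functions. -/
theorem parseval_of_complete (φ : ℕ → ℝ → ℝ) (hφ : ∀ n, Continuous (φ n))
    (hon : ∀ m n, ∫ x in Ioo (0:ℝ) 1, φ m x * φ n x = if m = n then 1 else 0)
    (hcomp : ∀ h : ℝ → ℝ, MemLp h 2 mu → (∀ n, ∫ x in Ioo (0:ℝ) 1, h x * φ n x = 0) →
      h =ᵐ[mu] 0)
    (f : ℝ → ℝ) (hf : MemLp f 2 mu) :
    HasSum (fun n => (∫ x in Ioo (0:ℝ) 1, f x * φ n x) ^ 2) (∫ x in Ioo (0:ℝ) 1, f x ^ 2) := by
  have hm : ∀ n, MemLp (φ n) 2 mu := by
    intro n
    obtain ⟨C, hC⟩ := (isCompact_Icc (a := (0:ℝ)) (b := 1)).exists_bound_of_continuousOn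
      (hφ n).continuousOn
    refine MemLp.of_bound (hφ n).aestronglyMeasurable C ?_
    exact ae_restrict_of_forall_mem measurableSet_Ioo fun x hx => hC x (Ioo_subset_Icc_self hx)
  let v : ℕ → Lp ℝ 2 mu := fun n => (hm n).toLp
  have hin : ∀ (a b : ℝ → ℝ) (ha : MemLp a 2 mu) (hb : MemLp b 2 mu),
      inner ℝ (ha.toLp) (hb.toLp) = ∫ x in Ioo (0:ℝ) 1, b x * a x := by
    intro a b ha hb
    rw [L2.inner_def]
    refine integral_congr_ae ?_
    filter_upwards [ha.coeFn_toLp, hb.coeFn_toLp] with x h1 h2
    rw [h1, h2]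
    simp
  have hv : Orthonormal ℝ v := by
    rw [orthonormal_iff_ite]
    intro i j
    rw [hin, hon]
    simp [eq_comm]
  have hbot : (Submodule.span ℝ (range v))ᗮ = ⊥ := by
    rw [Submodule.eq_bot_iff]
    intro g hg
    have hg' : MemLp g 2 mu := Lp.memLp g
    have h0 : ∀ n, ∫ x in Ioo (0:ℝ) 1, g x * φ n x = 0 := by
      intro n
      have h1 : inner ℝ (v n) g = 0 :=
        (Submodule.mem_orthogonal _ g).1 hg (v n) (Submodule.subset_span ⟨n, rfl⟩)
      have h2 : inner ℝ (v n) (hg'.toLp) = 0 := by rw [Lp.toLp_coeFn]; exact h1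
      rw [hin] at h2
      exact h2
    have h3 := hcomp g hg' h0
    exact (Lp.eq_zero_iff_ae_eq_zero).2 h3
  let b := HilbertBasis.mkOfOrthogonalEqBot hv hbot
  have hb : ∀ n, b n = v n := fun n => by
    simp [b]
  have hs := b.hasSum_inner_mul_inner (hf.toLp) (hf.toLp)
  rw [hin] at hs
  have e1 : (∫ x in Ioo (0:ℝ) 1, f x * f x) = ∫ x in Ioo (0:ℝ) 1, f x ^ 2 := by
    congr 1; funext x; ring
  rw [e1] at hs
  refine hs.congr_fun ?_ |> fun h => h
  intro n
  rw [hb n, hin, hin]
  have : (∫ x in Ioo (0:ℝ) 1, φ n x * f x) = ∫ x in Ioo (0:ℝ) 1, f x * φ n x := by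
    congr 1; funext x; ring
  rw [this]
  ring

end Pool.Agent.Y308.BC
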