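import Pool.Agent.Y308.BC.Sys

set_option autoImplicit false

open MeasureTheory Set Real Filter Topology intervalIntegral
open scoped ENNReal NNReal

namespace Pool.Agent.Y308.BC

/-- admissible source: continuous on `(0,∞) × [0,1]` and bounded by `B` -/
structure Adm (F : ℝ → ℝ → ℝ) (B : ℝ) : Prop where
  cont : ContinuousOn (fun q : ℝ × ℝ => F q.1 q.2) (Ioi 0 ×ˢ Icc 0 1)
  bdd : ∀ s, 0 < s → ∀ z ∈ Icc (0:ℝ) 1, |F s z| ≤ B

lemma Adm.nonneg {F : ℝ → ℝ → ℝ} {B : ℝ} (h : Adm F B) : 0 ≤ B :=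
  (abs_nonneg _).trans (h.bdd 1 one_pos 0 (by simp))

lemma Adm.sec {F : ℝ → ℝ → ℝ} {B : ℝ} (h : Adm F B) {s : ℝ} (hs : 0 < s) :
    ContinuousOn (F s) (Icc 0 1) :=
  h.cont.comp (f := fun x => (s, x)) (by fun_prop) (fun _ hx => ⟨hs, hx⟩)

lemma Adm.memLp {F : ℝ → ℝ → ℝ} {B : ℝ} (h : Adm F B) {s : ℝ} (hs : 0 < s) :
    MemLp (F s) 2 mu := memLp_cont (h.sec hs)

/-- cosine coefficients of the source -/
noncomputable def Fc (F : ℝ → ℝ → ℝ) (n : ℕ) (s : ℝ) : ℝ := cf (ec n) (F s)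

/-- sine coefficients of the Duhamel term -/
noncomputable def wn (F : ℝ → ℝ → ℝ) (n : ℕ) (t : ℝ) : ℝ :=
  -(kk n) * ∫ s in (0:ℝ)..t, Real.exp (-(lam n) * (t - s)) * Fc F n s

/-- the Duhamel term: the solution of `w_t = w_xx + F_x`, `w = 0` at `x = 0, 1`, `w(0) = 0` -/
noncomputable def NN (F : ℝ → ℝ → ℝ) (t x : ℝ) : ℝ := ∑' n, wn F n t * es n x

lemma ii_of_bdd {g : ℝ → ℝ} {t C : ℝ} (ht : 0 ≤ t) (hg : ContinuousOn g (Ioc 0 t))
    (hb : ∀ s ∈ Ioc 0 t, |g s| ≤ C) : IntervalIntegrable g volume 0 t := by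
  rw [intervalIntegrable_iff_integrableOn_Ioc_of_le ht]
  refine Integrable.of_bound (hg.aestronglyMeasurable measurableSet_Ioc) C ?_
  exact ae_restrict_of_forall_mem measurableSet_Ioc fun x hx => hb x hx

/-- continuity of a parametric integral over `[0,1]` -/
lemma cont_param {F : ℝ → ℝ → ℝ} {S : Set ℝ} (_hS : MeasurableSet S)
    (hc : ContinuousOn (fun q : ℝ × ℝ => F q.1 q.2) (S ×ˢ Icc 0 1)) {B : ℝ}
    (hb : ∀ s ∈ S, ∀ z ∈ Icc (0:ℝ) 1, |F s z| ≤ B) :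
    ContinuousOn (fun s => ∫ x in (0:ℝ)..1, F s x) S := by
  intro s₀ hs₀
  have hsec : ∀ s ∈ S, ContinuousOn (F s) (Icc 0 1) := fun s hs =>
    hc.comp (f := fun x => (s, x)) (by fun_prop) (fun _ hx => ⟨hs, hx⟩)
  have huI : uIoc (0:ℝ) 1 ⊆ Icc (0:ℝ) 1 := by
    rw [uIoc_of_le zero_le_one]; exact Ioc_subset_Icc_self
  refine intervalIntegral.continuousWithinAt_of_dominated_interval (bound := fun _ => B) ?_ ?_ ?_ ?_
  · filter_upwards [self_mem_nhdsWithin] with s hs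
    exact ((hsec s hs).mono huI).aestronglyMeasurable measurableSet_uIoc
  · filter_upwards [self_mem_nhdsWithin] with s hs
    refine Eventually.of_forall fun x hx => ?_
    exact hb s hs x (huI hx)
  · exact intervalIntegrable_const
  · refine Eventually.of_forall fun x hx => ?_
    have := hc (s₀, x) ⟨hs₀, huI hx⟩
    exact this.comp (f := fun s => (s, x)) (by fun_prop) (fun s hs => ⟨hs, huI hx⟩)

lemma Fc_cont {F : ℝ → ℝ → ℝ} {B : ℝ} (h : Adm F B) (n : ℕ) : ContinuousOn (Fc F n) (Ioi 0) := by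
  unfold Fc cf
  refine cont_param (F := fun s x => F s x * ec n x) (B := B * √2) measurableSet_Ioi ?_ ?_
  · exact h.cont.mul (by fun_prop)
  · intro s hs z hz
    rw [abs_mul]
    exact mul_le_mul (h.bdd s hs z hz) (ec_le n z) (abs_nonneg _) h.nonneg

lemma int_sq_le {f : ℝ → ℝ} (hf : ContinuousOn f (Icc 0 1)) {B : ℝ}
    (hb : ∀ z ∈ Icc (0:ℝ) 1, |f z| ≤ B) : ∫ x in (0:ℝ)..1, f x ^ 2 ≤ B ^ 2 := by
  have h1 : ∫ x in (0:ℝ)..1, f x ^ 2 ≤ ∫ x in (0:ℝ)..1, B ^ 2 := by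
    refine intervalIntegral.integral_mono_on zero_le_one (ii_sq (memLp_cont hf))
      intervalIntegrable_const ?_
    intro x hx
    exact sq_le_sq' (by linarith [(abs_le.1 (hb x hx)).1]) (abs_le.1 (hb x hx)).2
  simpa using h1

lemma Fc_bessel {F : ℝ → ℝ → ℝ} {B : ℝ} (h : Adm F B) {s : ℝ} (hs : 0 < s) (S : Finset ℕ) :
    ∑ n ∈ S, Fc F n s ^ 2 ≤ ∫ x in (0:ℝ)..1, F s x ^ 2 := bessel_ec (h.memLp hs) S

lemma Fc_abs_le {F : ℝ → ℝ → ℝ} {B : ℝ} (h : Adm F B) {s : ℝ} (hs : 0 < s) (n : ℕ) :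
    |Fc F n s| ≤ B := by
  have h1 := Fc_bessel h hs {n}
  rw [Finset.sum_singleton] at h1
  have h2 := int_sq_le (h.sec hs) (h.bdd s hs)
  exact abs_le_of_sq_le_sq (h1.trans h2) h.nonneg

/-- `k² e^{-2k²σ} ≤ σ^{-7/4} k^{-3/2}` -/
lemma key_scalar {k σ : ℝ} (hk : 0 < k) (hσ : 0 < σ) :
    k ^ 2 * Real.exp (-(2 * (k ^ 2 * σ))) ≤ σ ^ (-(7/4) : ℝ) * k ^ (-(3/2) : ℝ) := by
  set X := k ^ 2 * σ with hX
  have hX0 : 0 < X := by positivity
  have h1 : X ^ ((7/4) : ℝ) ≤ Real.exp (2 * X) := by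
    have h2 : X ≤ Real.exp X := by linarith [Real.add_one_le_exp X]
    calc X ^ ((7/4) : ℝ) ≤ (Real.exp X) ^ ((7/4) : ℝ) := Real.rpow_le_rpow hX0.le h2 (by norm_num)
      _ = Real.exp (X * (7/4)) := by rw [← Real.exp_mul]
      _ ≤ Real.exp (2 * X) := Real.exp_le_exp.2 (by linarith)
  have h3 : X ^ ((7/4) : ℝ) = k ^ (2 : ℕ) * k ^ ((3/2) : ℝ) * σ ^ ((7/4) : ℝ) := by
    rw [hX, Real.mul_rpow (by positivity) hσ.le, ← Real.rpow_natCast k 2, ← Real.rpow_mul hk.le,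
      ← Real.rpow_add hk]
    norm_num
  rw [Real.exp_neg, Real.rpow_neg hσ.le, Real.rpow_neg hk.le]
  rw [← mul_inv]
  rw [← div_eq_mul_inv, div_le_iff₀ (Real.exp_pos _)]
  rw [inv_mul_eq_div, le_div_iff₀ (by positivity)]
  rw [h3] at h1
  nlinarith [h1]

/-- the weights -/
noncomputable def dd (n : ℕ) : ℝ := kk n ^ (-(3/2) : ℝ)

lemma dd_pos (n : ℕ) : 0 < dd n := Real.rpow_pos_of_pos (kk_pos n) _

lemma dd_summable : Summable dd := by
  have h1 : Summable fun n : ℕ => (((n + 1 : ℕ) : ℝ) ^ (3/2 : ℝ))⁻¹ :=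
    (summable_nat_add_iff 1).2 (Real.summable_nat_rpow_inv.2 (by norm_num : (1:ℝ) < 3/2))
  refine Summable.of_nonneg_of_le (fun n => (dd_pos n).le) (fun n => ?_) h1
  unfold dd
  rw [Real.rpow_neg (kk_pos n).le]
  apply inv_anti₀ (by positivity)
  apply Real.rpow_le_rpow (by positivity) _ (by norm_num)
  have := kk_ge n
  push_cast
  linarith

/-- the constant `C₀² = Σ k_n^{-3/2}` -/
noncomputable def C0 : ℝ := √(∑' n, dd n)

lemma C0_nonneg : 0 ≤ C0 := Real.sqrt_nonneg _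

lemma sum_exp_le {σ : ℝ} (hσ : 0 < σ) (S : Finset ℕ) :
    ∑ n ∈ S, (kk n * Real.exp (-(lam n) * σ)) ^ 2 ≤ σ ^ (-(7/4) : ℝ) * ∑ n ∈ S, dd n := by
  rw [Finset.mul_sum]
  refine Finset.sum_le_sum fun n _ => ?_
  have h1 := key_scalar (kk_pos n) hσ
  have h2 : (kk n * Real.exp (-(lam n) * σ)) ^ 2 =
      kk n ^ 2 * Real.exp (-(2 * (kk n ^ 2 * σ))) := by
    rw [mul_pow, ← Real.exp_nat_mul]
    congr 2
    unfold lam; push_cast; ring
  rw [h2]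
  exact h1

lemma sum_F_le {F : ℝ → ℝ → ℝ} {B : ℝ} (h : Adm F B) {s σ : ℝ} (hs : 0 < s) (hσ : 0 < σ)
    (S : Finset ℕ) {f : ℝ} (hf0 : 0 ≤ f) (hf : ∫ x in (0:ℝ)..1, F s x ^ 2 ≤ f ^ 2) :
    ∑ n ∈ S, (kk n * Real.exp (-(lam n) * σ)) * |Fc F n s| ≤
      √(∑ n ∈ S, dd n) * (σ ^ (-(7/8) : ℝ) * f) := by
  have h1 := Real.sum_mul_le_sqrt_mul_sqrt S (fun n => kk n * Real.exp (-(lam n) * σ))
    (fun n => |Fc F n s|)
  refine h1.trans ?_
  have h2 : √(∑ n ∈ S, (kk n * Real.exp (-(lam n) * σ)) ^ 2) ≤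
      σ ^ (-(7/8) : ℝ) * √(∑ n ∈ S, dd n) := by
    have h3 : σ ^ (-(7/8) : ℝ) = √(σ ^ (-(7/4) : ℝ)) := by
      rw [Real.sqrt_eq_rpow, ← Real.rpow_mul hσ.le]
      norm_num
    rw [h3, ← Real.sqrt_mul (by positivity)]
    exact Real.sqrt_le_sqrt (sum_exp_le hσ S)
  have h4 : √(∑ n ∈ S, |Fc F n s| ^ 2) ≤ f := by
    rw [Real.sqrt_le_left hf0]
    simp_rw [sq_abs]
    exact (Fc_bessel h hs S).trans hf
  calc _ ≤ (σ ^ (-(7/8) : ℝ) * √(∑ n ∈ S, dd n)) * f :=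
        mul_le_mul h2 h4 (Real.sqrt_nonneg _) (by positivity)
    _ = _ := by ring

lemma ii_sing {t : ℝ} {f : ℝ → ℝ} (hf : Continuous f) :
    IntervalIntegrable (fun s => (t - s) ^ (-(7/8) : ℝ) * f s) volume 0 t := by
  have h1 : IntervalIntegrable (fun s : ℝ => (t - s) ^ (-(7/8) : ℝ)) volume 0 t := by
    have := (intervalIntegral.intervalIntegrable_rpow' (a := t) (b := 0)
      (by norm_num : (-1:ℝ) < -(7/8))).comp_sub_left t
    simpa using this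
  exact h1.mul_continuousOn hf.continuousOn

lemma ii_duh {F : ℝ → ℝ → ℝ} {B : ℝ} (h : Adm F B) (n : ℕ) {t : ℝ} (ht : 0 ≤ t) (a : ℝ) :
    IntervalIntegrable (fun s => Real.exp (-(lam n) * (a - s)) * Fc F n s) volume 0 t := by
  have h1 : IntervalIntegrable (Fc F n) volume 0 t :=
    ii_of_bdd ht ((Fc_cont h n).mono Ioc_subset_Ioi_self) (C := B)
      fun s hs => Fc_abs_le h hs.1 n
  exact h1.continuousOn_mul (by fun_prop)

/-- main bound of the Duhamel coefficients -/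
lemma sum_wn_le {F : ℝ → ℝ → ℝ} {B : ℝ} (h : Adm F B) {t : ℝ} (ht : 0 ≤ t) (S : Finset ℕ)
    {f : ℝ → ℝ} (hfc : Continuous f) (hf0 : ∀ s, 0 ≤ f s)
    (hf : ∀ s ∈ Ioo 0 t, ∫ x in (0:ℝ)..1, F s x ^ 2 ≤ f s ^ 2) :
    ∑ n ∈ S, |wn F n t| ≤ √(∑ n ∈ S, dd n) * ∫ s in (0:ℝ)..t, (t - s) ^ (-(7/8) : ℝ) * f s := by
  have h1 : ∀ n ∈ S, |wn F n t| ≤
      ∫ s in (0:ℝ)..t, (kk n * Real.exp (-(lam n) * (t - s))) * |Fc F n s| := by
    intro n _
    unfold wn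
    rw [abs_mul, abs_neg, abs_of_pos (kk_pos n)]
    have e : ∀ s, kk n * Real.exp (-(lam n) * (t - s)) * |Fc F n s| =
        kk n * |Real.exp (-(lam n) * (t - s)) * Fc F n s| := by
      intro s
      rw [abs_mul, abs_of_pos (Real.exp_pos _)]; ring
    simp_rw [e]
    rw [intervalIntegral.integral_const_mul]
    exact mul_le_mul_of_nonneg_left (intervalIntegral.abs_integral_le_integral_abs ht)
      (kk_pos n).le
  have hii : ∀ n ∈ S, IntervalIntegrable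
      (fun s => (kk n * Real.exp (-(lam n) * (t - s))) * |Fc F n s|) volume 0 t := by
    intro n _
    have h2 : IntervalIntegrable (Fc F n) volume 0 t :=
      ii_of_bdd ht ((Fc_cont h n).mono Ioc_subset_Ioi_self) (C := B)
        fun s hs => Fc_abs_le h hs.1 n
    exact h2.abs.continuousOn_mul (by fun_prop)
  calc ∑ n ∈ S, |wn F n t| ≤
      ∑ n ∈ S, ∫ s in (0:ℝ)..t, (kk n * Real.exp (-(lam n) * (t - s))) * |Fc F n s| :=
        Finset.sum_le_sum h1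
    _ = ∫ s in (0:ℝ)..t, ∑ n ∈ S, (kk n * Real.exp (-(lam n) * (t - s))) * |Fc F n s| :=
        (intervalIntegral.integral_finsetSum hii).symm
    _ ≤ ∫ s in (0:ℝ)..t, √(∑ n ∈ S, dd n) * ((t - s) ^ (-(7/8) : ℝ) * f s) := by
        refine intervalIntegral.integral_mono_on_of_le_Ioo ht ?_ ((ii_sing hfc).const_mul _) ?_
        · have h5 := IntervalIntegrable.sum S hii
          refine h5.congr (by intro s _; simp only [Finset.sum_apply])
        · intro s hs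
          exact sum_F_le h hs.1 (sub_pos.2 hs.2) S (hf0 s) (hf s hs)
    _ = _ := by rw [intervalIntegral.integral_const_mul]

lemma int_sing {t : ℝ} (ht : 0 ≤ t) :
    ∫ s in (0:ℝ)..t, (t - s) ^ (-(7/8) : ℝ) = 8 * t ^ (1/8 : ℝ) := by
  rw [intervalIntegral.integral_comp_sub_left (fun s => s ^ (-(7/8) : ℝ)) t]
  rw [sub_self, sub_zero, integral_rpow (Or.inl (by norm_num))]
  have : (-(7/8) + 1 : ℝ) = 1/8 := by norm_num
  rw [this, Real.zero_rpow (by norm_num), sub_zero]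
  ring

lemma sum_wn_le_const {F : ℝ → ℝ → ℝ} {B : ℝ} (h : Adm F B) {t : ℝ} (ht : 0 ≤ t) (S : Finset ℕ)
    {f : ℝ} (hf0 : 0 ≤ f) (hf : ∀ s ∈ Ioo 0 t, ∫ x in (0:ℝ)..1, F s x ^ 2 ≤ f ^ 2) :
    ∑ n ∈ S, |wn F n t| ≤ √(∑ n ∈ S, dd n) * (8 * t ^ (1/8 : ℝ) * f) := by
  have h1 := sum_wn_le h ht S (f := fun _ => f) continuous_const (fun _ => hf0) hf
  rw [intervalIntegral.integral_mul_const, int_sing ht] at h1
  exact h1

lemma sqrt_dd_le (S : Finset ℕ) : √(∑ n ∈ S, dd n) ≤ C0 := by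
  unfold C0
  apply Real.sqrt_le_sqrt
  exact dd_summable.sum_le_tsum S fun n _ => (dd_pos n).le

lemma wn_summable {F : ℝ → ℝ → ℝ} {B : ℝ} (h : Adm F B) {t : ℝ} (ht : 0 ≤ t) :
    Summable fun n => |wn F n t| := by
  refine summable_of_sum_le (c := C0 * (8 * t ^ (1/8 : ℝ) * B)) (fun n => abs_nonneg _) fun S => ?_
  refine (sum_wn_le_const h ht S h.nonneg fun s hs => int_sq_le (h.sec hs.1) (h.bdd s hs.1)).trans ?_
  exact mul_le_mul_of_nonneg_right (sqrt_dd_le S) (by have := h.nonneg; positivity)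

lemma wn_es_summable {F : ℝ → ℝ → ℝ} {B : ℝ} (h : Adm F B) {t : ℝ} (ht : 0 ≤ t) (x : ℝ) :
    Summable fun n => wn F n t * es n x := by
  refine Summable.of_norm_bounded ((wn_summable h ht).mul_right (√2)) fun n => ?_
  rw [norm_mul, Real.norm_eq_abs, Real.norm_eq_abs]
  exact mul_le_mul_of_nonneg_left (es_le n x) (abs_nonneg _)

/-- bound of the Duhamel term by a time-dependent bound of the source -/
lemma NN_le {F : ℝ → ℝ → ℝ} {B : ℝ} (h : Adm F B) {t : ℝ} (ht : 0 ≤ t) (x : ℝ)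
    {f : ℝ → ℝ} (hfc : Continuous f) (hf0 : ∀ s, 0 ≤ f s)
    (hf : ∀ s ∈ Ioo 0 t, ∫ x in (0:ℝ)..1, F s x ^ 2 ≤ f s ^ 2) :
    |NN F t x| ≤ √2 * C0 * ∫ s in (0:ℝ)..t, (t - s) ^ (-(7/8) : ℝ) * f s := by
  have hI : 0 ≤ ∫ s in (0:ℝ)..t, (t - s) ^ (-(7/8) : ℝ) * f s := by
    refine intervalIntegral.integral_nonneg ht fun s hs => ?_
    exact mul_nonneg (Real.rpow_nonneg (sub_nonneg.2 hs.2) _) (hf0 s)
  unfold NN
  have h1 : |∑' n, wn F n t * es n x| ≤ ∑' n, |wn F n t| * √2 := by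
    have := norm_tsum_le_tsum_norm (f := fun n => wn F n t * es n x)
      ((wn_es_summable h ht x).norm)
    rw [Real.norm_eq_abs] at this
    refine this.trans ?_
    refine Summable.tsum_le_tsum (fun n => ?_) (wn_es_summable h ht x).norm
      ((wn_summable h ht).mul_right _)
    rw [norm_mul, Real.norm_eq_abs, Real.norm_eq_abs]
    exact mul_le_mul_of_nonneg_left (es_le n x) (abs_nonneg _)
  refine h1.trans ?_
  rw [tsum_mul_right]
  have h2 : ∑' n, |wn F n t| ≤ C0 * ∫ s in (0:ℝ)..t, (t - s) ^ (-(7/8) : ℝ) * f s := by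
    refine Real.tsum_le_of_sum_le (fun n => abs_nonneg _) fun S => ?_
    refine (sum_wn_le h ht S hfc hf0 hf).trans ?_
    exact mul_le_mul_of_nonneg_right (sqrt_dd_le S) hI
  nlinarith [Real.sqrt_nonneg 2]

lemma NN_le_const {F : ℝ → ℝ → ℝ} {B : ℝ} (h : Adm F B) {t : ℝ} (ht : 0 ≤ t) (x : ℝ)
    {f : ℝ} (hf0 : 0 ≤ f)
    (hf : ∀ s ∈ Ioo 0 t, ∫ x in (0:ℝ)..1, F s x ^ 2 ≤ f ^ 2) :
    |NN F t x| ≤ √2 * C0 * (8 * t ^ (1/8 : ℝ) * f) := by
  have h1 := NN_le h ht x (f := fun _ => f) continuous_const (fun _ => hf0) hf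
  rw [intervalIntegral.integral_mul_const, int_sing ht] at h1
  exact h1

end Pool.Agent.Y308.BC
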