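import Pool.Agent.Y308.BC.Coef

set_option autoImplicit false

open MeasureTheory Set Real Filter Topology intervalIntegral
open scoped ENNReal NNReal

namespace Pool.Agent.Y308.BC

lemma wn_eq (F : ℝ → ℝ → ℝ) (n : ℕ) (t : ℝ) :
    wn F n t = -(kk n) * (Real.exp (-(lam n) * t) *
      ∫ s in (0:ℝ)..t, Real.exp (lam n * s) * Fc F n s) := by
  unfold wn
  congr 1
  rw [← intervalIntegral.integral_const_mul]
  congr 1
  funext s
  rw [← mul_assoc, ← Real.exp_add]
  congr 2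
  ring

lemma wn_zero (F : ℝ → ℝ → ℝ) (n : ℕ) : wn F n 0 = 0 := by unfold wn; simp

lemma wn_deriv {F : ℝ → ℝ → ℝ} {B : ℝ} (h : Adm F B) (n : ℕ) {t : ℝ} (ht : 0 < t) :
    HasDerivAt (wn F n) (-(lam n) * wn F n t - kk n * Fc F n t) t := by
  have hg : ContinuousOn (fun s => Real.exp (lam n * s) * Fc F n s) (Ioi 0) :=
    ContinuousOn.mul (by fun_prop) (Fc_cont h n)
  have hi : IntervalIntegrable (fun s => Real.exp (lam n * s) * Fc F n s) volume 0 t := by
    have h1 : IntervalIntegrable (Fc F n) volume 0 t :=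
      ii_of_bdd ht.le ((Fc_cont h n).mono Ioc_subset_Ioi_self) (C := B)
        fun s hs => Fc_abs_le h hs.1 n
    exact h1.continuousOn_mul (by fun_prop)
  have h1 : HasDerivAt (fun t => ∫ s in (0:ℝ)..t, Real.exp (lam n * s) * Fc F n s)
      (Real.exp (lam n * t) * Fc F n t) t :=
    intervalIntegral.integral_hasDerivAt_right hi
      (hg.stronglyMeasurableAtFilter isOpen_Ioi t ht) (hg.continuousAt (Ioi_mem_nhds ht))
  have h2 : HasDerivAt (fun t => Real.exp (-(lam n) * t)) (Real.exp (-(lam n) * t) * -(lam n)) t := by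
    have : HasDerivAt (fun t => -(lam n) * t) (-(lam n)) t := by
      simpa using (hasDerivAt_id t).const_mul (-(lam n))
    exact this.exp
  have h3 := (h2.mul h1).const_mul (-(kk n))
  have h4 : wn F n = fun t => -(kk n) * (Real.exp (-(lam n) * t) *
      ∫ s in (0:ℝ)..t, Real.exp (lam n * s) * Fc F n s) := by
    funext t; exact wn_eq F n t
  rw [h4]
  refine h3.congr_deriv ?_
  have h5 : Real.exp (-(lam n) * t) * Real.exp (lam n * t) = 1 := by
    rw [← Real.exp_add]; simp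
  linear_combination (-(kk n) * Fc F n t) * h5

lemma wn_cont {F : ℝ → ℝ → ℝ} {B : ℝ} (h : Adm F B) (n : ℕ) : ContinuousOn (wn F n) (Ici 0) := by
  intro t ht
  have hT : (0:ℝ) ≤ t + 1 := by have := mem_Ici.1 ht; linarith
  have hi : IntervalIntegrable (fun s => Real.exp (lam n * s) * Fc F n s) volume 0 (t + 1) := by
    have h1 : IntervalIntegrable (Fc F n) volume 0 (t + 1) :=
      ii_of_bdd hT ((Fc_cont h n).mono Ioc_subset_Ioi_self) (C := B)
        fun s hs => Fc_abs_le h hs.1 n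
    exact h1.continuousOn_mul (by fun_prop)
  have h1 := intervalIntegral.continuousOn_primitive_interval' hi left_mem_uIcc
  rw [uIcc_of_le hT] at h1
  have h2 : ContinuousWithinAt (wn F n) (Icc 0 (t + 1)) t := by
    have h4 : wn F n = fun t => -(kk n) * (Real.exp (-(lam n) * t) *
        ∫ s in (0:ℝ)..t, Real.exp (lam n * s) * Fc F n s) := by
      funext t; exact wn_eq F n t
    rw [h4]
    refine ContinuousWithinAt.mul (by fun_prop) (ContinuousWithinAt.mul (by fun_prop) ?_)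
    exact h1 t ⟨ht, by linarith⟩
  refine h2.mono_of_mem_nhdsWithin ?_
  rw [mem_nhdsWithin]
  exact ⟨Iio (t + 1), isOpen_Iio, by simp, fun x hx => ⟨hx.2, hx.1.le⟩⟩

/-- tail of the weights -/
noncomputable def tl (J : ℕ) : ℝ := √(∑' n, dd (n + J))

lemma tl_tendsto : Tendsto tl atTop (𝓝 0) := by
  unfold tl
  have h1 := tendsto_sum_nat_add dd
  have h2 := (Real.continuous_sqrt.tendsto 0).comp h1
  rw [Real.sqrt_zero] at h2
  exact h2

lemma NN_tail {F : ℝ → ℝ → ℝ} {B : ℝ} (h : Adm F B) {t : ℝ} (ht : 0 ≤ t) (x : ℝ) (J : ℕ) :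
    |NN F t x - ∑ n ∈ Finset.range J, wn F n t * es n x| ≤ √2 * (tl J * (8 * t ^ (1/8 : ℝ) * B)) := by
  have hs := wn_es_summable h ht x
  have h1 : NN F t x - ∑ n ∈ Finset.range J, wn F n t * es n x =
      ∑' n, wn F (n + J) t * es (n + J) x := by
    unfold NN
    rw [← hs.sum_add_tsum_nat_add J]; ring
  rw [h1]
  have hs1 : Summable fun n => |wn F (n + J) t| := (summable_nat_add_iff J).2 (wn_summable h ht)
  have hs2 : Summable fun n => wn F (n + J) t * es (n + J) x :=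
    (summable_nat_add_iff J (f := fun n => wn F n t * es n x)).2 hs
  have h2 : |∑' n, wn F (n + J) t * es (n + J) x| ≤ ∑' n, |wn F (n + J) t| * √2 := by
    have := norm_tsum_le_tsum_norm (f := fun n => wn F (n + J) t * es (n + J) x) hs2.norm
    rw [Real.norm_eq_abs] at this
    refine this.trans ?_
    refine Summable.tsum_le_tsum (fun n => ?_) hs2.norm (hs1.mul_right _)
    rw [norm_mul, Real.norm_eq_abs, Real.norm_eq_abs]
    exact mul_le_mul_of_nonneg_left (es_le _ x) (abs_nonneg _)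
  refine h2.trans ?_
  rw [tsum_mul_right, mul_comm]
  refine mul_le_mul_of_nonneg_left ?_ (Real.sqrt_nonneg 2)
  refine Real.tsum_le_of_sum_le (fun n => abs_nonneg _) fun S => ?_
  have h3 : ∑ n ∈ S, |wn F (n + J) t| = ∑ m ∈ S.map (addRightEmbedding J), |wn F m t| := by
    rw [Finset.sum_map]; rfl
  rw [h3]
  refine (sum_wn_le_const h ht _ h.nonneg fun s hs => int_sq_le (h.sec hs.1) (h.bdd s hs.1)).trans ?_
  refine mul_le_mul_of_nonneg_right ?_ (by have := h.nonneg; positivity)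
  unfold tl
  apply Real.sqrt_le_sqrt
  rw [Finset.sum_map]
  exact ((summable_nat_add_iff J).2 dd_summable).sum_le_tsum S fun n _ => (dd_pos _).le

lemma NN_unif {F : ℝ → ℝ → ℝ} {B : ℝ} (h : Adm F B) (T : ℝ) :
    TendstoUniformlyOn (fun (J : ℕ) (q : ℝ × ℝ) => ∑ n ∈ Finset.range J, wn F n q.1 * es n q.2)
      (fun q => NN F q.1 q.2) atTop (Icc 0 T ×ˢ univ) := by
  rw [Metric.tendstoUniformlyOn_iff]
  intro ε hε
  have h1 : Tendsto (fun J => √2 * (tl J * (8 * (max T 0) ^ (1/8 : ℝ) * B))) atTop (𝓝 0) := by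
    have := (tl_tendsto.mul_const (8 * (max T 0) ^ (1/8 : ℝ) * B)).const_mul (√2)
    simpa using this
  filter_upwards [h1.eventually (gt_mem_nhds hε)] with J hJ q hq
  rw [Real.dist_eq]
  refine (NN_tail h hq.1.1 q.2 J).trans_lt (lt_of_le_of_lt ?_ hJ)
  have h2 : q.1 ^ (1/8 : ℝ) ≤ (max T 0) ^ (1/8 : ℝ) :=
    Real.rpow_le_rpow hq.1.1 (hq.1.2.trans (le_max_left _ _)) (by norm_num)
  have h3 : 0 ≤ tl J := Real.sqrt_nonneg _
  have := h.nonneg
  gcongr

lemma NN_cont {F : ℝ → ℝ → ℝ} {B : ℝ} (h : Adm F B) :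
    ContinuousOn (fun q : ℝ × ℝ => NN F q.1 q.2) (Ici 0 ×ˢ univ) := by
  intro q hq
  have hq1 : (0:ℝ) ≤ q.1 := hq.1
  have h1 : ContinuousOn (fun q : ℝ × ℝ => NN F q.1 q.2) (Icc 0 (q.1 + 1) ×ˢ univ) := by
    refine (NN_unif h (q.1 + 1)).continuousOn (Eventually.of_forall fun J => ?_).frequently
    refine continuousOn_finsetSum _ fun n _ => ?_
    refine ContinuousOn.mul ?_ (by fun_prop)
    exact (wn_cont h n).comp continuousOn_fst fun p hp => hp.1.1
  refine (h1 q ⟨⟨hq1, by linarith⟩, mem_univ _⟩).mono_of_mem_nhdsWithin ?_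
  rw [mem_nhdsWithin]
  refine ⟨Iio (q.1 + 1) ×ˢ univ, isOpen_Iio.prod isOpen_univ, by simp, fun p hp => ?_⟩
  exact ⟨⟨hp.2.1, hp.1.1.le⟩, mem_univ _⟩

lemma NN_zero (F : ℝ → ℝ → ℝ) (x : ℝ) : NN F 0 x = 0 := by
  unfold NN; simp [wn_zero]

lemma NN_left (F : ℝ → ℝ → ℝ) (t : ℝ) : NN F t 0 = 0 := by
  unfold NN; simp [es_zero]

lemma NN_right (F : ℝ → ℝ → ℝ) (t : ℝ) : NN F t 1 = 0 := by
  unfold NN; simp [es_one]

lemma Adm.sub {F G : ℝ → ℝ → ℝ} {B B' : ℝ} (h : Adm F B) (h' : Adm G B') :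
    Adm (fun s z => F s z - G s z) (B + B') :=
  ⟨h.cont.sub h'.cont, fun s hs z hz => by
    have h1 := h.bdd s hs z hz
    have h2 := h'.bdd s hs z hz
    rw [abs_le] at h1 h2 ⊢
    constructor <;> linarith [h1.1, h1.2, h2.1, h2.2]⟩

lemma NN_sub {F G : ℝ → ℝ → ℝ} {B B' : ℝ} (h : Adm F B) (h' : Adm G B') {t : ℝ} (ht : 0 ≤ t)
    (x : ℝ) : NN (fun s z => F s z - G s z) t x = NN F t x - NN G t x := by
  unfold NN
  rw [← Summable.tsum_sub (wn_es_summable h ht x) (wn_es_summable h' ht x)]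
  congr 1
  funext n
  rw [← sub_mul]
  congr 1
  unfold wn
  rw [← mul_sub, ← intervalIntegral.integral_sub (ii_duh h n ht t) (ii_duh h' n ht t)]
  congr 1
  refine intervalIntegral.integral_congr_ae (Eventually.of_forall fun s hs => ?_)
  rw [uIoc_of_le ht] at hs
  rw [← mul_sub]
  congr 1
  unfold Fc
  exact cf_sub (ec_cont n) (h.memLp hs.1) (h'.memLp hs.1)

/-- congruence: `NN F t` only depends on `F` on `(0,t] × [0,1]` -/
lemma NN_congr {F G : ℝ → ℝ → ℝ} {t : ℝ} (ht : 0 ≤ t)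
    (hFG : ∀ s ∈ Ioc 0 t, ∀ z ∈ Icc (0:ℝ) 1, F s z = G s z) (x : ℝ) : NN F t x = NN G t x := by
  unfold NN
  congr 1
  funext n
  congr 1
  unfold wn
  congr 1
  refine intervalIntegral.integral_congr_ae (Eventually.of_forall fun s hs => ?_)
  rw [uIoc_of_le ht] at hs
  congr 1
  unfold Fc cf
  refine intervalIntegral.integral_congr fun z hz => ?_
  rw [uIcc_of_le zero_le_one] at hz
  rw [hFG s hs z hz]

end Pool.Agent.Y308.BC
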