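import Pool.Agent.Y308.BC.Slope

/-! # Weighted energy inequality -/

set_option autoImplicit false

open MeasureTheory Set Real Filter Topology intervalIntegral
open scoped ENNReal NNReal

namespace Pool.Agent.Y308.BC

variable {c : ℝ → ℝ} {F : ℝ → ℝ → ℝ} {B : ℝ}

lemma cont_param' {f : ℝ → ℝ → ℝ}
    (hc : ContinuousOn (fun q : ℝ × ℝ => f q.1 q.2) (Ioi 0 ×ˢ Icc 0 1)) :
    ContinuousOn (fun s => ∫ x in (0:ℝ)..1, f s x) (Ioi 0) := by
  intro s₀ hs₀
  have h0 : (0:ℝ) < s₀ := hs₀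
  have hsub : Icc (s₀ / 2) (s₀ + 1) ×ˢ Icc (0:ℝ) 1 ⊆ Ioi 0 ×ˢ Icc 0 1 :=
    prod_mono (fun s hs => by have := hs.1; simp only [mem_Ioi]; linarith) le_rfl
  obtain ⟨C, hC⟩ := (isCompact_Icc.prod isCompact_Icc).exists_bound_of_continuousOn (hc.mono hsub)
  have h1 : ContinuousOn (fun s => ∫ x in (0:ℝ)..1, f s x) (Icc (s₀ / 2) (s₀ + 1)) :=
    cont_param measurableSet_Icc (hc.mono hsub) (B := C) fun s hs z hz => hC (s, z) ⟨hs, hz⟩
  have h2 : ContinuousAt (fun s => ∫ x in (0:ℝ)..1, f s x) s₀ :=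
    h1.continuousAt (Icc_mem_nhds (by linarith) (by linarith))
  exact h2.continuousWithinAt

lemma RRsq_cont (hc : MemLp c 2 mu) (h : Adm F B) :
    ContinuousOn (fun s => ∫ x in (0:ℝ)..1, RR c F s x ^ 2) (Ioi 0) :=
  cont_param' (f := fun s x => RR c F s x ^ 2)
    (((RR_cont hc h).mono (prod_mono le_rfl (subset_univ _))).pow 2)

/-- bilinear expansion -/
lemma bil {ρ : ℝ → ℝ} (hρ : Continuous ρ) (a b : ℕ → ℝ) (J : ℕ) :
    ∫ x in (0:ℝ)..1, ρ x * ((∑ n ∈ Finset.range J, a n * es n x) *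
      (∑ n ∈ Finset.range J, b n * es n x)) =
      ∑ n ∈ Finset.range J, ∑ m ∈ Finset.range J, a n * b m *
        ∫ x in (0:ℝ)..1, ρ x * (es n x * es m x) := by
  have : ∀ x, ρ x * ((∑ n ∈ Finset.range J, a n * es n x) *
      (∑ n ∈ Finset.range J, b n * es n x)) = ∑ n ∈ Finset.range J, ∑ m ∈ Finset.range J,
      (a n * b m) * (ρ x * (es n x * es m x)) := by
    intro x; rw [Finset.sum_mul_sum, Finset.mul_sum]
    refine Finset.sum_congr rfl fun n _ => ?_
    rw [Finset.mul_sum]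
    refine Finset.sum_congr rfl fun m _ => by ring
  simp_rw [this]
  rw [intervalIntegral.integral_finsetSum]
  · refine Finset.sum_congr rfl fun n hn => ?_
    rw [intervalIntegral.integral_finsetSum]
    · simp_rw [intervalIntegral.integral_const_mul]
    · intro m _; apply Continuous.intervalIntegrable; fun_prop
  · intro n _
    apply Continuous.intervalIntegrable; fun_prop

lemma q_cont (c : ℝ → ℝ) (h : Adm F B) {ρ : ℝ → ℝ} (hρ : Continuous ρ) (J : ℕ) :
    ContinuousOn (fun s => ∫ x in (0:ℝ)..1, ρ x * rJ c F J s x ^ 2) (Ici 0) := by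
  have h1 : ∀ s, ∫ x in (0:ℝ)..1, ρ x * rJ c F J s x ^ 2 =
      ∑ n ∈ Finset.range J, ∑ m ∈ Finset.range J, rn c F n s * rn c F m s *
        ∫ x in (0:ℝ)..1, ρ x * (es n x * es m x) := by
    intro s
    rw [← bil hρ]
    unfold rJ; simp_rw [sq]
  simp_rw [h1]
  refine continuousOn_finsetSum _ fun n _ => continuousOn_finsetSum _ fun m _ => ?_
  exact ((rn_cont c h n).mul (rn_cont c h m)).mul_const _

lemma q_deriv (c : ℝ → ℝ) (h : Adm F B) {ρ : ℝ → ℝ} (hρ : Continuous ρ) (J : ℕ) {s : ℝ}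
    (hs : 0 < s) : HasDerivAt (fun s => ∫ x in (0:ℝ)..1, ρ x * rJ c F J s x ^ 2)
      (2 * ∫ x in (0:ℝ)..1, ρ x * (rJ c F J s x * gJ c F J s x)) s := by
  have h1 : ∀ s, ∫ x in (0:ℝ)..1, ρ x * rJ c F J s x ^ 2 =
      ∑ n ∈ Finset.range J, ∑ m ∈ Finset.range J, rn c F n s * rn c F m s *
        ∫ x in (0:ℝ)..1, ρ x * (es n x * es m x) := by
    intro s
    rw [← bil hρ]
    unfold rJ; simp_rw [sq]
  simp_rw [h1]
  have h2 := fun n (_ : n ∈ Finset.range J) => HasDerivAt.fun_sum (u := Finset.range J)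
    (A := fun m s => rn c F n s * rn c F m s * ∫ x in (0:ℝ)..1, ρ x * (es n x * es m x))
    (A' := fun m => ((-(lam n) * rn c F n s - kk n * Fc F n s) * rn c F m s +
      rn c F n s * (-(lam m) * rn c F m s - kk m * Fc F m s)) *
      ∫ x in (0:ℝ)..1, ρ x * (es n x * es m x)) (x := s)
    (fun m _ => ((rn_deriv c h n hs).mul (rn_deriv c h m hs)).mul_const _)
  refine (HasDerivAt.fun_sum h2).congr_deriv ?_
  have e1 : ∫ x in (0:ℝ)..1, ρ x * (rJ c F J s x * gJ c F J s x) =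
      ∑ n ∈ Finset.range J, ∑ m ∈ Finset.range J, rn c F n s *
        (-(lam m) * rn c F m s - kk m * Fc F m s) *
        ∫ x in (0:ℝ)..1, ρ x * (es n x * es m x) := by
    unfold rJ gJ
    rw [bil hρ]
  have e2 : ∫ x in (0:ℝ)..1, ρ x * (rJ c F J s x * gJ c F J s x) =
      ∑ n ∈ Finset.range J, ∑ m ∈ Finset.range J, (-(lam n) * rn c F n s - kk n * Fc F n s) *
        rn c F m s * ∫ x in (0:ℝ)..1, ρ x * (es n x * es m x) := by
    rw [← bil hρ]
    unfold rJ gJ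
    congr 1; funext x; ring
  rw [two_mul]
  nth_rewrite 1 [e2]
  rw [e1, ← Finset.sum_add_distrib]
  refine Finset.sum_congr rfl fun n _ => ?_
  rw [← Finset.sum_add_distrib]
  exact Finset.sum_congr rfl fun m _ => by ring

lemma by_parts (c : ℝ → ℝ) (F : ℝ → ℝ → ℝ) {ρ ρ' : ℝ → ℝ} (hρ : ∀ x, HasDerivAt ρ (ρ' x) x)
    (hρ' : Continuous ρ') (J : ℕ) (s : ℝ) :
    ∫ x in (0:ℝ)..1, ρ x * (rJ c F J s x * gJ c F J s x) =
      -∫ x in (0:ℝ)..1, (ρ' x * rJ c F J s x + ρ x * rJx c F J s x) *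
        (rJx c F J s x + fJ F J s x) := by
  have hρc : Continuous ρ := continuous_iff_continuousAt.2 fun x => (hρ x).continuousAt
  have h1 := intervalIntegral.integral_mul_deriv_eq_deriv_mul (a := 0) (b := 1)
    (u := fun x => ρ x * rJ c F J s x) (v := fun x => rJx c F J s x + fJ F J s x)
    (u' := fun x => ρ' x * rJ c F J s x + ρ x * rJx c F J s x) (v' := fun x => gJ c F J s x)
    (fun x _ => (hρ x).mul (rJ_dx c F J s x)) (fun x _ => flux_dx c F J s x)
    (by apply Continuous.intervalIntegrable; fun_prop)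
    (by apply Continuous.intervalIntegrable; fun_prop)
  simp only [rJ_left, rJ_right, mul_zero, zero_mul, sub_zero, zero_sub] at h1
  rw [← h1]
  congr 1; funext x; ring

lemma one_le_lam (n : ℕ) : 1 ≤ lam n := by
  have h1 := kk_ge n
  have h2 : (0:ℝ) ≤ n := Nat.cast_nonneg n
  unfold lam
  nlinarith

lemma rsum_le_DJ (c : ℝ → ℝ) (F : ℝ → ℝ → ℝ) (J : ℕ) (s : ℝ) :
    ∑ n ∈ Finset.range J, rn c F n s ^ 2 ≤ DJ c F J s := by
  unfold DJ
  refine Finset.sum_le_sum fun n _ => ?_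
  have := one_le_lam n
  nlinarith [sq_nonneg (rn c F n s)]

/-- error of the finite sections -/
noncomputable def eb (c : ℝ → ℝ) (F : ℝ → ℝ → ℝ) (L : ℝ) (J : ℕ) (s : ℝ) : ℝ :=
  2 * (∫ x in (0:ℝ)..1, (F s x - fJ F J s x) ^ 2) +
    2 * L ^ 2 * ∫ x in (0:ℝ)..1, (RR c F s x - rJ c F J s x) ^ 2

lemma eb_cont (hc : MemLp c 2 mu) (h : Adm F B) (L : ℝ) (J : ℕ) :
    ContinuousOn (eb c F L J) (Ioi 0) := by
  have h1 : ContinuousOn (fun s => 2 * ((∫ x in (0:ℝ)..1, F s x ^ 2) -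
      ∑ n ∈ Finset.range (J + 1), cf (ecf n) (F s) ^ 2) +
      2 * L ^ 2 * ((∫ x in (0:ℝ)..1, RR c F s x ^ 2) - ∑ n ∈ Finset.range J, rn c F n s ^ 2))
      (Ioi 0) := by
    refine ContinuousOn.add (ContinuousOn.mul continuousOn_const (ContinuousOn.sub (Fsq_cont h) ?_))
      (ContinuousOn.mul continuousOn_const (ContinuousOn.sub (RRsq_cont hc h) ?_))
    · exact continuousOn_finsetSum _ fun n _ => (cfecf_cont h n).pow 2
    · exact continuousOn_finsetSum _ fun n _ =>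
        ((rn_cont c h n).mono Ioi_subset_Ici_self).pow 2
  refine h1.congr fun s hs => ?_
  unfold eb
  rw [fJ_err h hs, rJ_err hc h hs]

lemma eb_nonneg (c : ℝ → ℝ) (F : ℝ → ℝ → ℝ) (L : ℝ) (J : ℕ) (s : ℝ) : 0 ≤ eb c F L J s := by
  unfold eb
  have h1 : 0 ≤ ∫ x in (0:ℝ)..1, (F s x - fJ F J s x) ^ 2 :=
    intervalIntegral.integral_nonneg zero_le_one fun x _ => sq_nonneg _
  have h2 : 0 ≤ ∫ x in (0:ℝ)..1, (RR c F s x - rJ c F J s x) ^ 2 :=
    intervalIntegral.integral_nonneg zero_le_one fun x _ => sq_nonneg _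
  positivity

lemma eb_le (hc : MemLp c 2 mu) (h : Adm F B) (L : ℝ) (J : ℕ) {τ s : ℝ} (hs : s ∈ Ioc 0 τ) :
    eb c F L J s ≤ 2 * B ^ 2 + 2 * L ^ 2 * ((∫ x in (0:ℝ)..1, c x ^ 2) + B ^ 2 * τ) := by
  unfold eb
  have h1 := fJ_err_le h hs.1 J
  have h2 : ∫ x in (0:ℝ)..1, (RR c F s x - rJ c F J s x) ^ 2 ≤
      (∫ x in (0:ℝ)..1, c x ^ 2) + B ^ 2 * τ := by
    rw [rJ_err hc h hs.1]
    have h3 := RR_sq_le hc h hs.1 (f := B ^ 2)
      (fun s hs => int_sq_le (h.sec hs.1) (h.bdd s hs.1))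
    have h4 : 0 ≤ ∑ n ∈ Finset.range J, rn c F n s ^ 2 := Finset.sum_nonneg fun n _ => sq_nonneg _
    nlinarith [hs.2, sq_nonneg B]
  have h5 : 0 ≤ L ^ 2 := sq_nonneg L
  nlinarith

lemma eb_tendsto (hc : MemLp c 2 mu) (h : Adm F B) (L : ℝ) {s : ℝ} (hs : 0 < s) :
    Tendsto (fun J => eb c F L J s) atTop (𝓝 0) := by
  unfold eb
  have := ((fJ_tendsto h hs).const_mul 2).add ((rJ_tendsto hc h hs).const_mul (2 * L ^ 2))
  simpa using this

lemma ii_eb (hc : MemLp c 2 mu) (h : Adm F B) (L : ℝ) (J : ℕ) {τ : ℝ} (hτ : 0 ≤ τ) :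
    IntervalIntegrable (eb c F L J) volume 0 τ :=
  ii_of_bdd hτ ((eb_cont hc h L J).mono Ioc_subset_Ioi_self) fun s hs => by
    rw [abs_of_nonneg (eb_nonneg _ _ _ _ _)]
    exact eb_le hc h L J hs

lemma int_eb_tendsto (hc : MemLp c 2 mu) (h : Adm F B) (L : ℝ) {τ : ℝ} (hτ : 0 ≤ τ) :
    Tendsto (fun J => ∫ s in (0:ℝ)..τ, eb c F L J s) atTop (𝓝 0) := by
  have h1 := intervalIntegral.tendsto_integral_filter_of_dominated_convergence (μ := volume)
    (a := 0) (b := τ) (l := atTop) (F := fun J s => eb c F L J s) (f := fun _ => (0:ℝ))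
    (fun _ => 2 * B ^ 2 + 2 * L ^ 2 * ((∫ x in (0:ℝ)..1, c x ^ 2) + B ^ 2 * τ))
    ?_ ?_ intervalIntegrable_const ?_
  · simpa using h1
  · refine Eventually.of_forall fun J => ?_
    rw [uIoc_of_le hτ]
    exact ((eb_cont hc h L J).mono Ioc_subset_Ioi_self).aestronglyMeasurable measurableSet_Ioc
  · refine Eventually.of_forall fun J => Eventually.of_forall fun s hs => ?_
    rw [uIoc_of_le hτ] at hs
    rw [Real.norm_eq_abs, abs_of_nonneg (eb_nonneg _ _ _ _ _)]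
    exact eb_le hc h L J hs
  · refine Eventually.of_forall fun s hs => ?_
    rw [uIoc_of_le hτ] at hs
    exact eb_tendsto hc h L hs.1

/-- the nonlinear flux of the section against the section of the flux -/
lemma flux_err (hc : MemLp c 2 mu) (hF : Adm F B) {G : ℝ → ℝ} {L : ℝ}
    (hL : ∀ a b, |G a - G b| ≤ L * |a - b|) {hh : ℝ → ℝ} (hhc : ContinuousOn hh (Icc 0 1)) {s : ℝ}
    (hs : 0 < s) (hFG : ∀ z ∈ Icc (0:ℝ) 1, F s z = G (hh z + RR c F s z)) (J : ℕ) :
    ∫ x in (0:ℝ)..1, (fJ F J s x - G (hh x + rJ c F J s x)) ^ 2 ≤ eb c F L J s := by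
  have hGc : Continuous G := by
    refine LipschitzWith.continuous (K := (max L 0).toNNReal) (LipschitzWith.of_dist_le_mul ?_)
    intro a b
    rw [Real.dist_eq, Real.dist_eq, Real.coe_toNNReal _ (le_max_right _ _)]
    exact (hL a b).trans (mul_le_mul_of_nonneg_right (le_max_left _ _) (abs_nonneg _))
  have hR := RR_sec hc hF hs
  have c1 : ContinuousOn (fun x => fJ F J s x - G (hh x + rJ c F J s x)) (Icc 0 1) :=
    ContinuousOn.sub (by fun_prop)
      (hGc.comp_continuousOn (hhc.add (rJ_sec c F J s).continuousOn))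
  have c2 : ContinuousOn (fun x => F s x - fJ F J s x) (Icc 0 1) :=
    (hF.sec hs).sub (by fun_prop)
  have c3 : Continuous (fun x => RR c F s x - rJ c F J s x) := hR.sub (by fun_prop)
  unfold eb
  have i1 := ii_sq (memLp_cont c1)
  have i2 := (ii_sq (memLp_cont c2)).const_mul 2
  have i3 := (ii_sq (memLp_cont c3.continuousOn)).const_mul (2 * L ^ 2)
  rw [← intervalIntegral.integral_const_mul, ← intervalIntegral.integral_const_mul,
    ← intervalIntegral.integral_add i2 i3]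
  refine intervalIntegral.integral_mono_on zero_le_one i1 (i2.add i3) fun x hx => ?_
  have h1 := hFG x hx
  have h2 := hL (hh x + RR c F s x) (hh x + rJ c F J s x)
  rw [← h1] at h2
  have e : (hh x + RR c F s x) - (hh x + rJ c F J s x) = RR c F s x - rJ c F J s x := by ring
  rw [e] at h2
  have h3 : (F s x - G (hh x + rJ c F J s x)) ^ 2 ≤ L ^ 2 * (RR c F s x - rJ c F J s x) ^ 2 := by
    rw [← sq_abs, ← sq_abs (RR c F s x - rJ c F J s x), ← mul_pow]
    exact pow_le_pow_left₀ (abs_nonneg _) h2 2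
  nlinarith [sq_nonneg ((F s x - fJ F J s x) + (F s x - G (hh x + rJ c F J s x)))]

lemma amgm {ν : Measure ℝ} {f g : ℝ → ℝ} (hf : MemLp f 2 ν) (hg : MemLp g 2 ν) {ε : ℝ}
    (hε : 0 < ε) : -(2 * ∫ x, f x * g x ∂ν) ≤ ε * (∫ x, f x ^ 2 ∂ν) + ε⁻¹ * ∫ x, g x ^ 2 ∂ν := by
  have i1 := (sq_int hf).const_mul ε
  have i2 := (sq_int hg).const_mul ε⁻¹
  have i3 := (mul_int hf hg).const_mul (-2)
  have h1 : -(2 * ∫ x, f x * g x ∂ν) = ∫ x, (-2) * (f x * g x) ∂ν := by
    rw [MeasureTheory.integral_const_mul]; ring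
  rw [h1, ← MeasureTheory.integral_const_mul, ← MeasureTheory.integral_const_mul,
    ← integral_add i1 i2]
  refine integral_mono i3 (i1.add i2) fun x => ?_
  simp only
  have h2 : 0 ≤ ε⁻¹ * (ε * f x + g x) ^ 2 := by positivity
  have h3 : ε⁻¹ * (ε * f x + g x) ^ 2 = ε * f x ^ 2 + 2 * (f x * g x) + ε⁻¹ * g x ^ 2 := by
    field_simp
    ring
  linarith

/-- **Weighted energy inequality.** -/
theorem energy_ineq (hc : MemLp c 2 mu) (hF : Adm F B) {τ : ℝ} (hτ : 0 < τ) {G : ℝ → ℝ} {L : ℝ}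
    (hL : ∀ a b, |G a - G b| ≤ L * |a - b|) {h : ℝ → ℝ → ℝ}
    (hh : ∀ s ∈ Ioc 0 τ, ContinuousOn (h s) (Icc 0 1))
    (hFG : ∀ s ∈ Ioc 0 τ, ∀ z ∈ Icc (0:ℝ) 1, F s z = G (h s z + RR c F s z))
    {ρ ρ' : ℝ → ℝ} (hρ : ∀ x, HasDerivAt ρ (ρ' x) x) (hρ' : Continuous ρ')
    {θ θ' : ℝ → ℝ} (hθ : ∀ t, HasDerivAt θ (θ' t) t) {Θ : ℝ}
    (hθ0 : ∀ s ∈ Icc 0 τ, 0 ≤ θ s) (hθm : ∀ s ∈ Icc 0 τ, θ s ≤ Θ) {η : ℝ}
    (hyp : ∀ s ∈ Ioo 0 τ, ∀ (J : ℕ) (a : ℕ → ℝ) (q q' : ℝ → ℝ),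
      (∀ x, q x = ∑ n ∈ Finset.range J, a n * es n x) →
      (∀ x, q' x = ∑ n ∈ Finset.range J, a n * (kk n * ec n x)) →
      θ' s * (∫ x in (0:ℝ)..1, ρ x * q x ^ 2) -
        2 * θ s * (∫ x in (0:ℝ)..1, (ρ' x * q x + ρ x * q' x) * (q' x + G (h s x + q x))) ≤ η) :
    θ τ * (∫ x in (0:ℝ)..1, ρ x * RR c F τ x ^ 2) ≤
      θ 0 * (∫ x in (0:ℝ)..1, ρ x * c x ^ 2) + η * τ := by
  have hρc : Continuous ρ := continuous_iff_continuousAt.2 fun x => (hρ x).continuousAt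
  obtain ⟨R0, hR0⟩ := (isCompact_Icc (a := (0:ℝ)) (b := 1)).exists_bound_of_continuousOn
    hρc.continuousOn
  obtain ⟨R1, hR1⟩ := (isCompact_Icc (a := (0:ℝ)) (b := 1)).exists_bound_of_continuousOn
    hρ'.continuousOn
  set Cρ := 2 * R1 ^ 2 + 2 * R0 ^ 2 with hCρ
  have hCρ0 : 0 ≤ Cρ := by positivity
  have hΘ : 0 ≤ Θ := (hθ0 0 ⟨le_rfl, hτ.le⟩).trans (hθm 0 ⟨le_rfl, hτ.le⟩)
  have hGc : Continuous G := by
    refine LipschitzWith.continuous (K := (max L 0).toNNReal) (LipschitzWith.of_dist_le_mul ?_)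
    intro a b
    rw [Real.dist_eq, Real.dist_eq, Real.coe_toNNReal _ (le_max_right _ _)]
    exact (hL a b).trans (mul_le_mul_of_nonneg_right (le_max_left _ _) (abs_nonneg _))
  set K := (∫ x in (0:ℝ)..1, c x ^ 2) + B ^ 2 * τ with hK
  have hFB : ∀ s ∈ Ioo 0 τ, ∫ x in (0:ℝ)..1, F s x ^ 2 ≤ B ^ 2 :=
    fun s hs => int_sq_le (hF.sec hs.1) (hF.bdd s hs.1)
  -- the main estimate for sections
  have key : ∀ ε : ℝ, 0 < ε → ∀ J : ℕ,
      θ τ * (∫ x in (0:ℝ)..1, ρ x * rJ c F J τ x ^ 2) ≤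
      θ 0 * (∫ x in (0:ℝ)..1, ρ x * rJ c F J 0 x ^ 2) + η * τ +
        Θ * (ε * Cρ * K + ε⁻¹ * ∫ s in (0:ℝ)..τ, eb c F L J s) := by
    intro ε hε J
    have hDc : ContinuousOn (DJ c F J) (Ici 0) := lamrn_cont c hF (Finset.range J)
    have hDi := ii_Ici hDc hτ.le
    have hei := ii_eb hc hF L J hτ.le
    have hZ := le_of_deriv_nonpos (Z := fun s =>
        θ s * (∫ x in (0:ℝ)..1, ρ x * rJ c F J s x ^ 2) - η * s -
        Θ * (ε * Cρ * (∫ u in (0:ℝ)..s, DJ c F J u) + ε⁻¹ * ∫ u in (0:ℝ)..s, eb c F L J u))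
      (Z' := fun s =>
        (θ' s * (∫ x in (0:ℝ)..1, ρ x * rJ c F J s x ^ 2) +
          θ s * (2 * ∫ x in (0:ℝ)..1, ρ x * (rJ c F J s x * gJ c F J s x))) - η -
        Θ * (ε * Cρ * DJ c F J s + ε⁻¹ * eb c F L J s)) hτ.le ?_ ?_ ?_
    · simp only [intervalIntegral.integral_same, mul_zero, sub_zero, add_zero] at hZ
      have h1 := DJ_le hc hF hτ.le J hFB
      have h2 : ε * Cρ * (∫ u in (0:ℝ)..τ, DJ c F J u) ≤ ε * Cρ * K :=
        mul_le_mul_of_nonneg_left h1 (by positivity)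
      nlinarith [mul_le_mul_of_nonneg_left h2 hΘ]
    · refine ContinuousOn.sub (ContinuousOn.sub (ContinuousOn.mul ?_ ?_) (by fun_prop)) ?_
      · exact fun s _ => (hθ s).continuousAt.continuousWithinAt
      · exact (q_cont c hF hρc J).mono Icc_subset_Ici_self
      · exact ContinuousOn.mul continuousOn_const (ContinuousOn.add
          (ContinuousOn.mul continuousOn_const (prim_cont hτ.le hDi))
          (ContinuousOn.mul continuousOn_const (prim_cont hτ.le hei)))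
    · intro s hs
      have h1 := (hθ s).mul (q_deriv c hF hρc J hs.1)
      have h2 : HasDerivAt (fun s => η * s) η s := by simpa using (hasDerivAt_id s).const_mul η
      have h3 := prim_deriv (hDc.mono Ioi_subset_Ici_self) (ii_sub hDi hs.1.le hs.2.le) hs.1
      have h4 := prim_deriv (eb_cont hc hF L J) (ii_sub hei hs.1.le hs.2.le) hs.1
      exact (h1.sub h2).sub (((h3.const_mul (ε * Cρ)).add (h4.const_mul ε⁻¹)).const_mul Θ)
    · intro s hs
      have hs' : s ∈ Ioc 0 τ := ⟨hs.1, hs.2.le⟩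
      rw [by_parts c F hρ hρ' J s]
      have h1 := hyp s hs J (fun n => rn c F n s) (rJ c F J s) (rJx c F J s)
        (fun x => rfl) (fun x => rfl)
      have hA : Continuous (fun x => ρ' x * rJ c F J s x + ρ x * rJx c F J s x) := by fun_prop
      have hGh : ContinuousOn (fun x => G (h s x + rJ c F J s x)) (Icc 0 1) :=
        hGc.comp_continuousOn ((hh s hs').add (rJ_sec c F J s).continuousOn)
      have hE : ContinuousOn (fun x => fJ F J s x - G (h s x + rJ c F J s x)) (Icc 0 1) :=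
        ContinuousOn.sub (by fun_prop) hGh
      have h2 : ∫ x in (0:ℝ)..1, (ρ' x * rJ c F J s x + ρ x * rJx c F J s x) *
          (rJx c F J s x + fJ F J s x) =
          (∫ x in (0:ℝ)..1, (ρ' x * rJ c F J s x + ρ x * rJx c F J s x) *
            (rJx c F J s x + G (h s x + rJ c F J s x))) +
          ∫ x in (0:ℝ)..1, (ρ' x * rJ c F J s x + ρ x * rJx c F J s x) *
            (fJ F J s x - G (h s x + rJ c F J s x)) := by
        rw [← intervalIntegral.integral_add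
          (ii_of_mem (memLp_cont hA.continuousOn) (memLp_cont (by
            exact ContinuousOn.add (by fun_prop) hGh)))
          (ii_of_mem (memLp_cont hA.continuousOn) (memLp_cont hE))]
        congr 1; funext x; ring
      have h3 := amgm (memLp_cont hA.continuousOn) (memLp_cont hE) hε
      simp_rw [← ii_mu] at h3
      have h4 : ∫ x in (0:ℝ)..1, (ρ' x * rJ c F J s x + ρ x * rJx c F J s x) ^ 2 ≤
          Cρ * DJ c F J s := by
        have i1 := (ii_sq (memLp_cont (rJ_sec c F J s).continuousOn)).const_mul (2 * R1 ^ 2)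
        have i2 := (ii_sq (memLp_cont (rJx_sec c F J s).continuousOn)).const_mul (2 * R0 ^ 2)
        calc _ ≤ ∫ x in (0:ℝ)..1, (2 * R1 ^ 2 * rJ c F J s x ^ 2 +
              2 * R0 ^ 2 * rJx c F J s x ^ 2) := by
              refine intervalIntegral.integral_mono_on zero_le_one
                (ii_sq (memLp_cont hA.continuousOn)) (i1.add i2) fun x hx => ?_
              have e1 : (ρ' x) ^ 2 ≤ R1 ^ 2 := by
                have := hR1 x hx
                rw [Real.norm_eq_abs] at this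
                rw [← sq_abs]; exact pow_le_pow_left₀ (abs_nonneg _) this 2
              have e2 : (ρ x) ^ 2 ≤ R0 ^ 2 := by
                have := hR0 x hx
                rw [Real.norm_eq_abs] at this
                rw [← sq_abs]; exact pow_le_pow_left₀ (abs_nonneg _) this 2
              nlinarith [sq_nonneg (ρ' x * rJ c F J s x - ρ x * rJx c F J s x),
                sq_nonneg (rJ c F J s x), sq_nonneg (rJx c F J s x)]
          _ = 2 * R1 ^ 2 * (∑ n ∈ Finset.range J, rn c F n s ^ 2) + 2 * R0 ^ 2 * DJ c F J s := by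
              rw [intervalIntegral.integral_add i1 i2, intervalIntegral.integral_const_mul,
                intervalIntegral.integral_const_mul, int_rJ_sq, int_rJx_sq]
          _ ≤ Cρ * DJ c F J s := by
              have := rsum_le_DJ c F J s
              have e3 : 0 ≤ R1 ^ 2 := sq_nonneg _
              rw [hCρ]; nlinarith
      have h5 := flux_err hc hF hL (hh s hs') hs.1 (hFG s hs') J
      have h6 : 0 ≤ θ s := hθ0 s ⟨hs.1.le, hs.2.le⟩
      have h7 : θ s ≤ Θ := hθm s ⟨hs.1.le, hs.2.le⟩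
      have h8 : 0 ≤ DJ c F J s := by
        unfold DJ
        exact Finset.sum_nonneg fun n _ => by have := lam_pos n; positivity
      have h9 := eb_nonneg c F L J s
      have hεi : 0 < ε⁻¹ := inv_pos.2 hε
      rw [h2]
      set I1 := ∫ x in (0:ℝ)..1, (ρ' x * rJ c F J s x + ρ x * rJx c F J s x) *
            (rJx c F J s x + G (h s x + rJ c F J s x))
      set I2 := ∫ x in (0:ℝ)..1, (ρ' x * rJ c F J s x + ρ x * rJx c F J s x) *
            (fJ F J s x - G (h s x + rJ c F J s x))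
      have h10 : -(2 * I2) ≤ ε * Cρ * DJ c F J s + ε⁻¹ * eb c F L J s := by
        calc _ ≤ _ := h3
          _ ≤ ε * (Cρ * DJ c F J s) + ε⁻¹ * eb c F L J s :=
              add_le_add (mul_le_mul_of_nonneg_left h4 hε.le)
                (mul_le_mul_of_nonneg_left h5 hεi.le)
          _ = _ := by ring
      have h11 : 0 ≤ ε * Cρ * DJ c F J s + ε⁻¹ * eb c F L J s := by positivity
      have h12 : θ s * -(2 * I2) ≤ Θ * (ε * Cρ * DJ c F J s + ε⁻¹ * eb c F L J s) :=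
        (mul_le_mul_of_nonneg_left h10 h6).trans (mul_le_mul_of_nonneg_right h7 h11)
      nlinarith [h12, h1]
  -- limit J → ∞
  have hρb : ∀ᵐ x ∂mu, |ρ x| ≤ R0 := by
    unfold mu
    exact ae_restrict_of_forall_mem measurableSet_Ioo
      fun x hx => hR0 x (Ioo_subset_Icc_self hx)
  have hlim : ∀ ε : ℝ, 0 < ε → θ τ * (∫ x in (0:ℝ)..1, ρ x * RR c F τ x ^ 2) ≤
      θ 0 * (∫ x in (0:ℝ)..1, ρ x * c x ^ 2) + η * τ + Θ * (ε * Cρ * K) := by
    intro ε hε
    have t1 : Tendsto (fun J => ∫ x in (0:ℝ)..1, ρ x * rJ c F J τ x ^ 2) atTop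
        (𝓝 (∫ x in (0:ℝ)..1, ρ x * RR c F τ x ^ 2)) := by
      simp_rw [ii_mu]
      refine tendsto_wsq (fun J => memLp_cont (rJ_sec c F J τ).continuousOn) (RR_mem hc hF hτ)
        hρc.aestronglyMeasurable hρb ?_
      simp_rw [← ii_mu]
      refine (rJ_tendsto hc hF hτ).congr fun J => ?_
      congr 1; funext x; ring
    have t0 : Tendsto (fun J => ∫ x in (0:ℝ)..1, ρ x * rJ c F J 0 x ^ 2) atTop
        (𝓝 (∫ x in (0:ℝ)..1, ρ x * c x ^ 2)) := by
      simp_rw [ii_mu]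
      refine tendsto_wsq (fun J => memLp_cont (rJ_sec c F J 0).continuousOn) hc
        hρc.aestronglyMeasurable hρb ?_
      simp_rw [← ii_mu]
      refine (tendsto_es hc).congr fun J => ?_
      simp_rw [rJ_zero]
      congr 1; funext x; ring
    have t2 := int_eb_tendsto hc hF L hτ.le
    have t3 := ((t0.const_mul (θ 0)).add_const (η * τ)).add
      (((t2.const_mul ε⁻¹).const_add (ε * Cρ * K)).const_mul Θ)
    rw [mul_zero, add_zero] at t3
    exact le_of_tendsto_of_tendsto' (t1.const_mul (θ τ)) t3 (key ε hε)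
  by_contra hcon
  push Not at hcon
  set X := Θ * (Cρ * K) with hX
  have hd : 0 < θ τ * (∫ x in (0:ℝ)..1, ρ x * RR c F τ x ^ 2) -
      (θ 0 * (∫ x in (0:ℝ)..1, ρ x * c x ^ 2) + η * τ) := by linarith
  set δ := θ τ * (∫ x in (0:ℝ)..1, ρ x * RR c F τ x ^ 2) -
      (θ 0 * (∫ x in (0:ℝ)..1, ρ x * c x ^ 2) + η * τ) with hδ
  have h1 := hlim (δ / (|X| + 1)) (by positivity)
  have h2 : Θ * (δ / (|X| + 1) * Cρ * K) = δ * (X / (|X| + 1)) := by
    rw [hX]; field_simp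
  have h3 : X / (|X| + 1) < 1 := by
    rw [div_lt_one (by positivity)]
    linarith [le_abs_self X]
  rw [h2] at h1
  nlinarith
end Pool.Agent.Y308.BC
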