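import Pool.Agent.Y308.BC.Recur

/-! # Reflection and regularity of the controls -/

set_option autoImplicit false

open MeasureTheory Set Real Filter Topology intervalIntegral
open scoped ENNReal NNReal Interval ContDiff

namespace Pool.Agent.Y308.BC

lemma mp_refl : MeasurePreserving (fun x : ℝ => 1 - x) mu mu := by
  have h := (Measure.measurePreserving_sub_left (volume : Measure ℝ) 1).restrict_preimage
    (measurableSet_Ioo (a := (0:ℝ)) (b := 1))
  rw [preimage_const_sub_Ioo, sub_self, sub_zero] at h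
  exact h

lemma me_refl : MeasurableEmbedding (fun x : ℝ => 1 - x) :=
  (MeasurableEquiv.subLeft (1:ℝ)).measurableEmbedding

lemma mp_refl2 (a b : ℝ) :
    MeasurePreserving (fun q : ℝ × ℝ => (q.1, 1 - q.2)) (nu a b) (nu a b) :=
  (MeasurePreserving.id _).prod mp_refl

lemma me_refl2 : MeasurableEmbedding (fun q : ℝ × ℝ => (q.1, 1 - q.2)) :=
  ((MeasurableEquiv.refl ℝ).prodCongr (MeasurableEquiv.subLeft (1:ℝ))).measurableEmbedding

/-- a bounded measurable representative -/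
lemma exists_rep {f : ℝ → ℝ} (hf : MemLp f ⊤ mu) :
    ∃ (g : ℝ → ℝ) (M : ℝ), 0 ≤ M ∧ Measurable g ∧ (∀ x, |g x| ≤ M) ∧ g =ᵐ[mu] f := by
  classical
  set M : ℝ := (eLpNormEssSup f mu).toReal with hM
  have hfin : eLpNormEssSup f mu ≠ ⊤ := by
    have := hf.2.ne
    rwa [eLpNorm_exponent_top] at this
  have hb : ∀ᵐ x ∂mu, |f x| ≤ M := by
    filter_upwards [ae_le_eLpNormEssSup (f := f) (μ := mu)] with x hx
    rw [← Real.norm_eq_abs, hM, ← toReal_enorm]
    exact ENNReal.toReal_mono hfin hx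
  set g0 : ℝ → ℝ := hf.1.mk f with hg0
  have hg0m : Measurable g0 := hf.1.stronglyMeasurable_mk.measurable
  have hg0e : f =ᵐ[mu] g0 := hf.1.ae_eq_mk
  refine ⟨fun x => if |g0 x| ≤ M then g0 x else 0, M, ENNReal.toReal_nonneg, ?_, ?_, ?_⟩
  · exact Measurable.ite (measurableSet_le hg0m.abs measurable_const) hg0m measurable_const
  · intro x
    show |if |g0 x| ≤ M then g0 x else 0| ≤ M
    split_ifs with h
    · exact h
    · rw [abs_zero]; exact ENNReal.toReal_nonneg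
  · filter_upwards [hb, hg0e] with x h1 h2
    show (if |g0 x| ≤ M then g0 x else 0) = f x
    rw [← h2, if_pos h1]

lemma lipC {v : ℝ → ℝ} {Λ a b : ℝ}
    (h : ∀ s ∈ Icc a b, ∀ t ∈ Icc a b, |v s - v t| ≤ Λ * |s - t|) : ContinuousOn v (Icc a b) := by
  have h1 : LipschitzOnWith (Real.toNNReal Λ) v (Icc a b) := by
    refine LipschitzOnWith.of_dist_le_mul fun s hs t ht => ?_
    rw [Real.dist_eq, Real.dist_eq]
    refine (h s hs t ht).trans ?_
    exact mul_le_mul_of_nonneg_right (Real.le_coe_toNNReal Λ) (abs_nonneg _)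
  exact h1.continuousOn

lemma lip_bdd {v : ℝ → ℝ} {Λ T : ℝ} (hT : 0 < T)
    (h : ∀ s ∈ Icc 0 T, ∀ t ∈ Icc 0 T, |v s - v t| ≤ Λ * |s - t|) :
    MemLp v ⊤ (volume.restrict (Ioo 0 T)) := by
  obtain ⟨C, hC⟩ := isCompact_Icc.exists_bound_of_continuousOn (lipC h)
  refine memLp_top_of_bound ?_ C ?_
  · exact ((lipC h).mono Ioo_subset_Icc_self).aestronglyMeasurable measurableSet_Ioo
  · filter_upwards [ae_restrict_mem measurableSet_Ioo] with t ht
    exact hC t (Ioo_subset_Icc_self ht)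

lemma gagliardo {v : ℝ → ℝ} {Λ T : ℝ} (hT : 0 < T)
    (h : ∀ s ∈ Icc 0 T, ∀ t ∈ Icc 0 T, |v s - v t| ≤ Λ * |s - t|) :
    IntegrableOn (fun q : ℝ × ℝ => (v q.1 - v q.2) ^ 2 / |q.1 - q.2| ^ (3/2 : ℝ))
      (Ioo 0 T ×ˢ Ioo 0 T) := by
  have hS : MeasurableSet (Ioo 0 T ×ˢ Ioo 0 T : Set (ℝ × ℝ)) :=
    measurableSet_Ioo.prod measurableSet_Ioo
  have hfin : IsFiniteMeasure ((volume : Measure (ℝ × ℝ)).restrict (Ioo 0 T ×ˢ Ioo 0 T)) := by
    constructor
    rw [Measure.restrict_apply_univ, Measure.volume_eq_prod, Measure.prod_prod]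
    exact ENNReal.mul_lt_top measure_Ioo_lt_top measure_Ioo_lt_top
  refine Integrable.of_bound ?_ (Λ ^ 2 * T ^ (1/2 : ℝ)) ?_
  · have hvc : ContinuousOn v (Ioo 0 T) := (lipC h).mono Ioo_subset_Icc_self
    have h1 : ContinuousOn (fun q : ℝ × ℝ => (v q.1 - v q.2) ^ 2) (Ioo 0 T ×ˢ Ioo 0 T) :=
      ((hvc.comp continuousOn_fst fun q hq => hq.1).sub
        (hvc.comp continuousOn_snd fun q hq => hq.2)).pow 2
    have h2 : Measurable fun q : ℝ × ℝ => |q.1 - q.2| ^ (3/2 : ℝ) := by fun_prop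
    exact ((h1.aestronglyMeasurable hS).aemeasurable.div h2.aemeasurable).aestronglyMeasurable
  · filter_upwards [ae_restrict_mem hS] with q hq
    have h1 := h q.1 (Ioo_subset_Icc_self hq.1) q.2 (Ioo_subset_Icc_self hq.2)
    rw [Real.norm_of_nonneg (by positivity)]
    rcases eq_or_ne q.1 q.2 with he | he
    · rw [he, sub_self]; simp; positivity
    · have hd : 0 < |q.1 - q.2| := abs_pos.2 (sub_ne_zero.2 he)
      have hdT : |q.1 - q.2| ≤ T := by
        rw [abs_le]; constructor <;> linarith [hq.1.1, hq.1.2, hq.2.1, hq.2.2]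
      rw [div_le_iff₀ (by positivity)]
      have h2 : (v q.1 - v q.2) ^ 2 ≤ (Λ * |q.1 - q.2|) ^ 2 := by
        rw [← sq_abs (v q.1 - v q.2)]
        exact pow_le_pow_left₀ (abs_nonneg _) h1 2
      have h3 : |q.1 - q.2| ^ 2 = |q.1 - q.2| ^ (1/2 : ℝ) * |q.1 - q.2| ^ (3/2 : ℝ) := by
        rw [← Real.rpow_natCast, ← Real.rpow_add hd]; norm_num
      have h4 : |q.1 - q.2| ^ (1/2 : ℝ) ≤ T ^ (1/2 : ℝ) :=
        Real.rpow_le_rpow hd.le hdT (by norm_num)
      calc (v q.1 - v q.2) ^ 2 ≤ (Λ * |q.1 - q.2|) ^ 2 := h2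
        _ = Λ ^ 2 * (|q.1 - q.2| ^ (1/2 : ℝ) * |q.1 - q.2| ^ (3/2 : ℝ)) := by rw [← h3]; ring
        _ ≤ Λ ^ 2 * (T ^ (1/2 : ℝ) * |q.1 - q.2| ^ (3/2 : ℝ)) := by
          refine mul_le_mul_of_nonneg_left ?_ (sq_nonneg _)
          exact mul_le_mul_of_nonneg_right h4 (by positivity)
        _ = Λ ^ 2 * T ^ (1/2 : ℝ) * |q.1 - q.2| ^ (3/2 : ℝ) := by ring

/-- sections of the slope are square integrable -/
lemma sec_P {P : ℝ → ℝ → ℝ} {a b : ℝ} (mP : Measurable fun q : ℝ × ℝ => P q.1 q.2)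
    (P2 : MemLp (fun q : ℝ × ℝ => P q.1 q.2) 2 (nu a b)) :
    ∀ᵐ t ∂(volume.restrict (Ioo a b)), MemLp (P t) 2 mu := by
  have h1 := P2.integrable_sq
  unfold nu at h1
  have h2 := h1.prod_right_ae
  rw [Ioo_Ioc] at h2
  filter_upwards [h2] with t ht
  have hm : Measurable (P t) := mP.comp measurable_prodMk_left
  rw [memLp_two_iff_integrable_sq hm.aestronglyMeasurable]
  exact ht

/-- reflected test functions -/
lemma test_refl {φ : ℝ × ℝ → ℝ} {T : ℝ} (hφ : ContDiff ℝ ∞ φ)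
    (hsupp : tsupport φ ⊆ Ioo 0 T ×ˢ Ioo 0 1) :
    Test (fun t x => φ (t, 1 - x)) (fun t x => fderiv ℝ φ (t, 1 - x) (1, 0))
      (fun t x => -(fderiv ℝ φ (t, 1 - x) (0, 1))) := by
  have hc : Continuous (fderiv ℝ φ) := hφ.continuous_fderiv (by simp)
  have hr : Continuous fun q : ℝ × ℝ => (q.1, 1 - q.2) := by fun_prop
  have hd : ∀ q, HasFDerivAt φ (fderiv ℝ φ q) q := fun q =>
    (hφ.differentiable (by simp) q).hasFDerivAt
  exact
  { c0 := hφ.continuous.comp hr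
    ct := (hc.comp hr).clm_apply continuous_const
    cx := ((hc.comp hr).clm_apply continuous_const).neg
    dt := fun t x => by
      have h1 : HasDerivAt (fun s : ℝ => (s, 1 - x)) ((1:ℝ), (0:ℝ)) t :=
        (hasDerivAt_id t).prodMk (hasDerivAt_const t (1 - x))
      exact (hd (t, 1 - x)).comp_hasDerivAt t h1
    dx := fun t x => by
      have h0 : HasDerivAt (fun z : ℝ => 1 - z) (-1) x := by
        simpa using (hasDerivAt_id x).const_sub 1
      have h1 : HasDerivAt (fun z : ℝ => (t, 1 - z)) ((0:ℝ), (-1:ℝ)) x :=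
        (hasDerivAt_const x t).prodMk h0
      have h2 := (hd (t, 1 - x)).comp_hasDerivAt x h1
      have h3 : (fderiv ℝ φ (t, 1 - x)) ((0:ℝ), (-1:ℝ)) = -(fderiv ℝ φ (t, 1 - x) (0, 1)) := by
        rw [← map_neg]; simp
      rw [h3] at h2
      exact h2
    z0 := fun t => by
      have h1 : ((t, 1 - 0) : ℝ × ℝ) ∉ tsupport φ := fun h => by
        have := (hsupp h).2
        simp at this
      exact image_eq_zero_of_notMem_tsupport h1
    z1 := fun t => by
      have h1 : ((t, 1 - 1) : ℝ × ℝ) ∉ tsupport φ := fun h => by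
        have := (hsupp h).2
        simp at this
      exact image_eq_zero_of_notMem_tsupport h1 }

end Pool.Agent.Y308.BC
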