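import Pool.Agent.Y308.BC.Energy

/-! # Existence of the nonlinear mild solution by Picard iteration -/

set_option autoImplicit false

open MeasureTheory Set Real Filter Topology intervalIntegral
open scoped ENNReal NNReal

namespace Pool.Agent.Y308.BC

lemma kern_le {τ t μ : ℝ} (ht : 0 < t) (htτ : t ≤ τ) (hμ : 0 < μ) :
    ∫ s in (0:ℝ)..t, (t - s) ^ (-(7/8) : ℝ) * Real.exp (μ * s) ≤
      16 * τ ^ (1/16 : ℝ) * μ ^ (-(1/16) : ℝ) * Real.exp (μ * t) := by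
  have hI : IntervalIntegrable (fun s : ℝ => (t - s) ^ (-(15/16) : ℝ)) volume 0 t := by
    have := (intervalIntegral.intervalIntegrable_rpow' (a := t) (b := 0)
      (by norm_num : (-1:ℝ) < -(15/16))).comp_sub_left t
    simpa using this
  have h1 : ∫ s in (0:ℝ)..t, (t - s) ^ (-(7/8) : ℝ) * Real.exp (μ * s) ≤
      ∫ s in (0:ℝ)..t, (μ ^ (-(1/16) : ℝ) * Real.exp (μ * t)) * (t - s) ^ (-(15/16) : ℝ) := by
    refine intervalIntegral.integral_mono_on_of_le_Ioo ht.le (ii_sing (by fun_prop))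
      (hI.const_mul _) fun s hs => ?_
    have hσ : 0 < t - s := sub_pos.2 hs.2
    have h2 : (μ * (t - s)) ^ ((1/16) : ℝ) ≤ Real.exp (μ * (t - s)) := by
      have hx : 0 < μ * (t - s) := by positivity
      have h3 : μ * (t - s) ≤ Real.exp (μ * (t - s)) := by
        linarith [Real.add_one_le_exp (μ * (t - s))]
      calc _ ≤ (Real.exp (μ * (t - s))) ^ ((1/16) : ℝ) :=
            Real.rpow_le_rpow hx.le h3 (by norm_num)
        _ = Real.exp (μ * (t - s) * (1/16)) := by rw [← Real.exp_mul]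
        _ ≤ _ := Real.exp_le_exp.2 (by linarith)
    have h4 : Real.exp (μ * t) = Real.exp (μ * s) * Real.exp (μ * (t - s)) := by
      rw [← Real.exp_add]; congr 1; ring
    rw [h4]
    have h5 : (t - s) ^ (-(7/8) : ℝ) = (t - s) ^ (-(15/16) : ℝ) * (t - s) ^ ((1/16) : ℝ) := by
      rw [← Real.rpow_add hσ]; norm_num
    rw [Real.mul_rpow hμ.le hσ.le] at h2
    have h6 : μ ^ (-(1/16) : ℝ) * μ ^ ((1/16) : ℝ) = 1 := by
      rw [← Real.rpow_add hμ]; norm_num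
    have h7 : (t - s) ^ ((1/16) : ℝ) ≤ μ ^ (-(1/16) : ℝ) * Real.exp (μ * (t - s)) := by
      calc (t - s) ^ ((1/16) : ℝ) = μ ^ (-(1/16) : ℝ) * (μ ^ ((1/16) : ℝ) * (t - s) ^ ((1/16) : ℝ)) := by
            rw [← mul_assoc, h6, one_mul]
        _ ≤ _ := mul_le_mul_of_nonneg_left h2 (by positivity)
    rw [h5]
    calc (t - s) ^ (-(15/16) : ℝ) * (t - s) ^ ((1/16) : ℝ) * Real.exp (μ * s) ≤
        (t - s) ^ (-(15/16) : ℝ) * (μ ^ (-(1/16) : ℝ) * Real.exp (μ * (t - s))) *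
          Real.exp (μ * s) := by gcongr
      _ = _ := by ring
  refine h1.trans ?_
  rw [intervalIntegral.integral_const_mul,
    intervalIntegral.integral_comp_sub_left (fun s => s ^ (-(15/16) : ℝ)) t,
    sub_self, sub_zero, integral_rpow (Or.inl (by norm_num))]
  have e : (-(15/16) + 1 : ℝ) = 1/16 := by norm_num
  rw [e, Real.zero_rpow (by norm_num), sub_zero]
  have h8 : t ^ (1/16 : ℝ) ≤ τ ^ (1/16 : ℝ) := Real.rpow_le_rpow ht.le htτ (by norm_num)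
  calc μ ^ (-(1/16) : ℝ) * Real.exp (μ * t) * (t ^ (1/16 : ℝ) / (1/16)) =
      16 * t ^ (1/16 : ℝ) * μ ^ (-(1/16) : ℝ) * Real.exp (μ * t) := by ring
    _ ≤ _ := by gcongr

/-- the Picard operator -/
noncomputable def Pic (G : ℝ → ℝ) (h : ℝ → ℝ → ℝ) (c : ℝ → ℝ) (τ : ℝ) (F : ℝ → ℝ → ℝ)
    (s z : ℝ) : ℝ := G (h (min s τ) z + RR c F (min s τ) z)

section
variable {G : ℝ → ℝ} {L : ℝ} {h : ℝ → ℝ → ℝ} {H : ℝ} {c : ℝ → ℝ} {m τ : ℝ}

lemma lip_cont (hL : ∀ a b, |G a - G b| ≤ L * |a - b|) : Continuous G := by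
  refine LipschitzWith.continuous (K := (max L 0).toNNReal) (LipschitzWith.of_dist_le_mul ?_)
  intro a b
  rw [Real.dist_eq, Real.dist_eq, Real.coe_toNNReal _ (le_max_right _ _)]
  exact (hL a b).trans (mul_le_mul_of_nonneg_right (le_max_left _ _) (abs_nonneg _))

lemma RR_bdd (hcm : Measurable c) (hm : 0 ≤ m) (hcb : ∀ x ∈ Ioo (0:ℝ) 1, |c x| ≤ m)
    {F : ℝ → ℝ → ℝ} {B : ℝ} (hF : Adm F B) {t : ℝ} (ht : 0 < t) {x : ℝ} (hx : x ∈ Icc (0:ℝ) 1)
    {f : ℝ} (hf0 : 0 ≤ f) (hf : ∀ s ∈ Ioo 0 t, ∫ x in (0:ℝ)..1, F s x ^ 2 ≤ f ^ 2) :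
    |RR c F t x| ≤ m + √2 * C0 * (8 * t ^ (1/8 : ℝ) * f) := by
  unfold RR
  refine (abs_add_le _ _).trans (add_le_add (SS_le hcm hm hcb ht hx) ?_)
  exact NN_le_const hF ht.le x hf0 hf

lemma Pic_adm (hL0 : 0 ≤ L) (hL : ∀ a b, |G a - G b| ≤ L * |a - b|)
    (hh : ContinuousOn (fun q : ℝ × ℝ => h q.1 q.2) (Ioi 0 ×ˢ Icc 0 1))
    (hhb : ∀ s, 0 < s → ∀ z ∈ Icc (0:ℝ) 1, |h s z| ≤ H)
    (hcm : Measurable c) (hm : 0 ≤ m) (hcb : ∀ x ∈ Ioo (0:ℝ) 1, |c x| ≤ m) (hτ : 0 < τ)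
    {F : ℝ → ℝ → ℝ} {B : ℝ} (hF : Adm F B) :
    ∃ B', Adm (Pic G h c τ F) B' := by
  have hcM : MemLp c 2 mu := memLp_bdd hcm hcb
  have hmap : MapsTo (fun q : ℝ × ℝ => (min q.1 τ, q.2)) (Ioi 0 ×ˢ Icc (0:ℝ) 1)
      (Ioi 0 ×ˢ Icc (0:ℝ) 1) := fun q hq => ⟨lt_min hq.1 hτ, hq.2⟩
  refine ⟨|G 0| + L * (H + (m + √2 * C0 * (8 * τ ^ (1/8 : ℝ) * B))), ?_, ?_⟩
  · unfold Pic
    refine (lip_cont hL).comp_continuousOn (ContinuousOn.add ?_ ?_)
    · exact hh.comp (f := fun q : ℝ × ℝ => (min q.1 τ, q.2)) (by fun_prop) hmap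
    · exact ((RR_cont hcM hF).mono (prod_mono le_rfl (subset_univ _))).comp
        (f := fun q : ℝ × ℝ => (min q.1 τ, q.2)) (by fun_prop) hmap
  · intro s hs z hz
    unfold Pic
    have hs' : 0 < min s τ := lt_min hs hτ
    have h1 := hL (h (min s τ) z + RR c F (min s τ) z) 0
    rw [sub_zero] at h1
    have h2 := hhb _ hs' z hz
    have h3 := RR_bdd hcm hm hcb hF hs' hz hF.nonneg
      (fun u hu => int_sq_le (hF.sec hu.1) (hF.bdd u hu.1))
    have h4 : (min s τ) ^ (1/8 : ℝ) ≤ τ ^ (1/8 : ℝ) :=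
      Real.rpow_le_rpow hs'.le (min_le_right _ _) (by norm_num)
    have h5 : √2 * C0 * (8 * (min s τ) ^ (1/8 : ℝ) * B) ≤ √2 * C0 * (8 * τ ^ (1/8 : ℝ) * B) := by
      have := C0_nonneg
      have := hF.nonneg
      gcongr
    have h6 := abs_add_le (h (min s τ) z) (RR c F (min s τ) z)
    have h7 : |G (h (min s τ) z + RR c F (min s τ) z)| ≤ |G 0| +
        |G (h (min s τ) z + RR c F (min s τ) z) - G 0| := by
      have := abs_add_le (G 0) (G (h (min s τ) z + RR c F (min s τ) z) - G 0)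
      rwa [add_sub_cancel] at this
    refine h7.trans (add_le_add le_rfl (h1.trans (mul_le_mul_of_nonneg_left ?_ hL0)))
    linarith

/-- contraction estimate -/
lemma Pic_diff (hL0 : 0 ≤ L) (hL : ∀ a b, |G a - G b| ≤ L * |a - b|)
    {F F' : ℝ → ℝ → ℝ} {B B' : ℝ} (hF : Adm F B) (hF' : Adm F' B')
    {D μ : ℝ} (hD : 0 ≤ D) (hμ : 0 < μ)
    (hd : ∀ s ∈ Ioc 0 τ, ∀ z ∈ Icc (0:ℝ) 1, |F s z - F' s z| ≤ D * Real.exp (μ * s))
    {s : ℝ} (hs : s ∈ Ioc 0 τ) {z : ℝ} (hz : z ∈ Icc (0:ℝ) 1) :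
    |Pic G h c τ F s z - Pic G h c τ F' s z| ≤
      (L * (√2 * C0 * (16 * τ ^ (1/16 : ℝ) * μ ^ (-(1/16) : ℝ)))) * D * Real.exp (μ * s) := by
  unfold Pic
  rw [min_eq_left hs.2]
  have h1 := hL (h s z + RR c F s z) (h s z + RR c F' s z)
  have h2 : (h s z + RR c F s z) - (h s z + RR c F' s z) =
      NN (fun s z => F s z - F' s z) s z := by
    rw [NN_sub hF hF' hs.1.le]; unfold RR; ring
  rw [h2] at h1
  refine h1.trans ?_
  have h3 := NN_le (hF.sub hF') hs.1.le z (f := fun s => D * Real.exp (μ * s)) (by fun_prop)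
    (fun s => by positivity) (fun u hu => int_sq_le ((hF.sub hF').sec hu.1)
      (hd u ⟨hu.1, hu.2.le.trans hs.2⟩))
  have h4 := kern_le hs.1 hs.2 hμ
  have h5 : ∫ u in (0:ℝ)..s, (s - u) ^ (-(7/8) : ℝ) * (D * Real.exp (μ * u)) =
      D * ∫ u in (0:ℝ)..s, (s - u) ^ (-(7/8) : ℝ) * Real.exp (μ * u) := by
    rw [← intervalIntegral.integral_const_mul]
    congr 1; funext u; ring
  rw [h5] at h3
  have hC := C0_nonneg
  calc L * |NN (fun s z => F s z - F' s z) s z| ≤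
      L * (√2 * C0 * (D * (16 * τ ^ (1/16 : ℝ) * μ ^ (-(1/16) : ℝ) * Real.exp (μ * s)))) := by
        refine mul_le_mul_of_nonneg_left (h3.trans ?_) hL0
        gcongr
    _ = _ := by ring

/-- **Existence.** -/
theorem exists_fix (hL0 : 0 ≤ L) (hL : ∀ a b, |G a - G b| ≤ L * |a - b|)
    (hh : ContinuousOn (fun q : ℝ × ℝ => h q.1 q.2) (Ioi 0 ×ˢ Icc 0 1))
    (hhb : ∀ s, 0 < s → ∀ z ∈ Icc (0:ℝ) 1, |h s z| ≤ H)
    (hcm : Measurable c) (hm : 0 ≤ m) (hcb : ∀ x ∈ Ioo (0:ℝ) 1, |c x| ≤ m) (hτ : 0 < τ) :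
    ∃ (F : ℝ → ℝ → ℝ) (B : ℝ), Adm F B ∧
      ∀ s ∈ Ioc 0 τ, ∀ z ∈ Icc (0:ℝ) 1, F s z = G (h s z + RR c F s z) := by
  have hC := C0_nonneg
  -- iterates
  set Φ := Pic G h c τ with hΦ
  set Fk : ℕ → ℝ → ℝ → ℝ := fun k => Φ^[k] (fun _ _ => 0) with hFk
  have hF0 : Adm (Fk 0) 0 := ⟨by simp only [hFk, Function.iterate_zero, id]; fun_prop,
    fun s _ z _ => by simp [hFk]⟩
  have hsucc : ∀ k, Fk (k + 1) = Φ (Fk k) := fun k => Function.iterate_succ_apply' Φ k _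
  have hadm : ∀ k, ∃ B, Adm (Fk k) B := by
    intro k
    induction k with
    | zero => exact ⟨0, hF0⟩
    | succ k ih =>
      obtain ⟨B, hB⟩ := ih
      rw [hsucc]
      exact Pic_adm hL0 hL hh hhb hcm hm hcb hτ hB
  choose Bk hBk using hadm
  -- the weight
  set μ := (32 * (L * (√2 * C0 * τ ^ (1/16 : ℝ))) + 1) ^ 16 with hμdef
  have hb1 : 0 < 32 * (L * (√2 * C0 * τ ^ (1/16 : ℝ))) + 1 := by positivity
  have hμ : 0 < μ := by positivity
  have hμr : μ ^ (-(1/16) : ℝ) = (32 * (L * (√2 * C0 * τ ^ (1/16 : ℝ))) + 1)⁻¹ := by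
    rw [hμdef, ← Real.rpow_natCast, ← Real.rpow_mul hb1.le]
    norm_num
    rw [Real.rpow_neg_one]
  have hq : L * (√2 * C0 * (16 * τ ^ (1/16 : ℝ) * μ ^ (-(1/16) : ℝ))) ≤ 1/2 := by
    rw [hμr]
    have : L * (√2 * C0 * (16 * τ ^ (1/16 : ℝ) * (32 * (L * (√2 * C0 * τ ^ (1/16 : ℝ))) + 1)⁻¹)) =
      (16 * (L * (√2 * C0 * τ ^ (1/16 : ℝ)))) / (32 * (L * (√2 * C0 * τ ^ (1/16 : ℝ))) + 1) := by
      field_simp
    rw [this, div_le_iff₀ hb1]
    linarith
  set D := Bk 1 with hD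
  have hD0 : 0 ≤ D := (hBk 1).nonneg
  have hdiff : ∀ k, ∀ s ∈ Ioc 0 τ, ∀ z ∈ Icc (0:ℝ) 1,
      |Fk (k + 1) s z - Fk k s z| ≤ (D * (1/2) ^ k) * Real.exp (μ * s) := by
    intro k
    induction k with
    | zero =>
      intro s hs z hz
      have h1 := (hBk 1).bdd s hs.1 z hz
      have h2 : Fk 0 s z = 0 := by simp [hFk]
      rw [h2, sub_zero, pow_zero, mul_one]
      have h3 : 1 ≤ Real.exp (μ * s) := Real.one_le_exp (by have := hs.1; positivity)
      exact h1.trans (le_mul_of_one_le_right hD0 h3)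
    | succ k ih =>
      intro s hs z hz
      rw [hsucc (k + 1)]
      nth_rewrite 2 [hsucc k]
      have h1 := Pic_diff (h := h) (c := c) hL0 hL (hBk (k + 1)) (hBk k)
        (by positivity) hμ ih hs hz
      refine h1.trans ?_
      rw [pow_succ]
      have h2 : 0 ≤ D * (1/2) ^ k * Real.exp (μ * s) := by positivity
      nlinarith [mul_le_mul_of_nonneg_right hq h2]
  set E := D * Real.exp (μ * τ) with hE
  have hE0 : 0 ≤ E := by positivity
  -- uniform geometric bound for all times, from index 1 on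
  have hdiff2 : ∀ k, ∀ s, 0 < s → ∀ z ∈ Icc (0:ℝ) 1,
      |Fk (k + 2) s z - Fk (k + 1) s z| ≤ E * (1/2) ^ k := by
    intro k s hs z hz
    have e1 : ∀ j, Fk (j + 1) s z = Fk (j + 1) (min s τ) z := by
      intro j
      rw [hsucc, hΦ]
      unfold Pic
      rw [min_assoc, min_self]
    rw [e1 (k + 1), e1 k]
    have hs' : min s τ ∈ Ioc 0 τ := ⟨lt_min hs hτ, min_le_right _ _⟩
    refine (hdiff (k + 1) _ hs' z hz).trans ?_
    have h3 : Real.exp (μ * min s τ) ≤ Real.exp (μ * τ) :=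
      Real.exp_le_exp.2 (mul_le_mul_of_nonneg_left hs'.2 hμ.le)
    rw [hE, pow_succ]
    have h4 : 0 ≤ (1/2 : ℝ) ^ k := by positivity
    nlinarith [mul_le_mul_of_nonneg_left h3 (mul_nonneg hD0 h4), Real.exp_pos (μ * min s τ),
      mul_nonneg (mul_nonneg hD0 h4) (Real.exp_pos (μ * min s τ)).le]
  -- the limit
  have hcau : ∀ s, 0 < s → ∀ z ∈ Icc (0:ℝ) 1, CauchySeq fun k => Fk (k + 1) s z := by
    intro s hs z hz
    refine cauchySeq_of_le_geometric (1/2) E (by norm_num) fun k => ?_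
    rw [Real.dist_eq, abs_sub_comm]
    exact hdiff2 k s hs z hz
  set F : ℝ → ℝ → ℝ := fun s z => limUnder atTop (fun k => Fk (k + 1) s z) with hFdef
  have hlim : ∀ s, 0 < s → ∀ z ∈ Icc (0:ℝ) 1, Tendsto (fun k => Fk (k + 1) s z) atTop
      (𝓝 (F s z)) := fun s hs z hz => (hcau s hs z hz).tendsto_limUnder
  have hunif : ∀ k, ∀ s, 0 < s → ∀ z ∈ Icc (0:ℝ) 1,
      |Fk (k + 1) s z - F s z| ≤ 2 * E * (1/2) ^ k := by
    intro k s hs z hz
    have h1 := dist_le_of_le_geometric_of_tendsto (1/2) E (by norm_num)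
      (fun k => by rw [Real.dist_eq, abs_sub_comm]; exact hdiff2 k s hs z hz) (hlim s hs z hz) k
    rw [Real.dist_eq] at h1
    refine h1.trans (le_of_eq ?_)
    ring
  have hFadm : Adm F (Bk 1 + 2 * E) := by
    constructor
    · have hu : TendstoUniformlyOn (fun (k : ℕ) (q : ℝ × ℝ) => Fk (k + 1) q.1 q.2)
          (fun q => F q.1 q.2) atTop (Ioi 0 ×ˢ Icc 0 1) := by
        rw [Metric.tendstoUniformlyOn_iff]
        intro ε hε
        have h1 : Tendsto (fun k : ℕ => 2 * E * (1/2 : ℝ) ^ k) atTop (𝓝 0) := by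
          have := (tendsto_pow_atTop_nhds_zero_of_lt_one (r := (1/2 : ℝ)) (by norm_num)
            (by norm_num)).const_mul (2 * E)
          simpa using this
        filter_upwards [h1.eventually (gt_mem_nhds hε)] with k hk q hq
        rw [Real.dist_eq, abs_sub_comm]
        exact (hunif k q.1 hq.1 q.2 hq.2).trans_lt hk
      exact hu.continuousOn (Eventually.of_forall fun k => (hBk (k + 1)).cont).frequently
    · intro s hs z hz
      have h1 := hunif 0 s hs z hz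
      have h2 := (hBk 1).bdd s hs z hz
      rw [zero_add, pow_zero, mul_one] at h1
      rw [abs_le] at h1 h2 ⊢
      constructor <;> linarith [h1.1, h1.2, h2.1, h2.2]
  refine ⟨F, _, hFadm, fun s hs z hz => ?_⟩
  have h1 : Tendsto (fun k => Fk (k + 2) s z) atTop (𝓝 (F s z)) :=
    (hlim s hs.1 z hz).comp (tendsto_add_atTop_nat 1)
  have h2 : Tendsto (fun k => Fk (k + 2) s z) atTop (𝓝 (G (h s z + RR c F s z))) := by
    rw [tendsto_iff_norm_sub_tendsto_zero]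
    have h3 : Tendsto (fun k : ℕ => L * (√2 * C0 * (8 * s ^ (1/8 : ℝ) * (2 * E * (1/2 : ℝ) ^ k))))
        atTop (𝓝 0) := by
      have := (tendsto_pow_atTop_nhds_zero_of_lt_one (r := (1/2 : ℝ)) (by norm_num)
        (by norm_num)).const_mul (L * (√2 * C0 * (8 * s ^ (1/8 : ℝ) * (2 * E))))
      rw [mul_zero] at this
      refine this.congr fun k => by ring
    refine squeeze_zero (fun k => norm_nonneg _) (fun k => ?_) h3
    rw [hsucc (k + 1), hΦ]
    unfold Pic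
    rw [min_eq_left hs.2, Real.norm_eq_abs]
    refine (hL _ _).trans (mul_le_mul_of_nonneg_left ?_ hL0)
    have h4 : (h s z + RR c (Fk (k + 1)) s z) - (h s z + RR c F s z) =
        NN (fun s z => Fk (k + 1) s z - F s z) s z := by
      rw [NN_sub (hBk (k + 1)) hFadm hs.1.le]; unfold RR; ring
    rw [h4]
    refine NN_le_const ((hBk (k + 1)).sub hFadm) hs.1.le z (by positivity) fun u hu => ?_
    exact int_sq_le (((hBk (k + 1)).sub hFadm).sec hu.1) fun z hz => hunif k u hu.1 z hz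
  exact tendsto_nhds_unique h1 h2

end

end Pool.Agent.Y308.BC
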