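import Pool.Agent.Y308.BC.Cont

set_option autoImplicit false

open MeasureTheory Set Real Filter Topology intervalIntegral
open scoped ENNReal NNReal

namespace Pool.Agent.Y308.BC

/-- absolutely convergent sine series -/
noncomputable def ser (a : ℕ → ℝ) (x : ℝ) : ℝ := ∑' n, a n * es n x

lemma ser_summable {a : ℕ → ℝ} (ha : Summable fun n => |a n|) (x : ℝ) :
    Summable fun n => a n * es n x := by
  refine Summable.of_norm_bounded (ha.mul_right (√2)) fun n => ?_
  rw [norm_mul, Real.norm_eq_abs, Real.norm_eq_abs]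
  exact mul_le_mul_of_nonneg_left (es_le n x) (abs_nonneg _)

lemma ser_cont {a : ℕ → ℝ} (ha : Summable fun n => |a n|) : Continuous (ser a) := by
  unfold ser
  refine continuous_tsum (fun n => by fun_prop) (ha.mul_right (√2)) fun n x => ?_
  rw [norm_mul, Real.norm_eq_abs, Real.norm_eq_abs]
  exact mul_le_mul_of_nonneg_left (es_le n x) (abs_nonneg _)

lemma ser_cf {a : ℕ → ℝ} (ha : Summable fun n => |a n|) (m : ℕ) : cf (es m) (ser a) = a m := by
  unfold cf
  have h1 : HasSum (fun n => ∫ x in (0:ℝ)..1, (a n * es n x) * es m x)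
      (∫ x in (0:ℝ)..1, ser a x * es m x) := by
    refine intervalIntegral.hasSum_integral_of_dominated_convergence
      (fun n _ => |a n| * 2) (fun n => ?_) (fun n => ?_) ?_ ?_ ?_
    · apply Continuous.aestronglyMeasurable; fun_prop
    · refine Eventually.of_forall fun x _ => ?_
      rw [norm_mul, norm_mul, Real.norm_eq_abs, Real.norm_eq_abs, Real.norm_eq_abs, mul_assoc]
      refine mul_le_mul_of_nonneg_left ?_ (abs_nonneg _)
      calc |es n x| * |es m x| ≤ √2 * √2 :=
            mul_le_mul (es_le n x) (es_le m x) (abs_nonneg _) (Real.sqrt_nonneg 2)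
        _ = 2 := sqrt2_sq
    · exact Eventually.of_forall fun x _ => ha.mul_right 2
    · exact intervalIntegrable_const
    · exact Eventually.of_forall fun x _ => (ser_summable ha x).hasSum.mul_right _
  have h2 : ∀ n, ∫ x in (0:ℝ)..1, (a n * es n x) * es m x = if n = m then a n else 0 := by
    intro n
    simp_rw [mul_assoc]
    rw [intervalIntegral.integral_const_mul, es_orth]
    split_ifs <;> simp
  simp_rw [h2] at h1
  have h3 : HasSum (fun n => if n = m then a n else 0) (a m) := by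
    have := hasSum_ite_eq m (a m)
    refine this.congr_fun ?_ |> fun h => h
    intro n
    by_cases h : n = m
    · rw [if_pos h, if_pos h, h]
    · rw [if_neg h, if_neg h]
  exact h1.unique h3

/-- the Dirichlet heat flow -/
noncomputable def SS (c : ℝ → ℝ) (t x : ℝ) : ℝ :=
  ∑' n, Real.exp (-(lam n) * t) * cf (es n) c * es n x

lemma exp_lam_le {t : ℝ} (ht : 0 < t) (n : ℕ) :
    Real.exp (-(lam n) * t) ≤ 1 / t * (1 / ((n : ℝ) + 1) ^ 2) := by
  have h1 : ((n : ℝ) + 1) ^ 2 ≤ lam n := by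
    unfold lam
    exact pow_le_pow_left₀ (by positivity) (kk_ge n) 2
  have h2 : lam n * t ≤ Real.exp (lam n * t) := by linarith [Real.add_one_le_exp (lam n * t)]
  rw [neg_mul, Real.exp_neg, div_mul_div_comm, one_mul, one_div]
  apply inv_anti₀ (by positivity)
  nlinarith

lemma exp_lam_summable {t : ℝ} (ht : 0 < t) : Summable fun n => Real.exp (-(lam n) * t) := by
  have h1 : Summable fun n : ℕ => 1 / t * (1 / ((n : ℝ) + 1) ^ 2) := by
    have := (summable_nat_add_iff 1).2 (Real.summable_one_div_nat_pow.2 (by norm_num : 1 < 2))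
    have h2 := this.mul_left (1 / t)
    refine h2.congr fun n => ?_
    push_cast; rfl
  exact Summable.of_nonneg_of_le (fun n => (Real.exp_pos _).le) (fun n => exp_lam_le ht n) h1

lemma cf_abs_le {c : ℝ → ℝ} (hc : MemLp c 2 mu) {B : ℝ} (hB : 0 ≤ B)
    (h : ∫ x in (0:ℝ)..1, c x ^ 2 ≤ B ^ 2) (n : ℕ) : |cf (es n) c| ≤ B := by
  have h1 := bessel_es hc {n}
  rw [Finset.sum_singleton] at h1
  exact abs_le_of_sq_le_sq (h1.trans h) hB

lemma cf_bdd {c : ℝ → ℝ} (hc : MemLp c 2 mu) : ∃ B, 0 ≤ B ∧ ∀ n, |cf (es n) c| ≤ B := by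
  refine ⟨√(∫ x in (0:ℝ)..1, c x ^ 2), Real.sqrt_nonneg _, cf_abs_le hc (Real.sqrt_nonneg _) ?_⟩
  rw [Real.sq_sqrt]
  exact intervalIntegral.integral_nonneg zero_le_one fun x _ => sq_nonneg _

lemma SS_coef_summable {c : ℝ → ℝ} (hc : MemLp c 2 mu) {t : ℝ} (ht : 0 < t) :
    Summable fun n => |Real.exp (-(lam n) * t) * cf (es n) c| := by
  obtain ⟨B, hB, hb⟩ := cf_bdd hc
  refine Summable.of_nonneg_of_le (fun n => abs_nonneg _) (fun n => ?_)
    ((exp_lam_summable ht).mul_right B)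
  rw [abs_mul, abs_of_pos (Real.exp_pos _)]
  exact mul_le_mul_of_nonneg_left (hb n) (Real.exp_pos _).le

lemma SS_eq_ser (c : ℝ → ℝ) (t : ℝ) : SS c t = ser fun n => Real.exp (-(lam n) * t) * cf (es n) c :=
  rfl

lemma SS_cf {c : ℝ → ℝ} (hc : MemLp c 2 mu) {t : ℝ} (ht : 0 < t) (m : ℕ) :
    cf (es m) (SS c t) = Real.exp (-(lam m) * t) * cf (es m) c := by
  rw [SS_eq_ser]
  exact ser_cf (SS_coef_summable hc ht) m

lemma SS_left (c : ℝ → ℝ) (t : ℝ) : SS c t 0 = 0 := by unfold SS; simp [es_zero]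
lemma SS_right (c : ℝ → ℝ) (t : ℝ) : SS c t 1 = 0 := by unfold SS; simp [es_one]

lemma SS_cont {c : ℝ → ℝ} (hc : MemLp c 2 mu) :
    ContinuousOn (fun q : ℝ × ℝ => SS c q.1 q.2) (Ioi 0 ×ˢ univ) := by
  intro q hq
  have hq1 : (0:ℝ) < q.1 := hq.1
  obtain ⟨B, hB, hb⟩ := cf_bdd hc
  have h1 : ContinuousOn (fun q : ℝ × ℝ => SS c q.1 q.2) (Ioi (q.1 / 2) ×ˢ univ) := by
    unfold SS
    refine continuousOn_tsum (u := fun n => Real.exp (-(lam n) * (q.1 / 2)) * B * √2)
      (fun n => by fun_prop)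
      (((exp_lam_summable (by positivity)).mul_right B).mul_right (√2)) fun n p hp => ?_
    rw [norm_mul, norm_mul, Real.norm_eq_abs, Real.norm_eq_abs, Real.norm_eq_abs,
      abs_of_pos (Real.exp_pos _)]
    have h2 : Real.exp (-(lam n) * p.1) ≤ Real.exp (-(lam n) * (q.1 / 2)) := by
      apply Real.exp_le_exp.2
      have := (lam_pos n)
      have h3 : q.1 / 2 < p.1 := hp.1
      nlinarith
    refine mul_le_mul (mul_le_mul h2 (hb n) (abs_nonneg _) (Real.exp_pos _).le) (es_le n _)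
      (abs_nonneg _) (by positivity)
  refine (h1 q ⟨by simp only [mem_Ioi]; linarith, mem_univ _⟩).mono_of_mem_nhdsWithin ?_
  refine mem_nhdsWithin_of_mem_nhds ?_
  exact (isOpen_Ioi.prod isOpen_univ).mem_nhds ⟨by simp only [mem_Ioi]; linarith, mem_univ _⟩

lemma memLp_ser {a : ℕ → ℝ} (ha : Summable fun n => |a n|) : MemLp (ser a) 2 mu :=
  memLp_cont (ser_cont ha).continuousOn

/-- `L²` convergence of the heat flow to its initial value -/
lemma SS_tendsto {c : ℝ → ℝ} (hc : MemLp c 2 mu) :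
    Tendsto (fun t => ∫ x in (0:ℝ)..1, (SS c t x - c x) ^ 2) (𝓝[>] 0) (𝓝 0) := by
  have h1 : ∀ t : ℝ, 0 < t → ∫ x in (0:ℝ)..1, (SS c t x - c x) ^ 2 =
      ∑' n, ((Real.exp (-(lam n) * t) - 1) * cf (es n) c) ^ 2 := by
    intro t ht
    have hm : MemLp (SS c t) 2 mu := by
      rw [SS_eq_ser]; exact memLp_ser (SS_coef_summable hc ht)
    have h2 := hasSum_es (hm.sub hc)
    have h3 : ∀ n, cf (es n) (SS c t - c) = (Real.exp (-(lam n) * t) - 1) * cf (es n) c := by
      intro n
      have := cf_sub (es_cont n) hm hc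
      have e : (SS c t - c) = fun x => SS c t x - c x := rfl
      rw [e, this, SS_cf hc ht]
      ring
    simp_rw [h3] at h2
    exact h2.tsum_eq.symm
  have h2 : Tendsto (fun t : ℝ => ∑' n, ((Real.exp (-(lam n) * t) - 1) * cf (es n) c) ^ 2)
      (𝓝[>] 0) (𝓝 (∑' n : ℕ, (0 : ℝ))) := by
    refine tendsto_tsum_of_dominated_convergence (bound := fun n => cf (es n) c ^ 2)
      (hasSum_es hc).summable ?_ ?_
    · intro n
      have h3 : Continuous fun t : ℝ => ((Real.exp (-(lam n) * t) - 1) * cf (es n) c) ^ 2 := by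
        fun_prop
      have h4 := (h3.tendsto 0).mono_left (nhdsWithin_le_nhds (s := Ioi (0:ℝ)))
      simpa using h4
    · filter_upwards [self_mem_nhdsWithin] with t ht n
      have ht' : (0:ℝ) < t := ht
      rw [Real.norm_eq_abs, abs_of_nonneg (sq_nonneg _), mul_pow]
      have h5 : Real.exp (-(lam n) * t) ≤ 1 := by
        rw [Real.exp_le_one_iff]
        have := lam_pos n
        nlinarith
      have h6 := Real.exp_pos (-(lam n) * t)
      have h7 : (Real.exp (-(lam n) * t) - 1) ^ 2 ≤ 1 := by nlinarith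
      nlinarith [sq_nonneg (cf (es n) c)]
  rw [tsum_zero] at h2
  refine h2.congr' ?_
  filter_upwards [self_mem_nhdsWithin] with t ht
  exact (h1 t ht).symm

end Pool.Agent.Y308.BC
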