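import Pool.Agent.Y308.BC.Series
import Pool.Agent.Y308.BC.Heat

/-! # Flat output control of the heat equation, with cost -/

set_option autoImplicit false

open MeasureTheory Set Real Filter Topology intervalIntegral
open scoped ENNReal NNReal

namespace Pool.Agent.Y308.BC

/-- derivatives of the boundary slope of the heat flow -/
noncomputable def bt (c : ℝ → ℝ) (l : ℕ) (s : ℝ) : ℝ :=
  ∑' n, √2 * cf (es n) c * kk n * ((-(lam n)) ^ l * Real.exp (-(lam n) * s))

variable {c : ℝ → ℝ} {m : ℝ}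

lemma dd_ge (n : ℕ) : 1 / kk n ^ 3 ≤ dd n := by
  unfold dd
  have h0 := kk_pos n
  have h1 : 1 ≤ kk n := by
    have := kk_ge n
    have h2 : (0:ℝ) ≤ n := Nat.cast_nonneg n
    linarith
  rw [one_div, ← Real.rpow_natCast, ← Real.rpow_neg h0.le]
  apply Real.rpow_le_rpow_of_exponent_le h1
  norm_num

/-- `k e^{-k² s/2} ≤ (8/s²) k^{-3/2}` -/
lemma k_exp_le (n : ℕ) {s : ℝ} (hs : 0 < s) :
    kk n * Real.exp (-(lam n) * (s / 2)) ≤ 8 / s ^ 2 * dd n := by
  have h0 := kk_pos n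
  have hl := lam_pos n
  set y := lam n * (s / 2) with hy
  have hy0 : 0 < y := by positivity
  have h1 : y ^ 2 / 2 ≤ Real.exp y := by
    have := Real.pow_div_factorial_le_exp y hy0.le 2
    simpa using this
  have h2 : Real.exp (-(lam n) * (s / 2)) ≤ 2 / y ^ 2 := by
    rw [neg_mul, Real.exp_neg, ← hy, inv_le_comm₀ (Real.exp_pos _) (by positivity), inv_div]
    exact h1
  have h3 : kk n * (2 / y ^ 2) = 8 / s ^ 2 * (1 / kk n ^ 3) := by
    rw [hy]; unfold lam; field_simp; ring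
  calc _ ≤ kk n * (2 / y ^ 2) := by gcongr
    _ = _ := h3
    _ ≤ _ := by gcongr; exact dd_ge n

lemma bt_term (hm : 0 ≤ m) (hc : ∀ n, |cf (es n) c| ≤ m) (l n : ℕ) {s0 s : ℝ} (hs0 : 0 < s0)
    (hs : s0 ≤ s) :
    |√2 * cf (es n) c * kk n * ((-(lam n)) ^ l * Real.exp (-(lam n) * s))| ≤
      √2 * m * (l.factorial * (2 / s0) ^ l) * (8 / s0 ^ 2 * dd n) := by
  have h0 := kk_pos n
  have hl := lam_pos n
  rw [abs_mul, abs_mul, abs_mul, abs_mul, abs_pow, abs_neg, abs_of_pos hl, abs_of_pos h0,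
    abs_of_pos (Real.exp_pos _), abs_of_nonneg (Real.sqrt_nonneg 2)]
  have h1 : lam n ^ l * Real.exp (-(lam n) * s) ≤
      l.factorial * (2 / s0) ^ l * Real.exp (-(lam n) * (s0 / 2)) := by
    have e1 : Real.exp (-(lam n) * s) ≤ Real.exp (-(lam n) * s0) :=
      Real.exp_le_exp.2 (by nlinarith)
    have e2 := Real.pow_div_factorial_le_exp (x := lam n * (s0 / 2)) (by positivity) l
    rw [div_le_iff₀ (by positivity)] at e2
    have e3 : lam n ^ l = (2 / s0) ^ l * (lam n * (s0 / 2)) ^ l := by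
      rw [← mul_pow]; congr 1; field_simp
    have e4 : Real.exp (-(lam n) * s0) = Real.exp (-(lam n) * (s0 / 2)) *
        Real.exp (-(lam n * (s0 / 2))) := by
      rw [← Real.exp_add]; congr 1; ring
    calc lam n ^ l * Real.exp (-(lam n) * s) ≤ lam n ^ l * Real.exp (-(lam n) * s0) := by gcongr
      _ = (2 / s0) ^ l * (lam n * (s0 / 2)) ^ l * (Real.exp (-(lam n) * (s0 / 2)) *
          Real.exp (-(lam n * (s0 / 2)))) := by rw [e4, ← e3]
      _ ≤ (2 / s0) ^ l * (Real.exp (lam n * (s0 / 2)) * l.factorial) *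
          (Real.exp (-(lam n) * (s0 / 2)) * Real.exp (-(lam n * (s0 / 2)))) := by gcongr
      _ = l.factorial * (2 / s0) ^ l * Real.exp (-(lam n) * (s0 / 2)) *
          (Real.exp (lam n * (s0 / 2)) * Real.exp (-(lam n * (s0 / 2)))) := by ring
      _ = _ := by rw [← Real.exp_add]; simp
  have h2 := k_exp_le n hs0
  calc √2 * |cf (es n) c| * kk n * (lam n ^ l * Real.exp (-(lam n) * s)) ≤
      √2 * m * kk n * (l.factorial * (2 / s0) ^ l * Real.exp (-(lam n) * (s0 / 2))) := by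
        have := hc n
        gcongr
    _ = √2 * m * (l.factorial * (2 / s0) ^ l) * (kk n * Real.exp (-(lam n) * (s0 / 2))) := by ring
    _ ≤ _ := by gcongr

lemma bt_summable (hm : 0 ≤ m) (hc : ∀ n, |cf (es n) c| ≤ m) (l : ℕ) {s : ℝ} (hs : 0 < s) :
    Summable fun n => √2 * cf (es n) c * kk n * ((-(lam n)) ^ l * Real.exp (-(lam n) * s)) :=
  Summable.of_norm_bounded ((dd_summable.mul_left _).mul_left _)
    fun n => bt_term hm hc l n hs le_rfl

lemma bt_le (hm : 0 ≤ m) (hc : ∀ n, |cf (es n) c| ≤ m) (l : ℕ) {s0 s : ℝ} (hs0 : 0 < s0)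
    (hs : s0 ≤ s) : |bt c l s| ≤
      (√2 * (8 / s0 ^ 2 * ∑' n, dd n)) * m * (l.factorial * (2 / s0) ^ l) := by
  have h1 := bt_summable hm hc l (hs0.trans_le hs)
  have h2 : Summable fun n => √2 * m * (l.factorial * (2 / s0) ^ l) * (8 / s0 ^ 2 * dd n) :=
    (dd_summable.mul_left _).mul_left _
  have h3 := norm_tsum_le_tsum_norm h1.norm
  unfold bt
  refine h3.trans ((Summable.tsum_le_tsum (fun n => bt_term hm hc l n hs0 hs) h1.norm h2).trans
    (le_of_eq ?_))
  rw [tsum_mul_left, tsum_mul_left]; ring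

lemma bt_deriv (hm : 0 ≤ m) (hc : ∀ n, |cf (es n) c| ≤ m) (l : ℕ) {s : ℝ} (hs : 0 < s) :
    HasDerivAt (bt c l) (bt c (l + 1) s) s := by
  unfold bt
  refine hasDerivAt_tsum_of_isPreconnected
    (u := fun n => √2 * m * ((l + 1).factorial * (2 / (s / 2)) ^ (l + 1)) *
      (8 / (s / 2) ^ 2 * dd n))
    (g := fun n s => √2 * cf (es n) c * kk n * ((-(lam n)) ^ l * Real.exp (-(lam n) * s)))
    (g' := fun n s => √2 * cf (es n) c * kk n * ((-(lam n)) ^ (l + 1) * Real.exp (-(lam n) * s)))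
    ((dd_summable.mul_left _).mul_left _) isOpen_Ioi (isPreconnected_Ioi (a := s / 2))
    (fun n y _ => ?_) (fun n y hy => bt_term hm hc (l + 1) n (by positivity) hy.le)
    (y₀ := s) (by simp only [mem_Ioi]; linarith) (bt_summable hm hc l hs)
    (by simp only [mem_Ioi]; linarith)
  have h1 : HasDerivAt (fun y => -(lam n) * y) (-(lam n)) y := by
    simpa using (hasDerivAt_id y).const_mul (-(lam n))
  refine ((h1.exp.const_mul ((-(lam n)) ^ l)).const_mul (√2 * cf (es n) c * kk n)).congr_deriv ?_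
  rw [pow_succ]; ring

/-- Leibniz towers -/
noncomputable def al (c : ℝ → ℝ) (σ : ℝ) (i : ℕ) (t : ℝ) : ℝ :=
  ∑ ij ∈ Finset.HasAntidiagonal.antidiagonal i, (i.choose ij.1 : ℝ) *
    (((σ⁻¹) ^ ij.1 * cut ij.1 (t / σ)) * bt c ij.2 (t + σ))

lemma al_deriv (hm : 0 ≤ m) (hc : ∀ n, |cf (es n) c| ≤ m) {σ : ℝ} (i : ℕ)
    {t : ℝ} (ht : -σ < t) : HasDerivAt (al c σ i) (al c σ (i + 1) t) t := by
  set f : ℕ → ℕ → ℝ := fun a b => ((σ⁻¹) ^ a * cut a (t / σ)) * bt c b (t + σ) with hf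
  have h1 : ∀ ij ∈ Finset.HasAntidiagonal.antidiagonal i, HasDerivAt (fun t => (i.choose ij.1 : ℝ) *
      (((σ⁻¹) ^ ij.1 * cut ij.1 (t / σ)) * bt c ij.2 (t + σ)))
      ((i.choose ij.1 : ℝ) * (f (ij.1 + 1) ij.2 + f ij.1 (ij.2 + 1))) t := by
    intro ij _
    have e1 : HasDerivAt (fun t => t / σ) (1 / σ) t := (hasDerivAt_id t).div_const σ
    have e2 : HasDerivAt (fun t => cut ij.1 (t / σ)) (cut (ij.1 + 1) (t / σ) * (1 / σ)) t :=
      HasDerivAt.comp t (h := fun t => t / σ) (cut_deriv ij.1 (t / σ)) e1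
    have e3 : HasDerivAt (fun t => bt c ij.2 (t + σ)) (bt c (ij.2 + 1) (t + σ)) t :=
      (bt_deriv hm hc ij.2 (by linarith : 0 < t + σ)).comp_add_const t σ
    refine (((e2.const_mul ((σ⁻¹) ^ ij.1)).mul e3).const_mul (i.choose ij.1 : ℝ)).congr_deriv ?_
    simp only [hf]
    rw [pow_succ]; ring
  have h2 := HasDerivAt.fun_sum h1
  have h3 : al c σ i = fun t => ∑ ij ∈ Finset.HasAntidiagonal.antidiagonal i, (i.choose ij.1 : ℝ) *
    (((σ⁻¹) ^ ij.1 * cut ij.1 (t / σ)) * bt c ij.2 (t + σ)) := rfl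
  rw [h3]
  refine h2.congr_deriv ?_
  have h4 : al c σ (i + 1) t = ∑ ij ∈ Finset.HasAntidiagonal.antidiagonal (i + 1), ((i + 1).choose ij.1 : ℝ) *
    f ij.1 ij.2 := rfl
  rw [h4, Finset.sum_antidiagonal_choose_succ_mul, ← Finset.sum_add_distrib]
  refine Finset.sum_congr rfl fun ij hij => ?_
  have h5 : i.choose ij.2 = i.choose ij.1 := by
    rw [Finset.HasAntidiagonal.mem_antidiagonal] at hij
    exact (Nat.choose_symm_of_eq_add hij.symm).symm
  rw [h5]; ring

/-- constant of the towers -/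
noncomputable def Kc (σ : ℝ) : ℝ := Cc * (√2 * (8 / (σ / 2) ^ 2 * ∑' n, dd n))

lemma ddsum_nonneg : 0 ≤ ∑' n, dd n := tsum_nonneg fun n => (dd_pos n).le

lemma Kc_nonneg {σ : ℝ} : 0 ≤ Kc σ := by
  unfold Kc
  have := Cc_pos
  have := ddsum_nonneg
  positivity

lemma al_le (hm : 0 ≤ m) (hc : ∀ n, |cf (es n) c| ≤ m) {σ : ℝ} (hσ : 0 < σ) (i : ℕ)
    {t : ℝ} (ht : -(σ / 2) < t) : |al c σ i t| ≤ (Kc σ * m) * wD (7 / σ) i := by
  unfold al
  refine (Finset.abs_sum_le_sum_abs _ _).trans ?_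
  have hCc := Cc_pos
  have hdd := ddsum_nonneg
  have h1 : ∀ ij ∈ Finset.HasAntidiagonal.antidiagonal i, |(i.choose ij.1 : ℝ) *
      (((σ⁻¹) ^ ij.1 * cut ij.1 (t / σ)) * bt c ij.2 (t + σ))| ≤
      (Kc σ * m) * ((i.factorial * √(i.factorial)) * (7 / σ) ^ i) := by
    intro ij hij
    rw [Finset.HasAntidiagonal.mem_antidiagonal] at hij
    rw [abs_mul, abs_mul, abs_mul, abs_of_nonneg (by positivity : (0:ℝ) ≤ (i.choose ij.1 : ℝ)),
      abs_of_nonneg (by positivity : (0:ℝ) ≤ (σ⁻¹) ^ ij.1)]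
    have e1 := cut_bound ij.1 (t / σ)
    have e2 := bt_le hm hc ij.2 (by positivity : 0 < σ / 2) (by linarith : σ / 2 ≤ t + σ)
    have e3 : (i.choose ij.1 : ℝ) * ij.1.factorial * ij.2.factorial = i.factorial := by
      have h5 : ij.1 ≤ i := by omega
      have h6 := Nat.choose_mul_factorial_mul_factorial h5
      have h7 : i - ij.1 = ij.2 := by omega
      rw [h7] at h6
      exact_mod_cast h6
    have e4 : √(ij.1.factorial : ℝ) ≤ √(i.factorial) := by
      apply Real.sqrt_le_sqrt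
      exact_mod_cast Nat.factorial_le (by omega)
    have e5 : (2 / (σ / 2)) ^ ij.2 ≤ (7 / σ) ^ ij.2 := by
      apply pow_le_pow_left₀ (by positivity)
      rw [div_div_eq_mul_div]
      gcongr; norm_num
    have e6 : (7 / σ) ^ i = (7 / σ) ^ ij.1 * (7 / σ) ^ ij.2 := by
      rw [← pow_add, hij]
    calc (i.choose ij.1 : ℝ) * ((σ⁻¹) ^ ij.1 * |cut ij.1 (t / σ)| * |bt c ij.2 (t + σ)|) ≤
        (i.choose ij.1 : ℝ) * ((σ⁻¹) ^ ij.1 *
          (Cc * (7 ^ ij.1 * (ij.1.factorial * √(ij.1.factorial)))) *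
          ((√2 * (8 / (σ / 2) ^ 2 * ∑' n, dd n)) * m *
            (ij.2.factorial * (2 / (σ / 2)) ^ ij.2))) := by
          gcongr
      _ ≤ (i.choose ij.1 : ℝ) * ((σ⁻¹) ^ ij.1 *
          (Cc * (7 ^ ij.1 * (ij.1.factorial * √(i.factorial)))) *
          ((√2 * (8 / (σ / 2) ^ 2 * ∑' n, dd n)) * m *
            (ij.2.factorial * (7 / σ) ^ ij.2))) := by
          gcongr
      _ = (Kc σ * m) * (((i.choose ij.1 : ℝ) * ij.1.factorial * ij.2.factorial) *
          √(i.factorial) * (((7 * σ⁻¹) ^ ij.1) * (7 / σ) ^ ij.2)) := by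
          unfold Kc; rw [mul_pow]; ring
      _ = _ := by rw [e3, ← div_eq_mul_inv, ← e6]
  refine (Finset.sum_le_sum h1).trans (le_of_eq ?_)
  rw [Finset.sum_const, Finset.Nat.card_antidiagonal, nsmul_eq_mul]
  unfold wD; push_cast; ring

lemma al_zero (c : ℝ → ℝ) (σ : ℝ) (i : ℕ) : al c σ i 0 = bt c i σ := by
  unfold al
  rw [Finset.sum_eq_single (0, i)]
  · simp [cut_left le_rfl]
  · rintro ⟨a, b⟩ hab hne
    rw [Finset.HasAntidiagonal.mem_antidiagonal] at hab
    simp only at hab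
    have ha : a ≠ 0 := by
      rintro rfl
      apply hne
      rw [zero_add] at hab
      rw [hab]
    obtain ⟨a', rfl⟩ := Nat.exists_eq_succ_of_ne_zero ha
    simp only [zero_div]
    rw [cut_left' le_rfl]; ring
  · intro h
    exact absurd (Finset.HasAntidiagonal.mem_antidiagonal.2 (zero_add i)) h

lemma al_end (c : ℝ → ℝ) {σ : ℝ} (hσ : 0 < σ) (i : ℕ) {t : ℝ} (ht : σ ≤ t) :
    al c σ i t = 0 := by
  unfold al
  refine Finset.sum_eq_zero fun ij _ => ?_
  rw [cut_right ((one_le_div hσ).2 ht)]; ring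

/-- the series reproduces the heat flow -/
lemma hs_init (hm : 0 ≤ m) (hc : ∀ n, |cf (es n) c| ≤ m) {σ : ℝ} (hσ : 0 < σ) {x : ℝ}
    (hx : x ∈ Icc (0:ℝ) 1) : hs (al c σ) 0 x = SS c σ x := by
  unfold hs SS
  simp_rw [al_zero]
  set T : ℕ → ℕ → ℝ := fun i n => √2 * cf (es n) c * kk n *
    ((-(lam n)) ^ i * Real.exp (-(lam n) * σ)) * (x ^ (2 * i + 1) / (2 * i + 1).factorial) with hT
  have e1 : ∀ i, bt c i σ * (x ^ (2 * i + 1) / (2 * i + 1).factorial) = ∑' n, T i n := by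
    intro i
    unfold bt
    rw [← tsum_mul_right]
  simp_rw [e1]
  have e2 : ∀ n, Real.exp (-(lam n) * σ) * cf (es n) c * es n x = ∑' i, T i n := by
    intro n
    have h1 := (Real.hasSum_sin (kk n * x)).mul_left (√2 * cf (es n) c * Real.exp (-(lam n) * σ))
    have h2 : ∀ i, T i n = √2 * cf (es n) c * Real.exp (-(lam n) * σ) *
        ((-1) ^ i * (kk n * x) ^ (2 * i + 1) / (2 * i + 1).factorial) := by
      intro i
      simp only [hT]
      have h3 : kk n * (-(lam n)) ^ i = (-1) ^ i * kk n ^ (2 * i + 1) := by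
        unfold lam
        rw [neg_pow, ← pow_mul, pow_succ]; ring
      rw [mul_pow]
      calc _ = √2 * cf (es n) c * (kk n * (-(lam n)) ^ i) * Real.exp (-(lam n) * σ) *
            (x ^ (2 * i + 1) / (2 * i + 1).factorial) := by ring
        _ = _ := by rw [h3]; ring
    simp_rw [h2]
    rw [h1.tsum_eq]
    unfold es; ring
  simp_rw [e2]
  -- summability on the product
  have hsum : Summable (Function.uncurry T) := by
    have h1 : Summable fun i : ℕ => (2 / σ) ^ i / i.factorial :=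
      Real.summable_pow_div_factorial (2 / σ)
    have h2 : Summable fun n : ℕ => √2 * m * (8 / σ ^ 2 * dd n) :=
      (dd_summable.mul_left _).mul_left _
    have h3 := h1.mul_of_nonneg h2 (fun i => by positivity) (fun n => by
      have := dd_pos n; positivity)
    refine Summable.of_norm_bounded h3 ?_
    rintro ⟨i, n⟩
    simp only [Function.uncurry, hT]
    rw [norm_mul]
    have b1 := bt_term hm hc i n hσ le_rfl
    have b2 : ‖x ^ (2 * i + 1) / ((2 * i + 1).factorial : ℝ)‖ ≤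
        1 / ((i.factorial : ℝ) * i.factorial) := by
      rw [Real.norm_eq_abs, abs_div, abs_pow, abs_of_nonneg hx.1, Nat.abs_cast]
      have h4 : x ^ (2 * i + 1) ≤ 1 := pow_le_one₀ hx.1 hx.2
      have h5 : (i.factorial : ℝ) * i.factorial ≤ ((2 * i + 1).factorial : ℕ) := by
        have h6 := Nat.le_of_dvd (Nat.factorial_pos _)
          (Nat.factorial_mul_factorial_dvd_factorial_add i i)
        rw [← two_mul] at h6
        have h7 := h6.trans (Nat.factorial_le (Nat.le_succ (2 * i)))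
        exact_mod_cast h7
      exact div_le_div₀ zero_le_one h4 (by positivity) h5
    calc _ ≤ (√2 * m * (i.factorial * (2 / σ) ^ i) * (8 / σ ^ 2 * dd n)) *
          (1 / ((i.factorial : ℝ) * i.factorial)) :=
          mul_le_mul b1 b2 (norm_nonneg _) (by have := dd_pos n; positivity)
      _ = _ := by
          have : (i.factorial : ℝ) ≠ 0 := by positivity
          field_simp
  exact hsum.tsum_comm.symm

/-- cost of the flat control -/
noncomputable def Gam (σ : ℝ) : ℝ := 8 * Kc σ * Real.exp (4 * (8 * (7 / σ)) ^ 2)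

lemma Gam_nonneg (σ : ℝ) : 0 ≤ Gam σ := by
  unfold Gam; have := Kc_nonneg (σ := σ); positivity

/-- **Flat control.** -/
theorem flat (hm : 0 ≤ m) (hc : ∀ n, |cf (es n) c| ≤ m) {σ : ℝ} (hσ : 0 < σ) :
    ∃ h hx hxx : ℝ → ℝ → ℝ, Bg h hx hxx (fun _ => 0) σ ∧
      (∀ x ∈ Icc (0:ℝ) 1, h 0 x = SS c σ x) ∧ (∀ x ∈ Icc (0:ℝ) 1, h σ x = 0) ∧
      (∀ t ∈ Icc 0 σ, ∀ x ∈ Icc (0:ℝ) 1, |h t x| ≤ Gam σ * m ∧ |hx t x| ≤ Gam σ * m ∧
        |hxx t x| ≤ Gam σ * m) := by
  set α := al c σ with hα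
  set I : Set ℝ := Ioi (-(σ / 2)) with hI
  have hD : 0 ≤ 7 / σ := by positivity
  have hK : 0 ≤ Kc σ * m := by have := Kc_nonneg (σ := σ); positivity
  have hb : ∀ i, ∀ t ∈ I, |α i t| ≤ (Kc σ * m) * wD (7 / σ) i := fun i t ht =>
    al_le hm hc hσ i ht
  have hsub : Icc 0 σ ⊆ I := fun t ht => by
    simp only [hI, mem_Ioi]; linarith [ht.1]
  have hd : ∀ i, ∀ t ∈ I, HasDerivAt (α i) (α (i + 1) t) t := fun i t ht =>
    al_deriv hm hc i (by have := mem_Ioi.1 ht; linarith)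
  have hcont : ∀ i, ContinuousOn (α i) I := fun i t ht => (hd i t ht).continuousAt.continuousWithinAt
  have hx2 : ∀ x ∈ Icc (0:ℝ) 1, |x| < 2 := fun x hx => by
    rw [abs_of_nonneg hx.1]; linarith [hx.2]
  have hG : 8 * (Kc σ * m) * Real.exp (4 * (8 * (7 / σ)) ^ 2) = Gam σ * m := by
    unfold Gam; ring
  refine ⟨hs α, hsx α, hsxx α, ?_, fun x hx => hs_init hm hc hσ hx, ?_, ?_⟩
  · exact
    { c0 := (hs_cont hD hK hb hcont).mono (prod_mono hsub le_rfl)
      c1 := (hsx_cont hD hK hb hcont).mono (prod_mono hsub le_rfl)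
      c2 := (hsxx_cont hD hK hb hcont).mono (prod_mono hsub le_rfl)
      cu := continuous_const
      dx := fun t ht x hx => hs_dx hD hK hb (hsub ht) (hx2 x hx)
      dxx := fun t ht x hx => hs_dxx hD hK hb (hsub ht) (hx2 x hx)
      dt := fun t ht x hx => by
        have := hs_dt hD hK hb isOpen_Ioi isPreconnected_Ioi hd (hsub ht) (hx2 x hx).le
        simpa using this
      z0 := fun t _ => by unfold hs; simp }
  · intro x _
    unfold hs
    simp_rw [hα, al_end c hσ _ le_rfl]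
    simp
  · intro t ht x hx
    have h1 := hs_le hD hK hb (hsub ht) (hx2 x hx).le
    have h2 := hsx_le hD hK hb (hsub ht) (hx2 x hx).le
    have h3 := hsxx_le hD hK hb (hsub ht) (hx2 x hx).le
    rw [hG] at h1 h2 h3
    exact ⟨h1, h2, h3⟩

end Pool.Agent.Y308.BC
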