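import Pool.Agent.Y308.BC.Theta

/-! # Free evolution: decay to a small sup norm -/

set_option autoImplicit false

open MeasureTheory Set Real Filter Topology intervalIntegral
open scoped ENNReal NNReal

namespace Pool.Agent.Y308.BC

/-- heat smoothing constant -/
noncomputable def ET (t : ℝ) : ℝ := ∑' n, Real.exp (-(lam n) * t)

lemma ET_nonneg (t : ℝ) : 0 ≤ ET t := tsum_nonneg fun n => (Real.exp_pos _).le

lemma ET_anti {s t : ℝ} (hs : 0 < s) (hst : s ≤ t) : ET t ≤ ET s := by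
  unfold ET
  refine Summable.tsum_le_tsum (fun n => ?_) (exp_lam_summable (hs.trans_le hst))
    (exp_lam_summable hs)
  apply Real.exp_le_exp.2
  have := lam_pos n
  nlinarith

lemma SS_le_L2 {c : ℝ → ℝ} (hc : MemLp c 2 mu) {B : ℝ} (hB : 0 ≤ B)
    (h : ∫ x in (0:ℝ)..1, c x ^ 2 ≤ B ^ 2) {t : ℝ} (ht : 0 < t) (x : ℝ) :
    |SS c t x| ≤ √2 * ET t * B := by
  have hs := ser_summable (SS_coef_summable hc ht) x
  have h1 : |SS c t x| ≤ ∑' n, Real.exp (-(lam n) * t) * (√2 * B) := by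
    have := norm_tsum_le_tsum_norm hs.norm
    rw [Real.norm_eq_abs] at this
    refine this.trans ?_
    refine Summable.tsum_le_tsum (fun n => ?_) hs.norm ((exp_lam_summable ht).mul_right _)
    rw [norm_mul, Real.norm_eq_abs, Real.norm_eq_abs, abs_mul, abs_of_pos (Real.exp_pos _),
      mul_assoc]
    refine mul_le_mul_of_nonneg_left ?_ (Real.exp_pos _).le
    rw [mul_comm (√2)]
    exact mul_le_mul (cf_abs_le hc hB h n) (es_le n x) (abs_nonneg _) hB
  refine h1.trans (le_of_eq ?_)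
  rw [tsum_mul_right]
  unfold ET; ring

lemma zero_bg (τ : ℝ) : Bg (fun _ _ => 0) (fun _ _ => 0) (fun _ _ => 0) (fun _ => 0) τ where
  c0 := continuousOn_const
  c1 := continuousOn_const
  c2 := continuousOn_const
  cu := continuous_const
  dx := fun t _ x _ => hasDerivAt_const x _
  dxx := fun t _ x _ => hasDerivAt_const x _
  dt := fun t _ x _ => by
    have := hasDerivAt_const (c := (0:ℝ)) (x := t)
    simpa using this
  z0 := fun t _ => rfl

/-- `L²` norms decrease for the free evolution -/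
lemma free_L2 {p M τ B : ℝ} (hp : 0 < p) (hM : 0 ≤ M) (hτ : 0 < τ) {c : ℝ → ℝ}
    (hcM : MemLp c 2 mu) {F : ℝ → ℝ → ℝ} (hF : Adm F B)
    (hFG : ∀ s ∈ Ioc 0 τ, ∀ z ∈ Icc (0:ℝ) 1, F s z = GG p M (0 + RR c F s z)) :
    ∫ x in (0:ℝ)..1, RR c F τ x ^ 2 ≤ ∫ x in (0:ℝ)..1, c x ^ 2 := by
  have hE := energy_ineq (ρ := fun _ => 1) (ρ' := fun _ => 0) (θ := fun _ => 1) (θ' := fun _ => 0)
    (Θ := 1) (η := 0) hcM hF hτ (GG_lip (M := M) hp hM) (h := fun _ _ => 0)
    (fun s _ => continuousOn_const) hFG (fun x => hasDerivAt_const x 1) continuous_const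
    (fun t => hasDerivAt_const t 1) (fun s _ => zero_le_one) (fun s _ => le_rfl) ?_
  · simpa using hE
  · intro s hs J a q q' hqe hqe'
    have hqd : ∀ x, HasDerivAt q (q' x) x := by
      intro x
      have h1 := HasDerivAt.fun_sum (u := Finset.range J) (A := fun n x => a n * es n x)
        (A' := fun n => a n * (kk n * ec n x)) (x := x)
        (fun n _ => (hasDerivAt_es n x).const_mul _)
      have h2 : q = fun x => ∑ n ∈ Finset.range J, a n * es n x := funext hqe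
      rw [h2, hqe' x]
      exact h1
    have hqc' : Continuous q' := by
      have h2 : q' = fun x => ∑ n ∈ Finset.range J, a n * (kk n * ec n x) := funext hqe'
      rw [h2]; fun_prop
    have hqc : Continuous q := continuous_iff_continuousAt.2 fun x => (hqd x).continuousAt
    have hq0 : q 0 = 0 := by rw [hqe]; simp [es_zero]
    have hq1 : q 1 = 0 := by rw [hqe]; simp [es_one]
    have hGc : Continuous (GG p M) := GG_cont hp
    have c1 : Continuous fun x => q' x ^ 2 := by fun_prop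
    have c2 : Continuous fun x => GG p M (q x) * q' x := by fun_prop
    have e1 : ∫ x in (0:ℝ)..1, (0 * q x + 1 * q' x) * (q' x + GG p M (0 + q x)) =
        (∫ x in (0:ℝ)..1, q' x ^ 2) + ∫ x in (0:ℝ)..1, GG p M (q x) * q' x := by
      rw [← intervalIntegral.integral_add (c1.intervalIntegrable _ _) (c2.intervalIntegrable _ _)]
      congr 1; funext x; rw [zero_add]; ring
    have e2 : ∫ x in (0:ℝ)..1, GG p M (q x) * q' x = 0 := by
      rw [intervalIntegral.integral_eq_sub_of_hasDerivAt (f := fun x => QQ p M (q x))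
        (fun x _ => HasDerivAt.comp x (h := q) (QQ_deriv hp (q x)) (hqd x))
        (c2.intervalIntegrable _ _), hq0, hq1, sub_self]
    have e3 : 0 ≤ ∫ x in (0:ℝ)..1, q' x ^ 2 :=
      intervalIntegral.integral_nonneg zero_le_one fun x _ => sq_nonneg _
    rw [e1, e2]
    linarith

theorem free_phase {p M τ ε : ℝ} (hp : 0 < p) (hp1 : p ≤ 1/2) (hM : 0 ≤ M) (hτ : 0 < τ)
    {g : ℝ → ℝ} (hg : Measurable g) (hgb : ∀ x ∈ Icc (0:ℝ) 1, |g x| ≤ M) (hε : 0 ≤ ε)
    (hg2 : ∫ x in (0:ℝ)..1, g x ^ 2 ≤ ε ^ 2)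
    (hs : √2 * C0 * (8 * τ ^ (1/8 : ℝ) * ((3/2) * (M + 1) * ε)) ≤ 1) :
    ∃ (Y P : ℝ → ℝ → ℝ) (K : ℝ), Sol p 0 τ Y P (fun _ => 0) (fun _ => 0) (M + 1) K 0 0 ∧
      (∀ x, Y 0 x = g x) ∧ ∀ x ∈ Icc (0:ℝ) 1, |Y τ x| ≤ √2 * ET τ * ε +
        √2 * C0 * (8 * τ ^ (1/8 : ℝ) * ((3/2) * (M + 1) * ε)) := by
  have hC := C0_nonneg
  have hM1 : 0 ≤ M + 1 := by linarith
  set c := cc g (fun _ _ => 0) with hcdef
  have hcm : Measurable c := cc_meas hg continuousOn_const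
  have hcb : ∀ x ∈ Ioo (0:ℝ) 1, |c x| ≤ M := by
    intro x hx
    have hx' := Ioo_subset_Icc_self hx
    rw [hcdef, cc_eq hx', sub_zero]
    exact hgb x hx'
  have hcM : MemLp c 2 mu := memLp_bdd hcm hcb
  have hc2 : ∫ x in (0:ℝ)..1, c x ^ 2 ≤ ε ^ 2 := by
    refine le_trans (le_of_eq ?_) hg2
    refine intervalIntegral.integral_congr fun x hx => ?_
    rw [uIcc_of_le zero_le_one] at hx
    rw [hcdef, cc_eq hx, sub_zero]
  set L := (1 + p) * (M + 1) ^ p with hLdef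
  have hL0 : 0 ≤ L := by positivity
  have hL1 : L ≤ (3/2) * (M + 1) := by
    have h1 : (M + 1) ^ p ≤ (M + 1) ^ (1:ℝ) :=
      Real.rpow_le_rpow_of_exponent_le (by linarith) (by linarith)
    rw [Real.rpow_one] at h1
    rw [hLdef]
    have h2 : 0 ≤ (M + 1) ^ p := by positivity
    nlinarith
  obtain ⟨F, B, hF, hFG⟩ := exists_fix (G := GG p (M + 1)) hL0 (GG_lip hp hM1)
    (h := fun _ _ => 0) continuousOn_const (H := 0)
    (fun s _ z _ => by simp) hcm hM hcb hτ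
  have hr2 : ∀ s ∈ Ioc 0 τ, ∫ x in (0:ℝ)..1, RR c F s x ^ 2 ≤ ε ^ 2 := by
    intro s hs
    exact (free_L2 hp hM1 hs.1 hcM hF
      (fun s' hs' => hFG s' ⟨hs'.1, hs'.2.trans hs.2⟩)).trans hc2
  have hFsq : ∀ s ∈ Ioc 0 τ, ∫ x in (0:ℝ)..1, F s x ^ 2 ≤ (L * ε) ^ 2 := by
    intro s hs
    have i1 := (ii_sq (RR_mem hcM hF hs.1)).const_mul (L ^ 2)
    have h1 : ∫ x in (0:ℝ)..1, F s x ^ 2 ≤ ∫ x in (0:ℝ)..1, L ^ 2 * RR c F s x ^ 2 := by
      refine intervalIntegral.integral_mono_on zero_le_one (ii_sq (hF.memLp hs.1)) i1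
        fun x hx => ?_
      rw [hFG s hs x hx, zero_add]
      have h2 := GG_abs_le hp hM1 (RR c F s x)
      rw [← hLdef] at h2
      rw [← sq_abs, ← sq_abs (RR c F s x), ← mul_pow]
      exact pow_le_pow_left₀ (abs_nonneg _) h2 2
    rw [intervalIntegral.integral_const_mul] at h1
    rw [mul_pow]
    exact h1.trans (mul_le_mul_of_nonneg_left (hr2 s hs) (sq_nonneg L))
  have hLε : 0 ≤ L * ε := by positivity
  have hN : ∀ s ∈ Ioc 0 τ, ∀ x : ℝ, |NN F s x| ≤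
      √2 * C0 * (8 * τ ^ (1/8 : ℝ) * ((3/2) * (M + 1) * ε)) := by
    intro s hs x
    refine (NN_le_const hF hs.1.le x hLε (fun u hu => hFsq u ⟨hu.1, hu.2.le.trans hs.2⟩)).trans ?_
    have h2 : s ^ (1/8 : ℝ) ≤ τ ^ (1/8 : ℝ) := Real.rpow_le_rpow hs.1.le hs.2 (by norm_num)
    have h3 : L * ε ≤ (3/2) * (M + 1) * ε := mul_le_mul_of_nonneg_right hL1 hε
    have h4 : 0 ≤ s ^ (1/8 : ℝ) := Real.rpow_nonneg hs.1.le _
    gcongr
  have hYM : ∀ s ∈ Ioc 0 τ, ∀ z ∈ Icc (0:ℝ) 1, |0 + RR c F s z| ≤ M + 1 := by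
    intro s hs' z hz
    rw [zero_add]
    unfold RR
    exact (abs_add_le _ _).trans (add_le_add (SS_le hcm hM hcb hs'.1 hz) ((hN s hs' z).trans hs))
  obtain ⟨Y, P, hSol, hY0, hYt⟩ := mk_sol (v := fun _ => (0:ℝ)) (Λ := 0) (U := 0) (H1 := 0)
    hp hM1 hτ hg (fun x hx => (hgb x hx).trans (by linarith)) (zero_bg τ)
    (fun t _ x _ => by simp) hM hcb hF hFG hYM (fun t _ => by simp) (fun t _ => rfl) rfl rfl
    (fun s _ t _ => by simp)
  refine ⟨Y, P, _, hSol, hY0, fun x hx => ?_⟩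
  rw [hYt τ ⟨hτ, le_rfl⟩ x hx, zero_add]
  unfold RR
  exact (abs_add_le _ _).trans (add_le_add (SS_le_L2 hcM hε hc2 hτ x) (hN τ ⟨hτ, le_rfl⟩ x))

end Pool.Agent.Y308.BC
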