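import Pool.Agent.Y308.BC.Heat

/-! # The sup bound of the Dirichlet heat flow, from the Gaussian kernel -/

set_option autoImplicit false

open MeasureTheory Set Real Filter Topology intervalIntegral ProbabilityTheory
open scoped ENNReal NNReal

namespace Pool.Agent.Y308.BC

/-- reduction modulo `2` to `[-1,1)` -/
noncomputable def rr (y : ℝ) : ℝ := 2 * Int.fract ((y + 1) / 2) - 1

lemma rr_meas : Measurable rr := by
  unfold rr
  have : Measurable fun y : ℝ => (y + 1) / 2 := by fun_prop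
  exact ((measurable_fract.comp this).const_mul 2).sub_const 1

lemma rr_per (y : ℝ) : rr (y + 2) = rr y := by
  unfold rr
  have : (y + 2 + 1) / 2 = (y + 1) / 2 + 1 := by ring
  rw [this, Int.fract_add_one]

lemma rr_mem (y : ℝ) : -1 ≤ rr y ∧ rr y < 1 := by
  unfold rr
  have h1 := Int.fract_nonneg ((y + 1) / 2)
  have h2 := Int.fract_lt_one ((y + 1) / 2)
  constructor <;> linarith

lemma rr_self {y : ℝ} (h1 : -1 ≤ y) (h2 : y < 1) : rr y = y := by
  unfold rr
  rw [Int.fract_eq_self.2 ⟨by linarith, by linarith⟩]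
  ring

lemma rr_neg {y : ℝ} (h : rr y ≠ -1) : rr (-y) = - rr y := by
  unfold rr at h ⊢
  have h0 : Int.fract ((y + 1) / 2) ≠ 0 := by
    intro h0; apply h; rw [h0]; norm_num
  have e : (-y + 1) / 2 = -((y + 1) / 2) + 1 := by ring
  rw [e, Int.fract_add_one, Int.fract_neg h0]
  ring

lemma rr_neg' {y : ℝ} (h : rr y = -1) : rr (-y) = -1 := by
  unfold rr at h ⊢
  have h0 : Int.fract ((y + 1) / 2) = 0 := by linarith
  have e : (-y + 1) / 2 = -((y + 1) / 2) + 1 := by ring
  rw [e, Int.fract_add_one]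
  have h1 : Int.fract (-((y + 1) / 2)) = 0 := by
    rw [Int.fract_neg_eq_zero]; exact h0
  rw [h1]; norm_num

/-- odd `2`-periodic extension of `c` from `(0,1)` -/
noncomputable def ext (c : ℝ → ℝ) (y : ℝ) : ℝ :=
  if 0 < rr y then c (rr y) else if rr y < 0 ∧ -1 < rr y then -c (-(rr y)) else 0

lemma ext_meas {c : ℝ → ℝ} (hc : Measurable c) : Measurable (ext c) := by
  unfold ext
  refine Measurable.ite (measurableSet_lt measurable_const rr_meas) (hc.comp rr_meas) ?_
  refine Measurable.ite ?_ (hc.comp rr_meas.neg).neg measurable_const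
  exact (measurableSet_lt rr_meas measurable_const).inter (measurableSet_lt measurable_const rr_meas)

lemma ext_per (c : ℝ → ℝ) (y : ℝ) : ext c (y + 2) = ext c y := by
  unfold ext; rw [rr_per]

lemma ext_odd (c : ℝ → ℝ) (y : ℝ) : ext c (-y) = -ext c y := by
  unfold ext
  by_cases h : rr y = -1
  · rw [rr_neg' h, h]
    norm_num
  · rw [rr_neg h]
    have h3 : -1 < rr y := lt_of_le_of_ne (rr_mem y).1 (Ne.symm h)
    rcases lt_trichotomy (rr y) 0 with h1 | h1 | h1
    · rw [if_pos (by linarith), if_neg (by linarith), if_pos ⟨h1, h3⟩, neg_neg]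
    · rw [h1]; norm_num
    · rw [if_neg (by linarith), if_pos ⟨by linarith, by linarith [(rr_mem y).2]⟩, if_pos h1, neg_neg]

lemma ext_le {c : ℝ → ℝ} {m : ℝ} (hm : 0 ≤ m) (hc : ∀ x ∈ Ioo (0:ℝ) 1, |c x| ≤ m) (y : ℝ) :
    |ext c y| ≤ m := by
  unfold ext
  have h1 := rr_mem y
  split_ifs with h2 h3
  · exact hc _ ⟨h2, h1.2⟩
  · rw [abs_neg]; exact hc _ ⟨by linarith [h3.1], by linarith [h3.2]⟩
  · simpa using hm

lemma ext_self (c : ℝ → ℝ) {y : ℝ} (hy : y ∈ Ioo (0:ℝ) 1) : ext c y = c y := by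
  unfold ext
  rw [rr_self (by linarith [hy.1]) hy.2, if_pos hy.1]

lemma ext_ii {c : ℝ → ℝ} (hc : Measurable c) {m : ℝ} (hm : 0 ≤ m)
    (hb : ∀ x ∈ Ioo (0:ℝ) 1, |c x| ≤ m) (φ : ℝ → ℝ) (hφ : Continuous φ) (a b : ℝ) :
    IntervalIntegrable (fun y => ext c y * φ y) volume a b := by
  have h1 : IntervalIntegrable (ext c) volume a b := by
    refine (intervalIntegrable_const (c := m)).mono_fun (ext_meas hc).aestronglyMeasurable ?_
    refine Eventually.of_forall fun x => ?_
    simp only [Real.norm_eq_abs]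
    rw [abs_of_nonneg hm]; exact ext_le hm hb x
  exact h1.mul_continuousOn hφ.continuousOn

/-- splitting an integral over `(-1,1)` for an odd integrand pair -/
lemma int_symm {g : ℝ → ℝ} (hg : IntervalIntegrable g volume (-1) 1) :
    ∫ x in (-1:ℝ)..1, g x = ∫ x in (0:ℝ)..1, (g x + g (-x)) := by
  have h1 : IntervalIntegrable g volume (-1) 0 := hg.mono_set (by
    rw [uIcc_of_le (by norm_num), uIcc_of_le (by norm_num)]
    exact Icc_subset_Icc le_rfl zero_le_one)
  have h2 : IntervalIntegrable g volume 0 1 := hg.mono_set (by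
    rw [uIcc_of_le (by norm_num), uIcc_of_le (by norm_num)]
    exact Icc_subset_Icc (by norm_num) le_rfl)
  have h3 : IntervalIntegrable (fun x => g (-x)) volume 0 1 := by
    rw [IntervalIntegrable.iff_comp_neg (by finiteness)] at h1
    rw [neg_neg, neg_zero] at h1
    exact h1.symm
  have h4 : ∫ x in (0 : ℝ)..1, g (-x) = ∫ x in (-1:ℝ)..0, g x := by
    rw [intervalIntegral.integral_comp_neg, neg_zero]
  rw [intervalIntegral.integral_add h2 h3, h4, add_comm,
    intervalIntegral.integral_add_adjacent_intervals h1 h2]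

lemma ext_shift {c : ℝ → ℝ} (hc : Measurable c) {m : ℝ} (hm : 0 ≤ m)
    (hb : ∀ x ∈ Ioo (0:ℝ) 1, |c x| ≤ m) (n : ℕ) (a : ℝ) :
    ∫ x in (-1:ℝ)..1, ext c (x + a) * Real.sin (kk n * x) =
      Real.cos (kk n * a) * (2 * ∫ x in (0:ℝ)..1, c x * Real.sin (kk n * x)) := by
  have h1 : ∫ x in (-1:ℝ)..1, ext c (x + a) * Real.sin (kk n * x) =
      ∫ y in (-1 + a)..(1 + a), ext c y * Real.sin (kk n * (y - a)) := by
    rw [← intervalIntegral.integral_comp_add_right
      (fun y => ext c y * Real.sin (kk n * (y - a))) a]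
    congr 1
    funext x
    rw [add_sub_cancel_right]
  have hper : Function.Periodic (fun y => ext c y * Real.sin (kk n * (y - a))) 2 := by
    intro y
    change ext c (y + 2) * Real.sin (kk n * (y + 2 - a)) = ext c y * Real.sin (kk n * (y - a))
    rw [ext_per]
    congr 1
    have e : kk n * (y + 2 - a) = kk n * (y - a) + ((n + 1 : ℕ) : ℝ) * (2 * π) := by
      unfold kk; push_cast; ring
    rw [e, Real.sin_add_nat_mul_two_pi]
  have h2 := hper.intervalIntegral_add_eq (-1 + a) (-1)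
  have e1 : (-1 + a + 2 : ℝ) = 1 + a := by ring
  have e2 : (-1 + 2 : ℝ) = 1 := by norm_num
  rw [e1, e2] at h2
  rw [h1, h2]
  have h3 : ∀ y, ext c y * Real.sin (kk n * (y - a)) =
      Real.cos (kk n * a) * (ext c y * Real.sin (kk n * y)) -
        Real.sin (kk n * a) * (ext c y * Real.cos (kk n * y)) := by
    intro y
    rw [mul_sub, Real.sin_sub]; ring
  simp_rw [h3]
  have i1 := ext_ii hc hm hb (fun y => Real.sin (kk n * y)) (by fun_prop) (-1) 1
  have i2 := ext_ii hc hm hb (fun y => Real.cos (kk n * y)) (by fun_prop) (-1) 1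
  rw [intervalIntegral.integral_sub (i1.const_mul _) (i2.const_mul _),
    intervalIntegral.integral_const_mul, intervalIntegral.integral_const_mul,
    int_symm i1, int_symm i2]
  have h4 : ∫ x in (0:ℝ)..1, (ext c x * Real.cos (kk n * x) + ext c (-x) * Real.cos (kk n * -x)) = 0 := by
    have : ∀ x, ext c x * Real.cos (kk n * x) + ext c (-x) * Real.cos (kk n * -x) = 0 := by
      intro x
      rw [ext_odd, mul_neg, Real.cos_neg]; ring
    simp_rw [this]
    simp
  have h5 : ∫ x in (0:ℝ)..1, (ext c x * Real.sin (kk n * x) + ext c (-x) * Real.sin (kk n * -x)) =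
      2 * ∫ x in (0:ℝ)..1, c x * Real.sin (kk n * x) := by
    rw [← intervalIntegral.integral_const_mul, ← ioo_int, ← ioo_int]
    refine setIntegral_congr_fun measurableSet_Ioo fun x hx => ?_
    rw [ext_odd, mul_neg, Real.sin_neg, ext_self c hx]; ring
  rw [h4, h5]
  ring

lemma gauss_cos (s : ℝ) : ∫ z, Real.cos (s * z) ∂(gaussianReal 0 1) = Real.exp (-(s ^ 2 / 2)) := by
  have h1 := charFun_gaussianReal (μ := 0) (v := 1) s
  rw [charFun_apply_real] at h1
  have h2 := congrArg Complex.re h1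
  have h3 : (Complex.exp ((s:ℂ) * ((0:ℝ):ℂ) * Complex.I - ((1:ℝ≥0):ℂ) * (s:ℂ) ^ 2 / 2)).re =
      Real.exp (-(s ^ 2 / 2)) := by
    have : ((s:ℂ) * ((0:ℝ):ℂ) * Complex.I - ((1:ℝ≥0):ℂ) * (s:ℂ) ^ 2 / 2) =
        ((-(s ^ 2 / 2) : ℝ) : ℂ) := by
      push_cast; ring
    rw [this, Complex.exp_ofReal_re]
  rw [h3] at h2
  rw [← h2]
  have hint : Integrable (fun x : ℝ => Complex.exp ((s:ℂ) * (x:ℂ) * Complex.I)) (gaussianReal 0 1) := by
    refine Integrable.of_bound (by fun_prop) 1 (Eventually.of_forall fun x => ?_)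
    have : (s:ℂ) * (x:ℂ) * Complex.I = ((s * x : ℝ) : ℂ) * Complex.I := by push_cast; ring
    rw [this, Complex.norm_exp_ofReal_mul_I]
  have h4 := integral_re hint
  simp only [RCLike.re_eq_complex_re] at h4
  rw [← h4]
  congr 1
  funext x
  have : (s:ℂ) * (x:ℂ) * Complex.I = ((s * x : ℝ) : ℂ) * Complex.I := by push_cast; ring
  rw [this, Complex.exp_ofReal_mul_I_re]

/-- the Gaussian average of the extension -/
noncomputable def WW (c : ℝ → ℝ) (t x : ℝ) : ℝ := ∫ z, ext c (x + √(2 * t) * z) ∂(gaussianReal 0 1)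

lemma WW_le {c : ℝ → ℝ} {m : ℝ} (hm : 0 ≤ m) (hb : ∀ x ∈ Ioo (0:ℝ) 1, |c x| ≤ m) (t x : ℝ) :
    |WW c t x| ≤ m := by
  unfold WW
  have := norm_integral_le_of_norm_le_const (μ := gaussianReal 0 1)
    (f := fun z => ext c (x + √(2 * t) * z)) (C := m)
    (Eventually.of_forall fun z => by rw [Real.norm_eq_abs]; exact ext_le hm hb _)
  simpa using this

lemma WW_meas {c : ℝ → ℝ} (hc : Measurable c) (t : ℝ) : Measurable (WW c t) := by
  unfold WW
  have h1 : Measurable (fun p : ℝ × ℝ => ext c (p.1 + √(2 * t) * p.2)) :=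
    (ext_meas hc).comp (by fun_prop)
  exact (h1.stronglyMeasurable.integral_prod_right (ν := gaussianReal 0 1)).measurable

lemma WW_odd (c : ℝ → ℝ) (t x : ℝ) : WW c t (-x) = -WW c t x := by
  unfold WW
  have h1 : ∫ z, ext c (x + √(2 * t) * z) ∂(gaussianReal 0 1) =
      ∫ z, ext c (x + √(2 * t) * (-z)) ∂(gaussianReal 0 1) := by
    have h2 : (gaussianReal 0 1) = (gaussianReal 0 1).map (fun x : ℝ => -x) := by
      rw [gaussianReal_map_neg, neg_zero]
    conv_lhs => rw [h2]
    have := (MeasurableEquiv.neg ℝ).measurableEmbedding.integral_map (μ := gaussianReal 0 1)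
      (fun z => ext c (x + √(2 * t) * z))
    exact this
  rw [h1, ← MeasureTheory.integral_neg]
  congr 1
  funext z
  rw [← ext_odd]
  congr 1
  ring

lemma WW_coef {c : ℝ → ℝ} (hc : Measurable c) {m : ℝ} (hm : 0 ≤ m)
    (hb : ∀ x ∈ Ioo (0:ℝ) 1, |c x| ≤ m) (n : ℕ) {t : ℝ} (ht : 0 < t) :
    ∫ x in (0:ℝ)..1, WW c t x * Real.sin (kk n * x) =
      Real.exp (-(lam n) * t) * ∫ x in (0:ℝ)..1, c x * Real.sin (kk n * x) := by
  have hii : IntervalIntegrable (fun x => WW c t x * Real.sin (kk n * x)) volume (-1) 1 := by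
    have h1 : IntervalIntegrable (WW c t) volume (-1) 1 := by
      refine (intervalIntegrable_const (c := m)).mono_fun (WW_meas hc t).aestronglyMeasurable ?_
      refine Eventually.of_forall fun x => ?_
      simp only [Real.norm_eq_abs]
      rw [abs_of_nonneg hm]; exact WW_le hm hb t x
    exact h1.mul_continuousOn (by fun_prop)
  have h1 := int_symm hii
  have h2 : ∀ x, WW c t x * Real.sin (kk n * x) + WW c t (-x) * Real.sin (kk n * -x) =
      2 * (WW c t x * Real.sin (kk n * x)) := by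
    intro x
    rw [WW_odd, mul_neg (kk n), Real.sin_neg]; ring
  simp_rw [h2] at h1
  rw [intervalIntegral.integral_const_mul] at h1
  have h3 : ∫ x in (-1:ℝ)..1, WW c t x * Real.sin (kk n * x) =
      ∫ z, (∫ x in (-1:ℝ)..1, ext c (x + √(2 * t) * z) * Real.sin (kk n * x))
        ∂(gaussianReal 0 1) := by
    unfold WW
    simp_rw [← MeasureTheory.integral_mul_const]
    rw [intervalIntegral.integral_of_le (by norm_num)]
    simp_rw [intervalIntegral.integral_of_le (show (-1:ℝ) ≤ 1 by norm_num)]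
    rw [MeasureTheory.integral_integral_swap]
    refine Integrable.of_bound (C := m) ?_ ?_
    · have h4 : Measurable (fun p : ℝ × ℝ => ext c (p.1 + √(2 * t) * p.2) *
          Real.sin (kk n * p.1)) :=
        ((ext_meas hc).comp (by fun_prop)).mul (by fun_prop)
      exact h4.aestronglyMeasurable
    · refine Eventually.of_forall fun p => ?_
      simp only [Function.uncurry]
      rw [norm_mul, Real.norm_eq_abs, Real.norm_eq_abs]
      calc _ ≤ m * 1 := mul_le_mul (ext_le hm hb _) (Real.abs_sin_le_one _) (abs_nonneg _) hm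
        _ = m := mul_one m
  simp_rw [ext_shift hc hm hb n] at h3
  rw [MeasureTheory.integral_mul_const] at h3
  have h5 : ∫ z, Real.cos (kk n * (√(2 * t) * z)) ∂(gaussianReal 0 1) =
      Real.exp (-(lam n) * t) := by
    have := gauss_cos (kk n * √(2 * t))
    simp_rw [mul_assoc] at this
    rw [this]
    congr 1
    rw [mul_pow, Real.sq_sqrt (by positivity)]
    unfold lam; ring
  rw [h5, h1] at h3
  linarith

/-- **Sup bound** of the Dirichlet heat flow. -/
theorem SS_le {c : ℝ → ℝ} (hc : Measurable c) {m : ℝ} (hm : 0 ≤ m)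
    (hb : ∀ x ∈ Ioo (0:ℝ) 1, |c x| ≤ m) {t : ℝ} (ht : 0 < t) {x : ℝ} (hx : x ∈ Icc (0:ℝ) 1) :
    |SS c t x| ≤ m := by
  have hcm : MemLp c 2 mu := memLp_bdd hc hb
  have hW : MemLp (WW c t) 2 mu := memLp_bdd (WW_meas hc t) fun x _ => WW_le hm hb t x
  have hS : MemLp (SS c t) 2 mu := by
    rw [SS_eq_ser]; exact memLp_ser (SS_coef_summable hcm ht)
  have hcoef : ∀ n, cf (es n) (WW c t) = cf (es n) (SS c t) := by
    intro n
    rw [SS_cf hcm ht]
    unfold cf es
    have e1 : ∀ g : ℝ → ℝ, ∫ x in (0:ℝ)..1, g x * (√2 * Real.sin (kk n * x)) =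
        √2 * ∫ x in (0:ℝ)..1, g x * Real.sin (kk n * x) := by
      intro g
      rw [← intervalIntegral.integral_const_mul]
      congr 1; funext x; ring
    rw [e1, e1, WW_coef hc hm hb n ht]
    ring
  have h0 : (fun x => WW c t x - SS c t x) =ᵐ[mu] 0 := by
    apply sine_complete _ (hW.sub hS)
    intro n
    have h1 := cf_sub (es_cont n) hW hS
    rw [hcoef, sub_self] at h1
    unfold cf es at h1
    rw [ioo_int]
    have e1 : ∫ x in (0:ℝ)..1, (WW c t x - SS c t x) * (√2 * Real.sin (kk n * x)) =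
        √2 * ∫ x in (0:ℝ)..1, (WW c t x - SS c t x) * Real.sin (((n : ℝ) + 1) * π * x) := by
      rw [← intervalIntegral.integral_const_mul]
      congr 1; funext x; unfold kk; ring
    rw [e1] at h1
    exact (mul_eq_zero.1 h1).resolve_left (by positivity)
  have hae : ∀ᵐ y ∂mu, |SS c t y| ≤ m := by
    filter_upwards [h0] with y hy
    have : WW c t y - SS c t y = 0 := hy
    have h2 : SS c t y = WW c t y := by linarith
    rw [h2]; exact WW_le hm hb t y
  -- by continuity everywhere on `[0,1]`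
  have hcS : Continuous (SS c t) := by
    rw [SS_eq_ser]; exact ser_cont (SS_coef_summable hcm ht)
  have hin : ∀ y ∈ Ioo (0:ℝ) 1, |SS c t y| ≤ m := by
    by_contra hcon
    push Not at hcon
    obtain ⟨y, hy, hlt⟩ := hcon
    have hopen : IsOpen {z | m < |SS c t z|} := isOpen_lt continuous_const hcS.abs
    have hset : IsOpen ({z | m < |SS c t z|} ∩ Ioo (0:ℝ) 1) := hopen.inter isOpen_Ioo
    have hne : ({z | m < |SS c t z|} ∩ Ioo (0:ℝ) 1).Nonempty := ⟨y, hlt, hy⟩
    have hpos := hset.measure_pos volume hne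
    rw [ae_iff] at hae
    have : mu ({z | m < |SS c t z|} ∩ Ioo (0:ℝ) 1) = 0 := by
      refine measure_mono_null ?_ hae
      intro z hz
      simp only [mem_ofPred_eq, not_le]
      exact hz.1
    rw [Measure.restrict_apply hset.measurableSet, inter_assoc, inter_self] at this
    exact hpos.ne' this
  have hclos : closure (Ioo (0:ℝ) 1) = Icc 0 1 := closure_Ioo (by norm_num)
  have hcl : IsClosed {z | |SS c t z| ≤ m} := isClosed_le hcS.abs continuous_const
  have : closure (Ioo (0:ℝ) 1) ⊆ {z | |SS c t z| ≤ m} := hcl.closure_subset_iff.2 hin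
  rw [hclos] at this
  exact this hx

end Pool.Agent.Y308.BC
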