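import Pool.Agent.Y308.BC.Sys

/-! # A Gevrey cutoff with explicit bounds -/

set_option autoImplicit false

open MeasureTheory Set Real Filter Topology intervalIntegral
open scoped ENNReal NNReal

namespace Pool.Agent.Y308.BC

/-- the complex bump -/
noncomputable def bmp (z : ℂ) : ℂ := Complex.exp (-(1 / z ^ 2) - 1 / (1 - z) ^ 2)

/-- the punctured plane -/
def pU : Set ℂ := {z | z ≠ 0 ∧ z ≠ 1}

lemma pU_open : IsOpen pU := by
  have : pU = {z : ℂ | z ≠ 0} ∩ {z | z ≠ 1} := rfl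
  rw [this]
  exact isOpen_ne.inter isOpen_ne

lemma bmp_diff : DifferentiableOn ℂ bmp pU := by
  intro z hz
  have h1 : z ^ 2 ≠ 0 := pow_ne_zero 2 hz.1
  have h2 : (1 - z) ^ 2 ≠ 0 := pow_ne_zero 2 (sub_ne_zero.2 (Ne.symm hz.2))
  apply DifferentiableAt.differentiableWithinAt
  unfold bmp
  apply DifferentiableAt.cexp
  refine DifferentiableAt.sub (DifferentiableAt.neg ?_) ?_
  · exact (differentiableAt_const _).div (by fun_prop) h1
  · exact (differentiableAt_const _).div (by fun_prop) h2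

lemma bmp_iter (j : ℕ) {z : ℂ} (hz : z ∈ pU) :
    HasDerivAt (iteratedDeriv j bmp) (iteratedDeriv (j + 1) bmp z) z := by
  have h1 : AnalyticOnNhd ℂ bmp pU := bmp_diff.analyticOnNhd pU_open
  have h2 := h1.iterated_deriv j
  have h3 : DifferentiableAt ℂ (iteratedDeriv j bmp) z := by
    rw [iteratedDeriv_eq_iterate]
    exact (h2 z hz).differentiableAt
  rw [iteratedDeriv_succ]
  exact h3.hasDerivAt

/-- lower bound of `Re (1/ζ²)` near a positive real -/
lemma re_inv_sq {t : ℝ} (ht : 0 < t) {z : ℂ} (hz : ‖z - (t : ℂ)‖ ≤ t / 4) :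
    1 / (5 * t ^ 2) ≤ (1 / z ^ 2).re := by
  set a := z.re with ha
  set b := z.im with hb
  have h1 : (a - t) ^ 2 + b ^ 2 ≤ (t / 4) ^ 2 := by
    have h2 : ‖z - (t : ℂ)‖ ^ 2 ≤ (t / 4) ^ 2 := pow_le_pow_left₀ (norm_nonneg _) hz 2
    rw [← Complex.normSq_eq_norm_sq, Complex.normSq_apply] at h2
    simp only [Complex.sub_re, Complex.ofReal_re, Complex.sub_im, Complex.ofReal_im, sub_zero] at h2
    nlinarith
  have h3 : 9 / 16 * t ^ 2 ≤ a ^ 2 - b ^ 2 := by
    nlinarith [sq_nonneg (a - t + t / 4), sq_nonneg (a - 3 * t / 4)]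
  have h4 : a ^ 2 + b ^ 2 ≤ 25 / 16 * t ^ 2 := by
    have h5 : |a - t| ≤ t / 4 := abs_le_of_sq_le_sq (by nlinarith [sq_nonneg b]) (by positivity)
    rw [abs_le] at h5
    nlinarith [h5.1, h5.2]
  have h5 : 0 < a ^ 2 + b ^ 2 := by nlinarith [sq_nonneg b, mul_pos ht ht]
  have h6 : (1 / z ^ 2).re = (a ^ 2 - b ^ 2) / (a ^ 2 + b ^ 2) ^ 2 := by
    rw [one_div, Complex.inv_re]
    have e1 : (z ^ 2).re = a ^ 2 - b ^ 2 := by
      rw [sq, Complex.mul_re]; ring
    have e2 : Complex.normSq (z ^ 2) = (a ^ 2 + b ^ 2) ^ 2 := by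
      rw [map_pow, Complex.normSq_apply]; ring
    rw [e1, e2]
  rw [h6, div_le_div_iff₀ (by positivity) (by positivity)]
  have h7 : (a ^ 2 + b ^ 2) ^ 2 ≤ (25 / 16 * t ^ 2) ^ 2 := pow_le_pow_left₀ h5.le h4 2
  have h8 : 0 < t ^ 2 := by positivity
  nlinarith [mul_le_mul_of_nonneg_right h3 (by positivity : (0:ℝ) ≤ 5 * t ^ 2)]

lemma bmp_norm {t d : ℝ} (ht0 : 0 < t) (ht1 : t < 1) (hd : d = min t (1 - t)) {z : ℂ}
    (hz : ‖z - (t : ℂ)‖ ≤ d / 4) : ‖bmp z‖ ≤ Real.exp (-(1 / (5 * d ^ 2))) := by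
  have hd0 : 0 < d := by rw [hd]; exact lt_min ht0 (by linarith)
  have h1 : 1 / (5 * t ^ 2) ≤ (1 / z ^ 2).re :=
    re_inv_sq ht0 (hz.trans (by rw [hd]; have := min_le_left t (1 - t); linarith))
  have h2 : 1 / (5 * (1 - t) ^ 2) ≤ (1 / (1 - z) ^ 2).re := by
    refine re_inv_sq (by linarith : 0 < 1 - t) ?_
    have e : (1 - z) - ((1 - t : ℝ) : ℂ) = -(z - (t : ℂ)) := by push_cast; ring
    rw [e, norm_neg]
    exact hz.trans (by rw [hd]; have := min_le_right t (1 - t); linarith)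
  unfold bmp
  rw [Complex.norm_exp]
  apply Real.exp_le_exp.2
  rw [Complex.sub_re, Complex.neg_re]
  have h3 : 0 < 1 / (5 * t ^ 2) := by positivity
  have h4 : 0 < 1 / (5 * (1 - t) ^ 2) := by
    have : 0 < 1 - t := by linarith
    positivity
  rcases min_choice t (1 - t) with h | h
  · rw [hd, h]; linarith
  · rw [hd, h]; linarith

/-- real derivatives of the bump, extended by zero -/
noncomputable def gj (j : ℕ) (t : ℝ) : ℝ :=
  if 0 < t ∧ t < 1 then (iteratedDeriv j bmp (t : ℂ)).re else 0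

lemma gj_cauchy (j : ℕ) {t d : ℝ} (ht0 : 0 < t) (ht1 : t < 1) (hd : d = min t (1 - t)) :
    |gj j t| ≤ j.factorial * (4 / d) ^ j * Real.exp (-(1 / (5 * d ^ 2))) := by
  have hd0 : 0 < d := by rw [hd]; exact lt_min ht0 (by linarith)
  unfold gj
  rw [if_pos ⟨ht0, ht1⟩]
  refine (Complex.abs_re_le_norm _).trans ?_
  have hsub : Metric.closedBall (t : ℂ) (d / 4) ⊆ pU := by
    intro z hz
    rw [mem_closedBall_iff_norm] at hz
    have h1 : |z.re - t| ≤ d / 4 := by
      have := Complex.abs_re_le_norm (z - (t:ℂ))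
      simp only [Complex.sub_re, Complex.ofReal_re] at this
      exact this.trans hz
    rw [abs_le] at h1
    have h2 : d ≤ t := by rw [hd]; exact min_le_left _ _
    have h3 : d ≤ 1 - t := by rw [hd]; exact min_le_right _ _
    constructor
    · intro h; rw [h] at h1; simp only [Complex.zero_re] at h1; linarith [h1.1]
    · intro h; rw [h] at h1; simp only [Complex.one_re] at h1; linarith [h1.2]
  have hdc : DiffContOnCl ℂ bmp (Metric.ball (t : ℂ) (d / 4)) := by
    refine DifferentiableOn.diffContOnCl ?_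
    exact bmp_diff.mono ((Metric.closure_ball_subset_closedBall).trans hsub)
  have h := Complex.norm_iteratedDeriv_le_of_forall_mem_sphere_norm_le j
    (by positivity : 0 < d / 4) hdc (C := Real.exp (-(1 / (5 * d ^ 2)))) fun z hz => by
      refine bmp_norm ht0 ht1 hd ?_
      rw [mem_sphere_iff_norm] at hz
      exact hz.le
  refine h.trans (le_of_eq ?_)
  rw [div_pow, div_pow, div_div_eq_mul_div]
  ring

/-- `d^{-j} e^{-1/(5d²)} ≤ √(j!) √(5/2)^j` -/
lemma pow_exp_le (j : ℕ) {d : ℝ} (hd : 0 < d) :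
    (1 / d) ^ j * Real.exp (-(1 / (5 * d ^ 2))) ≤ √(j.factorial) * √(5/2) ^ j := by
  have h1 : (1 / d) ^ j * Real.exp (-(1 / (5 * d ^ 2))) =
      √(((1 / d) ^ j * Real.exp (-(1 / (5 * d ^ 2)))) ^ 2) := by
    rw [Real.sqrt_sq (by positivity)]
  have h2 : √(j.factorial) * √(5/2) ^ j = √(j.factorial * (5/2) ^ j) := by
    rw [Real.sqrt_mul (by positivity), Real.sqrt_eq_rpow (5/2), Real.sqrt_eq_rpow ((5/2) ^ j),
      ← Real.rpow_natCast, ← Real.rpow_natCast, ← Real.rpow_mul (by norm_num),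
      ← Real.rpow_mul (by norm_num), mul_comm (1/2 : ℝ)]
  rw [h1, h2]
  apply Real.sqrt_le_sqrt
  set s := (1 / d) ^ 2 with hs
  have hs0 : 0 < s := by positivity
  have h3 : ((1 / d) ^ j * Real.exp (-(1 / (5 * d ^ 2)))) ^ 2 = s ^ j * Real.exp (-(2/5 * s)) := by
    rw [mul_pow, ← pow_mul, mul_comm j 2, pow_mul, ← hs, ← Real.exp_nat_mul]
    congr 2
    rw [hs]; push_cast; field_simp
  rw [h3]
  have h4 := Real.pow_div_factorial_le_exp (x := 2/5 * s) (by positivity) j
  rw [div_le_iff₀ (by positivity)] at h4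
  have h5 : s ^ j = (5/2) ^ j * (2/5 * s) ^ j := by
    rw [← mul_pow]; congr 1; ring
  rw [h5]
  calc (5/2) ^ j * (2/5 * s) ^ j * Real.exp (-(2/5 * s)) ≤
      (5/2) ^ j * (Real.exp (2/5 * s) * j.factorial) * Real.exp (-(2/5 * s)) := by gcongr
    _ = (j.factorial * (5/2) ^ j) * (Real.exp (2/5 * s) * Real.exp (-(2/5 * s))) := by ring
    _ = _ := by rw [← Real.exp_add]; simp

/-- **Gevrey bound.** -/
lemma gj_bound (j : ℕ) (t : ℝ) : |gj j t| ≤ 7 ^ j * (j.factorial * √(j.factorial)) := by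
  by_cases h : 0 < t ∧ t < 1
  · have hd0 : 0 < min t (1 - t) := lt_min h.1 (by linarith [h.2])
    refine (gj_cauchy j h.1 h.2 rfl).trans ?_
    set d := min t (1 - t)
    have h1 := pow_exp_le j hd0
    have h2 : 4 * √(5/2) ≤ (7 : ℝ) := by
      have : √(5/2) ≤ (7/4 : ℝ) := by
        rw [Real.sqrt_le_left (by norm_num)]; norm_num
      linarith
    have h3 : (j.factorial : ℝ) * (4 / d) ^ j * Real.exp (-(1 / (5 * d ^ 2))) =
        j.factorial * 4 ^ j * ((1 / d) ^ j * Real.exp (-(1 / (5 * d ^ 2)))) := by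
      rw [div_pow, div_pow, one_pow]; ring
    rw [h3]
    calc (j.factorial : ℝ) * 4 ^ j * ((1 / d) ^ j * Real.exp (-(1 / (5 * d ^ 2)))) ≤
        j.factorial * 4 ^ j * (√(j.factorial) * √(5/2) ^ j) := by gcongr
      _ = (4 * √(5/2)) ^ j * (j.factorial * √(j.factorial)) := by rw [mul_pow]; ring
      _ ≤ _ := by gcongr
  · unfold gj; rw [if_neg h, abs_zero]; positivity

/-- flatness at the end points -/
lemma gj_flat (j : ℕ) : ∃ K : ℝ, 0 ≤ K ∧ ∀ t, |gj j t| ≤ K * t ^ 2 ∧ |gj j t| ≤ K * (1 - t) ^ 2 := by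
  refine ⟨j.factorial * 4 ^ j * (√((j + 2).factorial) * √(5/2) ^ (j + 2)), by positivity,
    fun t => ?_⟩
  by_cases h : 0 < t ∧ t < 1
  · have hd0 : 0 < min t (1 - t) := lt_min h.1 (by linarith [h.2])
    have hc := gj_cauchy j h.1 h.2 rfl
    set d := min t (1 - t) with hd
    have h1 := pow_exp_le (j + 2) hd0
    have h3 : (j.factorial : ℝ) * (4 / d) ^ j * Real.exp (-(1 / (5 * d ^ 2))) =
        j.factorial * 4 ^ j * ((1 / d) ^ (j + 2) * Real.exp (-(1 / (5 * d ^ 2)))) * d ^ 2 := by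
      rw [div_pow, div_pow, one_pow, pow_add]; field_simp
    rw [h3] at hc
    have h4 : |gj j t| ≤ (j.factorial * 4 ^ j * (√((j + 2).factorial) * √(5/2) ^ (j + 2))) *
        d ^ 2 := by
      refine hc.trans ?_
      gcongr
    have h5 : d ^ 2 ≤ t ^ 2 := pow_le_pow_left₀ hd0.le (min_le_left _ _) 2
    have h6 : d ^ 2 ≤ (1 - t) ^ 2 := pow_le_pow_left₀ hd0.le (min_le_right _ _) 2
    exact ⟨h4.trans (by gcongr), h4.trans (by gcongr)⟩
  · have : gj j t = 0 := by unfold gj; rw [if_neg h]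
    rw [this, abs_zero]
    constructor <;> positivity

lemma deriv_zero_of_sq {f : ℝ → ℝ} {x K : ℝ} (h0 : f x = 0)
    (h : ∀ t, |f t| ≤ K * (t - x) ^ 2) : HasDerivAt f 0 x := by
  rw [hasDerivAt_iff_isLittleO]
  simp only [h0, sub_zero, smul_zero]
  have h1 : f =O[𝓝 x] fun t => (t - x) ^ 2 := by
    refine Asymptotics.IsBigO.of_bound K (Eventually.of_forall fun t => ?_)
    rw [Real.norm_eq_abs, Real.norm_eq_abs, abs_of_nonneg (sq_nonneg (t - x))]
    exact h t
  refine h1.trans_isLittleO ?_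
  have h2 : (fun t : ℝ => (t - x) ^ 2) = fun t => (t - x) * (t - x) := by funext t; ring
  rw [h2]
  have h3 : (fun t : ℝ => t - x) =o[𝓝 x] fun _ => (1:ℝ) := by
    rw [Asymptotics.isLittleO_one_iff]
    have : Tendsto (fun t : ℝ => t - x) (𝓝 x) (𝓝 (x - x)) := (continuous_id.sub continuous_const).tendsto x
    rwa [sub_self] at this
  have h4 := h3.mul_isBigO (Asymptotics.isBigO_refl (fun t : ℝ => t - x) (𝓝 x))
  simpa using h4

lemma gj_deriv (j : ℕ) (t : ℝ) : HasDerivAt (gj j) (gj (j + 1) t) t := by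
  obtain ⟨K, hK, hf⟩ := gj_flat j
  rcases lt_trichotomy t 0 with h | h | h
  · have e1 : gj (j + 1) t = 0 := by unfold gj; rw [if_neg (by intro h'; linarith [h'.1])]
    rw [e1]
    refine (hasDerivAt_const t (0:ℝ)).congr_of_eventuallyEq ?_
    filter_upwards [Iio_mem_nhds h] with s hs
    unfold gj; rw [if_neg (by intro h'; have := mem_Iio.1 hs; linarith [h'.1])]
  · subst h
    have e1 : gj (j + 1) 0 = 0 := by unfold gj; rw [if_neg (by intro h'; exact absurd h'.1 (lt_irrefl _))]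
    rw [e1]
    refine deriv_zero_of_sq (K := K) ?_ fun s => ?_
    · unfold gj; rw [if_neg (by intro h'; exact absurd h'.1 (lt_irrefl _))]
    · rw [sub_zero]; exact (hf s).1
  · rcases lt_trichotomy t 1 with h1 | h1 | h1
    · have hz : (t : ℂ) ∈ pU := by
        constructor
        · exact_mod_cast h.ne'
        · exact_mod_cast h1.ne
      have h2 := (bmp_iter j hz).real_of_complex
      have e1 : gj (j + 1) t = (iteratedDeriv (j + 1) bmp (t : ℂ)).re := by
        unfold gj; rw [if_pos ⟨h, h1⟩]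
      rw [e1]
      refine h2.congr_of_eventuallyEq ?_
      filter_upwards [Ioo_mem_nhds h h1] with s hs
      unfold gj; rw [if_pos ⟨hs.1, hs.2⟩]
    · subst h1
      have e1 : gj (j + 1) 1 = 0 := by
        unfold gj; rw [if_neg (by intro h'; exact absurd h'.2 (lt_irrefl _))]
      rw [e1]
      refine deriv_zero_of_sq (K := K) ?_ fun s => ?_
      · unfold gj; rw [if_neg (by intro h'; exact absurd h'.2 (lt_irrefl _))]
      · have := (hf s).2
        rwa [show (1 - s) ^ 2 = (s - 1) ^ 2 by ring] at this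
    · have e1 : gj (j + 1) t = 0 := by unfold gj; rw [if_neg (by intro h'; linarith [h'.2])]
      rw [e1]
      refine (hasDerivAt_const t (0:ℝ)).congr_of_eventuallyEq ?_
      filter_upwards [Ioi_mem_nhds h1] with s hs
      unfold gj; rw [if_neg (by intro h'; have := mem_Ioi.1 hs; linarith [h'.2])]

lemma gj_cont (j : ℕ) : Continuous (gj j) :=
  continuous_iff_continuousAt.2 fun t => (gj_deriv j t).continuousAt

lemma gj_zero_pos {t : ℝ} (h0 : 0 < t) (h1 : t < 1) : 0 < gj 0 t := by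
  unfold gj
  rw [if_pos ⟨h0, h1⟩, iteratedDeriv_zero]
  unfold bmp
  have : (-(1 / (t:ℂ) ^ 2) - 1 / (1 - (t:ℂ)) ^ 2) = ((-(1 / t ^ 2) - 1 / (1 - t) ^ 2 : ℝ) : ℂ) := by
    push_cast; ring
  rw [this, Complex.exp_ofReal_re]
  exact Real.exp_pos _

lemma gj_out (j : ℕ) {t : ℝ} (h : ¬ (0 < t ∧ t < 1)) : gj j t = 0 := by
  unfold gj; rw [if_neg h]

/-- total mass -/
noncomputable def gI : ℝ := ∫ s in (0:ℝ)..1, gj 0 s

lemma gI_pos : 0 < gI := by
  unfold gI
  exact intervalIntegral_pos_of_pos_on ((gj_cont 0).intervalIntegrable _ _)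
    (fun t ht => gj_zero_pos ht.1 ht.2) zero_lt_one

/-- derivatives of the cutoff: `1` before `0`, `0` after `1` -/
noncomputable def cut (j : ℕ) (t : ℝ) : ℝ :=
  if j = 0 then 1 - (∫ s in (0:ℝ)..t, gj 0 s) / gI else -(gj (j - 1) t) / gI

lemma cut_zero (t : ℝ) : cut 0 t = 1 - (∫ s in (0:ℝ)..t, gj 0 s) / gI := if_pos rfl
lemma cut_succ (j : ℕ) (t : ℝ) : cut (j + 1) t = -(gj j t) / gI := by
  unfold cut; rw [if_neg (Nat.succ_ne_zero j), Nat.add_sub_cancel]

lemma cut_deriv (j : ℕ) (t : ℝ) : HasDerivAt (cut j) (cut (j + 1) t) t := by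
  rcases j with _ | j
  · have h1 : HasDerivAt (fun t => ∫ s in (0:ℝ)..t, gj 0 s) (gj 0 t) t :=
      intervalIntegral.integral_hasDerivAt_right ((gj_cont 0).intervalIntegrable _ _)
        (gj_cont 0).aestronglyMeasurable.stronglyMeasurableAtFilter (gj_cont 0).continuousAt
    have h2 : cut 0 = fun t => 1 - (∫ s in (0:ℝ)..t, gj 0 s) / gI := by
      funext t; exact cut_zero t
    rw [h2, zero_add, cut_succ 0]
    refine ((h1.div_const gI).const_sub 1).congr_deriv ?_
    ring
  · have h2 : cut (j + 1) = fun t => -(gj j t) / gI := by funext t; exact cut_succ j t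
    rw [h2, cut_succ]
    exact ((gj_deriv j t).neg).div_const gI

lemma cut_left {t : ℝ} (ht : t ≤ 0) : cut 0 t = 1 := by
  rw [cut_zero]
  have : ∫ s in (0:ℝ)..t, gj 0 s = 0 := by
    rw [intervalIntegral.integral_symm]
    have : ∫ s in t..(0:ℝ), gj 0 s = ∫ s in t..(0:ℝ), (0:ℝ) := by
      refine intervalIntegral.integral_congr fun s hs => ?_
      rw [uIcc_of_le ht] at hs
      exact gj_out 0 (by intro h; linarith [h.1, hs.2])
    rw [this]; simp
  rw [this]; simp

lemma cut_right {t : ℝ} (ht : 1 ≤ t) (j : ℕ) : cut j t = 0 := by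
  rcases j with _ | j
  · rw [cut_zero]
    have h1 : ∫ s in (0:ℝ)..t, gj 0 s = gI := by
      rw [← intervalIntegral.integral_add_adjacent_intervals (b := 1)
        ((gj_cont 0).intervalIntegrable _ _) ((gj_cont 0).intervalIntegrable _ _)]
      have : ∫ s in (1:ℝ)..t, gj 0 s = ∫ s in (1:ℝ)..t, (0:ℝ) := by
        refine intervalIntegral.integral_congr fun s hs => ?_
        rw [uIcc_of_le ht] at hs
        exact gj_out 0 (by intro h; linarith [h.2, hs.1])
      rw [this]; unfold gI; simp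
    rw [h1, div_self gI_pos.ne', sub_self]
  · rw [cut_succ, gj_out j (by intro h; linarith [h.2])]; simp

lemma cut_left' {t : ℝ} (ht : t ≤ 0) (j : ℕ) : cut (j + 1) t = 0 := by
  rw [cut_succ, gj_out j (by intro h; linarith [h.1])]; simp

/-- the constant of the cutoff -/
noncomputable def Cc : ℝ := 1 + 1 / gI

lemma Cc_pos : 0 < Cc := by unfold Cc; have := gI_pos; positivity

lemma cut_bound (j : ℕ) (t : ℝ) : |cut j t| ≤ Cc * (7 ^ j * (j.factorial * √(j.factorial))) := by
  have hI := gI_pos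
  rcases j with _ | j
  · simp only [pow_zero, Nat.factorial_zero, Nat.cast_one, Real.sqrt_one, mul_one]
    -- monotone between 0 and 1
    have hnn : ∀ s, 0 ≤ gj 0 s := by
      intro s
      by_cases h : 0 < s ∧ s < 1
      · exact (gj_zero_pos h.1 h.2).le
      · rw [gj_out 0 h]
    have hCc : 1 ≤ Cc := by unfold Cc; have : 0 < 1 / gI := by positivity
                            linarith
    have h1 : |cut 0 t| ≤ 1 := by
      rcases le_total t 0 with h | h
      · rw [cut_left h, abs_one]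
      · rcases le_total 1 t with h' | h'
        · rw [cut_right h', abs_zero]; exact zero_le_one
        · rw [cut_zero, abs_le]
          have e1 : 0 ≤ ∫ s in (0:ℝ)..t, gj 0 s :=
            intervalIntegral.integral_nonneg h fun s _ => hnn s
          have e2 : ∫ s in (0:ℝ)..t, gj 0 s ≤ gI := by
            unfold gI
            rw [← intervalIntegral.integral_add_adjacent_intervals (a := 0) (b := t) (c := 1)
              ((gj_cont 0).intervalIntegrable _ _) ((gj_cont 0).intervalIntegrable _ _)]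
            have : 0 ≤ ∫ s in t..(1:ℝ), gj 0 s :=
              intervalIntegral.integral_nonneg h' fun s _ => hnn s
            linarith
          have e3 : (∫ s in (0:ℝ)..t, gj 0 s) / gI ≤ 1 := (div_le_one hI).2 e2
          have e4 : 0 ≤ (∫ s in (0:ℝ)..t, gj 0 s) / gI := by positivity
          constructor <;> linarith
    exact h1.trans hCc
  · rw [cut_succ, abs_div, abs_neg, abs_of_pos hI]
    have h1 := gj_bound j t
    have h2 : (7:ℝ) ^ j * (j.factorial * √(j.factorial)) ≤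
        7 ^ (j + 1) * ((j + 1).factorial * √((j + 1).factorial)) := by
      have e1 : ((j.factorial : ℕ) : ℝ) ≤ ((j + 1).factorial : ℕ) := by
        exact_mod_cast Nat.factorial_le (Nat.le_succ j)
      have e2 : (7:ℝ) ^ j ≤ 7 ^ (j + 1) := pow_le_pow_right₀ (by norm_num) (Nat.le_succ j)
      gcongr
    calc |gj j t| / gI = (1 / gI) * |gj j t| := by ring
      _ ≤ (1 / gI) * (7 ^ (j + 1) * ((j + 1).factorial * √((j + 1).factorial))) := by
          gcongr; exact h1.trans h2
      _ ≤ Cc * (7 ^ (j + 1) * ((j + 1).factorial * √((j + 1).factorial))) := by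
          gcongr; unfold Cc; linarith

end Pool.Agent.Y308.BC
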