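import Pool.Agent.Y308.BC.Sol

/-! # Infinite concatenation -/

set_option autoImplicit false

open MeasureTheory Set Real Filter Topology intervalIntegral
open scoped ENNReal NNReal Interval

namespace Pool.Agent.Y308.BC

section
variable {a : ℕ → ℝ} {T : ℝ}

lemma lt_lim (hmono : StrictMono a) (hlim : Tendsto a atTop (𝓝 T)) (k : ℕ) : a k < T :=
  (hmono (Nat.lt_succ_self k)).trans_le (hmono.monotone.ge_of_tendsto hlim (k + 1))

lemma ix_ex (hlim : Tendsto a atTop (𝓝 T)) (t : ℝ) : ∃ k, T ≤ t ∨ t < a (k + 1) := by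
  by_cases h : T ≤ t
  · exact ⟨0, Or.inl h⟩
  · push Not at h
    have h1 := ((tendsto_add_atTop_iff_nat 1).2 hlim).eventually (lt_mem_nhds h)
    obtain ⟨k, hk⟩ := h1.exists
    exact ⟨k, Or.inr hk⟩

open Classical in
/-- index of the piece containing `t` -/
noncomputable def ix (hlim : Tendsto a atTop (𝓝 T)) (t : ℝ) : ℕ := Nat.find (ix_ex hlim t)

lemma ix_meas (hlim : Tendsto a atTop (𝓝 T)) : Measurable (ix hlim) := by
  classical
  unfold ix
  refine measurable_find (p := fun t k => T ≤ t ∨ t < a (k + 1)) (ix_ex hlim) fun k => ?_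
  exact (measurableSet_le measurable_const measurable_id).union
    (measurableSet_lt measurable_id measurable_const)

lemma ix_eq (hmono : StrictMono a) (hlim : Tendsto a atTop (𝓝 T)) {k : ℕ} {t : ℝ}
    (ht : t ∈ Ico (a k) (a (k + 1))) : ix hlim t = k := by
  classical
  unfold ix
  rw [Nat.find_eq_iff]
  refine ⟨Or.inr ht.2, fun j hj => ?_⟩
  push Not
  refine ⟨ht.2.trans (lt_lim hmono hlim _), ?_⟩
  exact (hmono.monotone (Nat.succ_le_of_lt hj)).trans ht.1

lemma ex_Ico (hlim : Tendsto a atTop (𝓝 T)) {t : ℝ} (h0 : a 0 ≤ t) (hT : t < T) :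
    ∃ k, t ∈ Ico (a k) (a (k + 1)) := by
  classical
  have hex : ∃ k, t < a (k + 1) := by
    rcases ix_ex hlim t with ⟨k, hk | hk⟩
    · exact absurd hT (not_lt.2 hk)
    · exact ⟨k, hk⟩
  refine ⟨Nat.find hex, ?_, Nat.find_spec hex⟩
  rcases Nat.eq_zero_or_pos (Nat.find hex) with h | h
  · rw [h]; exact h0
  · obtain ⟨j, hj⟩ := Nat.exists_eq_succ_of_ne_zero h.ne'
    have := Nat.find_min hex (m := j) (by omega)
    rw [hj]
    exact not_lt.1 this

lemma ex_Ioc (hlim : Tendsto a atTop (𝓝 T)) {t : ℝ} (h0 : a 0 < t) (hT : t < T) :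
    ∃ k, t ∈ Ioc (a k) (a (k + 1)) := by
  classical
  have hex : ∃ k, t ≤ a (k + 1) := by
    rcases ix_ex hlim t with ⟨k, hk | hk⟩
    · exact absurd hT (not_lt.2 hk)
    · exact ⟨k, hk.le⟩
  refine ⟨Nat.find hex, ?_, Nat.find_spec hex⟩
  rcases Nat.eq_zero_or_pos (Nat.find hex) with h | h
  · rw [h]; exact h0
  · obtain ⟨j, hj⟩ := Nat.exists_eq_succ_of_ne_zero h.ne'
    have := Nat.find_min hex (m := j) (by omega)
    rw [hj]
    exact not_le.1 this

lemma union_Ioc (hmono : StrictMono a) (hlim : Tendsto a atTop (𝓝 T)) :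
    ⋃ k, Ioc (a k) (a (k + 1)) = Ioo (a 0) T := by
  ext t
  simp only [mem_iUnion]
  constructor
  · rintro ⟨k, hk⟩
    exact ⟨(hmono.monotone (Nat.zero_le k)).trans_lt hk.1, hk.2.trans_lt (lt_lim hmono hlim _)⟩
  · rintro ⟨h1, h2⟩
    exact ex_Ioc hlim h1 h2

/-- glue a family of functions of time -/
noncomputable def gl {E : Type*} [Zero E] (hlim : Tendsto a atTop (𝓝 T)) (f : ℕ → ℝ → E)
    (t : ℝ) : E := if t < T then f (ix hlim t) t else 0

lemma gl_T {E : Type*} [Zero E] (hlim : Tendsto a atTop (𝓝 T)) (f : ℕ → ℝ → E) {t : ℝ}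
    (ht : T ≤ t) : gl hlim f t = 0 := by
  unfold gl; rw [if_neg (not_lt.2 ht)]

lemma gl_eq {E : Type*} [Zero E] (hmono : StrictMono a) (hlim : Tendsto a atTop (𝓝 T))
    (f : ℕ → ℝ → E) {k : ℕ} {t : ℝ} (ht : t ∈ Ico (a k) (a (k + 1))) : gl hlim f t = f k t := by
  unfold gl
  rw [if_pos (ht.2.trans (lt_lim hmono hlim _)), ix_eq hmono hlim ht]

lemma gl_meas (hlim : Tendsto a atTop (𝓝 T)) {f : ℕ → ℝ → ℝ} (hf : ∀ k, Measurable (f k)) :
    Measurable (gl hlim f) := by
  classical
  unfold gl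
  refine Measurable.ite (measurableSet_lt measurable_id measurable_const) ?_ measurable_const
  have h1 : Measurable fun z : ℝ × ℕ => f z.2 z.1 :=
    measurable_from_prod_countable_left fun k => hf k
  exact h1.comp (measurable_id.prodMk (ix_meas hlim))

lemma gl_meas2 (hlim : Tendsto a atTop (𝓝 T)) {f : ℕ → ℝ → ℝ → ℝ}
    (hf : ∀ k, Measurable fun q : ℝ × ℝ => f k q.1 q.2) :
    Measurable fun q : ℝ × ℝ => gl hlim f q.1 q.2 := by
  classical
  have e : (fun q : ℝ × ℝ => gl hlim f q.1 q.2) =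
      fun q : ℝ × ℝ => if q.1 < T then f (ix hlim q.1) q.1 q.2 else 0 := by
    funext q
    unfold gl
    split_ifs <;> rfl
  rw [e]
  refine Measurable.ite (measurableSet_lt measurable_fst measurable_const) ?_ measurable_const
  have h1 : Measurable fun z : (ℝ × ℝ) × ℕ => f z.2 z.1.1 z.1.2 :=
    measurable_from_prod_countable_left fun k => hf k
  exact h1.comp (measurable_id.prodMk ((ix_meas hlim).comp measurable_fst))

end

section
variable {p T R0 Λ U : ℝ} {a : ℕ → ℝ} {Yk Pk : ℕ → ℝ → ℝ → ℝ} {uk vk : ℕ → ℝ → ℝ}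
  {Rk Kk : ℕ → ℝ}

lemma glue_piece (hmono : StrictMono a) (hlim : Tendsto a atTop (𝓝 T))
    (hS : ∀ k, Sol p (a k) (a (k + 1)) (Yk k) (Pk k) (uk k) (vk k) (Rk k) (Kk k) Λ U)
    (hmatch : ∀ k, ∀ x ∈ Icc (0:ℝ) 1, Yk (k + 1) (a (k + 1)) x = Yk k (a (k + 1)) x) (k : ℕ) :
    Sol p (a k) (a (k + 1)) (gl hlim Yk) (gl hlim Pk) (gl hlim uk) (gl hlim vk) (Rk k) (Kk k)
      Λ U := by
  have mY := gl_meas2 hlim fun k => (hS k).mY
  have mP := gl_meas2 hlim fun k => (hS k).mP
  have mU := gl_meas hlim fun k => (hS k).mU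
  have hk1 : a (k + 1) ∈ Ico (a (k + 1)) (a (k + 1 + 1)) :=
    ⟨le_rfl, hmono (Nat.lt_succ_self _)⟩
  refine (hS k).congr mY mP mU ?_ ?_ ?_ ?_ ?_
  · intro t ht x hx
    rcases ht.2.eq_or_lt with h | h
    · rw [h, gl_eq hmono hlim Yk hk1]
      exact hmatch k x hx
    · rw [gl_eq hmono hlim Yk ⟨ht.1, h⟩]
  · intro t ht x hx
    rw [gl_eq hmono hlim Pk ⟨ht.1.le, ht.2⟩]
  · intro t ht
    rw [gl_eq hmono hlim uk ⟨ht.1.le, ht.2⟩]
  · intro t ht
    rcases ht.2.eq_or_lt with h | h
    · rw [h, gl_eq hmono hlim uk hk1]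
      exact (hS (k + 1)).bU _ (Ico_subset_Icc_self hk1)
    · rw [gl_eq hmono hlim uk ⟨ht.1, h⟩]
      exact (hS k).bU t ht
  · intro t ht
    rcases ht.2.eq_or_lt with h | h
    · rw [h, gl_eq hmono hlim vk hk1, (hS (k + 1)).va, (hS k).vb]
    · rw [gl_eq hmono hlim vk ⟨ht.1, h⟩]

lemma glue_upto (hp : 0 < p) (hmono : StrictMono a) (hlim : Tendsto a atTop (𝓝 T))
    (hS : ∀ k, Sol p (a k) (a (k + 1)) (Yk k) (Pk k) (uk k) (vk k) (Rk k) (Kk k) Λ U)
    (hmatch : ∀ k, ∀ x ∈ Icc (0:ℝ) 1, Yk (k + 1) (a (k + 1)) x = Yk k (a (k + 1)) x)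
    (hR0 : ∀ k, Rk k ≤ R0) (k : ℕ) :
    Sol p (a 0) (a (k + 1)) (gl hlim Yk) (gl hlim Pk) (gl hlim uk) (gl hlim vk) R0
      (∑ j ∈ Finset.range (k + 1), Kk j) Λ U := by
  induction k with
  | zero =>
    have := (glue_piece hmono hlim hS hmatch 0).mono (hR0 0) le_rfl le_rfl le_rfl
    simpa using this
  | succ k ih =>
    rw [Finset.sum_range_succ]
    exact ih.trans hp ((glue_piece hmono hlim hS hmatch (k + 1)).mono (hR0 _) le_rfl le_rfl le_rfl)

theorem glue (hp : 0 < p) (hmono : StrictMono a) (hlim : Tendsto a atTop (𝓝 T))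
    (hS : ∀ k, Sol p (a k) (a (k + 1)) (Yk k) (Pk k) (uk k) (vk k) (Rk k) (Kk k) Λ U)
    (hmatch : ∀ k, ∀ x ∈ Icc (0:ℝ) 1, Yk (k + 1) (a (k + 1)) x = Yk k (a (k + 1)) x)
    (hR : Tendsto Rk atTop (𝓝 0)) (hR0 : ∀ k, Rk k ≤ R0) (hK : Summable Kk) :
    ∃ Y P u v K, Sol p (a 0) T Y P u v R0 K Λ U ∧ (∀ x ∈ Icc (0:ℝ) 1, Y (a 0) x = Yk 0 (a 0) x) ∧
      ∀ x, Y T x = 0 := by
  have piece := glue_piece hmono hlim hS hmatch
  have upto := glue_upto hp hmono hlim hS hmatch hR0
  have haT : ∀ k, a k < T := lt_lim hmono hlim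
  have ha0 : ∀ k, a 0 ≤ a k := fun k => hmono.monotone (Nat.zero_le k)
  have hlt : ∀ k, a k < a (k + 1) := fun k => hmono (Nat.lt_succ_self k)
  set Y := gl hlim Yk with hY
  set P := gl hlim Pk with hP
  set u := gl hlim uk with hu
  set v := gl hlim vk with hv
  have YT : ∀ x, Y T x = 0 := fun x => by
    have := gl_T hlim Yk (le_refl T)
    rw [hY, this]; rfl
  have uT : u T = 0 := gl_T hlim uk (le_refl T)
  have vT : v T = 0 := gl_T hlim vk (le_refl T)
  have Rk0 : ∀ k, 0 ≤ Rk k := fun k =>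
    (abs_nonneg _).trans ((piece k).bY (a k) ⟨le_rfl, (hlt k).le⟩ 0 ⟨le_rfl, zero_le_one⟩)
  have R00 : 0 ≤ R0 := (Rk0 0).trans (hR0 0)
  have U0 : 0 ≤ U := (abs_nonneg _).trans ((piece 0).bU (a 0) ⟨le_rfl, (hlt 0).le⟩)
  have mY := (piece 0).mY
  have mP := (piece 0).mP
  have mU := (piece 0).mU
  have bY : ∀ t ∈ Icc (a 0) T, ∀ x ∈ Icc (0:ℝ) 1, |Y t x| ≤ R0 := by
    intro t ht x hx
    rcases ht.2.eq_or_lt with h | h
    · rw [h, YT, abs_zero]; exact R00
    · obtain ⟨k, hk⟩ := ex_Ico hlim ht.1 h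
      exact ((piece k).bY t (Ico_subset_Icc_self hk) x hx).trans (hR0 k)
  have bU : ∀ t ∈ Icc (a 0) T, |u t| ≤ U := by
    intro t ht
    rcases ht.2.eq_or_lt with h | h
    · rw [h, uT, abs_zero]; exact U0
    · obtain ⟨k, hk⟩ := ex_Ico hlim ht.1 h
      exact (piece k).bU t (Ico_subset_Icc_self hk)
  have hnun : nu (a 0) T = volume.restrict (⋃ k, Ioc (a k) (a (k + 1)) ×ˢ Ioo (0:ℝ) 1) := by
    rw [nu_Ioo, ← union_Ioc hmono hlim, iUnion_prod_const]
  have hnuk : ∀ x y : ℝ, nu x y = volume.restrict (Ioc x y ×ˢ Ioo (0:ℝ) 1) := fun x y => by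
    unfold nu mu
    rw [Measure.prod_restrict]
    rfl
  have P2i : Integrable (fun q : ℝ × ℝ => P q.1 q.2 ^ 2) (nu (a 0) T) := by
    rw [hnun]
    refine integrableOn_iUnion_of_summable_integral_norm (fun k => ?_) ?_
    · have := sq_int (piece k).P2
      rw [hnuk] at this
      exact this
    · refine Summable.of_nonneg_of_le (fun k => integral_nonneg fun _ => norm_nonneg _)
        (fun k => ?_) hK
      have := (piece k).P2le
      rw [hnuk] at this
      refine le_trans (le_of_eq (integral_congr_ae (Eventually.of_forall fun q => ?_))) this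
      show ‖P q.1 q.2 ^ 2‖ = P q.1 q.2 ^ 2
      rw [Real.norm_of_nonneg (sq_nonneg _)]
  have P2 : MemLp (fun q : ℝ × ℝ => P q.1 q.2) 2 (nu (a 0) T) := by
    rw [memLp_two_iff_integrable_sq mP.aestronglyMeasurable]
    exact P2i
  have small : ∀ ε > 0, ∃ N, ∀ t ∈ Icc (a N) T, ∀ x ∈ Icc (0:ℝ) 1, |Y t x| ≤ ε := by
    intro ε hε
    obtain ⟨N, hN⟩ := eventually_atTop.1 (hR.eventually (gt_mem_nhds hε))
    refine ⟨N, fun t ht x hx => ?_⟩
    rcases ht.2.eq_or_lt with h | h
    · rw [h, YT, abs_zero]; exact hε.le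
    · obtain ⟨k, hk⟩ := ex_Ico hlim ((ha0 N).trans ht.1) h
      have hNk : N ≤ k := by
        by_contra hcon
        push Not at hcon
        have := hmono.monotone (Nat.succ_le_of_lt hcon)
        linarith [hk.2, ht.1]
      exact ((piece k).bY t (Ico_subset_Icc_self hk) x hx).trans (hN k hNk).le
  refine ⟨Y, P, u, v, ∫ q : ℝ × ℝ, P q.1 q.2 ^ 2 ∂(nu (a 0) T), ?_, ?_, YT⟩
  · exact
    { hab := haT 0
      mY := mY
      mP := mP
      mU := mU
      bY := bY
      bU := bU
      cont := by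
        intro t ht
        rcases ht.2.eq_or_lt with h | h
        · subst h
          rw [Metric.tendsto_nhds]
          intro ε hε
          obtain ⟨N, hN⟩ := small (min 1 (ε / 2)) (lt_min one_pos (half_pos hε))
          have h1 : ∀ᶠ s in 𝓝[Icc (a 0) t] t, a N < s :=
            mem_nhdsWithin_of_mem_nhds (lt_mem_nhds (haT N))
          filter_upwards [h1, self_mem_nhdsWithin] with s hs1 hs2
          rw [Real.dist_eq, sub_zero]
          have hb : ∀ x ∈ Ι (0:ℝ) 1, ‖(Y s x - Y t x) ^ 2‖ ≤ ε / 2 := by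
            intro x hx
            rw [uIoc_of_le zero_le_one] at hx
            have h2 := hN s ⟨hs1.le, hs2.2⟩ x (Ioc_subset_Icc_self hx)
            rw [YT, sub_zero, Real.norm_of_nonneg (sq_nonneg _), ← sq_abs]
            have h3 : |Y s x| ≤ 1 := h2.trans (min_le_left _ _)
            have h4 : |Y s x| ≤ ε / 2 := h2.trans (min_le_right _ _)
            have h5 := abs_nonneg (Y s x)
            nlinarith
          have h3 := intervalIntegral.norm_integral_le_of_norm_le_const hb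
          rw [sub_zero, abs_one, mul_one, Real.norm_eq_abs] at h3
          linarith
        · obtain ⟨k, hk⟩ := ex_Ico hlim ht.1 h
          have h1 := (upto k).cont t ⟨ht.1, hk.2.le⟩
          refine h1.mono_left ?_
          refine nhdsWithin_le_iff.2 ?_
          have h2 : ∀ᶠ s in 𝓝[Icc (a 0) T] t, s < a (k + 1) :=
            mem_nhdsWithin_of_mem_nhds (gt_mem_nhds hk.2)
          filter_upwards [h2, self_mem_nhdsWithin] with s hs1 hs2
          exact ⟨hs2.1, hs1.le⟩
      P2 := P2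
      P2le := le_rfl
      slope := by
        rw [Ioo_Ioc, ← union_Ioc hmono hlim, ae_restrict_iUnion_iff]
        exact fun k => (piece k).slope
      bdry := by
        intro t ht
        rcases ht.2.eq_or_lt with h | h
        · rw [h, YT, vT]
        · obtain ⟨k, hk⟩ := ex_Ioc hlim ht.1 h
          exact (piece k).bdry t hk
      vL := by
        have key : ∀ s ∈ Icc (a 0) T, ∀ t ∈ Icc (a 0) T, s ≤ t → |v s - v t| ≤ Λ * |s - t| := by
          intro s hs t ht hst
          rcases ht.2.eq_or_lt with h | h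
          · subst h
            rcases hs.2.eq_or_lt with h' | h'
            · rw [h']; simp
            · obtain ⟨k, hk⟩ := ex_Ico hlim hs.1 h'
              have h1 := (upto k).vL s ⟨hs.1, hk.2.le⟩ (a (k + 1)) ⟨ha0 _, le_rfl⟩
              rw [(piece k).vb] at h1
              rw [vT]
              refine h1.trans ?_
              have hΛ : 0 ≤ Λ := by
                have h3 : 0 < |s - a (k + 1)| := abs_pos.2 (sub_ne_zero.2 hk.2.ne)
                by_contra hneg
                push Not at hneg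
                have := mul_neg_of_neg_of_pos hneg h3
                linarith [abs_nonneg (v s - 0)]
              refine mul_le_mul_of_nonneg_left ?_ hΛ
              rw [abs_of_nonpos (sub_nonpos.2 hk.2.le), abs_of_nonpos (sub_nonpos.2 hst)]
              linarith [haT (k + 1)]
          · obtain ⟨k, hk⟩ := ex_Ico hlim ht.1 h
            exact (upto k).vL s ⟨hs.1, hst.trans hk.2.le⟩ t ⟨ht.1, hk.2.le⟩
        intro s hs t ht
        rcases le_total s t with h | h
        · exact key s hs t ht h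
        · rw [abs_sub_comm, abs_sub_comm s t]; exact key t ht s hs h
      va := (upto 0).va
      vb := vT
      weak := by
        intro φ φt φx hT
        have hi := integrand_int hp mY mU bY bU P2 hT
        -- right side
        have hr : Tendsto (fun k => ∫ q, integrand p Y P u φ φt φx q ∂(nu (a 0) (a (k + 1)))) atTop
            (𝓝 (∫ q, integrand p Y P u φ φt φx q ∂(nu (a 0) T))) := by
          have e1 : (⋃ k, Ioc (a 0) (a (k + 1)) ×ˢ Ioo (0:ℝ) 1) = Ioo (a 0) T ×ˢ Ioo (0:ℝ) 1 := by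
            rw [← iUnion_prod_const]
            congr 1
            ext t
            simp only [mem_iUnion]
            constructor
            · rintro ⟨k, hk⟩
              exact ⟨hk.1, hk.2.trans_lt (haT _)⟩
            · rintro ⟨h1, h2⟩
              obtain ⟨k, hk⟩ := ex_Ioc hlim h1 h2
              exact ⟨k, h1, hk.2⟩
          have e2 : nu (a 0) T = volume.restrict (⋃ k, Ioc (a 0) (a (k + 1)) ×ˢ Ioo (0:ℝ) 1) := by
            rw [e1, nu_Ioo]
          rw [e2]
          have e3 : ∀ k, nu (a 0) (a (k + 1)) =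
              volume.restrict (Ioc (a 0) (a (k + 1)) ×ˢ Ioo (0:ℝ) 1) := fun k => hnuk _ _
          simp only [e3]
          refine tendsto_setIntegral_of_monotone
            (fun k => measurableSet_Ioc.prod measurableSet_Ioo) ?_ ?_
          · intro j k hjk
            exact prod_mono (Ioc_subset_Ioc_right (hmono.monotone (by omega))) le_rfl
          · rw [e2] at hi
            exact hi
        have hl : Tendsto (fun k => (∫ x in (0:ℝ)..1, Y (a (k + 1)) x * φ (a (k + 1)) x) -
            (∫ x in (0:ℝ)..1, Y (a 0) x * φ (a 0) x)) atTop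
            (𝓝 ((∫ x in (0:ℝ)..1, Y T x * φ T x) - (∫ x in (0:ℝ)..1, Y (a 0) x * φ (a 0) x))) := by
          refine Tendsto.sub_const ?_ _
          have z : ∫ x in (0:ℝ)..1, Y T x * φ T x = 0 := by
            simp [YT]
          rw [z]
          obtain ⟨C, hC⟩ := (isCompact_Icc.prod isCompact_Icc).exists_bound_of_continuousOn
            (hT.c0.continuousOn (s := Icc (a 0) T ×ˢ Icc (0:ℝ) 1))
          have hb : ∀ k, ‖∫ x in (0:ℝ)..1, Y (a (k + 1)) x * φ (a (k + 1)) x‖ ≤ Rk (k + 1) * C := by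
            intro k
            have h1 : ∀ x ∈ Ι (0:ℝ) 1, ‖Y (a (k + 1)) x * φ (a (k + 1)) x‖ ≤ Rk (k + 1) * C := by
              intro x hx
              rw [uIoc_of_le zero_le_one] at hx
              rw [norm_mul]
              exact mul_le_mul ((piece (k + 1)).bY _ ⟨le_rfl, (hlt _).le⟩ x (Ioc_subset_Icc_self hx))
                (hC (a (k + 1), x) ⟨⟨ha0 _, (haT _).le⟩, Ioc_subset_Icc_self hx⟩) (norm_nonneg _)
                (Rk0 _)
            have h2 := intervalIntegral.norm_integral_le_of_norm_le_const h1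
            rwa [sub_zero, abs_one, mul_one] at h2
          refine squeeze_zero_norm hb ?_
          have h3 := ((tendsto_add_atTop_iff_nat 1).2 hR).mul_const C
          rwa [zero_mul] at h3
        have he : ∀ k, (∫ x in (0:ℝ)..1, Y (a (k + 1)) x * φ (a (k + 1)) x) -
            (∫ x in (0:ℝ)..1, Y (a 0) x * φ (a 0) x) =
            ∫ q, integrand p Y P u φ φt φx q ∂(nu (a 0) (a (k + 1))) :=
          fun k => (upto k).weak φ φt φx hT
        simp only [he] at hl
        exact tendsto_nhds_unique hl hr }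
  · intro x hx
    have := gl_eq hmono hlim Yk (k := 0) (t := a 0) ⟨le_rfl, hlt 0⟩
    rw [hY, this]

end

end Pool.Agent.Y308.BC
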