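import Pool.Agent.Y308.BC.Gauss

/-! # Elementary `L²` tools -/

set_option autoImplicit false

open MeasureTheory Set Real Filter Topology intervalIntegral
open scoped ENNReal NNReal

namespace Pool.Agent.Y308.BC

section
variable {α : Type*} [MeasurableSpace α] {ν : Measure α}

lemma sq_int {f : α → ℝ} (hf : MemLp f 2 ν) : Integrable (fun a => f a ^ 2) ν := by
  have := hf.integrable_mul hf
  refine this.congr (Eventually.of_forall fun a => ?_)
  simp only [Pi.mul_apply]; ring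

lemma mul_int {f g : α → ℝ} (hf : MemLp f 2 ν) (hg : MemLp g 2 ν) :
    Integrable (fun a => f a * g a) ν := hf.integrable_mul hg

lemma cs {f g : α → ℝ} (hf : MemLp f 2 ν) (hg : MemLp g 2 ν) :
    (∫ a, f a * g a ∂ν) ^ 2 ≤ (∫ a, f a ^ 2 ∂ν) * ∫ a, g a ^ 2 ∂ν := by
  have h : ∀ s : ℝ, 0 ≤ (∫ a, g a ^ 2 ∂ν) * (s * s) + (2 * ∫ a, f a * g a ∂ν) * s +
      ∫ a, f a ^ 2 ∂ν := by
    intro s
    have h1 : ∫ a, (f a + s * g a) ^ 2 ∂ν = (∫ a, g a ^ 2 ∂ν) * (s * s) +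
        (2 * ∫ a, f a * g a ∂ν) * s + ∫ a, f a ^ 2 ∂ν := by
      have e : ∀ a, (f a + s * g a) ^ 2 = (g a ^ 2 * (s * s) + (f a * g a) * (2 * s)) + f a ^ 2 := by
        intro a; ring
      simp_rw [e]
      have i1 : Integrable (fun a => g a ^ 2 * (s * s)) ν := (sq_int hg).mul_const _
      have i2 : Integrable (fun a => (f a * g a) * (2 * s)) ν := (mul_int hf hg).mul_const _
      have i3 : Integrable (fun a => g a ^ 2 * (s * s) + (f a * g a) * (2 * s)) ν := i1.add i2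
      rw [integral_add i3 (sq_int hf), integral_add i1 i2,
        MeasureTheory.integral_mul_const, MeasureTheory.integral_mul_const]
      ring
    rw [← h1]
    exact integral_nonneg fun a => sq_nonneg _
  have := discrim_le_zero h
  unfold discrim at this
  nlinarith

lemma abs_pair_le {f g : α → ℝ} (hf : MemLp f 2 ν) (hg : MemLp g 2 ν) :
    |∫ a, f a * g a ∂ν| ≤ √((∫ a, f a ^ 2 ∂ν) * ∫ a, g a ^ 2 ∂ν) := Real.abs_le_sqrt (cs hf hg)

variable {ι : Type*} {l : Filter ι}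

lemma tendsto_pair {f : ι → α → ℝ} {f₀ g : α → ℝ} (hf : ∀ i, MemLp (f i) 2 ν)
    (hf₀ : MemLp f₀ 2 ν) (hg : MemLp g 2 ν)
    (h : Tendsto (fun i => ∫ a, (f i a - f₀ a) ^ 2 ∂ν) l (𝓝 0)) :
    Tendsto (fun i => ∫ a, f i a * g a ∂ν) l (𝓝 (∫ a, f₀ a * g a ∂ν)) := by
  rw [tendsto_iff_norm_sub_tendsto_zero]
  have h1 : ∀ i, (∫ a, f i a * g a ∂ν) - (∫ a, f₀ a * g a ∂ν) = ∫ a, (f i a - f₀ a) * g a ∂ν := by
    intro i
    rw [← integral_sub (mul_int (hf i) hg) (mul_int hf₀ hg)]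
    congr 1; funext a; ring
  have h2 : Tendsto (fun i => √((∫ a, (f i a - f₀ a) ^ 2 ∂ν) * ∫ a, g a ^ 2 ∂ν)) l (𝓝 0) := by
    have := (Real.continuous_sqrt.tendsto _).comp (h.mul_const (∫ a, g a ^ 2 ∂ν))
    rw [zero_mul, Real.sqrt_zero] at this
    exact this
  refine squeeze_zero (fun i => norm_nonneg _) (fun i => ?_) h2
  rw [h1, Real.norm_eq_abs]
  exact abs_pair_le ((hf i).sub hf₀) hg

lemma memLp_mul_bdd {f ρ : α → ℝ} (hf : MemLp f 2 ν) (hρ : AEStronglyMeasurable ρ ν) {C : ℝ}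
    (hC : ∀ᵐ a ∂ν, |ρ a| ≤ C) : MemLp (fun a => ρ a * f a) 2 ν := by
  refine MemLp.of_le_mul (c := C) hf (hρ.mul hf.aestronglyMeasurable) ?_
  filter_upwards [hC] with a ha
  rw [norm_mul, Real.norm_eq_abs]
  exact mul_le_mul_of_nonneg_right ha (norm_nonneg _)

lemma tendsto_wsq {f : ι → α → ℝ} {f₀ ρ : α → ℝ} (hf : ∀ i, MemLp (f i) 2 ν)
    (hf₀ : MemLp f₀ 2 ν) (hρ : AEStronglyMeasurable ρ ν) {C : ℝ} (hC : ∀ᵐ a ∂ν, |ρ a| ≤ C)
    (h : Tendsto (fun i => ∫ a, (f i a - f₀ a) ^ 2 ∂ν) l (𝓝 0)) :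
    Tendsto (fun i => ∫ a, ρ a * f i a ^ 2 ∂ν) l (𝓝 (∫ a, ρ a * f₀ a ^ 2 ∂ν)) := by
  have hd : ∀ i, MemLp (fun a => f i a - f₀ a) 2 ν := fun i => (hf i).sub hf₀
  have hρf : MemLp (fun a => ρ a * f₀ a) 2 ν := memLp_mul_bdd hf₀ hρ hC
  have hρd : ∀ i, MemLp (fun a => ρ a * (f i a - f₀ a)) 2 ν := fun i => memLp_mul_bdd (hd i) hρ hC
  have h1 : ∀ i, ∫ a, ρ a * f i a ^ 2 ∂ν = (∫ a, (ρ a * (f i a - f₀ a)) * (f i a - f₀ a) ∂ν) +
      2 * (∫ a, (f i a - f₀ a) * (ρ a * f₀ a) ∂ν) + ∫ a, ρ a * f₀ a ^ 2 ∂ν := by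
    intro i
    have i3 : Integrable (fun a => ρ a * f₀ a ^ 2) ν := by
      refine (mul_int hρf hf₀).congr (Eventually.of_forall fun a => ?_)
      simp only; ring
    have i1 : Integrable (fun a => (ρ a * (f i a - f₀ a)) * (f i a - f₀ a)) ν :=
      mul_int (hρd i) (hd i)
    have i2 : Integrable (fun a => 2 * ((f i a - f₀ a) * (ρ a * f₀ a))) ν :=
      (mul_int (hd i) hρf).const_mul 2
    have i4 : Integrable (fun a => (ρ a * (f i a - f₀ a)) * (f i a - f₀ a) +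
      2 * ((f i a - f₀ a) * (ρ a * f₀ a))) ν := i1.add i2
    rw [← MeasureTheory.integral_const_mul, ← integral_add i1 i2, ← integral_add i4 i3]
    congr 1; funext a; ring
  simp_rw [h1]
  have h2 : Tendsto (fun i => ∫ a, (ρ a * (f i a - f₀ a)) * (f i a - f₀ a) ∂ν) l (𝓝 0) := by
    have h3 : Tendsto (fun i => C * ∫ a, (f i a - f₀ a) ^ 2 ∂ν) l (𝓝 0) := by
      simpa using h.const_mul C
    refine squeeze_zero_norm (fun i => ?_) h3
    rw [Real.norm_eq_abs, ← MeasureTheory.integral_const_mul]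
    refine (MeasureTheory.abs_integral_le_integral_abs).trans ?_
    refine integral_mono_ae (mul_int (hρd i) (hd i)).abs ((sq_int (hd i)).const_mul C) ?_
    filter_upwards [hC] with a ha
    have e : ρ a * (f i a - f₀ a) * (f i a - f₀ a) = ρ a * (f i a - f₀ a) ^ 2 := by ring
    rw [e, abs_mul, abs_of_nonneg (sq_nonneg (f i a - f₀ a))]
    exact mul_le_mul_of_nonneg_right ha (sq_nonneg _)
  have h4 : Tendsto (fun i => ∫ a, (f i a - f₀ a) * (ρ a * f₀ a) ∂ν) l (𝓝 0) := by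
    have h5 : Tendsto (fun i => ∫ a, ((f i a - f₀ a) - (fun _ => (0:ℝ)) a) ^ 2 ∂ν) l (𝓝 0) := by
      simpa using h
    have := tendsto_pair (f := fun i a => f i a - f₀ a) (f₀ := fun _ => (0:ℝ)) hd
      (MemLp.zero (ε := ℝ)) hρf h5
    simpa using this
  have := (h2.add (h4.const_mul 2)).add_const (∫ a, ρ a * f₀ a ^ 2 ∂ν)
  simpa using this

/-- completeness of `L²`, for a sequence with orthogonal increments -/
lemma exists_lim {f : ℕ → α → ℝ} (hf : ∀ n, MemLp (f n) 2 ν) {a : ℕ → ℝ} (ha : Summable a)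
    (ha0 : ∀ n, 0 ≤ a n)
    (h : ∀ K J, K ≤ J → ∫ x, (f J x - f K x) ^ 2 ∂ν = ∑ n ∈ Finset.Ico K J, a n) :
    ∃ P : α → ℝ, StronglyMeasurable P ∧ MemLp P 2 ν ∧
      Tendsto (fun J => ∫ x, (f J x - P x) ^ 2 ∂ν) atTop (𝓝 0) := by
  have hnorm : ∀ {g : α → ℝ} (hg : MemLp g 2 ν), ‖hg.toLp g‖ ^ 2 = ∫ x, g x ^ 2 ∂ν := by
    intro g hg
    have h1 := @L2.inner_def α ℝ ℝ _ _ _ _ _ (hg.toLp g) (hg.toLp g)
    rw [real_inner_self_eq_norm_sq] at h1
    rw [h1]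
    refine integral_congr_ae ?_
    filter_upwards [hg.coeFn_toLp] with x hx
    rw [hx, real_inner_self_eq_norm_sq, Real.norm_eq_abs, sq_abs]
  have hcau : CauchySeq fun n => (hf n).toLp (f n) := by
    rw [Metric.cauchySeq_iff']
    intro ε hε
    have h1 : Tendsto (fun K => ∑' n, a (n + K)) atTop (𝓝 0) := tendsto_sum_nat_add a
    obtain ⟨N, hN⟩ := ((h1.eventually (gt_mem_nhds (show (0:ℝ) < ε ^ 2 by positivity)))).exists
    refine ⟨N, fun n hn => ?_⟩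
    rw [dist_eq_norm, ← MemLp.toLp_sub]
    have h2 := hnorm ((hf n).sub (hf N))
    have h3 : ∫ x, (f n - f N) x ^ 2 ∂ν = ∑ k ∈ Finset.Ico N n, a k := h N n hn
    rw [h3] at h2
    have h4 : ∑ k ∈ Finset.Ico N n, a k ≤ ∑' k, a (k + N) := by
      rw [Finset.sum_Ico_eq_sum_range]
      have := ((summable_nat_add_iff N).2 ha).sum_le_tsum (Finset.range (n - N))
        (fun k _ => ha0 (k + N))
      simpa [add_comm] using this
    have h5 : ‖((hf n).sub (hf N)).toLp (f n - f N)‖ ^ 2 < ε ^ 2 := by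
      rw [h2]; exact h4.trans_lt hN
    exact lt_of_pow_lt_pow_left₀ 2 hε.le h5
  obtain ⟨P, hP⟩ := cauchySeq_tendsto_of_complete hcau
  refine ⟨P, Lp.stronglyMeasurable P, Lp.memLp P, ?_⟩
  have h1 := tendsto_iff_norm_sub_tendsto_zero.1 hP
  have h2 := h1.pow 2
  rw [zero_pow two_ne_zero] at h2
  refine h2.congr fun J => ?_
  have h3 : (hf J).toLp (f J) - P = ((hf J).sub (Lp.memLp P)).toLp (f J - (P : α → ℝ)) := by
    rw [MemLp.toLp_sub (hf J) (Lp.memLp P), Lp.toLp_coeFn]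
  rw [h3, hnorm]
  rfl

/-- subsequence with a.e. convergence -/
lemma exists_subseq {f : ℕ → α → ℝ} (hf : ∀ n, Integrable (f n) ν) (hf0 : ∀ n, ∀ x, 0 ≤ f n x)
    (h : Tendsto (fun n => ∫ x, f n x ∂ν) atTop (𝓝 0)) :
    ∃ s : ℕ → ℕ, StrictMono s ∧ ∀ᵐ x ∂ν, Tendsto (fun k => f (s k) x) atTop (𝓝 0) := by
  have h1 : TendstoInMeasure ν f atTop (fun _ => (0:ℝ)) := by
    refine tendstoInMeasure_of_tendsto_eLpNorm (p := 1) one_ne_zero
      (fun n => (hf n).aestronglyMeasurable) aestronglyMeasurable_const ?_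
    have h2 : ∀ n, eLpNorm (f n - fun _ => (0:ℝ)) 1 ν = ENNReal.ofReal (∫ x, f n x ∂ν) := by
      intro n
      rw [eLpNorm_one_eq_lintegral_enorm, ofReal_integral_eq_lintegral_ofReal (hf n)
        (Eventually.of_forall (hf0 n))]
      refine lintegral_congr fun x => ?_
      simp only [Pi.sub_apply, sub_zero]
      rw [Real.enorm_eq_ofReal (hf0 n x)]
    simp_rw [h2]
    have := (ENNReal.continuous_ofReal.tendsto 0).comp h
    rw [ENNReal.ofReal_zero] at this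
    exact this
  exact h1.exists_seq_tendsto_ae

end

lemma ii_mu (f : ℝ → ℝ) : ∫ x in (0:ℝ)..1, f x = ∫ x, f x ∂mu := (ioo_int f).symm

end Pool.Agent.Y308.BC
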