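import Pool.Agent.Y308.BC.Theta

/-! # The fast oscillating background and the quadratic form inequality -/

set_option autoImplicit false

open MeasureTheory Set Real Filter Topology intervalIntegral
open scoped ENNReal NNReal

namespace Pool.Agent.Y308.BC

lemma hasDerivAt_negmul (a x : ℝ) : HasDerivAt (fun x => -(a * x)) (-a) x := by
  have h : HasDerivAt (fun x => (-a) * x) (-a) x := by
    simpa using (hasDerivAt_id x).const_mul (-a)
  have e : (fun x => -(a * x)) = fun x => (-a) * x := by funext x; ring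
  rw [e]; exact h

lemma int_xexp {a : ℝ} (ha : 0 < a) : ∫ x in (0:ℝ)..1, a * x * Real.exp (-(a * x)) ≤ 1 / a := by
  have hd : ∀ x ∈ uIcc (0:ℝ) 1, HasDerivAt (fun x => -(x * Real.exp (-(a * x))) -
      Real.exp (-(a * x)) / a) (a * x * Real.exp (-(a * x))) x := by
    intro x _
    have h0 : HasDerivAt (fun x => -(a * x)) (-a) x := hasDerivAt_negmul a x
    have h1 := h0.exp
    have h2 := (((hasDerivAt_id x).mul h1).neg).sub (h1.div_const a)
    refine h2.congr_deriv ?_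
    simp only [id]
    field_simp
    ring
  rw [intervalIntegral.integral_eq_sub_of_hasDerivAt hd (by
    apply Continuous.intervalIntegrable; fun_prop)]
  simp only [mul_zero, neg_zero, Real.exp_zero, mul_one, zero_sub, sub_neg_eq_add, one_mul]
  have h1 := Real.exp_pos (-a)
  have h2 : 0 ≤ Real.exp (-a) / a := by positivity
  linarith

lemma int_exp1 (a : ℝ) : ∫ x in (0:ℝ)..1, a * Real.exp (-(a * x)) ≤ 1 := by
  have hd : ∀ x ∈ uIcc (0:ℝ) 1, HasDerivAt (fun x => -Real.exp (-(a * x)))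
      (a * Real.exp (-(a * x))) x := by
    intro x _
    have h0 : HasDerivAt (fun x => -(a * x)) (-a) x := hasDerivAt_negmul a x
    refine (h0.exp.neg).congr_deriv ?_
    ring
  rw [intervalIntegral.integral_eq_sub_of_hasDerivAt hd (by
    apply Continuous.intervalIntegrable; fun_prop)]
  simp only [mul_zero, neg_zero, Real.exp_zero, mul_one, sub_neg_eq_add]
  have h1 := Real.exp_pos (-a)
  linarith

lemma sq_le_of_deriv {q q' : ℝ → ℝ} (hq : ∀ x, HasDerivAt q (q' x) x) (hq' : Continuous q')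
    (h0 : q 0 = 0) {x : ℝ} (hx : x ∈ Icc (0:ℝ) 1) :
    q x ^ 2 ≤ x * ∫ z in (0:ℝ)..1, q' z ^ 2 := by
  have h1 : q x = ∫ z, q' z * (Iic x).indicator (fun _ => (1:ℝ)) z ∂mu := by
    rw [← int_upto _ hx, intervalIntegral.integral_eq_sub_of_hasDerivAt (fun z _ => hq z)
      (hq'.intervalIntegrable _ _), h0, sub_zero]
  have h2 := cs (memLp_cont hq'.continuousOn) (mem_ind x)
  rw [← h1] at h2
  have h3 : ∫ z, (Iic x).indicator (fun _ => (1:ℝ)) z ^ 2 ∂mu = x := by
    have e : (fun z => (Iic x).indicator (fun _ => (1:ℝ)) z ^ 2) =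
        fun z => (fun _ => (1:ℝ)) z * (Iic x).indicator (fun _ => (1:ℝ)) z := by
      funext z
      by_cases hz : z ∈ Iic x
      · rw [indicator_of_mem hz]; norm_num
      · rw [indicator_of_notMem hz]; norm_num
    rw [e, ← int_upto _ hx]
    simp
  rw [h3, ← ii_mu, mul_comm] at h2
  exact h2

lemma t1_alg {A lm p S2 e X x S0 q T hp' E k : ℝ} (hlm : 0 < lm) (hAp : A ^ p = 36 * lm)
    (he1 : 1 ≤ e) (he2 : e ≤ X) (hx : 0 ≤ x) (hS0 : 0 ≤ S0) (hqx : q ^ 2 ≤ x * S0)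
    (hT : hp' * q ^ 2 / 18 ≤ T) (hlo : A ^ p * S2 - A ^ p * E ≤ hp') (hE : 0 ≤ E) (hk : 0 < k) :
    -(2 * lm * (e * T)) ≤ -(4 * lm ^ 2 * S2) * (e * q ^ 2) +
        (4 * lm ^ 2 * X * S0 / k) * (k * x * E) := by
  have a1 : (A ^ p * S2 - A ^ p * E) * q ^ 2 ≤ hp' * q ^ 2 :=
    mul_le_mul_of_nonneg_right hlo (sq_nonneg _)
  rw [hAp] at a1
  have a0 : (36 * lm * S2 - 36 * lm * E) * q ^ 2 ≤ 18 * T := by linarith
  have a2 := mul_le_mul_of_nonneg_left a0 (by positivity : 0 ≤ lm * e)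
  have h7 : 0 ≤ x * S0 := mul_nonneg hx hS0
  have a3 : e * E * q ^ 2 ≤ X * E * (x * S0) := by
    calc e * E * q ^ 2 ≤ e * E * (x * S0) := mul_le_mul_of_nonneg_left hqx (by positivity)
      _ ≤ _ := by gcongr
  have a4 : (4 * lm ^ 2 * X * S0 / k) * (k * x * E) = 4 * lm ^ 2 * (X * E * (x * S0)) := by
    field_simp
  rw [a4]
  have a5 := mul_le_mul_of_nonneg_left a3 (by positivity : 0 ≤ 4 * lm ^ 2)
  have a6 : lm * e * ((36 * lm * S2 - 36 * lm * E) * q ^ 2) =
      9 * (4 * lm ^ 2 * S2 * (e * q ^ 2) - 4 * lm ^ 2 * (e * E * q ^ 2)) := by ring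
  rw [a6] at a2
  linarith

lemma t2_alg {A ε e X E x S0 q g h' : ℝ} (hA : 0 < A) (hε : 0 < ε) (he1 : 1 ≤ e) (he2 : e ≤ X)
    (hE0 : 0 ≤ E) (b1 : |g| ≤ 2 * |q| * (1 + 2 * A + |q|)) (b2 : |h'| ≤ 2 * A * E)
    (hqx : q ^ 2 ≤ x * S0) :
    2 * (e * g * h') ≤ (4 * A * X * (1 + 2 * A) ^ 2 * ε) * E +
        (8 * A * X * (1 / (2 * ε) + 1) * S0) * (x * E) := by
  have hX : 0 < X := by linarith
  have b3 : g * h' ≤ (2 * |q| * (1 + 2 * A + |q|)) * (2 * A * E) := by
    refine (le_abs_self _).trans ?_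
    rw [abs_mul]
    exact mul_le_mul b1 b2 (abs_nonneg _) (by positivity)
  have b4 : (1 + 2 * A) * |q| ≤ (1 + 2 * A) ^ 2 * ε / 2 + q ^ 2 / (2 * ε) := by
    have : 0 ≤ ((1 + 2 * A) * ε - |q|) ^ 2 / (2 * ε) := by positivity
    have e5 : ((1 + 2 * A) * ε - |q|) ^ 2 / (2 * ε) =
        (1 + 2 * A) ^ 2 * ε / 2 - (1 + 2 * A) * |q| + |q| ^ 2 / (2 * ε) := by
      field_simp
      ring
    rw [e5, sq_abs] at this
    linarith
  have b5 : |q| * (1 + 2 * A + |q|) ≤ (1 + 2 * A) ^ 2 * ε / 2 +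
      (1 / (2 * ε) + 1) * (x * S0) := by
    have e6 : |q| * (1 + 2 * A + |q|) = (1 + 2 * A) * |q| + q ^ 2 := by
      rw [← sq_abs q]; ring
    rw [e6]
    have e7 : (1 / (2 * ε) + 1) * q ^ 2 ≤ (1 / (2 * ε) + 1) * (x * S0) :=
      mul_le_mul_of_nonneg_left hqx (by positivity)
    have e8 : q ^ 2 / (2 * ε) = 1 / (2 * ε) * q ^ 2 := by ring
    rw [e8] at b4
    linarith
  have b6 : 2 * (e * g * h') ≤ 2 * (e * ((2 * |q| * (1 + 2 * A + |q|)) * (2 * A * E))) := by
    have := mul_le_mul_of_nonneg_left b3 (by positivity : (0:ℝ) ≤ 2 * e)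
    linarith
  refine b6.trans ?_
  have b7 : 0 ≤ |q| * (1 + 2 * A + |q|) := by positivity
  calc 2 * (e * ((2 * |q| * (1 + 2 * A + |q|)) * (2 * A * E))) =
      8 * A * E * e * (|q| * (1 + 2 * A + |q|)) := by ring
    _ ≤ 8 * A * E * X * (|q| * (1 + 2 * A + |q|)) := by gcongr
    _ ≤ 8 * A * E * X * ((1 + 2 * A) ^ 2 * ε / 2 +
      (1 / (2 * ε) + 1) * (x * S0)) := mul_le_mul_of_nonneg_left b5 (by positivity)
    _ = _ := by ring

/-- **The quadratic form inequality.** -/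
theorem form_ineq {p M A lm κ ε S2 : ℝ} (hp : 0 < p) (hp1 : p ≤ 1/2) (hA : 0 < A)
    (hAM : 2 * A ≤ M) (hlm : 0 < lm) (hAp : A ^ p = 36 * lm) (hε : 0 < ε) (hε1 : ε ≤ 1)
    (hκ : 1 / ε ^ 2 ≤ κ) (hc1 : 4 * lm ^ 2 * Real.exp lm * ε ≤ p ^ 2)
    (hc2 : 16 * A * Real.exp lm * ε ≤ 1)
    {hh hh' : ℝ → ℝ} (hd : ∀ x, HasDerivAt hh (hh' x) x) (hc' : Continuous hh')
    (hb : ∀ x ∈ Icc (0:ℝ) 1, |hh x| ≤ 2 * A)
    (hb' : ∀ x ∈ Icc (0:ℝ) 1, |hh' x| ≤ 2 * A * (κ * Real.exp (-(κ * x))))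
    (hlow : ∀ x ∈ Icc (0:ℝ) 1, A ^ p * S2 - A ^ p * Real.exp (-(p * κ * x)) ≤ |hh x| ^ p)
    {q q' : ℝ → ℝ} (hq : ∀ x, HasDerivAt q (q' x) x) (hq' : Continuous q')
    (h0 : q 0 = 0) (h1 : q 1 = 0) :
    -(2 * ∫ x in (0:ℝ)..1, (lm * Real.exp (lm * x) * q x + Real.exp (lm * x) * q' x) *
      (q' x + GG p M (hh x + q x))) ≤
      (lm ^ 2 - 4 * lm ^ 2 * S2) * (∫ x in (0:ℝ)..1, Real.exp (lm * x) * q x ^ 2) +
        4 * A * Real.exp lm * (1 + 2 * A) ^ 2 * ε := by
  have hM : 0 ≤ M := by linarith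
  have hκ0 : 0 < κ := lt_of_lt_of_le (by positivity) hκ
  have hqc : Continuous q := continuous_iff_continuousAt.2 fun x => (hq x).continuousAt
  have hhc : Continuous hh := continuous_iff_continuousAt.2 fun x => (hd x).continuousAt
  have hGc : Continuous (GG p M) := GG_cont hp
  have hQc : Continuous (QQ p M) := continuous_iff_continuousAt.2 fun y => (QQ_deriv hp y).continuousAt
  set S0 := ∫ z in (0:ℝ)..1, q' z ^ 2 with hS0
  have hS0n : 0 ≤ S0 := intervalIntegral.integral_nonneg zero_le_one fun x _ => sq_nonneg _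
  -- the total derivative part
  set Ψ : ℝ → ℝ := fun x => lm * (Real.exp (lm * x) * q x ^ 2) +
    2 * (Real.exp (lm * x) * (QQ p M (hh x + q x) - QQ p M (hh x))) with hΨ
  set Ψ' : ℝ → ℝ := fun x => lm * (lm * Real.exp (lm * x) * q x ^ 2 +
    Real.exp (lm * x) * (2 * q x * q' x)) + 2 * (lm * Real.exp (lm * x) *
      (QQ p M (hh x + q x) - QQ p M (hh x)) + Real.exp (lm * x) *
      (GG p M (hh x + q x) * (hh' x + q' x) - GG p M (hh x) * hh' x)) with hΨ'
  have hΨd : ∀ x, HasDerivAt Ψ (Ψ' x) x := by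
    intro x
    have e1 : HasDerivAt (fun x => Real.exp (lm * x)) (lm * Real.exp (lm * x)) x := by
      have : HasDerivAt (fun x => lm * x) lm x := by simpa using (hasDerivAt_id x).const_mul lm
      refine this.exp.congr_deriv (by ring)
    have e2 : HasDerivAt (fun x => q x ^ 2) (2 * q x * q' x) x := by
      refine ((hq x).pow 2).congr_deriv (by push_cast; ring)
    have e3 : HasDerivAt (fun x => QQ p M (hh x + q x)) (GG p M (hh x + q x) * (hh' x + q' x)) x :=
      HasDerivAt.comp x (h := fun x => hh x + q x) (QQ_deriv hp (hh x + q x))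
        ((hd x).add (hq x))
    have e4 : HasDerivAt (fun x => QQ p M (hh x)) (GG p M (hh x) * hh' x) x :=
      (QQ_deriv hp (hh x)).comp x (hd x)
    exact ((e1.mul e2).const_mul lm).add ((e1.mul (e3.sub e4)).const_mul 2)
  have hΨ'c : Continuous Ψ' := by rw [hΨ']; fun_prop
  have hΨint : ∫ x in (0:ℝ)..1, Ψ' x = 0 := by
    rw [intervalIntegral.integral_eq_sub_of_hasDerivAt (fun x _ => hΨd x)
      (hΨ'c.intervalIntegrable _ _)]
    simp only [hΨ, h0, h1]
    ring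
  -- pointwise bound
  set err : ℝ → ℝ := fun x =>
    (4 * lm ^ 2 * Real.exp lm * S0 / (p * κ)) * (p * κ * x * Real.exp (-(p * κ * x))) +
    (4 * A * Real.exp lm * (1 + 2 * A) ^ 2 * ε) * (κ * Real.exp (-(κ * x))) +
    (8 * A * Real.exp lm * (1 / (2 * ε) + 1) * S0) * (κ * x * Real.exp (-(κ * x))) with herr
  have key : ∀ x ∈ Icc (0:ℝ) 1,
      -(2 * ((lm * Real.exp (lm * x) * q x + Real.exp (lm * x) * q' x) *
      (q' x + GG p M (hh x + q x)))) ≤
      (-2 * q' x ^ 2 + (lm ^ 2 - 4 * lm ^ 2 * S2) * (Real.exp (lm * x) * q x ^ 2) - Ψ' x) +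
        err x := by
    intro x hx
    set e := Real.exp (lm * x) with he
    have he1 : 1 ≤ e := Real.one_le_exp (by have := hx.1; positivity)
    have he2 : e ≤ Real.exp lm := Real.exp_le_exp.2 (by nlinarith [hx.2])
    have hid : -(2 * ((lm * e * q x + e * q' x) * (q' x + GG p M (hh x + q x)))) =
        (-2 * (e * q' x ^ 2) + lm ^ 2 * (e * q x ^ 2) - Ψ' x) -
          2 * lm * (e * Th p M (hh x) (q x)) +
          2 * (e * (GG p M (hh x + q x) - GG p M (hh x)) * hh' x) := by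
      simp only [hΨ']
      unfold Th
      ring
    rw [hid]
    have hqx := sq_le_of_deriv hq hq' h0 hx
    rw [← hS0] at hqx
    -- Θ term
    have hT := Th_ge (q := q x) hp (by linarith : p ≤ 1) ((hb x hx).trans hAM)
    have t1 := t1_alg hlm hAp he1 he2 hx.1 hS0n hqx hT (hlow x hx) (Real.exp_pos _).le
      (by positivity : 0 < p * κ)
    have b1 := GG_incr (q := q x) hp hp1 hM (hb x hx)
    have t2 := t2_alg hA hε he1 he2 (by positivity : 0 ≤ κ * Real.exp (-(κ * x))) b1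
      (hb' x hx) hqx
    have t3 : 0 ≤ (e - 1) * q' x ^ 2 := mul_nonneg (by linarith) (sq_nonneg _)
    have t4 : err x = (4 * lm ^ 2 * Real.exp lm * S0 / (p * κ)) *
        (p * κ * x * Real.exp (-(p * κ * x))) +
      (4 * A * Real.exp lm * (1 + 2 * A) ^ 2 * ε) * (κ * Real.exp (-(κ * x))) +
      (8 * A * Real.exp lm * (1 / (2 * ε) + 1) * S0) * (x * (κ * Real.exp (-(κ * x)))) := by
      simp only [herr]; ring
    rw [t4]
    clear_value err e Ψ'
    linarith
  have hint : ∫ x in (0:ℝ)..1, err x ≤ 4 * lm ^ 2 * Real.exp lm * S0 / (p * κ) * (1 / (p * κ)) +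
      4 * A * Real.exp lm * (1 + 2 * A) ^ 2 * ε +
      8 * A * Real.exp lm * (1 / (2 * ε) + 1) * S0 * (1 / κ) := by
    have c1 : Continuous fun x : ℝ => p * κ * x * Real.exp (-(p * κ * x)) := by fun_prop
    have c2 : Continuous fun x : ℝ => κ * Real.exp (-(κ * x)) := by fun_prop
    have c3 : Continuous fun x : ℝ => κ * x * Real.exp (-(κ * x)) := by fun_prop
    have split : ∀ K1 K2 K3 : ℝ, ∫ x in (0:ℝ)..1, (K1 * (p * κ * x * Real.exp (-(p * κ * x))) +
        K2 * (κ * Real.exp (-(κ * x))) + K3 * (κ * x * Real.exp (-(κ * x)))) =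
        K1 * (∫ x in (0:ℝ)..1, p * κ * x * Real.exp (-(p * κ * x))) +
        K2 * (∫ x in (0:ℝ)..1, κ * Real.exp (-(κ * x))) +
        K3 * ∫ x in (0:ℝ)..1, κ * x * Real.exp (-(κ * x)) := by
      intro K1 K2 K3
      have i1 := (c1.intervalIntegrable (μ := volume) 0 1).const_mul K1
      have i2 := (c2.intervalIntegrable (μ := volume) 0 1).const_mul K2
      have i3 := (c3.intervalIntegrable (μ := volume) 0 1).const_mul K3
      rw [intervalIntegral.integral_add (i1.add i2) i3, intervalIntegral.integral_add i1 i2]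
      simp_rw [intervalIntegral.integral_const_mul]
    have e0 := split (4 * lm ^ 2 * Real.exp lm * S0 / (p * κ))
      (4 * A * Real.exp lm * (1 + 2 * A) ^ 2 * ε) (8 * A * Real.exp lm * (1 / (2 * ε) + 1) * S0)
    have e00 : ∫ x in (0:ℝ)..1, err x = 4 * lm ^ 2 * Real.exp lm * S0 / (p * κ) *
        (∫ x in (0:ℝ)..1, p * κ * x * Real.exp (-(p * κ * x))) +
        4 * A * Real.exp lm * (1 + 2 * A) ^ 2 * ε * (∫ x in (0:ℝ)..1, κ * Real.exp (-(κ * x))) +
        8 * A * Real.exp lm * (1 / (2 * ε) + 1) * S0 *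
          ∫ x in (0:ℝ)..1, κ * x * Real.exp (-(κ * x)) := e0
    rw [e00]
    have d1 := int_xexp (a := p * κ) (by positivity)
    have d2 := int_exp1 κ
    have d3 := int_xexp hκ0
    have e1 := mul_le_mul_of_nonneg_left d1
      (by positivity : 0 ≤ 4 * lm ^ 2 * Real.exp lm * S0 / (p * κ))
    have e2 := mul_le_mul_of_nonneg_left d2
      (by positivity : 0 ≤ 4 * A * Real.exp lm * (1 + 2 * A) ^ 2 * ε)
    have e3 := mul_le_mul_of_nonneg_left d3
      (by positivity : 0 ≤ 8 * A * Real.exp lm * (1 / (2 * ε) + 1) * S0)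
    rw [mul_one] at e2
    linarith
  -- smallness of the coefficients of `S0`
  have hκi : 1 / κ ≤ ε ^ 2 := by
    rw [div_le_iff₀ hκ0]
    rw [div_le_iff₀ (by positivity)] at hκ
    linarith
  have hκi0 : 0 < 1 / κ := by positivity
  have s1 : 4 * lm ^ 2 * Real.exp lm * S0 / (p * κ) * (1 / (p * κ)) ≤ S0 := by
    have e1 : 4 * lm ^ 2 * Real.exp lm * S0 / (p * κ) * (1 / (p * κ)) =
        (4 * lm ^ 2 * Real.exp lm * (1 / κ * (1 / κ))) / p ^ 2 * S0 := by
      field_simp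
    rw [e1]
    have e2 : 1 / κ * (1 / κ) ≤ ε := by
      calc 1 / κ * (1 / κ) ≤ ε ^ 2 * ε ^ 2 := by gcongr
        _ = ε * ε ^ 3 := by ring
        _ ≤ ε * 1 := by
            gcongr
            exact pow_le_one₀ hε.le hε1
        _ = ε := mul_one ε
    have e3 : (4 * lm ^ 2 * Real.exp lm * (1 / κ * (1 / κ))) / p ^ 2 ≤ 1 := by
      rw [div_le_one (by positivity)]
      exact (mul_le_mul_of_nonneg_left e2 (by positivity)).trans hc1
    exact mul_le_of_le_one_left hS0n e3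
  have s2 : 8 * A * Real.exp lm * (1 / (2 * ε) + 1) * S0 * (1 / κ) ≤ S0 := by
    have e1 : (1 / (2 * ε) + 1) * (1 / κ) ≤ 2 * ε := by
      calc (1 / (2 * ε) + 1) * (1 / κ) ≤ (1 / (2 * ε) + 1) * ε ^ 2 := by gcongr
        _ = ε / 2 + ε * ε := by field_simp
        _ ≤ ε / 2 + ε * 1 := by gcongr
        _ ≤ 2 * ε := by linarith
    have e2 : 8 * A * Real.exp lm * (1 / (2 * ε) + 1) * S0 * (1 / κ) =
        (8 * A * Real.exp lm * ((1 / (2 * ε) + 1) * (1 / κ))) * S0 := by ring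
    rw [e2]
    refine mul_le_of_le_one_left hS0n ?_
    calc 8 * A * Real.exp lm * ((1 / (2 * ε) + 1) * (1 / κ)) ≤ 8 * A * Real.exp lm * (2 * ε) := by
          gcongr
      _ = 16 * A * Real.exp lm * ε := by ring
      _ ≤ 1 := hc2
  -- integrate the pointwise bound
  have c1 : Continuous fun x => (lm * Real.exp (lm * x) * q x + Real.exp (lm * x) * q' x) *
      (q' x + GG p M (hh x + q x)) := by fun_prop
  have c2 : Continuous fun x => -2 * q' x ^ 2 := by fun_prop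
  have c3 : Continuous fun x => Real.exp (lm * x) * q x ^ 2 := by fun_prop
  have c4 : Continuous err := by rw [herr]; fun_prop
  have c5 : Continuous fun x => -2 * q' x ^ 2 + (lm ^ 2 - 4 * lm ^ 2 * S2) *
    (Real.exp (lm * x) * q x ^ 2) := by fun_prop
  have c6 : Continuous fun x => -2 * q' x ^ 2 + (lm ^ 2 - 4 * lm ^ 2 * S2) *
    (Real.exp (lm * x) * q x ^ 2) - Ψ' x := c5.sub hΨ'c
  have hmono := intervalIntegral.integral_mono_on (μ := volume) zero_le_one
      ((c1.const_mul 2).neg.intervalIntegrable _ _)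
      ((c6.add c4).intervalIntegrable _ _) key
  have hl : ∫ x in (0:ℝ)..1, -(2 * ((lm * Real.exp (lm * x) * q x + Real.exp (lm * x) * q' x) *
      (q' x + GG p M (hh x + q x)))) = -(2 * ∫ x in (0:ℝ)..1,
      (lm * Real.exp (lm * x) * q x + Real.exp (lm * x) * q' x) *
      (q' x + GG p M (hh x + q x))) := by
    rw [intervalIntegral.integral_neg, intervalIntegral.integral_const_mul]
  have hr : ∫ x in (0:ℝ)..1, ((-2 * q' x ^ 2 + (lm ^ 2 - 4 * lm ^ 2 * S2) *
      (Real.exp (lm * x) * q x ^ 2) - Ψ' x) + err x) = (-2 * S0 + (lm ^ 2 - 4 * lm ^ 2 * S2) *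
      (∫ x in (0:ℝ)..1, Real.exp (lm * x) * q x ^ 2)) + ∫ x in (0:ℝ)..1, err x := by
    rw [intervalIntegral.integral_add (c6.intervalIntegrable _ _)
      (c4.intervalIntegrable _ _),
      intervalIntegral.integral_sub (c5.intervalIntegrable _ _) (hΨ'c.intervalIntegrable _ _),
      intervalIntegral.integral_add (c2.intervalIntegrable _ _)
      ((c3.intervalIntegrable _ _).const_mul _), hΨint, sub_zero,
      intervalIntegral.integral_const_mul, intervalIntegral.integral_const_mul]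
  have hfin : -(2 * ∫ x in (0:ℝ)..1,
      (lm * Real.exp (lm * x) * q x + Real.exp (lm * x) * q' x) *
      (q' x + GG p M (hh x + q x))) ≤ (-2 * S0 + (lm ^ 2 - 4 * lm ^ 2 * S2) *
      (∫ x in (0:ℝ)..1, Real.exp (lm * x) * q x ^ 2)) + ∫ x in (0:ℝ)..1, err x := by
    rw [← hl, ← hr]; exact hmono
  linarith

end Pool.Agent.Y308.BC
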