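import Pool.Agent.Y308.BC.L2

/-! # Mild solutions of `r_t = r_xx + F_x` and their finite sections -/

set_option autoImplicit false

open MeasureTheory Set Real Filter Topology intervalIntegral
open scoped ENNReal NNReal

namespace Pool.Agent.Y308.BC

/-- sine coefficients of the mild solution -/
noncomputable def rn (c : ℝ → ℝ) (F : ℝ → ℝ → ℝ) (n : ℕ) (t : ℝ) : ℝ :=
  Real.exp (-(lam n) * t) * cf (es n) c + wn F n t

/-- the mild solution -/
noncomputable def RR (c : ℝ → ℝ) (F : ℝ → ℝ → ℝ) (t x : ℝ) : ℝ := SS c t x + NN F t x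

variable {c : ℝ → ℝ} {F : ℝ → ℝ → ℝ} {B : ℝ}

lemma rn_zero (c : ℝ → ℝ) (F : ℝ → ℝ → ℝ) (n : ℕ) : rn c F n 0 = cf (es n) c := by
  unfold rn; rw [wn_zero]; simp

lemma rn_summable (hc : MemLp c 2 mu) (h : Adm F B) {t : ℝ} (ht : 0 < t) :
    Summable fun n => |rn c F n t| := by
  refine Summable.of_nonneg_of_le (fun n => abs_nonneg _) (fun n => abs_add_le _ _)
    ((SS_coef_summable hc ht).add (wn_summable h ht.le))

lemma RR_eq_ser (hc : MemLp c 2 mu) (h : Adm F B) {t : ℝ} (ht : 0 < t) :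
    RR c F t = ser (fun n => rn c F n t) := by
  funext x
  unfold RR ser rn
  simp_rw [add_mul]
  rw [Summable.tsum_add (ser_summable (SS_coef_summable hc ht) x) (wn_es_summable h ht.le x)]
  rfl

lemma RR_cf (hc : MemLp c 2 mu) (h : Adm F B) {t : ℝ} (ht : 0 < t) (n : ℕ) :
    cf (es n) (RR c F t) = rn c F n t := by
  rw [RR_eq_ser hc h ht]
  exact ser_cf (rn_summable hc h ht) n

lemma RR_sec (hc : MemLp c 2 mu) (h : Adm F B) {t : ℝ} (ht : 0 < t) : Continuous (RR c F t) := by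
  rw [RR_eq_ser hc h ht]
  exact ser_cont (rn_summable hc h ht)

lemma RR_mem (hc : MemLp c 2 mu) (h : Adm F B) {t : ℝ} (ht : 0 < t) : MemLp (RR c F t) 2 mu :=
  memLp_cont (RR_sec hc h ht).continuousOn

lemma RR_cont (hc : MemLp c 2 mu) (h : Adm F B) :
    ContinuousOn (fun q : ℝ × ℝ => RR c F q.1 q.2) (Ioi 0 ×ˢ univ) := by
  unfold RR
  exact (SS_cont hc).add ((NN_cont h).mono (prod_mono Ioi_subset_Ici_self le_rfl))

lemma RR_left (c : ℝ → ℝ) (F : ℝ → ℝ → ℝ) (t : ℝ) : RR c F t 0 = 0 := by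
  unfold RR; rw [SS_left, NN_left, add_zero]
lemma RR_right (c : ℝ → ℝ) (F : ℝ → ℝ → ℝ) (t : ℝ) : RR c F t 1 = 0 := by
  unfold RR; rw [SS_right, NN_right, add_zero]

lemma rn_deriv (c : ℝ → ℝ) (h : Adm F B) (n : ℕ) {t : ℝ} (ht : 0 < t) :
    HasDerivAt (rn c F n) (-(lam n) * rn c F n t - kk n * Fc F n t) t := by
  have h2 : HasDerivAt (fun t => Real.exp (-(lam n) * t)) (Real.exp (-(lam n) * t) * -(lam n)) t := by
    have : HasDerivAt (fun t => -(lam n) * t) (-(lam n)) t := by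
      simpa using (hasDerivAt_id t).const_mul (-(lam n))
    exact this.exp
  have h3 := (h2.mul_const (cf (es n) c)).add (wn_deriv h n ht)
  refine h3.congr_deriv ?_
  unfold rn; ring

lemma rn_cont (c : ℝ → ℝ) (h : Adm F B) (n : ℕ) : ContinuousOn (rn c F n) (Ici 0) := by
  unfold rn
  exact ContinuousOn.add (by fun_prop) (wn_cont h n)

/-- finite section of the solution -/
noncomputable def rJ (c : ℝ → ℝ) (F : ℝ → ℝ → ℝ) (J : ℕ) (t x : ℝ) : ℝ :=
  ∑ n ∈ Finset.range J, rn c F n t * es n x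
/-- its slope -/
noncomputable def rJx (c : ℝ → ℝ) (F : ℝ → ℝ → ℝ) (J : ℕ) (t x : ℝ) : ℝ :=
  ∑ n ∈ Finset.range J, rn c F n t * (kk n * ec n x)
/-- finite section of the flux -/
noncomputable def fJ (F : ℝ → ℝ → ℝ) (J : ℕ) (t x : ℝ) : ℝ :=
  ∑ n ∈ Finset.range (J + 1), cf (ecf n) (F t) * ecf n x
/-- time derivative of the finite section -/
noncomputable def gJ (c : ℝ → ℝ) (F : ℝ → ℝ → ℝ) (J : ℕ) (t x : ℝ) : ℝ :=
  ∑ n ∈ Finset.range J, (-(lam n) * rn c F n t - kk n * Fc F n t) * es n x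
/-- dissipation -/
noncomputable def DJ (c : ℝ → ℝ) (F : ℝ → ℝ → ℝ) (J : ℕ) (t : ℝ) : ℝ :=
  ∑ n ∈ Finset.range J, lam n * rn c F n t ^ 2

lemma orth_sq (φ : ℕ → ℝ → ℝ) (hφ : ∀ n, Continuous (φ n))
    (hon : ∀ m n, ∫ x in (0:ℝ)..1, φ m x * φ n x = if m = n then 1 else 0)
    (a : ℕ → ℝ) (S : Finset ℕ) :
    ∫ x in (0:ℝ)..1, (∑ n ∈ S, a n * φ n x) ^ 2 = ∑ n ∈ S, a n ^ 2 := by
  have hm : ∀ n, MemLp (φ n) 2 mu := fun n => memLp_cont (hφ n).continuousOn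
  have : ∀ x, (∑ n ∈ S, a n * φ n x) ^ 2 = ∑ n ∈ S, ∑ m ∈ S,
      (a n * a m) * (φ n x * φ m x) := by
    intro x; rw [sq, Finset.sum_mul_sum]
    refine Finset.sum_congr rfl fun n _ => Finset.sum_congr rfl fun m _ => by ring
  simp_rw [this]
  rw [intervalIntegral.integral_finsetSum]
  · refine Finset.sum_congr rfl fun n hn => ?_
    rw [intervalIntegral.integral_finsetSum]
    · simp_rw [intervalIntegral.integral_const_mul, hon]
      rw [Finset.sum_eq_single n]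
      · rw [if_pos rfl]; ring
      · intro m _ hmn; rw [if_neg (Ne.symm hmn), mul_zero]
      · intro h; exact absurd hn h
    · intro m _; exact (ii_of_mem (hm n) (hm m)).const_mul _
  · intro n _
    apply Continuous.intervalIntegrable
    exact continuous_finsetSum _ fun m _ => ((hφ n).mul (hφ m)).const_mul _ |> fun h => h

lemma ec_orth (m n : ℕ) : ∫ x in (0:ℝ)..1, ec m x * ec n x = if m = n then 1 else 0 := by
  have := ecf_orth (m + 1) (n + 1)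
  simp only [ecf_succ] at this
  rw [this]; simp

lemma int_rJ_sq (c : ℝ → ℝ) (F : ℝ → ℝ → ℝ) (J : ℕ) (t : ℝ) :
    ∫ x in (0:ℝ)..1, rJ c F J t x ^ 2 = ∑ n ∈ Finset.range J, rn c F n t ^ 2 :=
  orth_sq es es_cont es_orth _ _

lemma int_rJx_sq (c : ℝ → ℝ) (F : ℝ → ℝ → ℝ) (J : ℕ) (t : ℝ) :
    ∫ x in (0:ℝ)..1, rJx c F J t x ^ 2 = DJ c F J t := by
  unfold rJx DJ
  have := orth_sq ec ec_cont ec_orth (fun n => rn c F n t * kk n) (Finset.range J)
  simp_rw [mul_assoc] at this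
  rw [this]
  refine Finset.sum_congr rfl fun n _ => ?_
  unfold lam; ring

lemma int_rJx_sub_sq (c : ℝ → ℝ) (F : ℝ → ℝ → ℝ) {K J : ℕ} (hKJ : K ≤ J) (t : ℝ) :
    ∫ x in (0:ℝ)..1, (rJx c F J t x - rJx c F K t x) ^ 2 =
      ∑ n ∈ Finset.Ico K J, lam n * rn c F n t ^ 2 := by
  have h1 : ∀ x, rJx c F J t x - rJx c F K t x =
      ∑ n ∈ Finset.Ico K J, (rn c F n t * kk n) * ec n x := by
    intro x
    unfold rJx
    rw [Finset.sum_Ico_eq_sub _ hKJ]
    congr 1 <;> exact Finset.sum_congr rfl fun n _ => by ring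
  simp_rw [h1]
  rw [orth_sq ec ec_cont ec_orth]
  refine Finset.sum_congr rfl fun n _ => ?_
  unfold lam; ring

lemma fJ_eq (F : ℝ → ℝ → ℝ) (J : ℕ) (t x : ℝ) :
    fJ F J t x = (∑ n ∈ Finset.range J, Fc F n t * ec n x) + cf (ecf 0) (F t) := by
  unfold fJ
  rw [Finset.sum_range_succ']
  simp only [ecf_zero, mul_one]
  congr 1
  refine Finset.sum_congr rfl fun n _ => ?_
  have : ecf (n + 1) = ec n := by funext x; exact ecf_succ n x
  rw [this]; rfl

lemma rJ_left (c : ℝ → ℝ) (F : ℝ → ℝ → ℝ) (J : ℕ) (t : ℝ) : rJ c F J t 0 = 0 := by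
  unfold rJ; simp [es_zero]
lemma rJ_right (c : ℝ → ℝ) (F : ℝ → ℝ → ℝ) (J : ℕ) (t : ℝ) : rJ c F J t 1 = 0 := by
  unfold rJ; simp [es_one]

lemma rJ_dx (c : ℝ → ℝ) (F : ℝ → ℝ → ℝ) (J : ℕ) (t x : ℝ) :
    HasDerivAt (rJ c F J t) (rJx c F J t x) x := by
  unfold rJ rJx
  have := HasDerivAt.fun_sum (u := Finset.range J) (A := fun n x => rn c F n t * es n x)
    (A' := fun n => rn c F n t * (kk n * ec n x)) (x := x)
    (fun n _ => (hasDerivAt_es n x).const_mul _)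
  exact this

lemma flux_dx (c : ℝ → ℝ) (F : ℝ → ℝ → ℝ) (J : ℕ) (t x : ℝ) :
    HasDerivAt (fun x => rJx c F J t x + fJ F J t x) (gJ c F J t x) x := by
  have h1 : (fun x => rJx c F J t x + fJ F J t x) = fun x =>
      (∑ n ∈ Finset.range J, (rn c F n t * kk n + Fc F n t) * ec n x) + cf (ecf 0) (F t) := by
    funext x
    rw [fJ_eq, ← add_assoc]
    congr 1
    unfold rJx
    rw [← Finset.sum_add_distrib]
    exact Finset.sum_congr rfl fun n _ => by ring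
  rw [h1]
  have := HasDerivAt.fun_sum (u := Finset.range J)
    (A := fun n x => (rn c F n t * kk n + Fc F n t) * ec n x)
    (A' := fun n => (rn c F n t * kk n + Fc F n t) * (-(kk n) * es n x)) (x := x)
    (fun n _ => (hasDerivAt_ec n x).const_mul _)
  refine (this.add_const _).congr_deriv ?_
  unfold gJ
  refine Finset.sum_congr rfl fun n _ => ?_
  unfold lam; ring

@[fun_prop] lemma rJ_sec (c : ℝ → ℝ) (F : ℝ → ℝ → ℝ) (J : ℕ) (t : ℝ) : Continuous (rJ c F J t) := by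
  unfold rJ; fun_prop
@[fun_prop] lemma rJx_sec (c : ℝ → ℝ) (F : ℝ → ℝ → ℝ) (J : ℕ) (t : ℝ) : Continuous (rJx c F J t) := by
  unfold rJx; fun_prop
@[fun_prop] lemma fJ_sec (F : ℝ → ℝ → ℝ) (J : ℕ) (t : ℝ) : Continuous (fJ F J t) := by
  unfold fJ; fun_prop
@[fun_prop] lemma gJ_sec (c : ℝ → ℝ) (F : ℝ → ℝ → ℝ) (J : ℕ) (t : ℝ) : Continuous (gJ c F J t) := by
  unfold gJ; fun_prop

lemma rJ_cont (c : ℝ → ℝ) (h : Adm F B) (J : ℕ) :
    ContinuousOn (fun q : ℝ × ℝ => rJ c F J q.1 q.2) (Ici 0 ×ˢ univ) := by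
  unfold rJ
  refine continuousOn_finsetSum _ fun n _ => ?_
  exact ((rn_cont c h n).comp continuousOn_fst fun p hp => hp.1).mul (by fun_prop)

lemma rJx_cont (c : ℝ → ℝ) (h : Adm F B) (J : ℕ) :
    ContinuousOn (fun q : ℝ × ℝ => rJx c F J q.1 q.2) (Ici 0 ×ˢ univ) := by
  unfold rJx
  refine continuousOn_finsetSum _ fun n _ => ?_
  exact ((rn_cont c h n).comp continuousOn_fst fun p hp => hp.1).mul (by fun_prop)

lemma cfecf_cont (h : Adm F B) (n : ℕ) : ContinuousOn (fun s => cf (ecf n) (F s)) (Ioi 0) := by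
  unfold cf
  rcases n with _ | n
  · refine cont_param (F := fun s x => F s x * ecf 0 x) (B := B) measurableSet_Ioi ?_ ?_
    · exact h.cont.mul (by fun_prop)
    · intro s hs z hz
      rw [ecf_zero, mul_one]
      exact h.bdd s hs z hz
  · have := Fc_cont h n
    unfold Fc cf at this
    simp_rw [ecf_succ]
    exact this

lemma fJ_cont (h : Adm F B) (J : ℕ) :
    ContinuousOn (fun q : ℝ × ℝ => fJ F J q.1 q.2) (Ioi 0 ×ˢ univ) := by
  unfold fJ
  refine continuousOn_finsetSum _ fun n _ => ?_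
  exact ((cfecf_cont h n).comp continuousOn_fst fun p hp => hp.1).mul (by fun_prop)

/-- squared norm of the source, as a function of time -/
lemma Fsq_cont (h : Adm F B) : ContinuousOn (fun s => ∫ x in (0:ℝ)..1, F s x ^ 2) (Ioi 0) := by
  refine cont_param (F := fun s x => F s x ^ 2) (B := B ^ 2) measurableSet_Ioi (h.cont.pow 2) ?_
  intro s hs z hz
  rw [abs_pow]
  exact pow_le_pow_left₀ (abs_nonneg _) (h.bdd s hs z hz) 2

lemma fJ_err (h : Adm F B) {t : ℝ} (ht : 0 < t) (J : ℕ) :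
    ∫ x in (0:ℝ)..1, (F t x - fJ F J t x) ^ 2 =
      (∫ x in (0:ℝ)..1, F t x ^ 2) - ∑ n ∈ Finset.range (J + 1), cf (ecf n) (F t) ^ 2 :=
  pyth ecf ecf_cont ecf_orth (h.memLp ht) (J + 1)

lemma fJ_tendsto (h : Adm F B) {t : ℝ} (ht : 0 < t) :
    Tendsto (fun J => ∫ x in (0:ℝ)..1, (F t x - fJ F J t x) ^ 2) atTop (𝓝 0) :=
  (tendsto_ecf (h.memLp ht)).comp (tendsto_add_atTop_nat 1)

lemma fJ_err_le (h : Adm F B) {t : ℝ} (ht : 0 < t) (J : ℕ) :
    ∫ x in (0:ℝ)..1, (F t x - fJ F J t x) ^ 2 ≤ B ^ 2 := by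
  rw [fJ_err h ht]
  have h1 := int_sq_le (h.sec ht) (h.bdd t ht)
  have h2 : 0 ≤ ∑ n ∈ Finset.range (J + 1), cf (ecf n) (F t) ^ 2 :=
    Finset.sum_nonneg fun n _ => sq_nonneg _
  linarith

lemma rJ_err (hc : MemLp c 2 mu) (h : Adm F B) {t : ℝ} (ht : 0 < t) (J : ℕ) :
    ∫ x in (0:ℝ)..1, (RR c F t x - rJ c F J t x) ^ 2 =
      (∫ x in (0:ℝ)..1, RR c F t x ^ 2) - ∑ n ∈ Finset.range J, rn c F n t ^ 2 := by
  have := pyth es es_cont es_orth (RR_mem hc h ht) J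
  simp_rw [RR_cf hc h ht] at this
  exact this

lemma rJ_tendsto (hc : MemLp c 2 mu) (h : Adm F B) {t : ℝ} (ht : 0 < t) :
    Tendsto (fun J => ∫ x in (0:ℝ)..1, (RR c F t x - rJ c F J t x) ^ 2) atTop (𝓝 0) := by
  have := tendsto_es (RR_mem hc h ht)
  simp_rw [RR_cf hc h ht] at this
  exact this

lemma rJ_pt_tendsto (hc : MemLp c 2 mu) (h : Adm F B) {t : ℝ} (ht : 0 < t) (x : ℝ) :
    Tendsto (fun J => rJ c F J t x) atTop (𝓝 (RR c F t x)) := by
  rw [RR_eq_ser hc h ht]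
  exact (ser_summable (rn_summable hc h ht) x).hasSum.tendsto_sum_nat

lemma RR_sq_hasSum (hc : MemLp c 2 mu) (h : Adm F B) {t : ℝ} (ht : 0 < t) :
    HasSum (fun n => rn c F n t ^ 2) (∫ x in (0:ℝ)..1, RR c F t x ^ 2) := by
  have := hasSum_es (RR_mem hc h ht)
  simp_rw [RR_cf hc h ht] at this
  exact this

/-- initial section -/
lemma rJ_zero (c : ℝ → ℝ) (F : ℝ → ℝ → ℝ) (J : ℕ) (x : ℝ) :
    rJ c F J 0 x = ∑ n ∈ Finset.range J, cf (es n) c * es n x := by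
  unfold rJ; simp_rw [rn_zero]

end Pool.Agent.Y308.BC
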