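import Pool.Agent.Y308.BC.Layer

/-! # The oscillating background -/

set_option autoImplicit false

open MeasureTheory Set Real Filter Topology intervalIntegral
open scoped ENNReal NNReal

namespace Pool.Agent.Y308.BC

/-- background -/
noncomputable def hL (A κ ω t x : ℝ) : ℝ :=
  A * (Real.sin (ω * t) - Real.exp (-(κ * x)) * Real.sin (ω * t - κ * x))
noncomputable def hLx (A κ ω t x : ℝ) : ℝ :=
  A * (κ * (Real.exp (-(κ * x)) * (Real.sin (ω * t - κ * x) + Real.cos (ω * t - κ * x))))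
noncomputable def hLxx (A κ ω t x : ℝ) : ℝ :=
  -(A * (2 * κ ^ 2 * (Real.exp (-(κ * x)) * Real.cos (ω * t - κ * x))))
noncomputable def uL (A ω t : ℝ) : ℝ := A * (ω * Real.cos (ω * t))

variable {A κ ω : ℝ}

lemma hL_dx (A κ ω t x : ℝ) : HasDerivAt (hL A κ ω t) (hLx A κ ω t x) x := by
  have e1 := (hasDerivAt_negmul κ x).exp
  have e2 : HasDerivAt (fun x => ω * t - κ * x) (-κ) x := by
    simpa using ((hasDerivAt_id x).const_mul κ).const_sub (ω * t)
  have e3 := (((e1.mul e2.sin).const_sub (Real.sin (ω * t))).const_mul A)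
  refine e3.congr_deriv ?_
  unfold hLx; ring

lemma hL_dxx (A κ ω t x : ℝ) : HasDerivAt (hLx A κ ω t) (hLxx A κ ω t x) x := by
  have e1 := (hasDerivAt_negmul κ x).exp
  have e2 : HasDerivAt (fun x => ω * t - κ * x) (-κ) x := by
    simpa using ((hasDerivAt_id x).const_mul κ).const_sub (ω * t)
  have e3 := (((e1.mul (e2.sin.add e2.cos)).const_mul κ).const_mul A)
  refine e3.congr_deriv ?_
  unfold hLxx
  simp only [Pi.add_apply]
  ring

lemma hL_dt (A : ℝ) (hω : ω = 2 * κ ^ 2) (t x : ℝ) :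
    HasDerivAt (fun s => hL A κ ω s x) (hLxx A κ ω t x + uL A ω t) t := by
  have e1 : HasDerivAt (fun t => ω * t) ω t := by simpa using (hasDerivAt_id t).const_mul ω
  have e2 : HasDerivAt (fun t => ω * t - κ * x) ω t := e1.sub_const (κ * x)
  have e3 := (e1.sin.sub (e2.sin.const_mul (Real.exp (-(κ * x))))).const_mul A
  refine e3.congr_deriv ?_
  unfold hLxx uL; rw [hω]; ring

lemma hL_bg (A : ℝ) (hω : ω = 2 * κ ^ 2) (τ : ℝ) :
    Bg (hL A κ ω) (hLx A κ ω) (hLxx A κ ω) (uL A ω) τ where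
  c0 := by unfold hL; fun_prop
  c1 := by unfold hLx; fun_prop
  c2 := by unfold hLxx; fun_prop
  cu := by unfold uL; fun_prop
  dx := fun t _ x _ => hL_dx A κ ω t x
  dxx := fun t _ x _ => hL_dxx A κ ω t x
  dt := fun t _ x _ => hL_dt A hω t x
  z0 := fun t _ => by unfold hL; simp

lemma exp_neg_le_one {κ x : ℝ} (hκ : 0 ≤ κ) (hx : 0 ≤ x) : Real.exp (-(κ * x)) ≤ 1 := by
  rw [Real.exp_le_one_iff]; nlinarith [mul_nonneg hκ hx]

lemma hL_le (hA : 0 ≤ A) (hκ : 0 ≤ κ) (ω t : ℝ) {x : ℝ} (hx : 0 ≤ x) :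
    |hL A κ ω t x| ≤ 2 * A := by
  unfold hL
  rw [abs_mul, abs_of_nonneg hA]
  have e1 := exp_neg_le_one hκ hx
  have e2 := Real.exp_pos (-(κ * x))
  have e3 := Real.abs_sin_le_one (ω * t)
  have e4 := Real.abs_sin_le_one (ω * t - κ * x)
  have e5 := abs_sub (Real.sin (ω * t)) (Real.exp (-(κ * x)) * Real.sin (ω * t - κ * x))
  rw [abs_mul, abs_of_pos e2] at e5
  have e6 : Real.exp (-(κ * x)) * |Real.sin (ω * t - κ * x)| ≤ 1 := by
    nlinarith [abs_nonneg (Real.sin (ω * t - κ * x))]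
  nlinarith

lemma hL0_le (hA : 0 ≤ A) (hκ : 0 ≤ κ) (ω : ℝ) {x : ℝ} (hx : 0 ≤ x) :
    |hL A κ ω 0 x| ≤ A := by
  unfold hL
  rw [abs_mul, abs_of_nonneg hA, mul_zero, Real.sin_zero, zero_sub, abs_neg, abs_mul,
    abs_of_pos (Real.exp_pos _)]
  have e1 := exp_neg_le_one hκ hx
  have e2 := Real.exp_pos (-(κ * x))
  have e4 := Real.abs_sin_le_one (0 - κ * x)
  have e6 : Real.exp (-(κ * x)) * |Real.sin (0 - κ * x)| ≤ 1 := by
    nlinarith [abs_nonneg (Real.sin (0 - κ * x))]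
  nlinarith

lemma hLx_le (hA : 0 ≤ A) (hκ : 0 ≤ κ) (ω t x : ℝ) :
    |hLx A κ ω t x| ≤ 2 * A * (κ * Real.exp (-(κ * x))) := by
  unfold hLx
  rw [abs_mul, abs_of_nonneg hA, abs_mul, abs_of_nonneg hκ, abs_mul, abs_of_pos (Real.exp_pos _)]
  have e1 := Real.exp_pos (-(κ * x))
  have e2 : |Real.sin (ω * t - κ * x) + Real.cos (ω * t - κ * x)| ≤ 2 := by
    have := abs_add_le (Real.sin (ω * t - κ * x)) (Real.cos (ω * t - κ * x))
    linarith [Real.abs_sin_le_one (ω * t - κ * x), Real.abs_cos_le_one (ω * t - κ * x)]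
  calc A * (κ * (Real.exp (-(κ * x)) * |Real.sin (ω * t - κ * x) + Real.cos (ω * t - κ * x)|)) ≤
      A * (κ * (Real.exp (-(κ * x)) * 2)) := by gcongr
    _ = _ := by ring

lemma hL_low {p : ℝ} (hp : 0 < p) (hp1 : p ≤ 1) (hA : 0 ≤ A) (κ ω t x : ℝ) :
    A ^ p * Real.sin (ω * t) ^ 2 - A ^ p * Real.exp (-(p * κ * x)) ≤ |hL A κ ω t x| ^ p := by
  have e1 : A * |Real.sin (ω * t)| ≤ |hL A κ ω t x| + A * Real.exp (-(κ * x)) := by
    unfold hL
    rw [abs_mul, abs_of_nonneg hA]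
    have h1 : |Real.sin (ω * t)| ≤ |Real.sin (ω * t) - Real.exp (-(κ * x)) *
        Real.sin (ω * t - κ * x)| + Real.exp (-(κ * x)) := by
      have h2 := abs_add_le (Real.sin (ω * t) - Real.exp (-(κ * x)) * Real.sin (ω * t - κ * x))
        (Real.exp (-(κ * x)) * Real.sin (ω * t - κ * x))
      rw [sub_add_cancel] at h2
      have h3 : |Real.exp (-(κ * x)) * Real.sin (ω * t - κ * x)| ≤ Real.exp (-(κ * x)) := by
        rw [abs_mul, abs_of_pos (Real.exp_pos _)]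
        have := Real.abs_sin_le_one (ω * t - κ * x)
        have := Real.exp_pos (-(κ * x))
        nlinarith [abs_nonneg (Real.sin (ω * t - κ * x))]
      linarith
    nlinarith [mul_le_mul_of_nonneg_left h1 hA]
  have e2 : (A * |Real.sin (ω * t)|) ^ p ≤ |hL A κ ω t x| ^ p +
      (A * Real.exp (-(κ * x))) ^ p :=
    (Real.rpow_le_rpow (by positivity) e1 hp.le).trans
      (Real.rpow_add_le_add_rpow (abs_nonneg _) (by positivity) hp.le hp1)
  rw [Real.mul_rpow hA (abs_nonneg _), Real.mul_rpow hA (Real.exp_pos _).le, ← Real.exp_mul] at e2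
  have e3 : Real.sin (ω * t) ^ 2 ≤ |Real.sin (ω * t)| ^ p := by
    rw [← sq_abs, ← Real.rpow_natCast |Real.sin (ω * t)| 2]
    apply Real.rpow_le_rpow_of_exponent_ge' (abs_nonneg _) (Real.abs_sin_le_one _) hp.le
    push_cast; linarith
  have e4 : -(κ * x) * p = -(p * κ * x) := by ring
  rw [e4] at e2
  have e5 := mul_le_mul_of_nonneg_left e3 (Real.rpow_nonneg hA p)
  linarith

lemma lip_of_deriv {v v' : ℝ → ℝ} {C : ℝ} (hd : ∀ t, HasDerivAt v (v' t) t)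
    (hb : ∀ t, |v' t| ≤ C) (s t : ℝ) : |v s - v t| ≤ C * |s - t| := by
  have := Convex.norm_image_sub_le_of_norm_hasDerivWithin_le (s := univ) (x := t) (y := s)
    (fun x _ => (hd x).hasDerivWithinAt) (fun x _ => hb x) convex_univ (mem_univ _) (mem_univ _)
  exact this

/-- value of the background at the final time -/
lemma hL_end {N : ℕ} {t : ℝ} (ht : ω * t = N * (2 * π)) (x : ℝ) :
    hL A κ ω t x = A * (Real.exp (-(κ * x)) * Real.sin (κ * x)) := by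
  unfold hL
  have e1 : Real.sin (ω * t) = 0 := by
    rw [ht]; have := Real.sin_add_nat_mul_two_pi 0 N; rw [zero_add, Real.sin_zero] at this; exact this
  have e2 : Real.sin (ω * t - κ * x) = -Real.sin (κ * x) := by
    rw [ht]
    have := Real.sin_add_nat_mul_two_pi (-(κ * x)) N
    rw [neg_add_eq_sub, Real.sin_neg] at this
    exact this
  rw [e1, e2]; ring

lemma hL_end_sq (hκ : 0 < κ) {N : ℕ} {t : ℝ} (ht : ω * t = N * (2 * π)) :
    ∫ x in (0:ℝ)..1, hL A κ ω t x ^ 2 ≤ A ^ 2 / κ := by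
  have h1 : ∫ x in (0:ℝ)..1, hL A κ ω t x ^ 2 ≤
      ∫ x in (0:ℝ)..1, A ^ 2 / κ * (κ * Real.exp (-(κ * x))) := by
    refine intervalIntegral.integral_mono_on zero_le_one ?_ ?_ fun x hx => ?_
    · apply Continuous.intervalIntegrable; unfold hL; fun_prop
    · apply Continuous.intervalIntegrable; fun_prop
    · rw [hL_end ht]
      have e1 := exp_neg_le_one hκ.le hx.1
      have e2 := Real.exp_pos (-(κ * x))
      have e3 : Real.sin (κ * x) ^ 2 ≤ 1 := Real.sin_sq_le_one _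
      have e4 : A ^ 2 / κ * (κ * Real.exp (-(κ * x))) = A ^ 2 * Real.exp (-(κ * x)) := by
        field_simp
      rw [e4, mul_pow, mul_pow]
      refine mul_le_mul_of_nonneg_left ?_ (sq_nonneg A)
      nlinarith [sq_nonneg (Real.sin (κ * x)), sq_nonneg (Real.exp (-(κ * x)))]
  refine h1.trans ?_
  rw [intervalIntegral.integral_const_mul]
  have h2 := int_exp1 κ
  calc A ^ 2 / κ * ∫ x in (0:ℝ)..1, κ * Real.exp (-(κ * x)) ≤ A ^ 2 / κ * 1 :=
        mul_le_mul_of_nonneg_left h2 (by positivity)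
    _ = _ := mul_one _

lemma uL_le (hA : 0 ≤ A) (hω : 0 ≤ ω) (t : ℝ) : |uL A ω t| ≤ A * ω := by
  unfold uL
  rw [abs_mul, abs_of_nonneg hA, abs_mul, abs_of_nonneg hω]
  exact mul_le_mul_of_nonneg_left (mul_le_of_le_one_right hω (Real.abs_cos_le_one _)) hA

lemma hLxx_le (hA : 0 ≤ A) (hκ : 0 ≤ κ) (ω t : ℝ) {x : ℝ} (hx : 0 ≤ x) :
    |hLxx A κ ω t x| ≤ A * (2 * κ ^ 2) := by
  unfold hLxx
  rw [abs_neg, abs_mul, abs_of_nonneg hA, abs_mul, abs_of_nonneg (by positivity), abs_mul,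
    abs_of_pos (Real.exp_pos _)]
  refine mul_le_mul_of_nonneg_left (mul_le_of_le_one_right (by positivity) ?_) hA
  exact mul_le_one₀ (exp_neg_le_one hκ hx) (abs_nonneg _) (Real.abs_cos_le_one _)

lemma hLx_le' (hA : 0 ≤ A) (hκ : 0 ≤ κ) (ω t : ℝ) {x : ℝ} (hx : 0 ≤ x) :
    |hLx A κ ω t x| ≤ 2 * A * κ := by
  refine (hLx_le hA hκ ω t x).trans ?_
  rw [← mul_assoc]
  exact mul_le_of_le_one_right (by positivity) (exp_neg_le_one hκ hx)

lemma hv_deriv_le (hA : 0 ≤ A) (hκ : 0 ≤ κ) (hω : 0 ≤ ω) (t : ℝ) :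
    |hLxx A κ ω t 1 + uL A ω t| ≤ A * (2 * κ ^ 2) + A * ω :=
  (abs_add_le _ _).trans (add_le_add (hLxx_le hA hκ ω t zero_le_one) (uL_le hA hω t))

lemma sin_two_pi_mul (j : ℕ) : Real.sin (2 * π * (j:ℝ)) = 0 := by
  have h1 := Real.sin_add_nat_mul_two_pi 0 j
  rw [zero_add, Real.sin_zero] at h1
  rw [show 2 * π * (j:ℝ) = j * (2 * π) by ring]
  exact h1

lemma hL_end_one {N j : ℕ} {t : ℝ} (ht : ω * t = N * (2 * π)) (hκ : κ = 2 * π * j) :
    hL A κ ω t 1 = 0 := by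
  rw [hL_end ht, mul_one, hκ, sin_two_pi_mul]; ring

/-- existence of the frequency -/
lemma exists_freq (N0 : ℝ) : ∃ (j : ℕ) (κ : ℝ), κ = 2 * π * j ∧ 1 ≤ κ ∧ N0 ≤ κ ∧
    κ ≤ 2 * κ ^ 2 := by
  obtain ⟨j, hj⟩ := exists_nat_ge (max N0 1)
  have hπ := Real.pi_gt_three
  have h1 : (1:ℝ) ≤ j := (le_max_right _ _).trans hj
  have h2 : (j:ℝ) ≤ 2 * π * j := by nlinarith
  have h3 : 1 ≤ 2 * π * (j:ℝ) := h1.trans h2
  refine ⟨j, 2 * π * j, rfl, h3, ((le_max_left _ _).trans hj).trans h2, ?_⟩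
  nlinarith

/-- existence of the final time of phase 1 -/
lemma exists_time {ω T : ℝ} (hω : 0 < ω) (hT : 0 < T) (h : 8 * π / T ≤ ω) :
    ∃ (N : ℕ) (t1 : ℝ), ω * t1 = N * (2 * π) ∧ T / 4 ≤ t1 ∧ t1 ≤ T / 2 := by
  have hπ := Real.pi_pos
  obtain ⟨N, hN1, hN2⟩ : ∃ N : ℕ, ω * T / (8 * π) ≤ N ∧ (N : ℝ) ≤ ω * T / (8 * π) + 1 := by
    refine ⟨⌈ω * T / (8 * π)⌉₊, Nat.le_ceil _, ?_⟩
    exact (Nat.ceil_lt_add_one (by positivity)).le
  refine ⟨N, N * (2 * π) / ω, by field_simp, ?_, ?_⟩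
  · rw [le_div_iff₀ hω]
    rw [div_le_iff₀ (by positivity)] at hN1
    linarith
  · rw [div_le_iff₀ hω]
    have e1 : (N:ℝ) * (2 * π) ≤ (ω * T / (8 * π) + 1) * (2 * π) :=
      mul_le_mul_of_nonneg_right hN2 (by positivity)
    have e2 : (ω * T / (8 * π) + 1) * (2 * π) = ω * T / 4 + 2 * π := by field_simp; ring
    have e3 : 8 * π ≤ ω * T := by rwa [div_le_iff₀ hT] at h
    linarith

end Pool.Agent.Y308.BC
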