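import Pool.Agent.Y308.BC.Osc

/-! # Phase 1 -/

set_option autoImplicit false

open MeasureTheory Set Real Filter Topology intervalIntegral
open scoped ENNReal NNReal

namespace Pool.Agent.Y308.BC

/-- amplitude -/
noncomputable def Am (p lm : ℝ) : ℝ := (36 * lm) ^ (1 / p)
/-- uniform `L²` bound -/
noncomputable def R1 (p m0 lm : ℝ) : ℝ :=
  √(Real.exp 1 * (Real.exp lm * (m0 + Am p lm) ^ 2 + 1))
/-- coefficient of the sup bound -/
noncomputable def b1 (p T m0 lm : ℝ) : ℝ :=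
  √2 * C0 * (8 * T ^ (1/8 : ℝ) * ((3/2) * (4 * Am p lm + 2 * R1 p m0 lm)))
/-- sup bound -/
noncomputable def M1 (p T m0 lm : ℝ) : ℝ :=
  (2 * Am p lm + (m0 + Am p lm) + b1 p T m0 lm + 1) ^ (1 / (1 - p))

lemma Am_pos {p lm : ℝ} (hlm : 0 < lm) : 0 < Am p lm := by unfold Am; positivity

lemma Am_pow {p lm : ℝ} (hp : 0 < p) (hlm : 0 < lm) : Am p lm ^ p = 36 * lm := by
  unfold Am
  rw [← Real.rpow_mul (by positivity), one_div_mul_cancel hp.ne', Real.rpow_one]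

/-- the time weight -/
noncomputable def th (lm ω t : ℝ) : ℝ :=
  Real.exp (lm ^ 2 * t - 2 * lm ^ 2 / ω * (Real.sin (ω * t) * Real.cos (ω * t)))

lemma th_deriv (lm : ℝ) {ω : ℝ} (hω : ω ≠ 0) (t : ℝ) :
    HasDerivAt (th lm ω) (th lm ω t * (-lm ^ 2 + 4 * lm ^ 2 * Real.sin (ω * t) ^ 2)) t := by
  have e1 : HasDerivAt (fun t => ω * t) ω t := by simpa using (hasDerivAt_id t).const_mul ω
  have e2 : HasDerivAt (fun t => lm ^ 2 * t) (lm ^ 2) t := by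
    simpa using (hasDerivAt_id t).const_mul (lm ^ 2)
  have e3 := (e2.sub ((e1.sin.mul e1.cos).const_mul (2 * lm ^ 2 / ω))).exp
  refine e3.congr_deriv ?_
  have e4 := Real.sin_sq_add_cos_sq (ω * t)
  have e5 : 2 * lm ^ 2 / ω * (Real.cos (ω * t) * ω * Real.cos (ω * t) +
      Real.sin (ω * t) * (-Real.sin (ω * t) * ω)) =
      2 * lm ^ 2 * (1 - 2 * Real.sin (ω * t) ^ 2) := by
    field_simp
    linear_combination (lm ^ 2) * e4
  rw [e5]
  unfold th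
  simp only [Pi.sub_apply, Pi.mul_apply]
  ring

lemma sincos_le (x : ℝ) : |2 * (Real.sin x * Real.cos x)| ≤ 1 := by
  rw [← mul_assoc, ← Real.sin_two_mul]; exact Real.abs_sin_le_one _

lemma th_le {lm ω t τ : ℝ} (hω : lm ^ 2 ≤ ω) (hω0 : 0 < ω) (ht : t ≤ τ) :
    th lm ω t ≤ Real.exp (lm ^ 2 * τ + 1) := by
  unfold th
  apply Real.exp_le_exp.2
  have h1 := (abs_le.1 (sincos_le (ω * t))).1
  have h2 : lm ^ 2 / ω ≤ 1 := (div_le_one hω0).2 hω
  have h3 : 0 ≤ lm ^ 2 / ω := by positivity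
  have h4 : 2 * lm ^ 2 / ω * (Real.sin (ω * t) * Real.cos (ω * t)) =
      lm ^ 2 / ω * (2 * (Real.sin (ω * t) * Real.cos (ω * t))) := by ring
  rw [h4]
  nlinarith [mul_le_mul_of_nonneg_left ht (sq_nonneg lm)]

lemma th_ge {lm ω t : ℝ} (hω : lm ^ 2 ≤ ω) (hω0 : 0 < ω) (ht : 0 ≤ t) :
    Real.exp (-1) ≤ th lm ω t := by
  unfold th
  apply Real.exp_le_exp.2
  have h1 := (abs_le.1 (sincos_le (ω * t))).2
  have h2 : lm ^ 2 / ω ≤ 1 := (div_le_one hω0).2 hω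
  have h3 : 0 ≤ lm ^ 2 / ω := by positivity
  have h4 : 2 * lm ^ 2 / ω * (Real.sin (ω * t) * Real.cos (ω * t)) =
      lm ^ 2 / ω * (2 * (Real.sin (ω * t) * Real.cos (ω * t))) := by ring
  rw [h4]
  nlinarith [mul_nonneg (sq_nonneg lm) ht]

/-- the analytic core of phase 1 -/
theorem phase1_core {p T m0 lm A κ ω ε M τ B : ℝ} {g : ℝ → ℝ} (hp : 0 < p) (hp1 : p ≤ 1/2)
    (hlm : 1 ≤ lm) (hA : 0 < A) (hAp : A ^ p = 36 * lm) (hAM : 2 * A ≤ M)
    (hω : ω = 2 * κ ^ 2) (hωl : lm ^ 2 ≤ ω) (hκ0 : 0 < κ)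
    (hε : 0 < ε) (hε1 : ε ≤ 1)
    (hκ : 1 / ε ^ 2 ≤ κ) (hc1 : 4 * lm ^ 2 * Real.exp lm * ε ≤ p ^ 2)
    (hc2 : 16 * A * Real.exp lm * ε ≤ 1) (hτT : τ ≤ T) (hτ : 0 < τ)
    (hg : Measurable g) (hgb : ∀ x ∈ Icc (0:ℝ) 1, |g x| ≤ m0)
    {F : ℝ → ℝ → ℝ} (hF : Adm F B)
    (hFG : ∀ s ∈ Ioc 0 τ, ∀ z ∈ Icc (0:ℝ) 1,
      F s z = GG p M (hL A κ ω s z + RR (cc g (hL A κ ω)) F s z)) :
    th lm ω τ * (∫ x in (0:ℝ)..1, RR (cc g (hL A κ ω)) F τ x ^ 2) ≤
      Real.exp lm * (m0 + A) ^ 2 +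
        Real.exp (lm ^ 2 * T + 1) * (4 * A * Real.exp lm * (1 + 2 * A) ^ 2 * ε) * τ := by
  have hω0 : 0 < ω := by rw [hω]; positivity
  have hM : 0 ≤ M := by linarith
  set c := cc g (hL A κ ω) with hcdef
  have hbg := hL_bg A hω τ
  have hh0 : ContinuousOn (hL A κ ω 0) (Icc 0 1) := sec_cont hbg.c0 ⟨le_rfl, hτ.le⟩
  have hcm : Measurable c := cc_meas hg hh0
  have hcb : ∀ x ∈ Ioo (0:ℝ) 1, |c x| ≤ m0 + A := by
    intro x hx
    have hx' := Ioo_subset_Icc_self hx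
    rw [hcdef, cc_eq hx']
    refine (abs_sub _ _).trans (add_le_add (hgb x hx') (hL0_le hA.le hκ0.le ω hx'.1))
  have hcM : MemLp c 2 mu := memLp_bdd hcm hcb
  have hρ : ∀ x, HasDerivAt (fun x => Real.exp (lm * x)) (lm * Real.exp (lm * x)) x := by
    intro x
    have : HasDerivAt (fun x => lm * x) lm x := by simpa using (hasDerivAt_id x).const_mul lm
    refine this.exp.congr_deriv (by ring)
  have hE := energy_ineq hcM hF hτ (GG_lip (M := M) hp hM) (h := hL A κ ω)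
    (fun s hs => (sec_cont hbg.c0 ⟨hs.1.le, hs.2⟩)) hFG hρ (by fun_prop)
    (th_deriv lm hω0.ne') (Θ := Real.exp (lm ^ 2 * T + 1))
    (fun s _ => (Real.exp_pos _).le) (fun s hs => th_le hωl hω0 (hs.2.trans hτT))
    (η := Real.exp (lm ^ 2 * T + 1) * (4 * A * Real.exp lm * (1 + 2 * A) ^ 2 * ε)) ?_
  · have e1 : th lm ω 0 = 1 := by unfold th; simp
    rw [e1, one_mul] at hE
    have e2 : ∫ x in (0:ℝ)..1, Real.exp (lm * x) * c x ^ 2 ≤ Real.exp lm * (m0 + A) ^ 2 := by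
      have i1 : IntervalIntegrable (fun x => Real.exp (lm * x) * c x ^ 2) volume 0 1 :=
        (ii_sq hcM).continuousOn_mul (by fun_prop)
      have h1 : ∫ x in (0:ℝ)..1, Real.exp (lm * x) * c x ^ 2 ≤
          ∫ x in (0:ℝ)..1, Real.exp lm * (m0 + A) ^ 2 := by
        refine intervalIntegral.integral_mono_on_of_le_Ioo zero_le_one i1
          intervalIntegrable_const fun x hx => ?_
        have h2 : Real.exp (lm * x) ≤ Real.exp lm := Real.exp_le_exp.2 (by nlinarith [hx.2])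
        have h3 : c x ^ 2 ≤ (m0 + A) ^ 2 := by
          rw [← sq_abs]; exact pow_le_pow_left₀ (abs_nonneg _) (hcb x hx) 2
        exact mul_le_mul h2 h3 (sq_nonneg _) (Real.exp_pos _).le
      simpa using h1
    have e3 : ∫ x in (0:ℝ)..1, RR c F τ x ^ 2 ≤ ∫ x in (0:ℝ)..1, Real.exp (lm * x) * RR c F τ x ^ 2 := by
      refine intervalIntegral.integral_mono_on zero_le_one (ii_sq (RR_mem hcM hF hτ))
        ((ii_sq (RR_mem hcM hF hτ)).continuousOn_mul (by fun_prop)) fun x hx => ?_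
      have h2 : 1 ≤ Real.exp (lm * x) := Real.one_le_exp (by have := hx.1; positivity)
      nlinarith [sq_nonneg (RR c F τ x)]
    have e4 : 0 < th lm ω τ := Real.exp_pos _
    have e5 := mul_le_mul_of_nonneg_left e3 e4.le
    linarith
  · intro s hs J a q q' hqe hqe'
    have hqd : ∀ x, HasDerivAt q (q' x) x := by
      intro x
      have h1 := HasDerivAt.fun_sum (u := Finset.range J) (A := fun n x => a n * es n x)
        (A' := fun n => a n * (kk n * ec n x)) (x := x)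
        (fun n _ => (hasDerivAt_es n x).const_mul _)
      have h2 : q = fun x => ∑ n ∈ Finset.range J, a n * es n x := funext hqe
      rw [h2, hqe' x]
      exact h1
    have hqc' : Continuous q' := by
      have h2 : q' = fun x => ∑ n ∈ Finset.range J, a n * (kk n * ec n x) := funext hqe'
      rw [h2]; fun_prop
    have hq0 : q 0 = 0 := by rw [hqe]; simp [es_zero]
    have hq1 : q 1 = 0 := by rw [hqe]; simp [es_one]
    have hfi := form_ineq (S2 := Real.sin (ω * s) ^ 2) hp hp1 hA hAM (by linarith : 0 < lm) hAp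
      hε hε1 hκ hc1 hc2 (hL_dx A κ ω s) (by unfold hLx; fun_prop)
      (fun x hx => hL_le hA.le hκ0.le ω s hx.1) (fun x _ => hLx_le hA.le hκ0.le ω s x)
      (fun x _ => hL_low hp (by linarith) hA.le κ ω s x) hqd hqc' hq0 hq1
    have ht0 : 0 < th lm ω s := Real.exp_pos _
    have ht1 : th lm ω s ≤ Real.exp (lm ^ 2 * T + 1) := th_le hωl hω0 (hs.2.le.trans hτT)
    set W := ∫ x in (0:ℝ)..1, Real.exp (lm * x) * q x ^ 2
    set I := ∫ x in (0:ℝ)..1, (lm * Real.exp (lm * x) * q x + Real.exp (lm * x) * q' x) *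
      (q' x + GG p M (hL A κ ω s x + q x))
    set η' := 4 * A * Real.exp lm * (1 + 2 * A) ^ 2 * ε
    have hη : 0 ≤ η' := by positivity
    have h1 := mul_le_mul_of_nonneg_left hfi ht0.le
    have h2 := mul_le_mul_of_nonneg_right ht1 hη
    have h3 : th lm ω s * (-lm ^ 2 + 4 * lm ^ 2 * Real.sin (ω * s) ^ 2) * W - 2 * th lm ω s * I =
        th lm ω s * (-(2 * I)) +
        th lm ω s * (-lm ^ 2 + 4 * lm ^ 2 * Real.sin (ω * s) ^ 2) * W := by ring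
    rw [h3]
    calc _ ≤ th lm ω s * ((lm ^ 2 - 4 * lm ^ 2 * Real.sin (ω * s) ^ 2) * W + η') +
        th lm ω s * (-lm ^ 2 + 4 * lm ^ 2 * Real.sin (ω * s) ^ 2) * W := by linarith
      _ = th lm ω s * η' := by ring
      _ ≤ _ := h2

/-- choice of the small parameter -/
lemma exists_eps {a b c d e : ℝ} (ha : 0 < a) (hb : 0 < b) (hc : 0 < c) (hd : 0 < d) (he : 0 < e)
    {f : ℝ} (hf : 0 < f) : ∃ ε : ℝ, 0 < ε ∧ ε ≤ 1 ∧ a * ε ≤ b ∧ c * ε ≤ d ∧ e * ε ≤ f := by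
  refine ⟨min 1 (min (b / a) (min (d / c) (f / e))), by positivity, min_le_left _ _, ?_, ?_, ?_⟩
  · have : min 1 (min (b / a) (min (d / c) (f / e))) ≤ b / a :=
      (min_le_right _ _).trans (min_le_left _ _)
    calc a * _ ≤ a * (b / a) := mul_le_mul_of_nonneg_left this ha.le
      _ = b := by field_simp
  · have : min 1 (min (b / a) (min (d / c) (f / e))) ≤ d / c :=
      (min_le_right _ _).trans ((min_le_right _ _).trans (min_le_left _ _))
    calc c * _ ≤ c * (d / c) := mul_le_mul_of_nonneg_left this hc.le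
      _ = d := by field_simp
  · have : min 1 (min (b / a) (min (d / c) (f / e))) ≤ f / e :=
      (min_le_right _ _).trans ((min_le_right _ _).trans (min_le_right _ _))
    calc e * _ ≤ e * (f / e) := mul_le_mul_of_nonneg_left this he.le
      _ = f := by field_simp

lemma M1_key {p x : ℝ} (hp : 0 < p) (hp1 : p ≤ 1/2) {a b : ℝ} (ha : 0 ≤ a) (hb : 0 ≤ b)
    (hx : x = (a + b + 1) ^ (1 / (1 - p))) : 1 ≤ x ∧ a + b + 1 ≤ x ∧ a + b * x ^ p ≤ x := by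
  have h1 : 1 ≤ a + b + 1 := by linarith
  have h2 : 1 ≤ 1 / (1 - p) := by
    rw [le_div_iff₀ (by linarith)]; linarith
  have h3 : a + b + 1 ≤ x := by
    rw [hx]
    calc a + b + 1 = (a + b + 1) ^ (1:ℝ) := (Real.rpow_one _).symm
      _ ≤ _ := Real.rpow_le_rpow_of_exponent_le h1 h2
  have h4 : 1 ≤ x := h1.trans h3
  have hx0 : 0 < x := by linarith
  refine ⟨h4, h3, ?_⟩
  have h5 : x ^ (1 - p) = a + b + 1 := by
    rw [hx, ← Real.rpow_mul (by linarith), one_div_mul_cancel (by linarith), Real.rpow_one]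
  have h6 : 1 ≤ x ^ p := Real.one_le_rpow h4 hp.le
  have h7 : x ^ (1 - p) * x ^ p = x := by
    rw [← Real.rpow_add hx0]; simp
  rw [h5] at h7
  nlinarith

lemma alg1 {L A R X : ℝ} (hX : 2 * L ^ 2 * X ≤ 2 * L ^ 2 * R ^ 2) (hA : 0 ≤ A) (hR : 0 ≤ R) :
    2 * L ^ 2 * X + 2 * L ^ 2 * (2 * A) ^ 2 ≤ (L * (4 * A + 2 * R)) ^ 2 := by
  have e : (L * (4 * A + 2 * R)) ^ 2 = 2 * L ^ 2 * R ^ 2 + 2 * L ^ 2 * (2 * A) ^ 2 +
    L ^ 2 * (8 * A ^ 2 + 16 * (A * R) + 2 * R ^ 2) := by ring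
  have : 0 ≤ L ^ 2 * (8 * A ^ 2 + 16 * (A * R) + 2 * R ^ 2) := by positivity
  linarith

lemma alg2 {L A G r h : ℝ} (h2 : |G| ≤ L * |h + r|) (h4 : h ^ 2 ≤ (2 * A) ^ 2) :
    G ^ 2 ≤ 2 * L ^ 2 * r ^ 2 + 2 * L ^ 2 * (2 * A) ^ 2 := by
  have h3 : G ^ 2 ≤ L ^ 2 * (h + r) ^ 2 := by
    rw [← sq_abs, ← sq_abs (h + r), ← mul_pow]
    exact pow_le_pow_left₀ (abs_nonneg _) h2 2
  have h5 : (h + r) ^ 2 ≤ 2 * r ^ 2 + 2 * (2 * A) ^ 2 := by
    have := sq_nonneg (h - r)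
    have e1 : (h + r) ^ 2 + (h - r) ^ 2 = 2 * h ^ 2 + 2 * r ^ 2 := by ring
    linarith
  have h6 := mul_le_mul_of_nonneg_left h5 (sq_nonneg L)
  have e2 : L ^ 2 * (2 * r ^ 2 + 2 * (2 * A) ^ 2) = 2 * L ^ 2 * r ^ 2 + 2 * L ^ 2 * (2 * A) ^ 2 := by
    ring
  linarith

lemma final_alg {lm T t1 X Z δ : ℝ} (hT : 0 < T) (ht : T / 4 ≤ t1) (hδ : 0 < δ) (hX : 0 ≤ X)
    (h : Real.exp (lm ^ 2 * t1) * X ≤ Real.exp lm * Z + min 1 (δ / 4)) :
    X ≤ Real.exp (lm - lm ^ 2 * (T / 4)) * Z + δ / 4 := by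
  have h4 : Real.exp (lm ^ 2 * (T / 4)) ≤ Real.exp (lm ^ 2 * t1) :=
    Real.exp_le_exp.2 (mul_le_mul_of_nonneg_left ht (sq_nonneg _))
  have h5 := (mul_le_mul_of_nonneg_right h4 hX).trans h
  have e4 : X ≤ Real.exp (-(lm ^ 2 * (T / 4))) * (Real.exp lm * Z + min 1 (δ / 4)) := by
    calc X = Real.exp (-(lm ^ 2 * (T / 4))) * (Real.exp (lm ^ 2 * (T / 4)) * X) := by
          rw [← mul_assoc, ← Real.exp_add]; simp
      _ ≤ _ := mul_le_mul_of_nonneg_left h5 (Real.exp_pos _).le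
  have h6 : Real.exp (-(lm ^ 2 * (T / 4))) ≤ 1 :=
    Real.exp_le_one_iff.2 (by have : 0 ≤ lm ^ 2 * (T / 4) := by positivity
                              linarith)
  have h7 : Real.exp (-(lm ^ 2 * (T / 4))) * min 1 (δ / 4) ≤ min 1 (δ / 4) :=
    mul_le_of_le_one_left (by positivity) h6
  have h8 : Real.exp (-(lm ^ 2 * (T / 4))) * (Real.exp lm * Z) =
      Real.exp (lm - lm ^ 2 * (T / 4)) * Z := by
    rw [← mul_assoc, ← Real.exp_add]; congr 2; ring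
  rw [mul_add, h8] at e4
  exact e4.trans (add_le_add le_rfl (h7.trans (min_le_right _ _)))

/-- **Phase 1.** -/
theorem phase1 {p T m0 lm : ℝ} (hp : 0 < p) (hp1 : p ≤ 1/2) (hT : 0 < T) (hm0 : 0 ≤ m0)
    (hlm : 1 ≤ lm) {g : ℝ → ℝ} (hg : Measurable g) (hgb : ∀ x ∈ Icc (0:ℝ) 1, |g x| ≤ m0)
    {δ : ℝ} (hδ : 0 < δ) :
    ∃ (t1 : ℝ) (Y P : ℝ → ℝ → ℝ) (u v : ℝ → ℝ) (K Λ U : ℝ), T / 4 ≤ t1 ∧ t1 ≤ T / 2 ∧
      Sol p 0 t1 Y P u v (M1 p T m0 lm) K Λ U ∧ (∀ x, Y 0 x = g x) ∧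
      ∫ x in (0:ℝ)..1, Y t1 x ^ 2 ≤
        2 * (Real.exp (lm - lm ^ 2 * (T / 4)) * (m0 + Am p lm) ^ 2) + δ := by
  set A := Am p lm with hAdef
  have hlm0 : 0 < lm := by linarith
  have hA : 0 < A := Am_pos hlm0
  have hAp : A ^ p = 36 * lm := Am_pow hp hlm0
  set R := R1 p m0 lm with hR
  have hR0 : 0 ≤ R := Real.sqrt_nonneg _
  have hb0 : 0 ≤ b1 p T m0 lm := by
    unfold b1
    have := C0_nonneg
    rw [← hAdef, ← hR]
    positivity
  set M := M1 p T m0 lm with hM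
  obtain ⟨hM1, hMab, hMp⟩ := M1_key (x := M) hp hp1 (a := 2 * A + (m0 + A)) (b := b1 p T m0 lm)
    (by positivity) hb0 (by rw [hM]; unfold M1; rw [← hAdef])
  have hM0 : 0 ≤ M := by linarith
  have hAM : 2 * A ≤ M := by linarith
  set Θ := Real.exp (lm ^ 2 * T + 1) with hΘ
  have hΘ0 : 0 < Θ := Real.exp_pos _
  -- choose ε
  obtain ⟨ε, hε, hε1, hc1, hc2, hc3⟩ := exists_eps (a := 4 * lm ^ 2 * Real.exp lm) (b := p ^ 2)
    (c := 16 * A * Real.exp lm) (d := 1) (e := Θ * (4 * A * Real.exp lm * (1 + 2 * A) ^ 2) * T)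
    (f := min 1 (δ / 4)) (by positivity) (by positivity) (by positivity) one_pos (by positivity)
    (by positivity)
  -- choose κ
  have n1 : 0 < 1 / ε ^ 2 := by positivity
  have n2 : 0 < lm ^ 2 := by positivity
  have n3 : 0 < 8 * π / T := by have := Real.pi_pos; positivity
  have n4 : 0 < 4 * A ^ 2 / δ := by positivity
  obtain ⟨j, κ, hκdef, hκ1, hκN, hωκ⟩ := exists_freq (1 / ε ^ 2 + lm ^ 2 + 8 * π / T +
    4 * A ^ 2 / δ)
  have hκ0 : 0 < κ := by linarith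
  have hκε : 1 / ε ^ 2 ≤ κ := by linarith
  obtain ⟨ω, hω⟩ : ∃ ω, ω = 2 * κ ^ 2 := ⟨_, rfl⟩
  rw [← hω] at hωκ
  have hω0 : 0 < ω := by linarith
  have hωl : lm ^ 2 ≤ ω := by linarith
  have hωT : 8 * π / T ≤ ω := by linarith
  have hκδ : 4 * A ^ 2 / δ ≤ κ := by linarith
  -- choose the final time
  obtain ⟨N, t1, ht1ω, ht1a, ht1b⟩ := exists_time hω0 hT hωT
  have ht10 : 0 < t1 := by linarith
  have ht1T : t1 ≤ T := by linarith
  clear n1 n2 n3 n4 hκN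
  -- background and the mild solution
  have hbg := hL_bg A hω t1
  have hh0 : ContinuousOn (hL A κ ω 0) (Icc 0 1) := sec_cont hbg.c0 ⟨le_rfl, ht10.le⟩
  set c := cc g (hL A κ ω) with hcdef
  have hcm : Measurable c := cc_meas hg hh0
  have hcb : ∀ x ∈ Ioo (0:ℝ) 1, |c x| ≤ m0 + A := by
    intro x hx
    have hx' := Ioo_subset_Icc_self hx
    rw [hcdef, cc_eq hx']
    refine (abs_sub _ _).trans (add_le_add (hgb x hx') (hL0_le hA.le hκ0.le ω hx'.1))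
  have hm : 0 ≤ m0 + A := by positivity
  have hcM : MemLp c 2 mu := memLp_bdd hcm hcb
  set L := (1 + p) * M ^ p with hLdef
  have hL0 : 0 ≤ L := by positivity
  obtain ⟨F, B, hF, hFG⟩ := exists_fix (G := GG p M) hL0 (GG_lip hp hM0)
    (h := hL A κ ω) (by unfold hL; fun_prop) (H := 2 * A)
    (fun s _ z hz => hL_le hA.le hκ0.le ω s hz.1) hcm hm hcb ht10
  -- `L²` bounds
  have hcore : ∀ s ∈ Ioc 0 t1, th lm ω s * (∫ x in (0:ℝ)..1, RR c F s x ^ 2) ≤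
      Real.exp lm * (m0 + A) ^ 2 + min 1 (δ / 4) := by
    intro s hs
    have h1 := phase1_core hp hp1 hlm hA hAp hAM hω hωl hκ0 hε hε1 hκε hc1 hc2
      (hs.2.trans ht1T) hs.1 hg hgb hF (fun s' hs' => hFG s' ⟨hs'.1, hs'.2.trans hs.2⟩)
    refine h1.trans (add_le_add le_rfl (le_trans ?_ hc3))
    have h2 : 0 ≤ Real.exp (lm ^ 2 * T + 1) * (4 * A * Real.exp lm * (1 + 2 * A) ^ 2 * ε) := by
      positivity
    calc _ ≤ Real.exp (lm ^ 2 * T + 1) * (4 * A * Real.exp lm * (1 + 2 * A) ^ 2 * ε) * T :=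
          mul_le_mul_of_nonneg_left (hs.2.trans ht1T) h2
      _ = _ := by rw [hΘ]; ring
  have hRsq : R ^ 2 = Real.exp 1 * (Real.exp lm * (m0 + A) ^ 2 + 1) := by
    rw [hR]; unfold R1; rw [Real.sq_sqrt (by positivity), ← hAdef]
  have hr2 : ∀ s ∈ Ioc 0 t1, ∫ x in (0:ℝ)..1, RR c F s x ^ 2 ≤ R ^ 2 := by
    intro s hs
    have h1 := hcore s hs
    have h2 := th_ge hωl hω0 hs.1.le
    have h3 : 0 ≤ ∫ x in (0:ℝ)..1, RR c F s x ^ 2 :=
      intervalIntegral.integral_nonneg zero_le_one fun x _ => sq_nonneg _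
    have h4 : Real.exp (-1) * (∫ x in (0:ℝ)..1, RR c F s x ^ 2) ≤
        Real.exp lm * (m0 + A) ^ 2 + 1 :=
      (mul_le_mul_of_nonneg_right h2 h3).trans (h1.trans (add_le_add le_rfl (min_le_left _ _)))
    rw [hRsq]
    calc ∫ x in (0:ℝ)..1, RR c F s x ^ 2 =
        Real.exp 1 * (Real.exp (-1) * (∫ x in (0:ℝ)..1, RR c F s x ^ 2)) := by
          rw [← mul_assoc, ← Real.exp_add]; simp
      _ ≤ _ := mul_le_mul_of_nonneg_left h4 (Real.exp_pos _).le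
  set f := L * (4 * A + 2 * R) with hf
  have hf0 : 0 ≤ f := by positivity
  have hFsq : ∀ s ∈ Ioc 0 t1, ∫ x in (0:ℝ)..1, F s x ^ 2 ≤ f ^ 2 := by
    intro s hs
    have hs' : s ∈ Icc 0 t1 := Ioc_subset_Icc_self hs
    have m1 : MemLp (RR c F s) 2 mu := RR_mem hcM hF hs.1
    have i1 := (ii_sq m1).const_mul (2 * L ^ 2)
    have i2 : IntervalIntegrable (fun _ : ℝ => 2 * L ^ 2 * (2 * A) ^ 2) volume 0 1 :=
      intervalIntegrable_const
    have h1 : ∫ x in (0:ℝ)..1, F s x ^ 2 ≤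
        ∫ x in (0:ℝ)..1, (2 * L ^ 2 * RR c F s x ^ 2 + 2 * L ^ 2 * (2 * A) ^ 2) := by
      refine intervalIntegral.integral_mono_on zero_le_one (ii_sq (hF.memLp hs.1)) (i1.add i2)
        fun x hx => ?_
      rw [hFG s hs x hx]
      have h2 := GG_abs_le hp hM0 (hL A κ ω s x + RR c F s x)
      rw [← hLdef] at h2
      exact alg2 h2 (by
        rw [← sq_abs]; exact pow_le_pow_left₀ (abs_nonneg _) (hL_le hA.le hκ0.le ω s hx.1) 2)
    refine h1.trans ?_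
    rw [intervalIntegral.integral_add i1 i2, intervalIntegral.integral_const_mul,
      intervalIntegral.integral_const]
    have h6 := hr2 s hs
    have h7 : 0 ≤ 2 * L ^ 2 := by positivity
    have h8 := mul_le_mul_of_nonneg_left h6 h7
    rw [hf]
    simp only [sub_zero, one_smul]
    exact alg1 h8 hA.le hR0
  -- sup bound
  have hYM : ∀ s ∈ Ioc 0 t1, ∀ z ∈ Icc (0:ℝ) 1, |hL A κ ω s z + RR c F s z| ≤ M := by
    intro s hs z hz
    have h1 := RR_bdd hcm hm hcb hF hs.1 hz hf0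
      (fun u hu => hFsq u ⟨hu.1, hu.2.le.trans hs.2⟩)
    have h2 : s ^ (1/8 : ℝ) ≤ T ^ (1/8 : ℝ) :=
      Real.rpow_le_rpow hs.1.le (hs.2.trans ht1T) (by norm_num)
    have h3 : √2 * C0 * (8 * s ^ (1/8 : ℝ) * f) ≤ b1 p T m0 lm * M ^ p := by
      have hC := C0_nonneg
      have h4 : f ≤ (3/2) * (4 * A + 2 * R) * M ^ p := by
        rw [hf, hLdef]
        have h5 : 0 ≤ M ^ p * (4 * A + 2 * R) := by positivity
        nlinarith
      calc √2 * C0 * (8 * s ^ (1/8 : ℝ) * f) ≤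
          √2 * C0 * (8 * T ^ (1/8 : ℝ) * ((3/2) * (4 * A + 2 * R) * M ^ p)) := by gcongr
        _ = b1 p T m0 lm * M ^ p := by unfold b1; rw [← hAdef, ← hR]; ring
    have h4 := abs_add_le (hL A κ ω s z) (RR c F s z)
    have h5 := hL_le hA.le hκ0.le ω s hz.1
    linarith
  -- boundary control
  have hv0 : hL A κ ω 0 1 = 0 := hL_end_one (N := 0) (by simp) hκdef
  have hvt : hL A κ ω t1 1 = 0 := hL_end_one ht1ω hκdef
  have hgM : ∀ x ∈ Icc (0:ℝ) 1, |g x| ≤ M := fun x hx => (hgb x hx).trans (by linarith)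
  obtain ⟨Y, P, hSol, hY0, hYt⟩ := mk_sol (v := fun t => hL A κ ω t 1) hp hM0 ht10 hg
    hgM hbg (H1 := 2 * A * κ) (fun t _ x hx => hLx_le' hA.le hκ0.le ω t hx.1) hm hcb hF hFG hYM
    (fun t _ => uL_le hA.le hω0.le t) (fun t _ => rfl) hv0 hvt
    (fun s _ t _ => lip_of_deriv (fun t => hL_dt A hω t 1) (hv_deriv_le hA.le hκ0.le hω0.le) s t)
  refine ⟨t1, Y, P, _, _, _, _, _, ht1a, ht1b, hSol, hY0, ?_⟩
  -- final estimate
  have ht11 : t1 ∈ Ioc 0 t1 := ⟨ht10, le_rfl⟩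
  have k1 : MemLp (RR c F t1) 2 mu := RR_mem hcM hF ht10
  have k2 : MemLp (hL A κ ω t1) 2 mu := memLp_cont (sec_cont hbg.c0 ⟨ht10.le, le_rfl⟩)
  have i1 := (ii_sq k1).const_mul 2
  have i2 := (ii_sq k2).const_mul 2
  have e1 : ∫ x in (0:ℝ)..1, Y t1 x ^ 2 ≤
      ∫ x in (0:ℝ)..1, (2 * RR c F t1 x ^ 2 + 2 * hL A κ ω t1 x ^ 2) := by
    have e0 : ∫ x in (0:ℝ)..1, Y t1 x ^ 2 = ∫ x in (0:ℝ)..1, (hL A κ ω t1 x + RR c F t1 x) ^ 2 := by
      refine intervalIntegral.integral_congr fun x hx => ?_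
      rw [uIcc_of_le zero_le_one] at hx
      rw [hYt t1 ht11 x hx]
    rw [e0]
    refine intervalIntegral.integral_mono_on zero_le_one (ii_sq (k2.add k1)) (i1.add i2)
      fun x hx => ?_
    nlinarith [sq_nonneg (hL A κ ω t1 x - RR c F t1 x)]
  refine e1.trans ?_
  rw [intervalIntegral.integral_add i1 i2, intervalIntegral.integral_const_mul,
    intervalIntegral.integral_const_mul]
  have e2 := hcore t1 ht11
  have e3 : th lm ω t1 = Real.exp (lm ^ 2 * t1) := by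
    unfold th
    have : Real.sin (ω * t1) = 0 := by
      rw [ht1ω]; have := Real.sin_add_nat_mul_two_pi 0 N
      rw [zero_add, Real.sin_zero] at this; exact this
    rw [this]; simp
  rw [e3] at e2
  have h3 : 0 ≤ ∫ x in (0:ℝ)..1, RR c F t1 x ^ 2 :=
    intervalIntegral.integral_nonneg zero_le_one fun x _ => sq_nonneg _
  have e4 := final_alg hT ht1a hδ h3 e2
  have e7 := hL_end_sq (A := A) hκ0 ht1ω
  have e8 : A ^ 2 / κ ≤ δ / 4 := by
    rw [div_le_iff₀ hκ0]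
    rw [div_le_iff₀ hδ] at hκδ
    linarith
  linarith

end Pool.Agent.Y308.BC
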