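import Pool.Agent.Y308.BC.Phase1
import Pool.Agent.Y308.BC.Free

/-! # From arbitrary data to small data -/

set_option autoImplicit false

open MeasureTheory Set Real Filter Topology intervalIntegral
open scoped ENNReal NNReal

namespace Pool.Agent.Y308.BC

/-- at most exponential growth -/
def EG (f : ℝ → ℝ) : Prop := ∃ C, 0 ≤ C ∧ ∀ x, 1 ≤ x → 0 ≤ f x ∧ f x ≤ Real.exp (C * x)

lemma EG.const {c : ℝ} (hc : 0 ≤ c) : EG fun _ => c := by
  refine ⟨c, hc, fun x hx => ⟨hc, ?_⟩⟩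
  have h1 : c ≤ c * x := by nlinarith
  linarith [Real.add_one_le_exp (c * x)]

lemma EG.id : EG fun x => x :=
  ⟨1, zero_le_one, fun x hx => ⟨by linarith, by rw [one_mul]; linarith [Real.add_one_le_exp x]⟩⟩

lemma EG.exp : EG fun x => Real.exp x :=
  ⟨1, zero_le_one, fun x _ => ⟨(Real.exp_pos _).le, by rw [one_mul]⟩⟩

lemma EG.add {f g : ℝ → ℝ} (hf : EG f) (hg : EG g) : EG fun x => f x + g x := by
  obtain ⟨C, hC, h1⟩ := hf
  obtain ⟨D, hD, h2⟩ := hg
  refine ⟨C + D + 1, by positivity, fun x hx => ⟨add_nonneg (h1 x hx).1 (h2 x hx).1, ?_⟩⟩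
  have e1 : Real.exp (C * x) ≤ Real.exp ((C + D) * x) := Real.exp_le_exp.2 (by nlinarith)
  have e2 : Real.exp (D * x) ≤ Real.exp ((C + D) * x) := Real.exp_le_exp.2 (by nlinarith)
  have e3 : (2:ℝ) ≤ Real.exp x := by linarith [Real.add_one_le_exp x]
  have e4 : Real.exp ((C + D + 1) * x) = Real.exp ((C + D) * x) * Real.exp x := by
    rw [← Real.exp_add]; congr 1; ring
  rw [e4]
  have e5 := Real.exp_pos ((C + D) * x)
  nlinarith [(h1 x hx).2, (h2 x hx).2]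

lemma EG.mul {f g : ℝ → ℝ} (hf : EG f) (hg : EG g) : EG fun x => f x * g x := by
  obtain ⟨C, hC, h1⟩ := hf
  obtain ⟨D, hD, h2⟩ := hg
  refine ⟨C + D, by positivity, fun x hx => ⟨mul_nonneg (h1 x hx).1 (h2 x hx).1, ?_⟩⟩
  have e4 : Real.exp ((C + D) * x) = Real.exp (C * x) * Real.exp (D * x) := by
    rw [← Real.exp_add]; congr 1; ring
  rw [e4]
  exact mul_le_mul (h1 x hx).2 (h2 x hx).2 (h2 x hx).1 (Real.exp_pos _).le

lemma EG.rpow {f : ℝ → ℝ} (hf : EG f) {s : ℝ} (hs : 0 ≤ s) : EG fun x => f x ^ s := by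
  obtain ⟨C, hC, h1⟩ := hf
  refine ⟨C * s, by positivity, fun x hx => ⟨Real.rpow_nonneg (h1 x hx).1 _, ?_⟩⟩
  calc f x ^ s ≤ (Real.exp (C * x)) ^ s := Real.rpow_le_rpow (h1 x hx).1 (h1 x hx).2 hs
    _ = Real.exp (C * s * x) := by rw [← Real.exp_mul]; congr 1; ring

lemma EG.sqrt {f : ℝ → ℝ} (hf : EG f) : EG fun x => √(f x) := by
  simp_rw [Real.sqrt_eq_rpow]
  exact hf.rpow (by norm_num)

lemma EG.sq {f : ℝ → ℝ} (hf : EG f) : EG fun x => f x ^ 2 := by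
  simp_rw [pow_two]; exact hf.mul hf

lemma EG.small {f : ℝ → ℝ} (hf : EG f) {T δ : ℝ} (hT : 0 < T) (hδ : 0 < δ) :
    ∃ x, 1 ≤ x ∧ Real.exp (-(x ^ 2 * T)) * f x ≤ δ := by
  obtain ⟨C, hC, h1⟩ := hf
  refine ⟨max 1 ((C + |Real.log δ|) / T), le_max_left _ _, ?_⟩
  set x := max 1 ((C + |Real.log δ|) / T) with hx
  have hx1 : 1 ≤ x := le_max_left _ _
  have hx2 : C + |Real.log δ| ≤ x * T := by
    rw [← div_le_iff₀ hT]; exact le_max_right _ _
  calc Real.exp (-(x ^ 2 * T)) * f x ≤ Real.exp (-(x ^ 2 * T)) * Real.exp (C * x) :=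
        mul_le_mul_of_nonneg_left (h1 x hx1).2 (Real.exp_pos _).le
    _ = Real.exp (-(x * (x * T - C))) := by rw [← Real.exp_add]; congr 1; ring
    _ ≤ Real.exp (Real.log δ) := by
        apply Real.exp_le_exp.2
        have h3 : |Real.log δ| ≤ x * T - C := by linarith
        have h4 : x * T - C ≤ x * (x * T - C) := by
          have : 0 ≤ x * T - C := (abs_nonneg _).trans h3
          nlinarith
        have h5 := neg_abs_le (Real.log δ)
        linarith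
    _ = δ := Real.exp_log hδ

lemma EG_Am {p : ℝ} (hp : 0 < p) : EG fun lm => Am p lm := by
  unfold Am
  exact ((EG.const (by norm_num : (0:ℝ) ≤ 36)).mul EG.id).rpow (by positivity)

lemma EG_R1 {p m0 : ℝ} (hp : 0 < p) (hm0 : 0 ≤ m0) : EG fun lm => R1 p m0 lm := by
  unfold R1
  exact ((EG.const (Real.exp_pos 1).le).mul ((EG.exp.mul ((EG.const hm0).add (EG_Am hp)).sq).add
    (EG.const zero_le_one))).sqrt

lemma EG_b1 {p T m0 : ℝ} (hp : 0 < p) (hm0 : 0 ≤ m0) (hT : 0 < T) :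
    EG fun lm => b1 p T m0 lm := by
  unfold b1
  have hC := C0_nonneg
  have h1 : (0:ℝ) ≤ √2 * C0 := by positivity
  have h2 : (0:ℝ) ≤ 8 * T ^ (1/8 : ℝ) := by positivity
  exact (EG.const h1).mul ((EG.const h2).mul ((EG.const (by norm_num : (0:ℝ) ≤ 3/2)).mul
    (((EG.const (by norm_num : (0:ℝ) ≤ 4)).mul (EG_Am hp)).add
      ((EG.const (by norm_num : (0:ℝ) ≤ 2)).mul (EG_R1 hp hm0)))))

lemma EG_M1 {p T m0 : ℝ} (hp : 0 < p) (hp1 : p ≤ 1/2) (hm0 : 0 ≤ m0) (hT : 0 < T) :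
    EG fun lm => M1 p T m0 lm := by
  unfold M1
  exact (((((EG.const (by norm_num : (0:ℝ) ≤ 2)).mul (EG_Am hp)).add
    ((EG.const hm0).add (EG_Am hp))).add (EG_b1 hp hm0 hT)).add (EG.const zero_le_one)).rpow
    (by have : 0 < 1 - p := by linarith
        positivity)

/-- **Approximate null controllability in the sup norm.** -/
theorem phaseA {p T m0 : ℝ} (hp : 0 < p) (hp1 : p ≤ 1/2) (hT : 0 < T) (hm0 : 0 ≤ m0)
    {g : ℝ → ℝ} (hg : Measurable g) (hgb : ∀ x ∈ Icc (0:ℝ) 1, |g x| ≤ m0)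
    {δ : ℝ} (hδ : 0 < δ) :
    ∃ (Y P : ℝ → ℝ → ℝ) (u v : ℝ → ℝ) (R K Λ U : ℝ),
      Sol p 0 T Y P u v R K Λ U ∧ (∀ x ∈ Icc (0:ℝ) 1, Y 0 x = g x) ∧
      ∀ x ∈ Icc (0:ℝ) 1, |Y T x| ≤ δ := by
  have hC := C0_nonneg
  set Z : ℝ → ℝ := fun lm => √2 * ET (T / 2) +
    √2 * C0 * (8 * T ^ (1/8 : ℝ) * ((3/2) * (M1 p T m0 lm + 1))) with hZ
  have hEZ : EG Z := by
    have h1 : (0:ℝ) ≤ √2 * C0 := by positivity
    have h2 : (0:ℝ) ≤ 8 * T ^ (1/8 : ℝ) := by positivity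
    have h3 : (0:ℝ) ≤ √2 * ET (T / 2) := by have := ET_nonneg (T / 2); positivity
    exact (EG.const h3).add ((EG.const h1).mul ((EG.const h2).mul
      ((EG.const (by norm_num : (0:ℝ) ≤ 3/2)).mul ((EG_M1 hp hp1 hm0 hT).add
        (EG.const zero_le_one)))))
  have hEf : EG fun lm => 2 * (Real.exp lm * (m0 + Am p lm) ^ 2) * Z lm ^ 2 :=
    ((EG.const (by norm_num : (0:ℝ) ≤ 2)).mul (EG.exp.mul ((EG.const hm0).add (EG_Am hp)).sq)).mul
      hEZ.sq
  set δ1 := min 1 δ with hδ1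
  have hδ10 : 0 < δ1 := by positivity
  obtain ⟨lm, hlm, hsm⟩ := hEf.small (T := T / 4) (δ := δ1 ^ 2 / 2) (by positivity) (by positivity)
  have hZ0 : 0 ≤ Z lm := by
    obtain ⟨C, _, h⟩ := hEZ
    exact (h lm hlm).1
  have hM0 : 0 ≤ M1 p T m0 lm := by
    obtain ⟨C, _, h⟩ := EG_M1 (T := T) hp hp1 hm0 hT
    exact (h lm hlm).1
  obtain ⟨t1, Y, P, u, v, K, Λ, U, ht1a, ht1b, hSol, hY0, hY2⟩ := phase1 hp hp1 hT hm0 hlm hg hgb
    (δ := δ1 ^ 2 / (2 * (Z lm ^ 2 + 1))) (by positivity)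
  set S := 2 * (Real.exp (lm - lm ^ 2 * (T / 4)) * (m0 + Am p lm) ^ 2) +
    δ1 ^ 2 / (2 * (Z lm ^ 2 + 1)) with hS
  have hS0 : 0 ≤ S := by positivity
  set ε := √S with hε
  have hε0 : 0 ≤ ε := Real.sqrt_nonneg _
  have hεS : ε ^ 2 = S := Real.sq_sqrt hS0
  have hεZ : ε * Z lm ≤ δ1 := by
    apply abs_le_of_sq_le_sq' _ hδ10.le |>.2
    rw [mul_pow, hεS, hS, add_mul]
    have e1 : 2 * (Real.exp (lm - lm ^ 2 * (T / 4)) * (m0 + Am p lm) ^ 2) * Z lm ^ 2 =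
        Real.exp (-(lm ^ 2 * (T / 4))) * (2 * (Real.exp lm * (m0 + Am p lm) ^ 2) * Z lm ^ 2) := by
      rw [show lm - lm ^ 2 * (T / 4) = -(lm ^ 2 * (T / 4)) + lm by ring, Real.exp_add]; ring
    rw [e1]
    have e2 : δ1 ^ 2 / (2 * (Z lm ^ 2 + 1)) * Z lm ^ 2 ≤ δ1 ^ 2 / 2 := by
      rw [div_mul_eq_mul_div, div_le_div_iff₀ (by positivity) (by norm_num)]
      nlinarith [sq_nonneg δ1, sq_nonneg (Z lm)]
    linarith
  have ht10 : 0 < t1 := by linarith
  set τ := T - t1 with hτ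
  have hτ1 : T / 2 ≤ τ := by linarith
  have hτ0 : 0 < τ := by linarith
  have hτT : τ ≤ T := by linarith
  have hgm : Measurable (Y t1) := hSol.mY.comp (measurable_prodMk_left (x := t1))
  have hNb : √2 * C0 * (8 * τ ^ (1/8 : ℝ) * ((3/2) * (M1 p T m0 lm + 1) * ε)) ≤
      ε * (√2 * C0 * (8 * T ^ (1/8 : ℝ) * ((3/2) * (M1 p T m0 lm + 1)))) := by
    have h2 : τ ^ (1/8 : ℝ) ≤ T ^ (1/8 : ℝ) := Real.rpow_le_rpow hτ0.le hτT (by norm_num)
    calc _ ≤ √2 * C0 * (8 * T ^ (1/8 : ℝ) * ((3/2) * (M1 p T m0 lm + 1) * ε)) := by gcongr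
      _ = _ := by ring
  have hZe : ε * Z lm = √2 * ET (T / 2) * ε +
      ε * (√2 * C0 * (8 * T ^ (1/8 : ℝ) * ((3/2) * (M1 p T m0 lm + 1)))) := by
    rw [hZ]; ring
  have hET : √2 * ET τ * ε ≤ √2 * ET (T / 2) * ε := by
    have := ET_anti (by positivity : 0 < T / 2) hτ1
    gcongr
  have hET0 : 0 ≤ √2 * ET (T / 2) * ε := by have := ET_nonneg (T / 2); positivity
  obtain ⟨Y', P', K', hSol', hY0', hYe⟩ := free_phase hp hp1 hM0 hτ0 hgm
    (fun x hx => hSol.bY t1 ⟨ht10.le, le_rfl⟩ x hx) hε0 (by rw [hεS]; exact hY2)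
    (by have : δ1 ≤ 1 := min_le_left _ _
        linarith)
  -- glue
  have hSh := hSol'.shift t1
  have e1 : (0:ℝ) + t1 = t1 := zero_add _
  have e2 : τ + t1 = T := by rw [hτ]; ring
  rw [e1, e2] at hSh
  classical
  set YY : ℝ → ℝ → ℝ := fun t x => if t < t1 then Y t x else Y' (t - t1) x with hYY
  set PP : ℝ → ℝ → ℝ := fun t x => if t < t1 then P t x else P' (t - t1) x with hPP
  set uu : ℝ → ℝ := fun t => if t < t1 then u t else 0 with huu
  set vv : ℝ → ℝ := fun t => if t < t1 then v t else 0 with hvv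
  have msub : Measurable fun q : ℝ × ℝ => (q.1 - t1, q.2) := by fun_prop
  have mset : MeasurableSet {q : ℝ × ℝ | q.1 < t1} := measurableSet_lt measurable_fst
    measurable_const
  have mYY : Measurable fun q : ℝ × ℝ => YY q.1 q.2 :=
    Measurable.ite mset hSol.mY (hSol'.mY.comp msub)
  have mPP : Measurable fun q : ℝ × ℝ => PP q.1 q.2 :=
    Measurable.ite mset hSol.mP (hSol'.mP.comp msub)
  have muu : Measurable uu :=
    Measurable.ite (measurableSet_lt measurable_id measurable_const) hSol.mU measurable_const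
  set R' := max (M1 p T m0 lm) (M1 p T m0 lm + 1)
  set Λ' := max Λ 0
  set U' := max U 0
  have hU0 : 0 ≤ U' := le_max_right _ _
  have S1 : Sol p 0 t1 YY PP uu vv R' K Λ' U' := by
    refine (hSol.mono (le_max_left _ _) le_rfl (le_max_left _ _) (le_max_left _ _)).congr
      mYY mPP muu ?_ ?_ ?_ ?_ ?_
    · intro t ht x hx
      simp only [hYY]
      rcases ht.2.lt_or_eq with h | h
      · rw [if_pos h]
      · rw [h, if_neg (lt_irrefl _), sub_self, hY0']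
    · intro t ht x hx
      simp only [hPP]; rw [if_pos ht.2]
    · intro t ht
      simp only [huu]; rw [if_pos ht.2]
    · intro t ht
      simp only [huu]
      split_ifs with h
      · exact (hSol.bU t ⟨ht.1, h.le⟩).trans (le_max_left _ _)
      · rw [abs_zero]; exact hU0
    · intro t ht
      simp only [hvv]
      rcases ht.2.lt_or_eq with h | h
      · rw [if_pos h]
      · rw [h, if_neg (lt_irrefl _), hSol.vb]
  have S2 : Sol p t1 T YY PP uu vv R' K' Λ' U' := by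
    refine (hSh.mono (le_max_right _ _) le_rfl (le_max_right _ _) (le_max_right _ _)).congr
      mYY mPP muu ?_ ?_ ?_ ?_ ?_
    · intro t ht x hx
      simp only [hYY]; rw [if_neg (not_lt.2 ht.1)]
    · intro t ht x hx
      simp only [hPP]; rw [if_neg (not_lt.2 ht.1.le)]
    · intro t ht
      simp only [huu]; rw [if_neg (not_lt.2 ht.1.le)]
    · intro t ht
      simp only [huu]; rw [if_neg (not_lt.2 ht.1), abs_zero]; exact hU0
    · intro t ht
      simp only [hvv]; rw [if_neg (not_lt.2 ht.1)]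
  refine ⟨YY, PP, uu, vv, _, _, _, _, S1.trans hp S2, ?_, ?_⟩
  · intro x _
    simp only [hYY]; rw [if_pos ht10, hY0]
  · intro x hx
    simp only [hYY]
    rw [if_neg (not_lt.2 (by linarith : t1 ≤ T))]
    have h1 := hYe x hx
    have h2 : δ1 ≤ δ := min_le_right _ _
    rw [← hτ]
    linarith

end Pool.Agent.Y308.BC
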