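import Pool.Agent.Y308.BC.Sol

/-! # A solution piece from a background and a mild solution -/

set_option autoImplicit false

open MeasureTheory Set Real Filter Topology intervalIntegral
open scoped ENNReal NNReal

namespace Pool.Agent.Y308.BC

lemma meas_ind {f : ℝ × ℝ → ℝ} {S : Set (ℝ × ℝ)} (hS : MeasurableSet S) (hf : ContinuousOn f S) :
    Measurable (S.indicator f) := by
  classical
  have := ContinuousOn.measurable_piecewise (f := f) (g := (0 : ℝ × ℝ → ℝ)) hf
    continuousOn_const hS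
  rwa [Set.piecewise_eq_indicator] at this

/-- the initial value of the mild part -/
noncomputable def cc (g : ℝ → ℝ) (h : ℝ → ℝ → ℝ) : ℝ → ℝ :=
  (Icc (0:ℝ) 1).indicator fun x => g x - h 0 x

lemma cc_meas {g : ℝ → ℝ} {h : ℝ → ℝ → ℝ} (hg : Measurable g)
    (hh : ContinuousOn (h 0) (Icc 0 1)) : Measurable (cc g h) := by
  classical
  have h1 : Measurable ((Icc (0:ℝ) 1).indicator (h 0)) := by
    have := ContinuousOn.measurable_piecewise (f := h 0) (g := (0 : ℝ → ℝ)) hh
      continuousOn_const measurableSet_Icc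
    rwa [Set.piecewise_eq_indicator] at this
  have h2 : cc g h = fun x => (Icc (0:ℝ) 1).indicator g x - (Icc (0:ℝ) 1).indicator (h 0) x := by
    funext x
    unfold cc
    by_cases hx : x ∈ Icc (0:ℝ) 1
    · rw [indicator_of_mem hx, indicator_of_mem hx, indicator_of_mem hx]
    · rw [indicator_of_notMem hx, indicator_of_notMem hx, indicator_of_notMem hx, sub_zero]
  rw [h2]
  exact (hg.indicator measurableSet_Icc).sub h1

lemma cc_eq {g : ℝ → ℝ} {h : ℝ → ℝ → ℝ} {x : ℝ} (hx : x ∈ Icc (0:ℝ) 1) :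
    cc g h x = g x - h 0 x := by
  unfold cc; rw [indicator_of_mem hx]

theorem mk_sol {p M τ m H1 Λ U B : ℝ} (hp : 0 < p) (hM : 0 ≤ M) (hτ : 0 < τ) {g : ℝ → ℝ}
    (hg : Measurable g) (hgM : ∀ x ∈ Icc (0:ℝ) 1, |g x| ≤ M)
    {h hx hxx : ℝ → ℝ → ℝ} {u v : ℝ → ℝ} (hB : Bg h hx hxx u τ)
    (hH1 : ∀ t ∈ Icc 0 τ, ∀ x ∈ Icc (0:ℝ) 1, |hx t x| ≤ H1)
    (hm : 0 ≤ m) (hcb : ∀ x ∈ Ioo (0:ℝ) 1, |cc g h x| ≤ m)
    {F : ℝ → ℝ → ℝ} (hF : Adm F B)
    (hFG : ∀ s ∈ Ioc 0 τ, ∀ z ∈ Icc (0:ℝ) 1, F s z = GG p M (h s z + RR (cc g h) F s z))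
    (hYM : ∀ s ∈ Ioc 0 τ, ∀ z ∈ Icc (0:ℝ) 1, |h s z + RR (cc g h) F s z| ≤ M)
    (hU : ∀ t ∈ Icc 0 τ, |u t| ≤ U)
    (hv : ∀ t ∈ Icc 0 τ, v t = h t 1) (hv0 : v 0 = 0) (hvτ : v τ = 0)
    (hvL : ∀ s ∈ Icc 0 τ, ∀ t ∈ Icc 0 τ, |v s - v t| ≤ Λ * |s - t|) :
    ∃ Y P : ℝ → ℝ → ℝ, Sol p 0 τ Y P u v M
        (2 * H1 ^ 2 * τ + 2 * (m ^ 2 + ((1 + p) * M ^ p * M) ^ 2 * τ)) Λ U ∧
      (∀ x, Y 0 x = g x) ∧
      ∀ t ∈ Ioc 0 τ, ∀ x ∈ Icc (0:ℝ) 1, Y t x = h t x + RR (cc g h) F t x := by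
  classical
  have h0τ : (0:ℝ) ∈ Icc 0 τ := ⟨le_rfl, hτ.le⟩
  have hττ : τ ∈ Icc 0 τ := ⟨hτ.le, le_rfl⟩
  have hcm : Measurable (cc g h) := cc_meas hg (sec_cont hB.c0 h0τ)
  set c := cc g h with hcdef
  have hcM : MemLp c 2 mu := memLp_bdd hcm hcb
  set L := (1 + p) * M ^ p with hL
  have hL0 : 0 ≤ L := by positivity
  have hFsq : ∀ s ∈ Ioo 0 τ, ∫ x in (0:ℝ)..1, F s x ^ 2 ≤ (L * M) ^ 2 := by
    intro s hs
    refine int_sq_le (hF.sec hs.1) fun z hz => ?_
    rw [hFG s ⟨hs.1, hs.2.le⟩ z hz]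
    refine (GG_abs_le hp hM _).trans (mul_le_mul_of_nonneg_left ?_ hL0)
    exact hYM s ⟨hs.1, hs.2.le⟩ z hz
  obtain ⟨P0, hP0s, hP0m, hP0t, hP0le, hP0ae⟩ := exists_slope hcM hF hτ hFsq
  set S : Set (ℝ × ℝ) := Ioc 0 τ ×ˢ Icc 0 1 with hS
  have hSm : MeasurableSet S := measurableSet_Ioc.prod measurableSet_Icc
  have hYc : ContinuousOn (fun q : ℝ × ℝ => h q.1 q.2 + RR c F q.1 q.2) S :=
    (hB.c0.mono (prod_mono Ioc_subset_Icc_self le_rfl)).add
      ((RR_cont hcM hF).mono (prod_mono Ioc_subset_Ioi_self (subset_univ _)))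
  set Y : ℝ → ℝ → ℝ := fun t x => if t ≤ 0 then g x else
    S.indicator (fun q : ℝ × ℝ => h q.1 q.2 + RR c F q.1 q.2) (t, x) with hY
  set P : ℝ → ℝ → ℝ := fun t x => S.indicator (fun q : ℝ × ℝ => hx q.1 q.2) (t, x) +
    S.indicator P0 (t, x) with hP
  have hY0 : ∀ x, Y 0 x = g x := fun x => by simp only [hY]; rw [if_pos le_rfl]
  have hYt : ∀ t ∈ Ioc 0 τ, ∀ x ∈ Icc (0:ℝ) 1, Y t x = h t x + RR c F t x := by
    intro t ht x hx
    simp only [hY]
    rw [if_neg (not_le.2 ht.1), indicator_of_mem]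
    exact ⟨ht, hx⟩
  have hPt : ∀ t ∈ Ioc 0 τ, ∀ x ∈ Icc (0:ℝ) 1, P t x = hx t x + P0 (t, x) := by
    intro t ht x hx
    simp only [hP]
    rw [indicator_of_mem (show (t, x) ∈ S from ⟨ht, hx⟩),
      indicator_of_mem (show (t, x) ∈ S from ⟨ht, hx⟩)]
  have mY : Measurable fun q : ℝ × ℝ => Y q.1 q.2 :=
    Measurable.ite (measurableSet_le measurable_fst measurable_const) (hg.comp measurable_snd)
      (meas_ind hSm hYc)
  have mP : Measurable fun q : ℝ × ℝ => P q.1 q.2 :=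
    (meas_ind hSm (hB.c1.mono (prod_mono Ioc_subset_Icc_self le_rfl))).add
      (hP0s.measurable.indicator hSm)
  have aeS : ∀ᵐ q ∂(nu 0 τ), q.1 ∈ Ioc 0 τ ∧ q.2 ∈ Icc (0:ℝ) 1 := by
    filter_upwards [ae_nu 0 τ] with q hq
    exact ⟨Ioo_subset_Ioc_self hq.1, Ioo_subset_Icc_self hq.2⟩
  have hhxm : MemLp (fun q : ℝ × ℝ => hx q.1 q.2) 2 (nu 0 τ) := memLp_nu' hB.c1
  have aeP : (fun q : ℝ × ℝ => P q.1 q.2) =ᵐ[nu 0 τ] fun q => hx q.1 q.2 + P0 q := by
    filter_upwards [aeS] with q hq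
    exact hPt q.1 hq.1 q.2 hq.2
  have mP2 : MemLp (fun q : ℝ × ℝ => P q.1 q.2) 2 (nu 0 τ) :=
    (memLp_congr_ae aeP).2 (hhxm.add hP0m)
  have bY : ∀ t ∈ Icc 0 τ, ∀ x ∈ Icc (0:ℝ) 1, |Y t x| ≤ M := by
    intro t ht x hx
    rcases ht.1.eq_or_lt with h | h
    · rw [← h, hY0]; exact hgM x hx
    · rw [hYt t ⟨h, ht.2⟩ x hx]; exact hYM t ⟨h, ht.2⟩ x hx
  refine ⟨Y, P, ?_, hY0, hYt⟩
  exact
  { hab := hτ
    mY := mY
    mP := mP
    mU := hB.cu.measurable
    bY := bY
    bU := hU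
    cont := by
      intro t ht
      rcases ht.1.eq_or_lt with h0 | h0
      · -- t = 0
        subst h0
        have e0 : Icc (0:ℝ) τ = insert 0 (Ioc 0 τ) := by
          rw [← Ioc_insert_left hτ.le]
        rw [e0, nhdsWithin_insert, tendsto_sup]
        constructor
        · rw [tendsto_pure_left]
          intro V hV
          have : ∫ x in (0:ℝ)..1, (Y 0 x - Y 0 x) ^ 2 = 0 := by simp
          rw [this]; exact mem_of_mem_nhds hV
        · -- three pieces
          have t1 : Tendsto (fun s => ∫ x in (0:ℝ)..1, (h s x - h 0 x) ^ 2) (𝓝[Ioc 0 τ] 0)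
              (𝓝 0) := by
            have hc1 : ContinuousOn (fun q : ℝ × ℝ => (h q.1 q.2 - h 0 q.2) ^ 2)
                (Icc 0 τ ×ˢ Icc 0 1) := by
              refine (hB.c0.sub ?_).pow 2
              exact (sec_cont hB.c0 h0τ).comp continuousOn_snd fun q hq => hq.2
            obtain ⟨C, hC⟩ := (isCompact_Icc.prod isCompact_Icc).exists_bound_of_continuousOn hc1
            have hc2 := cont_param (F := fun s x => (h s x - h 0 x) ^ 2) measurableSet_Icc hc1
              (B := C) fun s hs z hz => hC (s, z) ⟨hs, hz⟩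
            have hc3 := (hc2 0 h0τ).mono (Ioc_subset_Icc_self (a := (0:ℝ)) (b := τ))
            have hc4 : Tendsto (fun s => ∫ x in (0:ℝ)..1, (h s x - h 0 x) ^ 2) (𝓝[Ioc 0 τ] 0)
              (𝓝 (∫ x in (0:ℝ)..1, (h 0 x - h 0 x) ^ 2)) := hc3
            simpa using hc4
          have t2 : Tendsto (fun s => ∫ x in (0:ℝ)..1, (SS c s x - c x) ^ 2) (𝓝[Ioc 0 τ] 0)
              (𝓝 0) := (SS_tendsto hcM).mono_left (nhdsWithin_mono _ Ioc_subset_Ioi_self)
          have t3 : Tendsto (fun s : ℝ => (√2 * C0 * (8 * s ^ (1/8 : ℝ) * B)) ^ 2) (𝓝[Ioc 0 τ] 0)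
              (𝓝 0) := by
            have hc1 : Continuous fun s : ℝ => (√2 * C0 * (8 * s ^ (1/8 : ℝ) * B)) ^ 2 := by
              have : Continuous fun s : ℝ => s ^ (1/8 : ℝ) :=
                continuous_id.rpow_const fun x => Or.inr (by norm_num)
              fun_prop
            have hc2 := (hc1.tendsto 0).mono_left (nhdsWithin_le_nhds (s := Ioc 0 τ))
            have : (√2 * C0 * (8 * (0:ℝ) ^ (1/8 : ℝ) * B)) ^ 2 = 0 := by
              rw [Real.zero_rpow (by norm_num)]; ring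
            rwa [this] at hc2
          have t4 := ((t1.add t2).add t3).const_mul 3
          rw [add_zero, add_zero, mul_zero] at t4
          refine tendsto_of_tendsto_of_tendsto_of_le_of_le' tendsto_const_nhds t4 ?_ ?_
          · exact Eventually.of_forall fun s =>
              intervalIntegral.integral_nonneg zero_le_one fun x _ => sq_nonneg _
          · filter_upwards [self_mem_nhdsWithin] with s hs
            have hs' : s ∈ Icc 0 τ := Ioc_subset_Icc_self hs
            have m1 : MemLp (fun x => h s x - h 0 x) 2 mu :=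
              memLp_cont ((sec_cont hB.c0 hs').sub (sec_cont hB.c0 h0τ))
            have hSS : MemLp (SS c s) 2 mu := by
              rw [SS_eq_ser]; exact memLp_ser (SS_coef_summable hcM hs.1)
            have m2 : MemLp (fun x => SS c s x - c x) 2 mu := hSS.sub hcM
            have m3 : MemLp (fun x => (h s x + RR c F s x) - g x) 2 mu := by
              refine MemLp.sub ((memLp_cont (sec_cont hB.c0 hs')).add (RR_mem hcM hF hs.1)) ?_
              exact memLp_bdd hg fun x hx => hgM x (Ioo_subset_Icc_self hx)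
            have i1 := ii_sq m1
            have i2 := ii_sq m2
            have i3 := ii_sq m3
            have i4 : IntervalIntegrable (fun x => 3 * (((h s x - h 0 x) ^ 2 +
                (SS c s x - c x) ^ 2) + (√2 * C0 * (8 * s ^ (1/8 : ℝ) * B)) ^ 2)) volume 0 1 :=
              ((i1.add i2).add intervalIntegrable_const).const_mul 3
            have e1 : ∫ x in (0:ℝ)..1, (Y s x - Y 0 x) ^ 2 =
                ∫ x in (0:ℝ)..1, ((h s x + RR c F s x) - g x) ^ 2 := by
              refine intervalIntegral.integral_congr fun x hx => ?_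
              rw [uIcc_of_le zero_le_one] at hx
              rw [hYt s hs x hx, hY0]
            rw [e1]
            have e2 : 3 * ((∫ x in (0:ℝ)..1, (h s x - h 0 x) ^ 2) +
                (∫ x in (0:ℝ)..1, (SS c s x - c x) ^ 2) +
                (√2 * C0 * (8 * s ^ (1/8 : ℝ) * B)) ^ 2) =
                ∫ x in (0:ℝ)..1, 3 * (((h s x - h 0 x) ^ 2 +
                (SS c s x - c x) ^ 2) + (√2 * C0 * (8 * s ^ (1/8 : ℝ) * B)) ^ 2) := by
              rw [intervalIntegral.integral_const_mul, intervalIntegral.integral_add (i1.add i2)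
                intervalIntegrable_const, intervalIntegral.integral_add i1 i2,
                intervalIntegral.integral_const]
              simp
            rw [e2]
            refine intervalIntegral.integral_mono_on zero_le_one i3 i4 fun x hx => ?_
            have hN := NN_le_const hF hs.1.le x hF.nonneg
              (fun u hu => int_sq_le (hF.sec hu.1) (hF.bdd u hu.1))
            have e3 : (h s x + RR c F s x) - g x = (h s x - h 0 x) + (SS c s x - c x) +
                NN F s x := by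
              rw [hcdef, cc_eq hx]; unfold RR; ring
            rw [e3]
            have e4 : NN F s x ^ 2 ≤ (√2 * C0 * (8 * s ^ (1/8 : ℝ) * B)) ^ 2 := by
              rw [← sq_abs]; exact pow_le_pow_left₀ (abs_nonneg _) hN 2
            nlinarith [sq_nonneg ((h s x - h 0 x) - (SS c s x - c x)),
              sq_nonneg ((h s x - h 0 x) - NN F s x), sq_nonneg ((SS c s x - c x) - NN F s x)]
      · -- t > 0
        have ht' : t ∈ Ioc 0 τ := ⟨h0, ht.2⟩
        have hYc' : ContinuousOn (fun q : ℝ × ℝ => Y q.1 q.2) (Ioc 0 τ ×ˢ Icc 0 1) :=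
          hYc.congr fun q hq => hYt q.1 hq.1 q.2 hq.2
        have hc1 : ContinuousOn (fun q : ℝ × ℝ => (Y q.1 q.2 - Y t q.2) ^ 2)
            (Ioc 0 τ ×ˢ Icc 0 1) := by
          refine (hYc'.sub ?_).pow 2
          exact (sec_cont hYc' ht').comp continuousOn_snd fun q hq => hq.2
        have hc2 := cont_param (F := fun s x => (Y s x - Y t x) ^ 2) measurableSet_Ioc hc1
          (B := (2 * M) ^ 2) fun s hs z hz => by
            rw [abs_pow]
            refine pow_le_pow_left₀ (abs_nonneg _) ?_ 2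
            have e1 := bY s (Ioc_subset_Icc_self hs) z hz
            have e2 := bY t ht z hz
            have e3 := abs_sub (Y s z) (Y t z)
            linarith
        have hc3 : Tendsto (fun s => ∫ x in (0:ℝ)..1, (Y s x - Y t x) ^ 2) (𝓝[Ioc 0 τ] t)
              (𝓝 (∫ x in (0:ℝ)..1, (Y t x - Y t x) ^ 2)) := hc2 t ht'
        have e1 : 𝓝[Icc 0 τ] t = 𝓝[Ioc 0 τ] t := by
          have e2 : Ioc (0:ℝ) τ = Icc 0 τ ∩ Ioi 0 := by
            ext z; simp only [mem_Ioc, mem_inter_iff, mem_Icc, mem_Ioi]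
            constructor
            · rintro ⟨h5, h6⟩; exact ⟨⟨h5.le, h6⟩, h5⟩
            · rintro ⟨⟨_, h6⟩, h7⟩; exact ⟨h7, h6⟩
          rw [e2]
          exact (nhdsWithin_inter_of_mem' (mem_nhdsWithin_of_mem_nhds (Ioi_mem_nhds h0))).symm
        rw [e1]
        simpa using hc3
    P2 := mP2
    P2le := by
      have e1 : ∫ q : ℝ × ℝ, P q.1 q.2 ^ 2 ∂(nu 0 τ) ≤
          ∫ q : ℝ × ℝ, (2 * hx q.1 q.2 ^ 2 + 2 * P0 q ^ 2) ∂(nu 0 τ) := by
        refine integral_mono_ae (sq_int mP2)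
          (((sq_int hhxm).const_mul 2).add ((sq_int hP0m).const_mul 2)) ?_
        filter_upwards [aeP] with q hq
        rw [hq]
        nlinarith [sq_nonneg (hx q.1 q.2 - P0 q)]
      have e2 : ∫ q : ℝ × ℝ, (2 * hx q.1 q.2 ^ 2 + 2 * P0 q ^ 2) ∂(nu 0 τ) =
          2 * (∫ q : ℝ × ℝ, hx q.1 q.2 ^ 2 ∂(nu 0 τ)) + 2 * ∫ q, P0 q ^ 2 ∂(nu 0 τ) := by
        rw [integral_add ((sq_int hhxm).const_mul 2) ((sq_int hP0m).const_mul 2),
          MeasureTheory.integral_const_mul, MeasureTheory.integral_const_mul]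
      have e3 : ∫ q : ℝ × ℝ, hx q.1 q.2 ^ 2 ∂(nu 0 τ) ≤ H1 ^ 2 * τ := by
        rw [int_nu hτ.le (sq_int hhxm)]
        have e4 : ∫ t in (0:ℝ)..τ, ∫ x in (0:ℝ)..1, hx t x ^ 2 ≤ ∫ t in (0:ℝ)..τ, H1 ^ 2 := by
          refine intervalIntegral.integral_mono_on hτ.le ?_ intervalIntegrable_const
            fun t ht => int_sq_le (sec_cont hB.c1 ht) (hH1 t ht)
          rw [intervalIntegrable_iff_integrableOn_Ioc_of_le hτ.le]
          have h1 := sq_int hhxm
          unfold nu at h1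
          have := h1.integral_prod_left
          simp_rw [ii_mu]
          exact this
        rw [intervalIntegral.integral_const, sub_zero, smul_eq_mul, mul_comm] at e4
        exact e4
      have e5 : ∫ x in (0:ℝ)..1, c x ^ 2 ≤ m ^ 2 := by
        have : ∫ x in (0:ℝ)..1, c x ^ 2 ≤ ∫ x in (0:ℝ)..1, m ^ 2 := by
          refine intervalIntegral.integral_mono_on_of_le_Ioo zero_le_one (ii_sq hcM)
            intervalIntegrable_const fun x hx => ?_
          rw [← sq_abs]; exact pow_le_pow_left₀ (abs_nonneg _) (hcb x hx) 2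
        simpa using this
      linarith
    slope := by
      filter_upwards [hP0ae, ae_restrict_mem measurableSet_Ioc] with t ht ht2 x hx'
      rw [hYt t ht2 x hx', ht.2 x hx']
      have ht3 := Ioc_subset_Icc_self ht2
      have hsub : Icc (0:ℝ) x ⊆ Icc 0 1 := Icc_subset_Icc le_rfl hx'.2
      have i1 : IntervalIntegrable (hx t) volume 0 x := by
        apply ContinuousOn.intervalIntegrable
        rw [uIcc_of_le hx'.1]
        exact (sec_cont hB.c1 ht3).mono hsub
      have i2 : IntervalIntegrable (fun z => P0 (t, z)) volume 0 x :=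
        (ii_one ht.1).mono_set (by
          rw [uIcc_of_le hx'.1, uIcc_of_le zero_le_one]; exact hsub)
      have e1 : ∫ z in (0:ℝ)..x, P t z = ∫ z in (0:ℝ)..x, (hx t z + P0 (t, z)) := by
        refine intervalIntegral.integral_congr fun z hz => ?_
        rw [uIcc_of_le hx'.1] at hz
        exact hPt t ht2 z (hsub hz)
      rw [e1, intervalIntegral.integral_add i1 i2]
      congr 1
      rw [intervalIntegral.integral_eq_sub_of_hasDerivAt (f := h t) (fun z hz => ?_) i1,
        hB.z0 t ht3, sub_zero]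
      rw [uIcc_of_le hx'.1] at hz
      exact hB.dx t ht3 z (hsub hz)
    bdry := fun t ht => by
      rw [hYt t ht 1 ⟨zero_le_one, le_rfl⟩, RR_right, add_zero, hv t (Ioc_subset_Icc_self ht)]
    vL := hvL
    va := hv0
    vb := hvτ
    weak := fun φ φt φx hT => by
      have h1 := weak_Y hcm hm hcb hF hT hτ hB (GG_deriv (M := M) hp) (dG_cont hp)
        (dG_abs_le hp hM) (GG_lip hp hM) hFG hP0m hP0t
      have e1 : ∫ x in (0:ℝ)..1, Y τ x * φ τ x = ∫ x in (0:ℝ)..1, (h τ x + RR c F τ x) * φ τ x := by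
        refine intervalIntegral.integral_congr fun x hx => ?_
        rw [uIcc_of_le zero_le_one] at hx
        rw [hYt τ ⟨hτ, le_rfl⟩ x hx]
      have e2 : ∫ x in (0:ℝ)..1, Y 0 x * φ 0 x = ∫ x in (0:ℝ)..1, (h 0 x + c x) * φ 0 x := by
        refine intervalIntegral.integral_congr fun x hx => ?_
        rw [uIcc_of_le zero_le_one] at hx
        rw [hY0, hcdef, cc_eq hx]; ring
      rw [e1, e2, h1]
      refine integral_congr_ae ?_
      filter_upwards [aeS] with q hq
      unfold integrand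
      rw [hYt q.1 hq.1 q.2 hq.2, hPt q.1 hq.1 q.2 hq.2, dG_eq _ (hYM q.1 hq.1 q.2 hq.2)] }

end Pool.Agent.Y308.BC
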