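import Pool.Agent.Y308.BC.Flat
import Pool.Agent.Y308.BC.Free

/-! # One step of the local iteration -/

set_option autoImplicit false

open MeasureTheory Set Real Filter Topology intervalIntegral
open scoped ENNReal NNReal

namespace Pool.Agent.Y308.BC

lemma iter_bound {S : Set (ℝ × ℝ)} {f : ℝ × ℝ → ℝ} {b B0 : ℝ} (hb : 0 ≤ b) (hB0 : 0 ≤ B0)
    (h0 : ∀ q ∈ S, |f q| ≤ B0)
    (hstep : ∀ B, 0 ≤ B → (∀ q ∈ S, |f q| ≤ B) → ∀ q ∈ S, |f q| ≤ b + B / 2) :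
    ∀ q ∈ S, |f q| ≤ 2 * b := by
  have key : ∀ n : ℕ, ∀ q ∈ S, |f q| ≤ 2 * b + B0 / 2 ^ n := by
    intro n
    induction n with
    | zero => intro q hq; have := h0 q hq; simp only [pow_zero, div_one]; linarith
    | succ n ih =>
      intro q hq
      have := hstep _ (by positivity) ih q hq
      refine this.trans (le_of_eq ?_)
      rw [pow_succ]; field_simp; ring
  intro q hq
  refine le_of_forall_pos_le_add fun ε hε => ?_
  have h1 : Tendsto (fun n : ℕ => B0 / 2 ^ n) atTop (𝓝 0) := by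
    have := (tendsto_pow_atTop_nhds_zero_of_lt_one (r := (1/2:ℝ)) (by norm_num)
      (by norm_num)).const_mul B0
    rw [mul_zero] at this
    refine this.congr fun n => ?_
    rw [one_div, inv_pow]; rfl
  obtain ⟨n, hn⟩ := (h1.eventually (gt_mem_nhds hε)).exists
  exact (key n q hq).trans (by linarith)

/-- the constant of the small data estimates -/
noncomputable def kap : ℝ := √2 * C0 * 12

lemma kap_nonneg : 0 ≤ kap := by unfold kap; have := C0_nonneg; positivity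

/-- sup bound for a small-data mild solution -/
lemma small_sup {p M σ m H B : ℝ} (hp : 0 < p) (hp1 : p ≤ 1/2) (hM : 0 ≤ M)
    (hσ1 : σ ≤ 1) (hm : 0 ≤ m) (hH : 0 ≤ H) {c : ℝ → ℝ} (hcm : Measurable c)
    (hcb : ∀ x ∈ Ioo (0:ℝ) 1, |c x| ≤ m) {F : ℝ → ℝ → ℝ} (hF : Adm F B) {h : ℝ → ℝ → ℝ}
    (hh : ∀ s ∈ Ioc 0 σ, ∀ z ∈ Icc (0:ℝ) 1, |h s z| ≤ H)
    (hFG : ∀ s ∈ Ioc 0 σ, ∀ z ∈ Icc (0:ℝ) 1, F s z = GG p M (h s z + RR c F s z))
    (hS : kap * M ^ p ≤ 1/2) :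
    (∀ s ∈ Ioc 0 σ, ∀ z ∈ Icc (0:ℝ) 1, |h s z + RR c F s z| ≤ 2 * (H + m)) ∧
    (∀ s ∈ Ioc 0 σ, ∀ z : ℝ, |NN F s z| ≤ kap * M ^ p * (2 * (H + m))) := by
  have hC := C0_nonneg
  set L := (1 + p) * M ^ p with hL
  have hL0 : 0 ≤ L := by positivity
  have hLM : L ≤ (3/2) * M ^ p := by
    have : 0 ≤ M ^ p := Real.rpow_nonneg hM _
    rw [hL]; nlinarith
  have hσr : ∀ s ∈ Ioc 0 σ, s ^ (1/8 : ℝ) ≤ 1 := fun s hs =>
    Real.rpow_le_one hs.1.le (hs.2.trans hσ1) (by norm_num)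
  -- NN bound from a bound of Y
  have hNN : ∀ B', 0 ≤ B' → (∀ s ∈ Ioc 0 σ, ∀ z ∈ Icc (0:ℝ) 1, |h s z + RR c F s z| ≤ B') →
      ∀ s ∈ Ioc 0 σ, ∀ z : ℝ, |NN F s z| ≤ kap * M ^ p * B' := by
    intro B' hB' hY s hs z
    have h1 := NN_le_const hF hs.1.le z (f := L * B') (by positivity) fun u hu => by
      have hu' : u ∈ Ioc 0 σ := ⟨hu.1, hu.2.le.trans hs.2⟩
      refine int_sq_le (hF.sec hu.1) fun z hz => ?_
      rw [hFG u hu' z hz]
      exact (GG_abs_le hp hM _).trans (mul_le_mul_of_nonneg_left (hY u hu' z hz) hL0)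
    have h2 := hσr s hs
    have h3 : 0 ≤ s ^ (1/8 : ℝ) := Real.rpow_nonneg hs.1.le _
    have h4 : 0 ≤ M ^ p := Real.rpow_nonneg hM _
    calc |NN F s z| ≤ √2 * C0 * (8 * s ^ (1/8 : ℝ) * (L * B')) := h1
      _ ≤ √2 * C0 * (8 * 1 * ((3/2) * M ^ p * B')) := by gcongr
      _ = _ := by unfold kap; ring
  have hY : ∀ q ∈ Ioc 0 σ ×ˢ Icc (0:ℝ) 1, |(fun q : ℝ × ℝ => h q.1 q.2 + RR c F q.1 q.2) q| ≤
      2 * (H + m) := by
    refine iter_bound (B0 := H + (m + √2 * C0 * (8 * 1 * B))) (by positivity)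
      (by have := hF.nonneg; positivity) ?_ ?_
    · rintro ⟨s, z⟩ ⟨hs, hz⟩
      have h1 := RR_bdd hcm hm hcb hF hs.1 hz hF.nonneg
        (fun u hu => int_sq_le (hF.sec hu.1) (hF.bdd u hu.1))
      have h2 := hσr s hs
      have h3 := hF.nonneg
      have h4 : √2 * C0 * (8 * s ^ (1/8 : ℝ) * B) ≤ √2 * C0 * (8 * 1 * B) := by gcongr
      have h5 := abs_add_le (h s z) (RR c F s z)
      have h6 := hh s hs z hz
      simp only
      linarith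
    · rintro B' hB' hq ⟨s, z⟩ ⟨hs, hz⟩
      have h1 := hNN B' hB' (fun s hs z hz => hq (s, z) ⟨hs, hz⟩) s hs z
      have h2 := SS_le hcm hm hcb hs.1 hz
      have h3 := hh s hs z hz
      have h4 : kap * M ^ p * B' ≤ 1/2 * B' := mul_le_mul_of_nonneg_right hS hB'
      have h5 := abs_add_le (h s z) (RR c F s z)
      have h6 : |RR c F s z| ≤ |SS c s z| + |NN F s z| := abs_add_le _ _
      simp only
      linarith
  refine ⟨fun s hs z hz => hY (s, z) ⟨hs, hz⟩, hNN _ (by positivity)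
    fun s hs z hz => hY (s, z) ⟨hs, hz⟩⟩

/-- clamp the time of a background -/
lemma clamp_cont {h : ℝ → ℝ → ℝ} {σ : ℝ} (hσ : 0 < σ)
    (hc : ContinuousOn (fun q : ℝ × ℝ => h q.1 q.2) (Icc 0 σ ×ˢ Icc 0 1)) :
    ContinuousOn (fun q : ℝ × ℝ => h (min q.1 σ) q.2) (Ioi 0 ×ˢ Icc 0 1) := by
  refine hc.comp (f := fun q : ℝ × ℝ => (min q.1 σ, q.2)) (by fun_prop) fun q hq => ?_
  exact ⟨⟨(lt_min hq.1 hσ).le, min_le_right _ _⟩, hq.2⟩

/-- solve the mild problem for a background on `[0,σ]` -/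
lemma solve {p M σ m H : ℝ} (hp : 0 < p) (hM : 0 ≤ M) (hσ : 0 < σ) (hm : 0 ≤ m) {c : ℝ → ℝ}
    (hcm : Measurable c) (hcb : ∀ x ∈ Ioo (0:ℝ) 1, |c x| ≤ m) {h : ℝ → ℝ → ℝ}
    (hc : ContinuousOn (fun q : ℝ × ℝ => h q.1 q.2) (Icc 0 σ ×ˢ Icc 0 1))
    (hh : ∀ s ∈ Icc 0 σ, ∀ z ∈ Icc (0:ℝ) 1, |h s z| ≤ H) :
    ∃ (F : ℝ → ℝ → ℝ) (B : ℝ), Adm F B ∧
      ∀ s ∈ Ioc 0 σ, ∀ z ∈ Icc (0:ℝ) 1, F s z = GG p M (h s z + RR c F s z) := by
  obtain ⟨F, B, hF, hFG⟩ := exists_fix (G := GG p M) (by positivity) (GG_lip hp hM)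
    (h := fun s z => h (min s σ) z) (clamp_cont hσ hc) (H := H)
    (fun s hs z hz => hh _ ⟨(lt_min hs hσ).le, min_le_right _ _⟩ z hz) hcm hm hcb hσ
  refine ⟨F, B, hF, fun s hs z hz => ?_⟩
  have := hFG s hs z hz
  rwa [min_eq_left hs.2] at this

/-- **One step.** -/
theorem step {p σ m : ℝ} (hp : 0 < p) (hp1 : p ≤ 1/2) (hσ : 0 < σ) (hσ1 : σ ≤ 1) (hm : 0 ≤ m)
    {g : ℝ → ℝ} (hg : Measurable g) (hgb : ∀ x ∈ Icc (0:ℝ) 1, |g x| ≤ m)
    {K : ℝ} (hK : K = (Gam σ + 1) * m) (hK4 : 4 * K ≤ 1) (hS : kap * (4 * K) ^ p ≤ 1/2) :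
    ∃ (Y P : ℝ → ℝ → ℝ) (u v : ℝ → ℝ), Sol p 0 (2 * σ) Y P u v (4 * K) (152 * K ^ 2) K 0 ∧
      (∀ x ∈ Icc (0:ℝ) 1, Y 0 x = g x) ∧
      ∀ x ∈ Icc (0:ℝ) 1, |Y (2 * σ) x| ≤ 2 * kap * (4 * K) ^ p * (4 * K) := by
  have hG := Gam_nonneg σ
  have hmK : m ≤ K := by rw [hK]; nlinarith
  have hK0 : 0 ≤ K := hm.trans hmK
  have hGK : Gam σ * m ≤ K := by rw [hK]; nlinarith
  have hkap := kap_nonneg
  -- piece (i)
  set c := cc g (fun _ _ => (0:ℝ)) with hcdef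
  have hcm : Measurable c := cc_meas hg continuousOn_const
  have hcb' : ∀ x ∈ Icc (0:ℝ) 1, |c x| ≤ m := by
    intro x hx
    rw [hcdef, cc_eq hx, sub_zero]
    exact hgb x hx
  have hcb : ∀ x ∈ Ioo (0:ℝ) 1, |c x| ≤ m := fun x hx => hcb' x (Ioo_subset_Icc_self hx)
  have hcM : MemLp c 2 mu := memLp_bdd hcm hcb
  have h2m : 0 ≤ 2 * m := by positivity
  have h2mp : (2 * m) ^ p ≤ (4 * K) ^ p := Real.rpow_le_rpow h2m (by linarith) hp.le
  have hS1 : kap * (2 * m) ^ p ≤ 1/2 := (mul_le_mul_of_nonneg_left h2mp hkap).trans hS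
  obtain ⟨F, B, hF, hFG⟩ := solve (M := 2 * m) (h := fun _ _ => 0) (H := 0) hp h2m hσ hm hcm hcb
    continuousOn_const (fun s _ z _ => by simp)
  obtain ⟨hY1, hN1⟩ := small_sup hp hp1 h2m hσ1 hm le_rfl hcm hcb hF
    (h := fun _ _ => 0) (fun s _ z _ => by simp) hFG hS1
  rw [zero_add] at hY1 hN1
  obtain ⟨Y1, P1, hSol1, hY10, hY1t⟩ := mk_sol (v := fun _ => (0:ℝ)) (Λ := 0) (U := 0) (H1 := 0)
    hp h2m hσ hg (fun x hx => (hgb x hx).trans (by linarith)) (zero_bg σ)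
    (fun t _ x _ => by simp) hm hcb hF hFG hY1 (fun t _ => by simp) (fun t _ => rfl) rfl rfl
    (fun s _ t _ => by simp)
  -- the flat control
  have hcn : ∀ n, |cf (es n) c| ≤ m := fun n => cf_abs_le hcM hm (by
    have : ∫ x in (0:ℝ)..1, c x ^ 2 ≤ ∫ x in (0:ℝ)..1, m ^ 2 := by
      refine intervalIntegral.integral_mono_on zero_le_one (ii_sq hcM)
        intervalIntegrable_const fun x hx => ?_
      rw [← sq_abs]; exact pow_le_pow_left₀ (abs_nonneg _) (hcb' x hx) 2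
    simpa using this) n
  obtain ⟨h, hx, hxx, hBg, hh0, hhσ, hhb⟩ := flat hm hcn hσ
  have hσI : σ ∈ Ioc 0 σ := ⟨hσ, le_rfl⟩
  have h0I : (0:ℝ) ∈ Icc 0 σ := ⟨le_rfl, hσ.le⟩
  have hσI' : σ ∈ Icc 0 σ := ⟨hσ.le, le_rfl⟩
  -- piece (ii)
  set g2 := Y1 σ with hg2
  have hg2m : Measurable g2 := hSol1.mY.comp (measurable_prodMk_left (x := σ))
  have hg2e : ∀ x ∈ Icc (0:ℝ) 1, g2 x = SS c σ x + NN F σ x := by
    intro x hx'
    rw [hg2, hY1t σ hσI x hx', zero_add]; rfl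
  set c2 := cc g2 h with hc2def
  have hc2m : Measurable c2 := cc_meas hg2m (sec_cont hBg.c0 h0I)
  set m2 := kap * (4 * K) ^ p * (2 * m) with hm2
  have h4K : 0 ≤ (4 * K) ^ p := Real.rpow_nonneg (by positivity) _
  have hm20 : 0 ≤ m2 := by positivity
  have hm2K : m2 ≤ K := by
    rw [hm2]
    have := mul_le_mul_of_nonneg_right hS h2m
    linarith
  have hc2b' : ∀ x ∈ Icc (0:ℝ) 1, |c2 x| ≤ m2 := by
    intro x hx'
    rw [hc2def, cc_eq hx', hg2e x hx', hh0 x hx', add_sub_cancel_left]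
    refine (hN1 σ hσI x).trans ?_
    rw [hm2]
    gcongr
  have hc2b : ∀ x ∈ Ioo (0:ℝ) 1, |c2 x| ≤ m2 := fun x hx' => hc2b' x (Ioo_subset_Icc_self hx')
  have h4K0 : 0 ≤ 4 * K := by positivity
  have hhb0 : ∀ s ∈ Icc 0 σ, ∀ z ∈ Icc (0:ℝ) 1, |h s z| ≤ K :=
    fun s hs z hz => (hhb s hs z hz).1.trans hGK
  obtain ⟨F2, B2, hF2, hFG2⟩ := solve (M := 4 * K) (H := K) hp h4K0 hσ hm20 hc2m hc2b
    hBg.c0 hhb0
  obtain ⟨hY2, hN2⟩ := small_sup hp hp1 h4K0 hσ1 hm20 hK0 hc2m hc2b hF2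
    (fun s hs z hz => hhb0 s (Ioc_subset_Icc_self hs) z hz) hFG2 hS
  have hY2' : ∀ s ∈ Ioc 0 σ, ∀ z ∈ Icc (0:ℝ) 1, |h s z + RR c2 F2 s z| ≤ 4 * K :=
    fun s hs z hz => (hY2 s hs z hz).trans (by linarith)
  have hvL : ∀ s ∈ Icc 0 σ, ∀ t ∈ Icc 0 σ, |h s 1 - h t 1| ≤ K * |s - t| := by
    intro s hs t ht
    have := Convex.norm_image_sub_le_of_norm_hasDerivWithin_le (s := Icc 0 σ) (x := t) (y := s)
      (f := fun t => h t 1) (f' := fun t => hxx t 1 + 0) (C := K)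
      (fun x hx' => (hBg.dt x hx' 1 ⟨zero_le_one, le_rfl⟩).hasDerivWithinAt) (fun x hx' => by
        rw [add_zero, Real.norm_eq_abs]
        exact ((hhb x hx' 1 ⟨zero_le_one, le_rfl⟩).2.2).trans hGK) (convex_Icc _ _) ht hs
    exact this
  have hv0 : h 0 1 = 0 := by rw [hh0 1 ⟨zero_le_one, le_rfl⟩, SS_right]
  have hvσ : h σ 1 = 0 := hhσ 1 ⟨zero_le_one, le_rfl⟩
  have hg2b : ∀ x ∈ Icc (0:ℝ) 1, |g2 x| ≤ 4 * K := by
    intro x hx'
    rw [hg2]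
    exact (hSol1.bY σ hσI' x hx').trans (by linarith)
  obtain ⟨Y2, P2, hSol2, hY20, hY2t⟩ := mk_sol (v := fun t => h t 1) (Λ := K) (U := 0) (H1 := K)
    hp h4K0 hσ hg2m hg2b hBg (fun t ht x hx' => ((hhb t ht x hx').2.1).trans hGK) hm20 hc2b hF2
    hFG2 hY2' (fun t _ => by simp) (fun t _ => rfl) hv0 hvσ hvL
  -- glue the two pieces
  have hSh := hSol2.shift σ
  have e1 : (0:ℝ) + σ = σ := zero_add _
  have e2 : σ + σ = 2 * σ := by ring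
  rw [e1, e2] at hSh
  -- slope constants
  have hKb : ∀ M' m' H' : ℝ, 0 ≤ M' → M' ≤ 4 * K → 0 ≤ m' → m' ≤ K → 0 ≤ H' → H' ≤ K →
      2 * H' ^ 2 * σ + 2 * (m' ^ 2 + ((1 + p) * M' ^ p * M') ^ 2 * σ) ≤ 75 * K ^ 2 + K ^ 2 := by
    intro M' m' H' h1 h2 h3 h4 h5 h6
    have a1 : M' ^ p ≤ 1 := Real.rpow_le_one h1 (h2.trans hK4) hp.le
    have a0 : 0 ≤ M' ^ p := Real.rpow_nonneg h1 _
    have a2 : (1 + p) * M' ^ p * M' ≤ 6 * K := by
      calc (1 + p) * M' ^ p * M' ≤ (1 + 1/2) * 1 * (4 * K) := by gcongr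
        _ = 6 * K := by ring
    have a3 : ((1 + p) * M' ^ p * M') ^ 2 ≤ (6 * K) ^ 2 :=
      pow_le_pow_left₀ (by positivity) a2 2
    have a4 : ((1 + p) * M' ^ p * M') ^ 2 * σ ≤ (6 * K) ^ 2 * 1 := by gcongr
    have a5 : H' ^ 2 * σ ≤ K ^ 2 * 1 := by gcongr
    have a6 : m' ^ 2 ≤ K ^ 2 := by gcongr
    nlinarith
  classical
  set YY : ℝ → ℝ → ℝ := fun t x => if t < σ then Y1 t x else Y2 (t - σ) x with hYY
  set PP : ℝ → ℝ → ℝ := fun t x => if t < σ then P1 t x else P2 (t - σ) x with hPP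
  set vv : ℝ → ℝ := fun t => if t < σ then 0 else h (t - σ) 1 with hvv
  have msub : Measurable fun q : ℝ × ℝ => (q.1 - σ, q.2) := by fun_prop
  have mset : MeasurableSet {q : ℝ × ℝ | q.1 < σ} := measurableSet_lt measurable_fst
    measurable_const
  have mYY : Measurable fun q : ℝ × ℝ => YY q.1 q.2 :=
    Measurable.ite mset hSol1.mY (hSol2.mY.comp msub)
  have mPP : Measurable fun q : ℝ × ℝ => PP q.1 q.2 :=
    Measurable.ite mset hSol1.mP (hSol2.mP.comp msub)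
  have S1 : Sol p 0 σ YY PP (fun _ => 0) vv (4 * K) (76 * K ^ 2) K 0 := by
    refine (hSol1.mono (by linarith) ?_ hK0 le_rfl).congr
      mYY mPP measurable_const ?_ ?_ ?_ ?_ ?_
    · have a1 := hKb (2 * m) m 0 h2m (by linarith) hm hmK le_rfl hK0
      linarith
    · intro t ht x hx'
      simp only [hYY]
      rcases ht.2.lt_or_eq with h' | h'
      · rw [if_pos h']
      · rw [h', if_neg (lt_irrefl _), sub_self, hY20]
    · intro t ht x _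
      simp only [hPP]; rw [if_pos ht.2]
    · intro t ht; rfl
    · intro t ht; simp
    · intro t ht
      simp only [hvv]
      rcases ht.2.lt_or_eq with h' | h'
      · rw [if_pos h']
      · rw [h', if_neg (lt_irrefl _), sub_self, hv0]
  have S2 : Sol p σ (2 * σ) YY PP (fun _ => 0) vv (4 * K) (76 * K ^ 2) K 0 := by
    refine (hSh.mono le_rfl ?_ le_rfl le_rfl).congr
      mYY mPP measurable_const ?_ ?_ ?_ ?_ ?_
    · have a1 := hKb (4 * K) m2 K h4K0 le_rfl hm20 hm2K hK0 le_rfl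
      linarith
    · intro t ht x _
      simp only [hYY]; rw [if_neg (not_lt.2 ht.1)]
    · intro t ht x _
      simp only [hPP]; rw [if_neg (not_lt.2 ht.1.le)]
    · intro t ht; rfl
    · intro t ht; simp
    · intro t ht
      simp only [hvv]; rw [if_neg (not_lt.2 ht.1)]
  refine ⟨YY, PP, fun _ => 0, vv, ?_, ?_, ?_⟩
  · refine (S1.trans hp S2).mono le_rfl ?_ le_rfl le_rfl
    linarith
  · intro x _
    simp only [hYY]; rw [if_pos hσ, hY10]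
  · intro x hx'
    simp only [hYY]
    rw [if_neg (not_lt.2 (by linarith : σ ≤ 2 * σ))]
    have e3 : 2 * σ - σ = σ := by ring
    rw [e3, hY2t σ hσI x hx', hhσ x hx', zero_add]
    have h1 := SS_le hc2m hm20 hc2b hσ hx'
    have h2 := hN2 σ hσI x
    have h3 : |RR c2 F2 σ x| ≤ |SS c2 σ x| + |NN F2 σ x| := abs_add_le _ _
    have h4 : m2 ≤ kap * (4 * K) ^ p * (4 * K) := by
      rw [hm2]; gcongr; linarith
    have h5 : kap * (4 * K) ^ p * (2 * (K + m2)) ≤ kap * (4 * K) ^ p * (4 * K) :=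
      mul_le_mul_of_nonneg_left (by linarith) (by positivity)
    have h6 : 2 * kap * (4 * K) ^ p * (4 * K) =
      kap * (4 * K) ^ p * (4 * K) + kap * (4 * K) ^ p * (4 * K) := by ring
    linarith

end Pool.Agent.Y308.BC
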