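import Pool.Agent.Y308.BC.Glue
import Pool.Agent.Y308.BC.Step
import Pool.Agent.Y308.BC.PhaseA

/-! # Null controllability by an infinite sequence of steps -/

set_option autoImplicit false

open MeasureTheory Set Real Filter Topology intervalIntegral
open scoped ENNReal NNReal Interval

namespace Pool.Agent.Y308.BC

lemma Gam_exp : ∃ A : ℝ, 0 ≤ A ∧ ∀ σ : ℝ, 0 < σ →
    4 * (Gam σ + 1) ≤ Real.exp (A + 12545 * (1 / σ ^ 2)) := by
  have hD := ddsum_nonneg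
  have hC := Cc_pos
  set A0 : ℝ := 8 * Cc * √2 * 32 * ∑' n, dd n with hA0
  have hA0n : 0 ≤ A0 := by positivity
  refine ⟨Real.log (4 * (A0 + 1)), Real.log_nonneg (by linarith), fun σ hσ => ?_⟩
  set w : ℝ := 1 / σ ^ 2 with hw
  have hw0 : 0 ≤ w := by positivity
  have e1 : Gam σ = A0 * w * Real.exp (12544 * w) := by
    unfold Gam Kc
    have e2 : 4 * (8 * (7 / σ)) ^ 2 = 12544 * w := by
      rw [hw]; field_simp; norm_num
    rw [e2, hA0, hw]
    field_simp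
    ring
  have h1 : w ≤ Real.exp w := by linarith [Real.add_one_le_exp w]
  have h2 : Gam σ ≤ A0 * Real.exp (12545 * w) := by
    rw [e1]
    have : Real.exp (12545 * w) = Real.exp w * Real.exp (12544 * w) := by
      rw [← Real.exp_add]; ring_nf
    rw [this, mul_assoc]
    exact mul_le_mul_of_nonneg_left (mul_le_mul_of_nonneg_right h1 (Real.exp_pos _).le) hA0n
  have h3 : 1 ≤ Real.exp (12545 * w) := Real.one_le_exp (by positivity)
  rw [Real.exp_add, Real.exp_log (by linarith)]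
  nlinarith

/-- ratio of the lengths of successive steps -/
noncomputable def sr (p : ℝ) : ℝ := (√(1 + p / 2))⁻¹

lemma sr_pos {p : ℝ} (hp : 0 < p) : 0 < sr p := by
  unfold sr; have : 0 < √(1 + p / 2) := Real.sqrt_pos.2 (by linarith)
  positivity

lemma sr_lt {p : ℝ} (hp : 0 < p) : sr p < 1 := by
  unfold sr
  have h1 : 1 < √(1 + p / 2) := by
    rw [Real.lt_sqrt zero_le_one]; linarith
  exact inv_lt_one_of_one_lt₀ h1

lemma sr_sq {p : ℝ} (hp : 0 < p) : sr p ^ 2 = (1 + p / 2)⁻¹ := by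
  unfold sr
  rw [inv_pow, Real.sq_sqrt (by linarith)]

/-- half lengths of the steps -/
noncomputable def sg (p T2 : ℝ) (k : ℕ) : ℝ := T2 * (1 - sr p) / 2 * sr p ^ k

lemma sg_pos {p T2 : ℝ} (hp : 0 < p) (hT : 0 < T2) (k : ℕ) : 0 < sg p T2 k := by
  unfold sg
  have h1 := sr_pos hp
  have h2 : 0 < 1 - sr p := by linarith [sr_lt hp]
  positivity

lemma sg_le {p T2 : ℝ} (hp : 0 < p) (hT : 0 < T2) (hT1 : T2 ≤ 1) (k : ℕ) : sg p T2 k ≤ 1 := by
  unfold sg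
  have h1 := sr_pos hp
  have h2 := sr_lt hp
  have h3 : sr p ^ k ≤ 1 := pow_le_one₀ h1.le h2.le
  have h4 : T2 * (1 - sr p) / 2 ≤ 1 := by nlinarith
  have h5 : 0 ≤ T2 * (1 - sr p) / 2 := by
    have : 0 ≤ 1 - sr p := by linarith
    positivity
  nlinarith [pow_pos h1 k]

lemma sg_inv {p T2 : ℝ} (hp : 0 < p) (hT : 0 < T2) (k : ℕ) :
    1 / sg p T2 k ^ 2 = 1 / sg p T2 0 ^ 2 * (1 + p / 2) ^ k := by
  have h1 : sg p T2 k = sg p T2 0 * sr p ^ k := by unfold sg; rw [pow_zero, mul_one]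
  have h2 := sg_pos hp hT 0
  have h3 := sr_pos hp
  have h4 : (sr p ^ k) ^ 2 = ((1 + p / 2) ^ k)⁻¹ := by
    rw [← pow_mul, mul_comm, pow_mul, sr_sq hp, inv_pow]
  have h5 : (0:ℝ) < (1 + p / 2) ^ k := by positivity
  rw [h1, mul_pow, h4]
  field_simp

theorem params {p T2 : ℝ} (hp : 0 < p) (hT : 0 < T2) :
    ∃ m : ℕ → ℝ, (∀ k, 0 < m k) ∧
      (∀ k, 4 * ((Gam (sg p T2 k) + 1) * m k) ≤ Real.exp (-(p / 2)) ^ k) ∧
      (∀ k, kap * (4 * ((Gam (sg p T2 k) + 1) * m k)) ^ p ≤ 1 / 2) ∧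
      ∀ k, 2 * kap * (4 * ((Gam (sg p T2 k) + 1) * m k)) ^ p *
        (4 * ((Gam (sg p T2 k) + 1) * m k)) ≤ m (k + 1) := by
  obtain ⟨A, hA, hG⟩ := Gam_exp
  have hkap := kap_nonneg
  set C7 : ℝ := A + 12545 * (1 / sg p T2 0 ^ 2) with hC7
  have hs0 := sg_pos hp hT 0
  have hC70 : 0 ≤ C7 := by positivity
  set D : ℝ := Real.log (2 * kap + 1) with hD
  have hD0 : 0 ≤ D := Real.log_nonneg (by linarith)
  have hDe : Real.exp D = 2 * kap + 1 := Real.exp_log (by linarith)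
  set B : ℝ := 2 * (D + (1 + p) * C7) / p + C7 + 1 with hB
  have hBp : B * (p / 2) = D + (1 + p) * C7 + p / 2 * (C7 + 1) := by
    rw [hB]; field_simp; ring
  have hB1 : 1 ≤ B - C7 := by
    have : 0 ≤ 2 * (D + (1 + p) * C7) / p := by positivity
    linarith
  have hB2 : D ≤ p * (B - C7) := by
    have : p * (B - C7) = 2 * (D + (1 + p) * C7) + p := by
      rw [hB]; field_simp; ring
    rw [this]
    nlinarith [mul_nonneg hp.le hC70]
  set r : ℝ := 1 + p / 2 with hr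
  have hr1 : 1 ≤ r := by linarith
  have hrk : ∀ k : ℕ, 1 ≤ r ^ k := fun k => one_le_pow₀ hr1
  set m : ℕ → ℝ := fun k => Real.exp (-(B * r ^ k)) with hm
  have hmp : ∀ k, 0 < m k := fun k => Real.exp_pos _
  have key : ∀ k, 4 * ((Gam (sg p T2 k) + 1) * m k) ≤ Real.exp (-((B - C7) * r ^ k)) := by
    intro k
    have h1 := hG (sg p T2 k) (sg_pos hp hT k)
    rw [sg_inv hp hT k] at h1
    have h2 : A + 12545 * (1 / sg p T2 0 ^ 2 * (1 + p / 2) ^ k) ≤ C7 * r ^ k := by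
      rw [hC7, ← hr]
      nlinarith [mul_le_mul_of_nonneg_left (hrk k) hA]
    have h3 : 4 * (Gam (sg p T2 k) + 1) ≤ Real.exp (C7 * r ^ k) :=
      h1.trans (Real.exp_le_exp.2 h2)
    have h4 : Real.exp (-((B - C7) * r ^ k)) = Real.exp (C7 * r ^ k) * m k := by
      rw [hm, ← Real.exp_add]; ring_nf
    rw [h4, ← mul_assoc]
    exact mul_le_mul_of_nonneg_right h3 (hmp k).le
  have knn : ∀ k, 0 ≤ 4 * ((Gam (sg p T2 k) + 1) * m k) := fun k => by
    have h1 := Gam_nonneg (sg p T2 k)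
    have h2 := hmp k
    positivity
  have keyp : ∀ k, (4 * ((Gam (sg p T2 k) + 1) * m k)) ^ p ≤
      Real.exp (-(p * ((B - C7) * r ^ k))) := by
    intro k
    refine (Real.rpow_le_rpow (knn k) (key k) hp.le).trans (le_of_eq ?_)
    rw [← Real.exp_mul]; ring_nf
  refine ⟨m, hmp, fun k => ?_, fun k => ?_, fun k => ?_⟩
  · refine (key k).trans ?_
    rw [← Real.exp_nat_mul]
    refine Real.exp_le_exp.2 ?_
    have h1 : 1 + (k:ℝ) * (p / 2) ≤ r ^ k := by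
      have := one_add_mul_le_pow (a := p / 2) (by linarith) k
      rwa [← hr] at this
    have h2 : r ^ k ≤ (B - C7) * r ^ k := le_mul_of_one_le_left (by positivity) hB1
    nlinarith
  · have h1 := keyp k
    have h2 : Real.exp (-(p * ((B - C7) * r ^ k))) ≤ Real.exp (-D) := by
      refine Real.exp_le_exp.2 (neg_le_neg ?_)
      have : p * (B - C7) ≤ p * (B - C7) * r ^ k :=
        le_mul_of_one_le_right (hD0.trans hB2) (hrk k)
      linarith
    have h3 : kap * (4 * ((Gam (sg p T2 k) + 1) * m k)) ^ p ≤ kap * Real.exp (-D) :=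
      mul_le_mul_of_nonneg_left (h1.trans h2) hkap
    refine h3.trans ?_
    rw [Real.exp_neg, hDe]
    rw [← div_eq_mul_inv, div_le_iff₀ (by linarith)]
    linarith
  · have h1 := keyp k
    have h2 : 2 * kap * (4 * ((Gam (sg p T2 k) + 1) * m k)) ^ p *
        (4 * ((Gam (sg p T2 k) + 1) * m k)) ≤
        Real.exp D * Real.exp (-(p * ((B - C7) * r ^ k))) * Real.exp (-((B - C7) * r ^ k)) := by
      refine mul_le_mul ?_ (key k) (knn k) (by positivity)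
      refine mul_le_mul ?_ h1 (Real.rpow_nonneg (knn k) _) (Real.exp_pos _).le
      rw [hDe]; linarith
    refine h2.trans ?_
    rw [← Real.exp_add, ← Real.exp_add, hm]
    refine Real.exp_le_exp.2 ?_
    have h3 : B * r ^ (k + 1) = B * r ^ k + B * (p / 2) * r ^ k := by rw [pow_succ, hr]; ring
    rw [h3, hBp]
    have h4 : D ≤ D * r ^ k := le_mul_of_one_le_right hD0 (hrk k)
    have h5 : 0 ≤ r ^ k := by positivity
    have h6 : D + -(p * ((B - C7) * r ^ k)) + -((B - C7) * r ^ k) =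
        D - (1 + p) * (B - C7) * r ^ k := by ring
    rw [h6]
    -- B * p / 2 = ..., so (1+p)(B-C7) = B + p B - (1+p) C7
    have h7 : p * B = 2 * (D + (1 + p) * C7 + p / 2 * (C7 + 1)) := by
      rw [← hBp]; ring
    have h8 : (1 + p) * (B - C7) = B + p * B - (1 + p) * C7 := by ring
    rw [h8, h7]
    nlinarith [mul_nonneg hD0 h5, mul_nonneg (mul_nonneg (by linarith : (0:ℝ) ≤ 1 + p) hC70) h5,
      mul_nonneg (mul_nonneg hp.le (by linarith : (0:ℝ) ≤ C7 + 1)) h5]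

lemma chain {p Λ U : ℝ} {m σ Rk Kk : ℕ → ℝ}
    (hstep : ∀ k, ∀ g : ℝ → ℝ, Measurable g → (∀ x ∈ Icc (0:ℝ) 1, |g x| ≤ m k) →
      ∃ (Y P : ℝ → ℝ → ℝ) (u v : ℝ → ℝ), Sol p 0 (2 * σ k) Y P u v (Rk k) (Kk k) Λ U ∧
        (∀ x ∈ Icc (0:ℝ) 1, Y 0 x = g x) ∧ ∀ x ∈ Icc (0:ℝ) 1, |Y (2 * σ k) x| ≤ m (k + 1))
    {g0 : ℝ → ℝ} (hg0 : Measurable g0) (hg0b : ∀ x ∈ Icc (0:ℝ) 1, |g0 x| ≤ m 0) :
    ∃ (Y P : ℕ → ℝ → ℝ → ℝ) (u v : ℕ → ℝ → ℝ),
      (∀ k, Sol p 0 (2 * σ k) (Y k) (P k) (u k) (v k) (Rk k) (Kk k) Λ U) ∧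
      (∀ x ∈ Icc (0:ℝ) 1, Y 0 0 x = g0 x) ∧
      ∀ k, ∀ x ∈ Icc (0:ℝ) 1, Y (k + 1) 0 x = Y k (2 * σ k) x := by
  choose! Y P u v hS h0 h1 using hstep
  have hmeas : ∀ k g, Measurable g → (∀ x ∈ Icc (0:ℝ) 1, |g x| ≤ m k) →
      Measurable fun x => Y k g (2 * σ k) x := fun k g hg hgb =>
    (hS k g hg hgb).mY.comp (f := fun x : ℝ => (2 * σ k, x)) measurable_prodMk_left
  let G : ∀ k : ℕ, {g : ℝ → ℝ // Measurable g ∧ ∀ x ∈ Icc (0:ℝ) 1, |g x| ≤ m k} := fun k =>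
    Nat.rec (motive := fun k => {g : ℝ → ℝ // Measurable g ∧ ∀ x ∈ Icc (0:ℝ) 1, |g x| ≤ m k})
      ⟨g0, hg0, hg0b⟩ (fun k g => ⟨fun x => Y k g.1 (2 * σ k) x,
        hmeas k g.1 g.2.1 g.2.2, h1 k g.1 g.2.1 g.2.2⟩) k
  refine ⟨fun k => Y k (G k).1, fun k => P k (G k).1, fun k => u k (G k).1, fun k => v k (G k).1,
    fun k => hS k _ (G k).2.1 (G k).2.2, ?_, ?_⟩
  · intro x hx
    exact h0 0 (G 0).1 (G 0).2.1 (G 0).2.2 x hx
  · intro k x hx
    exact h0 (k + 1) (G (k + 1)).1 (G (k + 1)).2.1 (G (k + 1)).2.2 x hx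

/-- **Null controllability** in the reflected variable. -/
theorem null_sol {p T m0 : ℝ} (hp : 0 < p) (hp1 : p ≤ 1/2) (hT : 0 < T) (hm0 : 0 ≤ m0)
    {g : ℝ → ℝ} (hg : Measurable g) (hgb : ∀ x ∈ Icc (0:ℝ) 1, |g x| ≤ m0) :
    ∃ (Y P : ℝ → ℝ → ℝ) (u v : ℝ → ℝ) (R K Λ U : ℝ),
      Sol p 0 T Y P u v R K Λ U ∧ (∀ x ∈ Icc (0:ℝ) 1, Y 0 x = g x) ∧ ∀ x, Y T x = 0 := by
  set T2 : ℝ := min T 1 / 2 with hT2
  have hT2p : 0 < T2 := by have : 0 < min T 1 := lt_min hT one_pos; positivity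
  have hT21 : T2 ≤ 1 := by have : min T 1 ≤ 1 := min_le_right _ _; linarith
  have hT2T : T2 < T := by have : min T 1 ≤ T := min_le_left _ _; linarith
  set s := sr p with hs
  have hs0 : 0 < s := sr_pos hp
  have hs1 : s < 1 := sr_lt hp
  obtain ⟨m, hmp, hm1, hm2, hm3⟩ := params hp hT2p
  set σ := sg p T2 with hσ
  have hσp : ∀ k, 0 < σ k := sg_pos hp hT2p
  have hσ1 : ∀ k, σ k ≤ 1 := sg_le hp hT2p hT21
  set K : ℕ → ℝ := fun k => (Gam (σ k) + 1) * m k with hK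
  set ρ : ℝ := Real.exp (-(p / 2)) with hρ
  have hρ0 : 0 < ρ := Real.exp_pos _
  have hρ1 : ρ < 1 := by rw [hρ, Real.exp_lt_one_iff]; linarith
  have hK0 : ∀ k, 0 ≤ K k := fun k => by
    have h1 := Gam_nonneg (σ k)
    have h2 := hmp k
    show 0 ≤ (Gam (σ k) + 1) * m k
    positivity
  have hKρ : ∀ k, 4 * K k ≤ ρ ^ k := hm1
  have hρk : ∀ k : ℕ, ρ ^ k ≤ 1 := fun k => pow_le_one₀ hρ0.le hρ1.le
  have hK4 : ∀ k, 4 * K k ≤ 1 := fun k => (hKρ k).trans (hρk k)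
  -- the small steps
  have hst : ∀ k, ∀ g : ℝ → ℝ, Measurable g → (∀ x ∈ Icc (0:ℝ) 1, |g x| ≤ m k) →
      ∃ (Y P : ℝ → ℝ → ℝ) (u v : ℝ → ℝ),
        Sol p 0 (2 * σ k) Y P u v (4 * K k) (152 * K k ^ 2) 1 0 ∧
        (∀ x ∈ Icc (0:ℝ) 1, Y 0 x = g x) ∧ ∀ x ∈ Icc (0:ℝ) 1, |Y (2 * σ k) x| ≤ m (k + 1) := by
    intro k g hg hgb
    obtain ⟨Y, P, u, v, h1, h2, h3⟩ := step hp hp1 (hσp k) (hσ1 k) (hmp k).le hg hgb
      (K := K k) rfl (hK4 k) (hm2 k)
    refine ⟨Y, P, u, v, h1.mono le_rfl le_rfl ?_ le_rfl, h2, fun x hx => (h3 x hx).trans (hm3 k)⟩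
    have := hK4 k
    have := hK0 k
    linarith
  -- the long phase
  have hT1 : 0 < T - T2 := by linarith
  obtain ⟨YA, PA, uA, vA, RA, KA, ΛA, UA, hA, hA0, hA1⟩ :=
    phaseA hp hp1 hT1 hm0 hg hgb (hmp 0)
  have hgA : Measurable fun x => YA (T - T2) x :=
    hA.mY.comp (f := fun x : ℝ => (T - T2, x)) measurable_prodMk_left
  obtain ⟨Y, P, u, v, hS, hY0, hYm⟩ := chain hst hgA hA1
  set Λ := max ΛA 1 with hΛ
  set U := max UA 0 with hU
  -- times
  set b : ℕ → ℝ := fun k => T - T2 * s ^ k with hb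
  have hbs : ∀ k, 2 * σ k + b k = b (k + 1) := by
    intro k
    simp only [hb, hσ]
    unfold sg
    rw [pow_succ]
    ring
  set a : ℕ → ℝ := fun k => Nat.casesOn k 0 b with ha
  have ha0 : a 0 = 0 := rfl
  have haS : ∀ k, a (k + 1) = b k := fun k => rfl
  have hmono : StrictMono a := by
    refine strictMono_nat_of_lt_succ fun k => ?_
    cases k with
    | zero => rw [ha0, haS]; simp only [hb, pow_zero, mul_one]; exact hT1
    | succ k => rw [haS, haS, ← hbs]; linarith [hσp k]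
  have hlim : Tendsto a atTop (𝓝 T) := by
    rw [← tendsto_add_atTop_iff_nat 1]
    have h1 : Tendsto (fun k : ℕ => T - T2 * s ^ k) atTop (𝓝 (T - T2 * 0)) :=
      ((tendsto_pow_atTop_nhds_zero_of_lt_one hs0.le hs1).const_mul T2).const_sub T
    rw [mul_zero, sub_zero] at h1
    exact h1
  set Yk : ℕ → ℝ → ℝ → ℝ := fun k => Nat.casesOn k YA (fun k t => Y k (t - b k)) with hYk
  set Pk : ℕ → ℝ → ℝ → ℝ := fun k => Nat.casesOn k PA (fun k t => P k (t - b k)) with hPk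
  set uk : ℕ → ℝ → ℝ := fun k => Nat.casesOn k uA (fun k t => u k (t - b k)) with huk
  set vk : ℕ → ℝ → ℝ := fun k => Nat.casesOn k vA (fun k t => v k (t - b k)) with hvk
  set Rk : ℕ → ℝ := fun k => Nat.casesOn k RA (fun k => 4 * K k) with hRk
  set Kk : ℕ → ℝ := fun k => Nat.casesOn k KA (fun k => 152 * K k ^ 2) with hKk
  have hpc : ∀ k, Sol p (a k) (a (k + 1)) (Yk k) (Pk k) (uk k) (vk k) (Rk k) (Kk k) Λ U := by
    intro k
    cases k with
    | zero =>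
      have h1 : a (0 + 1) = T - T2 := by
        rw [haS]; simp only [hb, pow_zero, mul_one]
      rw [ha0, h1]
      exact hA.mono le_rfl le_rfl (le_max_left _ _) (le_max_left _ _)
    | succ k =>
      rw [haS, haS, ← hbs]
      have h1 := (hS k).shift (b k)
      rw [zero_add] at h1
      exact h1.mono le_rfl le_rfl (le_max_right _ _) (le_max_right _ _)
  have hmt : ∀ k, ∀ x ∈ Icc (0:ℝ) 1, Yk (k + 1) (a (k + 1)) x = Yk k (a (k + 1)) x := by
    intro k x hx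
    cases k with
    | zero =>
      show Y 0 (a (0 + 1) - b 0) x = YA (a (0 + 1)) x
      rw [haS, sub_self, hY0 x hx]
      simp only [hb, pow_zero, mul_one]
    | succ k =>
      show Y (k + 1) (a (k + 1 + 1) - b (k + 1)) x = Y k (a (k + 1 + 1) - b k) x
      rw [haS, sub_self, hYm k x hx, ← hbs, add_sub_cancel_right]
  have hρt : Tendsto (fun k : ℕ => ρ ^ k) atTop (𝓝 0) :=
    tendsto_pow_atTop_nhds_zero_of_lt_one hρ0.le hρ1
  have hR : Tendsto Rk atTop (𝓝 0) := by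
    rw [← tendsto_add_atTop_iff_nat 1]
    exact squeeze_zero (fun k => by have := hK0 k; show 0 ≤ 4 * K k; positivity) hKρ hρt
  have hR0 : ∀ k, Rk k ≤ max RA 1 := by
    intro k
    cases k with
    | zero => exact le_max_left _ _
    | succ k => exact (hK4 k).trans (le_max_right _ _)
  have hKs : Summable Kk := by
    rw [← summable_nat_add_iff 1]
    have h1 : Summable fun k : ℕ => 152 * ρ ^ k :=
      (summable_geometric_of_lt_one hρ0.le hρ1).mul_left 152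
    refine Summable.of_nonneg_of_le (fun k => ?_) (fun k => ?_) h1
    · show 0 ≤ 152 * K k ^ 2
      positivity
    · show 152 * K k ^ 2 ≤ 152 * ρ ^ k
      have h2 := hKρ k
      have h3 := hK0 k
      have h4 := hK4 k
      nlinarith
  obtain ⟨Y', P', u', v', K', h1, h2, h3⟩ := glue hp hmono hlim hpc hmt hR hR0 hKs
  rw [ha0] at h1 h2
  exact ⟨Y', P', u', v', _, _, _, _, h1, fun x hx => (h2 x hx).trans (hA0 x hx), h3⟩

end Pool.Agent.Y308.BC
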