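import Pool.Agent.Y308.BC.Weak

/-! # Weak formulation of the full solution `Y = h + r` -/

set_option autoImplicit false

open MeasureTheory Set Real Filter Topology intervalIntegral
open scoped ENNReal NNReal

namespace Pool.Agent.Y308.BC

/-- a classical background: `h_t = h_xx + u` on `[0,τ] × [0,1]`, `h(t,0) = 0` -/
structure Bg (h hx hxx : ℝ → ℝ → ℝ) (u : ℝ → ℝ) (τ : ℝ) : Prop where
  c0 : ContinuousOn (fun q : ℝ × ℝ => h q.1 q.2) (Icc 0 τ ×ˢ Icc 0 1)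
  c1 : ContinuousOn (fun q : ℝ × ℝ => hx q.1 q.2) (Icc 0 τ ×ˢ Icc 0 1)
  c2 : ContinuousOn (fun q : ℝ × ℝ => hxx q.1 q.2) (Icc 0 τ ×ˢ Icc 0 1)
  cu : Continuous u
  dx : ∀ t ∈ Icc 0 τ, ∀ x ∈ Icc (0:ℝ) 1, HasDerivAt (h t) (hx t x) x
  dxx : ∀ t ∈ Icc 0 τ, ∀ x ∈ Icc (0:ℝ) 1, HasDerivAt (hx t) (hxx t x) x
  dt : ∀ t ∈ Icc 0 τ, ∀ x ∈ Icc (0:ℝ) 1, HasDerivAt (fun s => h s x) (hxx t x + u t) t
  z0 : ∀ t ∈ Icc 0 τ, h t 0 = 0

variable {c : ℝ → ℝ} {F : ℝ → ℝ → ℝ} {B : ℝ} {φ φt φx : ℝ → ℝ → ℝ}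
  {h hx hxx : ℝ → ℝ → ℝ} {u : ℝ → ℝ} {τ : ℝ}

lemma sec_cont {f : ℝ → ℝ → ℝ} {S : Set ℝ}
    (hf : ContinuousOn (fun q : ℝ × ℝ => f q.1 q.2) (S ×ˢ Icc 0 1)) {t : ℝ} (ht : t ∈ S) :
    ContinuousOn (f t) (Icc 0 1) :=
  hf.comp (f := fun x => (t, x)) (by fun_prop) (fun _ hx => ⟨ht, hx⟩)

lemma sec_cont' {f : ℝ → ℝ → ℝ} {S : Set ℝ}
    (hf : ContinuousOn (fun q : ℝ × ℝ => f q.1 q.2) (S ×ˢ Icc 0 1)) {x : ℝ}
    (hx : x ∈ Icc (0:ℝ) 1) : ContinuousOn (fun t => f t x) S :=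
  hf.comp (f := fun t => (t, x)) (by fun_prop) (fun _ ht => ⟨ht, hx⟩)

/-- weak identity of the background -/
lemma weak_h (hB : Bg h hx hxx u τ) (hT : Test φ φt φx) (hτ : 0 < τ) :
    (∫ x in (0:ℝ)..1, h τ x * φ τ x) - (∫ x in (0:ℝ)..1, h 0 x * φ 0 x) =
      ∫ q, (h q.1 q.2 * φt q.1 q.2 - hx q.1 q.2 * φx q.1 q.2 + u q.1 * φ q.1 q.2)
        ∂(nu 0 τ) := by
  have hcu : Continuous fun q : ℝ × ℝ => u q.1 := hB.cu.comp continuous_fst
  have m1 : MemLp (fun q : ℝ × ℝ => (hxx q.1 q.2 + u q.1) * φ q.1 q.2 +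
      h q.1 q.2 * φt q.1 q.2) 2 (nu 0 τ) :=
    memLp_nu' (((hB.c2.add hcu.continuousOn).mul hT.c0.continuousOn).add
      (hB.c0.mul hT.ct.continuousOn))
  have i1 : Integrable (fun q : ℝ × ℝ => (hxx q.1 q.2 + u q.1) * φ q.1 q.2 +
      h q.1 q.2 * φt q.1 q.2) (nu 0 τ) := m1.integrable (by norm_num)
  have m2 : MemLp (fun q : ℝ × ℝ => h q.1 q.2 * φt q.1 q.2 - hx q.1 q.2 * φx q.1 q.2 +
      u q.1 * φ q.1 q.2) 2 (nu 0 τ) :=
    memLp_nu' (((hB.c0.mul hT.ct.continuousOn).sub (hB.c1.mul hT.cx.continuousOn)).add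
      (hcu.continuousOn.mul hT.c0.continuousOn))
  have i2 : Integrable (fun q : ℝ × ℝ => h q.1 q.2 * φt q.1 q.2 - hx q.1 q.2 * φx q.1 q.2 +
      u q.1 * φ q.1 q.2) (nu 0 τ) := m2.integrable (by norm_num)
  have h0τ : (0:ℝ) ∈ Icc 0 τ := ⟨le_rfl, hτ.le⟩
  have hττ : τ ∈ Icc 0 τ := ⟨hτ.le, le_rfl⟩
  -- step 1: time integration
  have s1 : (∫ x in (0:ℝ)..1, h τ x * φ τ x) - (∫ x in (0:ℝ)..1, h 0 x * φ 0 x) =
      ∫ q, ((hxx q.1 q.2 + u q.1) * φ q.1 q.2 + h q.1 q.2 * φt q.1 q.2) ∂(nu 0 τ) := by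
    have hc : ∀ t ∈ Icc 0 τ, IntervalIntegrable (fun x => h t x * φ t x) volume 0 1 := by
      intro t ht
      apply ContinuousOn.intervalIntegrable
      rw [uIcc_of_le zero_le_one]
      exact (sec_cont hB.c0 ht).mul (hT.s0 t).continuousOn
    rw [← intervalIntegral.integral_sub (hc τ hττ) (hc 0 h0τ)]
    unfold nu at i1 ⊢
    rw [MeasureTheory.integral_prod_symm _ i1, ii_mu]
    refine integral_congr_ae ?_
    unfold mu
    refine ae_restrict_of_forall_mem measurableSet_Ioo fun x hx => ?_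
    have hx' := Ioo_subset_Icc_self hx
    simp only
    rw [← intervalIntegral.integral_of_le hτ.le]
    refine (intervalIntegral.integral_eq_sub_of_hasDerivAt (f := fun t => h t x * φ t x) ?_ ?_).symm
    · intro t ht
      rw [uIcc_of_le hτ.le] at ht
      exact (hB.dt t ht x hx').mul (hT.dt t x)
    · apply ContinuousOn.intervalIntegrable
      rw [uIcc_of_le hτ.le]
      have := (((hB.c2.add hcu.continuousOn).mul hT.c0.continuousOn).add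
        (hB.c0.mul hT.ct.continuousOn))
      exact this.comp (f := fun t : ℝ => (t, x)) (by fun_prop) (fun _ ht => ⟨ht, hx'⟩)
  rw [s1, int_nu hτ.le i1, int_nu hτ.le i2]
  refine intervalIntegral.integral_congr fun t ht => ?_
  rw [uIcc_of_le hτ.le] at ht
  simp only
  have k0 := sec_cont hB.c0 ht
  have k1 := sec_cont hB.c1 ht
  have k2 := sec_cont hB.c2 ht
  have e := intervalIntegral.integral_mul_deriv_eq_deriv_mul (a := 0) (b := 1)
      (u := φ t) (v := hx t) (u' := φx t)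
      (v' := fun x => hxx t x) (fun x _ => hT.dx t x) (fun x hx => hB.dxx t ht x (by
        rwa [uIcc_of_le zero_le_one] at hx))
      ((hT.sx t).intervalIntegrable _ _) (by
        apply ContinuousOn.intervalIntegrable; rwa [uIcc_of_le zero_le_one])
  rw [hT.z0, hT.z1, zero_mul, zero_mul, sub_zero, zero_sub] at e
  have ci : ∀ {f : ℝ → ℝ}, ContinuousOn f (Icc 0 1) → IntervalIntegrable f volume 0 1 := by
    intro f hf
    apply ContinuousOn.intervalIntegrable; rwa [uIcc_of_le zero_le_one]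
  have j1 : IntervalIntegrable (fun x => φ t x * hxx t x) volume 0 1 :=
    ci ((hT.s0 t).continuousOn.mul k2)
  have j2 : IntervalIntegrable (fun x => u t * φ t x) volume 0 1 :=
    ci (continuousOn_const.mul (hT.s0 t).continuousOn)
  have j3 : IntervalIntegrable (fun x => h t x * φt t x) volume 0 1 :=
    ci (k0.mul (hT.st t).continuousOn)
  have j4 : IntervalIntegrable (fun x => φx t x * hx t x) volume 0 1 :=
    ci ((hT.sx t).continuousOn.mul k1)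
  have e1 : ∫ x in (0:ℝ)..1, ((hxx t x + u t) * φ t x + h t x * φt t x) =
      (∫ x in (0:ℝ)..1, φ t x * hxx t x) + (∫ x in (0:ℝ)..1, u t * φ t x) +
        ∫ x in (0:ℝ)..1, h t x * φt t x := by
    rw [← intervalIntegral.integral_add j1 j2, ← intervalIntegral.integral_add (j1.add j2) j3]
    congr 1; funext x; ring
  have e2 : ∫ x in (0:ℝ)..1, (h t x * φt t x - hx t x * φx t x + u t * φ t x) =
      (∫ x in (0:ℝ)..1, h t x * φt t x) - (∫ x in (0:ℝ)..1, φx t x * hx t x) +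
        ∫ x in (0:ℝ)..1, u t * φ t x := by
    rw [← intervalIntegral.integral_sub j3 j4, ← intervalIntegral.integral_add (j3.sub j4) j2]
    congr 1; funext x; ring
  rw [e1, e2, e]
  ring

/-- identity for the nonlinear flux at the level of sections -/
lemma flux_J {G dG : ℝ → ℝ} (hG : ∀ y, HasDerivAt G (dG y) y) (hdG : Continuous dG)
    (hB : Bg h hx hxx u τ) (hT : Test φ φt φx) (J : ℕ) {t : ℝ} (ht : t ∈ Icc 0 τ) :
    ∫ x in (0:ℝ)..1, G (h t x + rJ c F J t x) * φx t x =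
      -∫ x in (0:ℝ)..1, dG (h t x + rJ c F J t x) * (hx t x + rJx c F J t x) * φ t x := by
  have k0 := (sec_cont hB.c0 ht).add (rJ_sec c F J t).continuousOn
  have k1 := (sec_cont hB.c1 ht).add (rJx_sec c F J t).continuousOn
  have e := intervalIntegral.integral_mul_deriv_eq_deriv_mul (a := 0) (b := 1)
      (u := φ t) (v := fun x => G (h t x + rJ c F J t x)) (u' := φx t)
      (v' := fun x => dG (h t x + rJ c F J t x) * (hx t x + rJx c F J t x))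
      (fun x _ => hT.dx t x) (fun x hx => ?_)
      ((hT.sx t).intervalIntegrable _ _) (by
        apply ContinuousOn.intervalIntegrable; rw [uIcc_of_le zero_le_one]
        exact (hdG.comp_continuousOn k0).mul k1)
  · rw [hT.z0, hT.z1, zero_mul, zero_mul, sub_zero, zero_sub] at e
    have e1 : ∫ x in (0:ℝ)..1, G (h t x + rJ c F J t x) * φx t x =
        ∫ x in (0:ℝ)..1, φx t x * G (h t x + rJ c F J t x) := by congr 1; funext x; ring
    have e2 : ∫ x in (0:ℝ)..1, dG (h t x + rJ c F J t x) * (hx t x + rJx c F J t x) * φ t x =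
        ∫ x in (0:ℝ)..1, φ t x * (dG (h t x + rJ c F J t x) * (hx t x + rJx c F J t x)) := by
      congr 1; funext x; ring
    rw [e1, e2, e, neg_neg]
  · rw [uIcc_of_le zero_le_one] at hx
    have := (hG (h t x + rJ c F J t x)).comp x ((hB.dx t ht x hx).add (rJ_dx c F J t x))
    exact this

lemma bdd_mul_mem {α : Type*} [MeasurableSpace α] {ν : Measure α} {f g : α → ℝ}
    (hf : MemLp f 2 ν) (hg : AEStronglyMeasurable g ν) {C : ℝ} (hC : ∀ a, |g a| ≤ C) :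
    MemLp (fun a => g a * f a) 2 ν := memLp_mul_bdd hf hg (Eventually.of_forall hC)

/-- flux identity in the limit -/
lemma flux_lim {m : ℝ} (hcm : Measurable c) (hm : 0 ≤ m)
    (hcb : ∀ x ∈ Ioo (0:ℝ) 1, |c x| ≤ m) (hF : Adm F B) (hT : Test φ φt φx) (hτ : 0 < τ)
    (hB : Bg h hx hxx u τ)
    {G dG : ℝ → ℝ} (hG : ∀ y, HasDerivAt G (dG y) y) (hdG : Continuous dG) {L : ℝ}
    (hdGL : ∀ y, |dG y| ≤ L) (hL : ∀ a b, |G a - G b| ≤ L * |a - b|)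
    (hFG : ∀ s ∈ Ioc 0 τ, ∀ z ∈ Icc (0:ℝ) 1, F s z = G (h s z + RR c F s z))
    {P : ℝ × ℝ → ℝ} (hPm : MemLp P 2 (nu 0 τ))
    (hPt : Tendsto (fun J => ∫ q, (rJx c F J q.1 q.2 - P q) ^ 2 ∂(nu 0 τ)) atTop (𝓝 0)) :
    ∫ q, F q.1 q.2 * φx q.1 q.2 ∂(nu 0 τ) =
      -∫ q, dG (h q.1 q.2 + RR c F q.1 q.2) * (hx q.1 q.2 + P q) * φ q.1 q.2 ∂(nu 0 τ) := by
  have hcM : MemLp c 2 mu := memLp_bdd hcm hcb
  have mt := cont_mem hT.ct 0 τ
  have mx := cont_mem hT.cx 0 τ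
  have m0 := cont_mem hT.c0 0 τ
  have hGc : Continuous G := lip_cont hL
  have hhm : MemLp (fun q : ℝ × ℝ => h q.1 q.2) 2 (nu 0 τ) := memLp_nu' hB.c0
  have hhxm : MemLp (fun q : ℝ × ℝ => hx q.1 q.2) 2 (nu 0 τ) := memLp_nu' hB.c1
  have hRm := RR_mem_nu hcm hm hcb hF τ
  have hae : ∀ᵐ q ∂(nu 0 τ), q.1 ∈ Ioc 0 τ ∧ q.2 ∈ Icc (0:ℝ) 1 := by
    rw [nu_eq]
    exact ae_restrict_of_forall_mem (measurableSet_Ioc.prod measurableSet_Ioo)
      fun q hq => ⟨hq.1, Ioo_subset_Icc_self hq.2⟩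
  have hsubm : ∀ J, MemLp (fun q : ℝ × ℝ => G (h q.1 q.2 + rJ c F J q.1 q.2)) 2 (nu 0 τ) := by
    intro J
    refine memLp_nu' (hGc.comp_continuousOn (hB.c0.add ?_))
    exact (rJ_cont c hF J).mono (prod_mono Icc_subset_Ici_self (subset_univ _))
  -- convergence of the left side
  have l1 : Tendsto (fun J => ∫ q, G (h q.1 q.2 + rJ c F J q.1 q.2) * φx q.1 q.2 ∂(nu 0 τ)) atTop
      (𝓝 (∫ q, F q.1 q.2 * φx q.1 q.2 ∂(nu 0 τ))) := by
    refine tendsto_pair hsubm (F_mem hF τ) mx ?_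
    have h1 : Tendsto (fun J => L ^ 2 * ∫ q : ℝ × ℝ, (rJ c F J q.1 q.2 - RR c F q.1 q.2) ^ 2
        ∂(nu 0 τ)) atTop (𝓝 0) := by
      simpa using (rJ_nu_tendsto hcm hm hcb hF hτ).const_mul (L ^ 2)
    refine squeeze_zero (fun J => integral_nonneg fun q => sq_nonneg _) (fun J => ?_) h1
    rw [← MeasureTheory.integral_const_mul]
    refine integral_mono_ae (sq_int ((hsubm J).sub (F_mem hF τ)))
      ((sq_int ((rJ_mem c hF J τ).sub hRm)).const_mul _) ?_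
    filter_upwards [hae] with q hq
    rw [hFG q.1 hq.1 q.2 hq.2]
    have h2 := hL (h q.1 q.2 + rJ c F J q.1 q.2) (h q.1 q.2 + RR c F q.1 q.2)
    have e : (h q.1 q.2 + rJ c F J q.1 q.2) - (h q.1 q.2 + RR c F q.1 q.2) =
      rJ c F J q.1 q.2 - RR c F q.1 q.2 := by ring
    rw [e] at h2
    rw [← sq_abs, ← sq_abs (rJ c F J q.1 q.2 - RR c F q.1 q.2), ← mul_pow]
    exact pow_le_pow_left₀ (abs_nonneg _) h2 2
  -- measurability of dG terms
  have dm : ∀ J, AEStronglyMeasurable (fun q : ℝ × ℝ => dG (h q.1 q.2 + rJ c F J q.1 q.2))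
      (nu 0 τ) := fun J => by
    refine hdG.comp_aestronglyMeasurable (hhm.aestronglyMeasurable.add ?_)
    exact (rJ_mem c hF J τ).aestronglyMeasurable
  have dm' : AEStronglyMeasurable (fun q : ℝ × ℝ => dG (h q.1 q.2 + RR c F q.1 q.2))
      (nu 0 τ) := hdG.comp_aestronglyMeasurable (hhm.aestronglyMeasurable.add
        hRm.aestronglyMeasurable)
  have mP : MemLp (fun q : ℝ × ℝ => hx q.1 q.2 + P q) 2 (nu 0 τ) := hhxm.add hPm
  have mJ : ∀ J, MemLp (fun q : ℝ × ℝ => hx q.1 q.2 + rJx c F J q.1 q.2) 2 (nu 0 τ) :=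
    fun J => hhxm.add (rJx_mem c hF J)
  -- convergence of the right side
  have l2 : Tendsto (fun J => ∫ q, dG (h q.1 q.2 + rJ c F J q.1 q.2) *
      (hx q.1 q.2 + rJx c F J q.1 q.2) * φ q.1 q.2 ∂(nu 0 τ)) atTop
      (𝓝 (∫ q, dG (h q.1 q.2 + RR c F q.1 q.2) * (hx q.1 q.2 + P q) * φ q.1 q.2 ∂(nu 0 τ))) := by
    have i1 : ∀ J, Integrable (fun q : ℝ × ℝ => (rJx c F J q.1 q.2 - P q) *
        (dG (h q.1 q.2 + rJ c F J q.1 q.2) * φ q.1 q.2)) (nu 0 τ) := fun J =>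
      mul_int ((rJx_mem c hF J).sub hPm) (bdd_mul_mem m0 (dm J) fun a => hdGL _)
    have i2 : ∀ J, Integrable (fun q : ℝ × ℝ => (dG (h q.1 q.2 + rJ c F J q.1 q.2) * φ q.1 q.2) *
        (hx q.1 q.2 + P q)) (nu 0 τ) := fun J =>
      mul_int (bdd_mul_mem m0 (dm J) fun a => hdGL _) mP
    have e1 : ∀ J, ∫ q, dG (h q.1 q.2 + rJ c F J q.1 q.2) *
      (hx q.1 q.2 + rJx c F J q.1 q.2) * φ q.1 q.2 ∂(nu 0 τ) =
      (∫ q, (rJx c F J q.1 q.2 - P q) * (dG (h q.1 q.2 + rJ c F J q.1 q.2) * φ q.1 q.2) ∂(nu 0 τ)) +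
      ∫ q, (dG (h q.1 q.2 + rJ c F J q.1 q.2) * φ q.1 q.2) * (hx q.1 q.2 + P q) ∂(nu 0 τ) := by
      intro J
      rw [← integral_add (i1 J) (i2 J)]
      congr 1; funext q; ring
    simp_rw [e1]
    have t1 : Tendsto (fun J => ∫ q, (rJx c F J q.1 q.2 - P q) *
        (dG (h q.1 q.2 + rJ c F J q.1 q.2) * φ q.1 q.2) ∂(nu 0 τ)) atTop (𝓝 0) := by
      set K := ∫ q, (L * φ q.1 q.2) ^ 2 ∂(nu 0 τ) with hK
      have h1 : Tendsto (fun J => √((∫ q, (rJx c F J q.1 q.2 - P q) ^ 2 ∂(nu 0 τ)) * K)) atTop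
          (𝓝 0) := by
        have := (Real.continuous_sqrt.tendsto _).comp (hPt.mul_const K)
        rw [zero_mul, Real.sqrt_zero] at this
        exact this
      refine squeeze_zero_norm (fun J => ?_) h1
      rw [Real.norm_eq_abs]
      refine (abs_pair_le ((rJx_mem c hF J).sub hPm)
        (bdd_mul_mem m0 (dm J) fun a => hdGL _)).trans ?_
      refine Real.sqrt_le_sqrt (mul_le_mul_of_nonneg_left ?_
        (integral_nonneg fun q => sq_nonneg _))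
      rw [hK]
      refine integral_mono (sq_int (bdd_mul_mem m0 (dm J) fun a => hdGL _))
        (sq_int (m0.const_mul L)) fun q => ?_
      simp only
      rw [mul_pow, mul_pow]
      refine mul_le_mul_of_nonneg_right ?_ (sq_nonneg _)
      rw [← sq_abs]
      exact pow_le_pow_left₀ (abs_nonneg _) (hdGL _) 2
    have t2 : Tendsto (fun J => ∫ q, (dG (h q.1 q.2 + rJ c F J q.1 q.2) * φ q.1 q.2) *
        (hx q.1 q.2 + P q) ∂(nu 0 τ)) atTop
        (𝓝 (∫ q, (dG (h q.1 q.2 + RR c F q.1 q.2) * φ q.1 q.2) * (hx q.1 q.2 + P q)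
          ∂(nu 0 τ))) := by
      refine tendsto_integral_of_dominated_convergence
        (fun q => L * |φ q.1 q.2 * (hx q.1 q.2 + P q)|) (fun J => (i2 J).aestronglyMeasurable)
        ((mul_int m0 mP).abs.const_mul L) (fun J => Eventually.of_forall fun q => ?_) ?_
      · rw [mul_assoc, norm_mul, Real.norm_eq_abs, Real.norm_eq_abs]
        exact mul_le_mul_of_nonneg_right (hdGL _) (abs_nonneg _)
      · filter_upwards [hae] with q hq
        have h1 := rJ_pt_tendsto hcM hF hq.1.1 q.2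
        have h2 := (hdG.tendsto (h q.1 q.2 + RR c F q.1 q.2)).comp (h1.const_add (h q.1 q.2))
        exact (h2.mul_const _).mul_const _
    have t3 := t1.add t2
    rw [zero_add] at t3
    have e2 : ∫ q, dG (h q.1 q.2 + RR c F q.1 q.2) * (hx q.1 q.2 + P q) * φ q.1 q.2 ∂(nu 0 τ) =
        ∫ q, (dG (h q.1 q.2 + RR c F q.1 q.2) * φ q.1 q.2) * (hx q.1 q.2 + P q) ∂(nu 0 τ) := by
      congr 1; funext q; ring
    rw [e2]
    exact t3
  refine tendsto_nhds_unique l1 ((l2.neg).congr fun J => ?_)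
  have i1 : Integrable (fun q : ℝ × ℝ => G (h q.1 q.2 + rJ c F J q.1 q.2) * φx q.1 q.2)
    (nu 0 τ) := mul_int (hsubm J) mx
  have i2 : Integrable (fun q : ℝ × ℝ => dG (h q.1 q.2 + rJ c F J q.1 q.2) *
      (hx q.1 q.2 + rJx c F J q.1 q.2) * φ q.1 q.2) (nu 0 τ) :=
    mul_int (bdd_mul_mem (mJ J) (dm J) fun a => hdGL _) m0
  rw [int_nu hτ.le i1, int_nu hτ.le i2, ← intervalIntegral.integral_neg]
  refine intervalIntegral.integral_congr fun t ht => ?_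
  rw [uIcc_of_le hτ.le] at ht
  simp only
  rw [flux_J hG hdG hB hT J ht]

/-- **Weak identity of the full solution.** -/
theorem weak_Y {m : ℝ} (hcm : Measurable c) (hm : 0 ≤ m)
    (hcb : ∀ x ∈ Ioo (0:ℝ) 1, |c x| ≤ m) (hF : Adm F B) (hT : Test φ φt φx) (hτ : 0 < τ)
    (hB : Bg h hx hxx u τ)
    {G dG : ℝ → ℝ} (hG : ∀ y, HasDerivAt G (dG y) y) (hdG : Continuous dG) {L : ℝ}
    (hdGL : ∀ y, |dG y| ≤ L) (hL : ∀ a b, |G a - G b| ≤ L * |a - b|)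
    (hFG : ∀ s ∈ Ioc 0 τ, ∀ z ∈ Icc (0:ℝ) 1, F s z = G (h s z + RR c F s z))
    {P : ℝ × ℝ → ℝ} (hPm : MemLp P 2 (nu 0 τ))
    (hPt : Tendsto (fun J => ∫ q, (rJx c F J q.1 q.2 - P q) ^ 2 ∂(nu 0 τ)) atTop (𝓝 0)) :
    (∫ x in (0:ℝ)..1, (h τ x + RR c F τ x) * φ τ x) -
        (∫ x in (0:ℝ)..1, (h 0 x + c x) * φ 0 x) =
      ∫ q, ((h q.1 q.2 + RR c F q.1 q.2) * φt q.1 q.2 - (hx q.1 q.2 + P q) * φx q.1 q.2 +
        dG (h q.1 q.2 + RR c F q.1 q.2) * (hx q.1 q.2 + P q) * φ q.1 q.2 + u q.1 * φ q.1 q.2)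
        ∂(nu 0 τ) := by
  have hcM : MemLp c 2 mu := memLp_bdd hcm hcb
  have h1 := weak_r hcm hm hcb hF hT hτ hPm hPt
  have h2 := weak_h hB hT hτ
  have h3 := flux_lim hcm hm hcb hF hT hτ hB hG hdG hdGL hL hFG hPm hPt
  have h0τ : (0:ℝ) ∈ Icc 0 τ := ⟨le_rfl, hτ.le⟩
  have hττ : τ ∈ Icc 0 τ := ⟨hτ.le, le_rfl⟩
  have k1 : IntervalIntegrable (fun x => h τ x * φ τ x) volume 0 1 :=
    ii_of_mem (memLp_cont (sec_cont hB.c0 hττ)) (memLp_cont (hT.s0 τ).continuousOn)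
  have k2 : IntervalIntegrable (fun x => RR c F τ x * φ τ x) volume 0 1 :=
    ii_of_mem (RR_mem hcM hF hτ) (memLp_cont (hT.s0 τ).continuousOn)
  have k3 : IntervalIntegrable (fun x => h 0 x * φ 0 x) volume 0 1 :=
    ii_of_mem (memLp_cont (sec_cont hB.c0 h0τ)) (memLp_cont (hT.s0 0).continuousOn)
  have k4 : IntervalIntegrable (fun x => c x * φ 0 x) volume 0 1 :=
    ii_of_mem hcM (memLp_cont (hT.s0 0).continuousOn)
  have e1 : ∫ x in (0:ℝ)..1, (h τ x + RR c F τ x) * φ τ x =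
      (∫ x in (0:ℝ)..1, h τ x * φ τ x) + ∫ x in (0:ℝ)..1, RR c F τ x * φ τ x := by
    rw [← intervalIntegral.integral_add k1 k2]; congr 1; funext x; ring
  have e2 : ∫ x in (0:ℝ)..1, (h 0 x + c x) * φ 0 x =
      (∫ x in (0:ℝ)..1, h 0 x * φ 0 x) + ∫ x in (0:ℝ)..1, c x * φ 0 x := by
    rw [← intervalIntegral.integral_add k3 k4]; congr 1; funext x; ring
  have mt := cont_mem hT.ct 0 τ
  have mx := cont_mem hT.cx 0 τ
  have m0 := cont_mem hT.c0 0 τ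
  have hhm : MemLp (fun q : ℝ × ℝ => h q.1 q.2) 2 (nu 0 τ) := memLp_nu' hB.c0
  have hhxm : MemLp (fun q : ℝ × ℝ => hx q.1 q.2) 2 (nu 0 τ) := memLp_nu' hB.c1
  have hum : MemLp (fun q : ℝ × ℝ => u q.1) 2 (nu 0 τ) :=
    cont_mem (hB.cu.comp continuous_fst) 0 τ
  have hRm := RR_mem_nu hcm hm hcb hF τ
  have mP : MemLp (fun q : ℝ × ℝ => hx q.1 q.2 + P q) 2 (nu 0 τ) := hhxm.add hPm
  have dm' : AEStronglyMeasurable (fun q : ℝ × ℝ => dG (h q.1 q.2 + RR c F q.1 q.2))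
      (nu 0 τ) := hdG.comp_aestronglyMeasurable (hhm.aestronglyMeasurable.add
        hRm.aestronglyMeasurable)
  have i1 : Integrable (fun q : ℝ × ℝ => RR c F q.1 q.2 * φt q.1 q.2 - P q * φx q.1 q.2 -
      F q.1 q.2 * φx q.1 q.2) (nu 0 τ) :=
    ((mul_int hRm mt).sub (mul_int hPm mx)).sub (mul_int (F_mem hF τ) mx)
  have i2 : Integrable (fun q : ℝ × ℝ => h q.1 q.2 * φt q.1 q.2 - hx q.1 q.2 * φx q.1 q.2 +
      u q.1 * φ q.1 q.2) (nu 0 τ) :=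
    ((mul_int hhm mt).sub (mul_int hhxm mx)).add (mul_int hum m0)
  have i3 : Integrable (fun q : ℝ × ℝ => F q.1 q.2 * φx q.1 q.2) (nu 0 τ) :=
    mul_int (F_mem hF τ) mx
  have i4 : Integrable (fun q : ℝ × ℝ => dG (h q.1 q.2 + RR c F q.1 q.2) *
      (hx q.1 q.2 + P q) * φ q.1 q.2) (nu 0 τ) :=
    mul_int (bdd_mul_mem mP dm' fun a => hdGL _) m0
  have e3 : ∫ q, ((h q.1 q.2 + RR c F q.1 q.2) * φt q.1 q.2 - (hx q.1 q.2 + P q) * φx q.1 q.2 +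
        dG (h q.1 q.2 + RR c F q.1 q.2) * (hx q.1 q.2 + P q) * φ q.1 q.2 + u q.1 * φ q.1 q.2)
        ∂(nu 0 τ) =
      (∫ q, (RR c F q.1 q.2 * φt q.1 q.2 - P q * φx q.1 q.2 - F q.1 q.2 * φx q.1 q.2) ∂(nu 0 τ)) +
      (∫ q, (h q.1 q.2 * φt q.1 q.2 - hx q.1 q.2 * φx q.1 q.2 + u q.1 * φ q.1 q.2) ∂(nu 0 τ)) +
      (∫ q, F q.1 q.2 * φx q.1 q.2 ∂(nu 0 τ)) +
      ∫ q, dG (h q.1 q.2 + RR c F q.1 q.2) * (hx q.1 q.2 + P q) * φ q.1 q.2 ∂(nu 0 τ) := by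
    have j1 := i1.add i2
    have j2 := j1.add i3
    rw [← integral_add i1 i2, ← integral_add (f := fun q : ℝ × ℝ =>
      (RR c F q.1 q.2 * φt q.1 q.2 - P q * φx q.1 q.2 - F q.1 q.2 * φx q.1 q.2) +
      (h q.1 q.2 * φt q.1 q.2 - hx q.1 q.2 * φx q.1 q.2 + u q.1 * φ q.1 q.2)) j1 i3,
      ← integral_add (f := fun q : ℝ × ℝ =>
      ((RR c F q.1 q.2 * φt q.1 q.2 - P q * φx q.1 q.2 - F q.1 q.2 * φx q.1 q.2) +
      (h q.1 q.2 * φt q.1 q.2 - hx q.1 q.2 * φx q.1 q.2 + u q.1 * φ q.1 q.2)) +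
      F q.1 q.2 * φx q.1 q.2) j2 i4]
    congr 1; funext q; ring
  rw [e3, ← h1, ← h2, h3, e1, e2]
  ring

end Pool.Agent.Y308.BC
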