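import Pool.Agent.Y308.BC.Gevrey
import Pool.Agent.Y308.BC.Weak2

/-! # Power series solutions of the heat equation -/

set_option autoImplicit false

open MeasureTheory Set Real Filter Topology intervalIntegral
open scoped ENNReal NNReal

namespace Pool.Agent.Y308.BC

/-- weight -/
noncomputable def wD (D : ℝ) (i : ℕ) : ℝ := (i + 1) * ((i.factorial * √(i.factorial)) * D ^ i)
/-- majorant -/
noncomputable def maj (D : ℝ) (i : ℕ) : ℝ := wD D i / (2 * i).factorial

lemma wD_nonneg {D : ℝ} (hD : 0 ≤ D) (i : ℕ) : 0 ≤ wD D i := by unfold wD; positivity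
lemma maj_nonneg {D : ℝ} (hD : 0 ≤ D) (i : ℕ) : 0 ≤ maj D i := by
  unfold maj; have := wD_nonneg hD i; positivity

lemma maj_le {D : ℝ} (hD : 0 ≤ D) (i : ℕ) :
    maj D i ≤ Real.exp (4 * D ^ 2) * (1 / √2) ^ i := by
  have hf : (0:ℝ) < i.factorial := by positivity
  have h1 : ((i.factorial : ℝ)) ^ 2 ≤ ((2 * i).factorial : ℕ) := by
    have := Nat.factorial_mul_factorial_dvd_factorial_add i i
    have h2 := Nat.le_of_dvd (Nat.factorial_pos _) this
    rw [← two_mul] at h2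
    rw [sq]; exact_mod_cast h2
  have h2 : maj D i ≤ (i + 1) * D ^ i / √(i.factorial) := by
    unfold maj wD
    rw [div_le_div_iff₀ (by positivity) (by positivity)]
    have h3 : √(i.factorial : ℝ) * √(i.factorial : ℝ) = i.factorial :=
      Real.mul_self_sqrt hf.le
    calc (i + 1 : ℝ) * ((i.factorial * √(i.factorial)) * D ^ i) * √(i.factorial) =
        (i + 1) * D ^ i * (i.factorial * (√(i.factorial) * √(i.factorial))) := by ring
      _ = (i + 1) * D ^ i * (i.factorial : ℝ) ^ 2 := by rw [h3]; ring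
      _ ≤ _ := by gcongr
  refine h2.trans ?_
  have h4 : (i + 1 : ℝ) ≤ 2 ^ i := by
    have := Nat.lt_two_pow_self (n := i)
    exact_mod_cast this
  have h5 : (i + 1) * D ^ i / √(i.factorial) ≤ √((4 * D ^ 2) ^ i / i.factorial) := by
    rw [Real.sqrt_div (by positivity)]
    have e1 : √((4 * D ^ 2) ^ i) = 2 ^ i * D ^ i := by
      have : (4 * D ^ 2) ^ i = (2 ^ i * D ^ i) ^ 2 := by
        rw [← mul_pow, ← pow_mul, mul_comm i 2, pow_mul]; congr 1; ring
      rw [this, Real.sqrt_sq (by positivity)]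
    rw [e1]
    gcongr
  refine h5.trans ?_
  have h6 : (4 * D ^ 2) ^ i / i.factorial = ((8 * D ^ 2) ^ i / i.factorial) * (1/2) ^ i := by
    rw [div_mul_eq_mul_div, ← mul_pow]; congr 2; ring
  have h7 := Real.pow_div_factorial_le_exp (x := 8 * D ^ 2) (by positivity) i
  rw [h6, Real.sqrt_mul (by positivity)]
  have h8 : √((1/2 : ℝ) ^ i) = (1 / √2) ^ i := by
    have : (1/2 : ℝ) ^ i = ((1 / √2) ^ i) ^ 2 := by
      rw [← pow_mul, mul_comm i 2, pow_mul]; congr 1
      rw [div_pow, one_pow, Real.sq_sqrt (by norm_num)]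
    rw [this, Real.sqrt_sq (by positivity)]
  rw [h8]
  have h9 : √((8 * D ^ 2) ^ i / i.factorial) ≤ Real.exp (4 * D ^ 2) := by
    rw [Real.sqrt_le_left (Real.exp_pos _).le, ← Real.exp_nat_mul]
    refine h7.trans (Real.exp_le_exp.2 ?_)
    push_cast; linarith
  gcongr

lemma geo_sum : Summable fun i : ℕ => (1 / √2 : ℝ) ^ i := by
  apply summable_geometric_of_lt_one (by positivity)
  rw [div_lt_one (by positivity)]
  exact Real.one_lt_sqrt_two

lemma geo_le : ∑' i : ℕ, (1 / √2 : ℝ) ^ i ≤ 4 := by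
  have h1 : (1 / √2 : ℝ) < 3/4 := by
    rw [div_lt_iff₀ (by positivity)]
    have : (4/3 : ℝ) < √2 := by
      apply Real.lt_sqrt_of_sq_lt; norm_num
    linarith
  rw [tsum_geometric_of_lt_one (by positivity) (by linarith)]
  rw [inv_le_comm₀ (by linarith) (by norm_num)]
  linarith

lemma maj_summable {D : ℝ} (hD : 0 ≤ D) : Summable (maj D) :=
  Summable.of_nonneg_of_le (maj_nonneg hD) (maj_le hD) (geo_sum.mul_left _)

lemma maj_tsum_le {D : ℝ} (hD : 0 ≤ D) : ∑' i, maj D i ≤ 4 * Real.exp (4 * D ^ 2) := by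
  calc ∑' i, maj D i ≤ ∑' i, Real.exp (4 * D ^ 2) * (1 / √2) ^ i :=
        Summable.tsum_le_tsum (maj_le hD) (maj_summable hD) (geo_sum.mul_left _)
    _ = Real.exp (4 * D ^ 2) * ∑' i, (1 / √2 : ℝ) ^ i := tsum_mul_left
    _ ≤ Real.exp (4 * D ^ 2) * 4 := by gcongr; exact geo_le
    _ = _ := by ring

/-- scaling of the majorant -/
lemma wD_scale (D s : ℝ) (i : ℕ) : wD D i * s ^ i = wD (s * D) i := by
  unfold wD; rw [mul_pow]; ring

lemma maj_scale (D s : ℝ) (i : ℕ) : maj D i * s ^ i = maj (s * D) i := by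
  unfold maj; rw [div_mul_eq_mul_div, wD_scale]

/-- series with odd powers -/
noncomputable def hs (α : ℕ → ℝ → ℝ) (t x : ℝ) : ℝ :=
  ∑' i, α i t * (x ^ (2 * i + 1) / (2 * i + 1).factorial)
noncomputable def hsx (α : ℕ → ℝ → ℝ) (t x : ℝ) : ℝ :=
  ∑' i, α i t * (x ^ (2 * i) / (2 * i).factorial)
noncomputable def hsxx (α : ℕ → ℝ → ℝ) (t x : ℝ) : ℝ :=
  ∑' i, α (i + 1) t * (x ^ (2 * i + 1) / (2 * i + 1).factorial)

section
variable {α : ℕ → ℝ → ℝ} {K D : ℝ} {I : Set ℝ}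

lemma odd_le {x : ℝ} (hx : |x| ≤ 2) (i : ℕ) :
    |x ^ (2 * i + 1) / (2 * i + 1).factorial| ≤ 2 * 4 ^ i / (2 * i).factorial := by
  rw [abs_div, abs_pow, Nat.abs_cast]
  have h1 : |x| ^ (2 * i + 1) ≤ 2 * 4 ^ i := by
    calc |x| ^ (2 * i + 1) ≤ 2 ^ (2 * i + 1) := pow_le_pow_left₀ (abs_nonneg _) hx _
      _ = 2 * 4 ^ i := by rw [pow_succ, pow_mul]; norm_num; ring
  have h2 : ((2 * i).factorial : ℝ) ≤ ((2 * i + 1).factorial : ℕ) := by
    exact_mod_cast Nat.factorial_le (Nat.le_succ _)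
  have h3 : (0:ℝ) < (2 * i).factorial := by positivity
  exact div_le_div₀ (by positivity) h1 h3 h2

lemma even_le {x : ℝ} (hx : |x| ≤ 2) (i : ℕ) :
    |x ^ (2 * i) / (2 * i).factorial| ≤ 4 ^ i / (2 * i).factorial := by
  rw [abs_div, abs_pow, Nat.abs_cast]
  have h1 : |x| ^ (2 * i) ≤ 4 ^ i := by
    calc |x| ^ (2 * i) ≤ 2 ^ (2 * i) := pow_le_pow_left₀ (abs_nonneg _) hx _
      _ = 4 ^ i := by rw [pow_mul]; norm_num
  gcongr

variable (hD : 0 ≤ D) (hK : 0 ≤ K)
  (hb : ∀ i, ∀ t ∈ I, |α i t| ≤ K * wD D i)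

include hD hK hb

lemma t0_le {t x : ℝ} (ht : t ∈ I) (hx : |x| ≤ 2) (i : ℕ) :
    |α i t * (x ^ (2 * i + 1) / (2 * i + 1).factorial)| ≤ 2 * K * maj (8 * D) i := by
  rw [abs_mul]
  have hw := wD_nonneg hD i
  calc _ ≤ (K * wD D i) * (2 * 4 ^ i / (2 * i).factorial) :=
        mul_le_mul (hb i t ht) (odd_le hx i) (abs_nonneg _) (by positivity)
    _ = 2 * K * (maj D i * 4 ^ i) := by unfold maj; ring
    _ ≤ 2 * K * (maj D i * 8 ^ i) := by
        have := maj_nonneg hD i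
        gcongr; norm_num
    _ = _ := by rw [maj_scale]

lemma t1_le {t x : ℝ} (ht : t ∈ I) (hx : |x| ≤ 2) (i : ℕ) :
    |α i t * (x ^ (2 * i) / (2 * i).factorial)| ≤ 2 * K * maj (8 * D) i := by
  rw [abs_mul]
  have hw := wD_nonneg hD i
  have hm := maj_nonneg hD i
  calc _ ≤ (K * wD D i) * (4 ^ i / (2 * i).factorial) :=
        mul_le_mul (hb i t ht) (even_le hx i) (abs_nonneg _) (by positivity)
    _ = K * (maj D i * 4 ^ i) := by unfold maj; ring
    _ ≤ 2 * K * (maj D i * 8 ^ i) := by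
        have e1 : maj D i * 4 ^ i ≤ maj D i * 8 ^ i := by gcongr; norm_num
        have e2 : 0 ≤ K * (maj D i * 8 ^ i) := by positivity
        nlinarith [mul_le_mul_of_nonneg_left e1 hK]
    _ = _ := by rw [maj_scale]

lemma t2_le {t x : ℝ} (ht : t ∈ I) (hx : |x| ≤ 2) (i : ℕ) :
    |α (i + 1) t * (x ^ (2 * i + 1) / (2 * i + 1).factorial)| ≤ 2 * K * maj (8 * D) (i + 1) := by
  rw [abs_mul]
  have hw := wD_nonneg hD (i + 1)
  have hm := maj_nonneg hD (i + 1)
  have h1 : |x ^ (2 * i + 1) / (2 * i + 1).factorial| ≤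
      (i + 1) * 4 ^ (i + 1) / (2 * (i + 1)).factorial := by
    rw [abs_div, abs_pow, Nat.abs_cast]
    have e1 : |x| ^ (2 * i + 1) ≤ 2 * 4 ^ i := by
      calc |x| ^ (2 * i + 1) ≤ 2 ^ (2 * i + 1) := pow_le_pow_left₀ (abs_nonneg _) hx _
        _ = 2 * 4 ^ i := by rw [pow_succ, pow_mul]; norm_num; ring
    have e2 : ((2 * (i + 1)).factorial : ℝ) = (2 * (i + 1)) * ((2 * i + 1).factorial : ℕ) := by
      have : 2 * (i + 1) = (2 * i + 1) + 1 := by ring
      rw [this, Nat.factorial_succ]; push_cast; ring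
    rw [e2, div_le_div_iff₀ (by positivity) (by positivity)]
    have e3 : (0:ℝ) < (2 * i + 1).factorial := by positivity
    calc |x| ^ (2 * i + 1) * (2 * (i + 1) * ((2 * i + 1).factorial : ℕ)) ≤
        (2 * 4 ^ i) * (2 * (i + 1) * ((2 * i + 1).factorial : ℕ)) := by gcongr
      _ = _ := by rw [pow_succ]; ring
  calc _ ≤ (K * wD D (i + 1)) * ((i + 1) * 4 ^ (i + 1) / (2 * (i + 1)).factorial) :=
        mul_le_mul (hb (i + 1) t ht) h1 (abs_nonneg _) (by positivity)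
    _ = K * (maj D (i + 1) * ((i + 1) * 4 ^ (i + 1))) := by unfold maj; ring
    _ ≤ K * (maj D (i + 1) * (8 ^ (i + 1))) := by
        have e1 : (i + 1 : ℝ) ≤ 2 ^ (i + 1) := by
          have := (Nat.lt_two_pow_self (n := i + 1)).le
          exact_mod_cast this
        have e2 : (8:ℝ) ^ (i + 1) = 2 ^ (i + 1) * 4 ^ (i + 1) := by rw [← mul_pow]; norm_num
        rw [e2]
        gcongr
    _ ≤ 2 * K * (maj D (i + 1) * (8 ^ (i + 1))) := by
        have : 0 ≤ K * (maj D (i + 1) * 8 ^ (i + 1)) := by positivity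
        linarith
    _ = _ := by rw [maj_scale]

lemma S8 : Summable fun i => 2 * K * maj (8 * D) i :=
  (maj_summable (by positivity : 0 ≤ 8 * D)).mul_left _

lemma S8' : Summable fun i => 2 * K * maj (8 * D) (i + 1) :=
  (summable_nat_add_iff 1).2 (S8 hD hK hb)

lemma hs_le {t x : ℝ} (ht : t ∈ I) (hx : |x| ≤ 2) :
    |hs α t x| ≤ 8 * K * Real.exp (4 * (8 * D) ^ 2) := by
  have h1 := S8 hD hK hb
  have h2 : |hs α t x| ≤ ∑' i, 2 * K * maj (8 * D) i := by
    unfold hs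
    have h3 : Summable fun i => α i t * (x ^ (2 * i + 1) / (2 * i + 1).factorial) :=
      Summable.of_norm_bounded h1 fun i => t0_le hD hK hb ht hx i
    have := norm_tsum_le_tsum_norm h3.norm
    exact this.trans (Summable.tsum_le_tsum (t0_le hD hK hb ht hx) h3.norm h1)
  rw [tsum_mul_left] at h2
  have h4 := maj_tsum_le (by positivity : 0 ≤ 8 * D)
  calc _ ≤ _ := h2
    _ ≤ 2 * K * (4 * Real.exp (4 * (8 * D) ^ 2)) := by gcongr
    _ = _ := by ring

lemma hsx_le {t x : ℝ} (ht : t ∈ I) (hx : |x| ≤ 2) :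
    |hsx α t x| ≤ 8 * K * Real.exp (4 * (8 * D) ^ 2) := by
  have h1 := S8 hD hK hb
  have h2 : |hsx α t x| ≤ ∑' i, 2 * K * maj (8 * D) i := by
    unfold hsx
    have h3 : Summable fun i => α i t * (x ^ (2 * i) / (2 * i).factorial) :=
      Summable.of_norm_bounded h1 fun i => t1_le hD hK hb ht hx i
    have := norm_tsum_le_tsum_norm h3.norm
    exact this.trans (Summable.tsum_le_tsum (t1_le hD hK hb ht hx) h3.norm h1)
  rw [tsum_mul_left] at h2
  have h4 := maj_tsum_le (by positivity : 0 ≤ 8 * D)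
  calc _ ≤ _ := h2
    _ ≤ 2 * K * (4 * Real.exp (4 * (8 * D) ^ 2)) := by gcongr
    _ = _ := by ring

lemma hsxx_le {t x : ℝ} (ht : t ∈ I) (hx : |x| ≤ 2) :
    |hsxx α t x| ≤ 8 * K * Real.exp (4 * (8 * D) ^ 2) := by
  have h1 := S8' hD hK hb
  have h1' := S8 hD hK hb
  have h2 : |hsxx α t x| ≤ ∑' i, 2 * K * maj (8 * D) (i + 1) := by
    unfold hsxx
    have h3 : Summable fun i => α (i + 1) t * (x ^ (2 * i + 1) / (2 * i + 1).factorial) :=
      Summable.of_norm_bounded h1 fun i => t2_le hD hK hb ht hx i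
    have := norm_tsum_le_tsum_norm h3.norm
    exact this.trans (Summable.tsum_le_tsum (t2_le hD hK hb ht hx) h3.norm h1)
  have h5 : ∑' i, 2 * K * maj (8 * D) (i + 1) ≤ ∑' i, 2 * K * maj (8 * D) i := by
    rw [h1'.tsum_eq_zero_add]
    have := maj_nonneg (by positivity : 0 ≤ 8 * D) 0
    have : 0 ≤ 2 * K * maj (8 * D) 0 := by positivity
    linarith
  rw [tsum_mul_left (f := maj (8 * D))] at h5
  have h4 := maj_tsum_le (by positivity : 0 ≤ 8 * D)
  calc _ ≤ _ := h2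
    _ ≤ _ := h5
    _ ≤ 2 * K * (4 * Real.exp (4 * (8 * D) ^ 2)) := by gcongr
    _ = _ := by ring

lemma hs_dx {t x : ℝ} (ht : t ∈ I) (hx : |x| < 2) : HasDerivAt (hs α t) (hsx α t x) x := by
  have hxI : x ∈ Ioo (-2:ℝ) 2 := abs_lt.1 hx
  unfold hs hsx
  refine hasDerivAt_tsum_of_isPreconnected (u := fun i => 2 * K * maj (8 * D) i)
    (g := fun i y => α i t * (y ^ (2 * i + 1) / (2 * i + 1).factorial))
    (g' := fun i y => α i t * (y ^ (2 * i) / (2 * i).factorial))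
    (S8 hD hK hb) isOpen_Ioo isPreconnected_Ioo (fun i y _ => ?_) (fun i y hy => ?_)
    (y₀ := 0) (by constructor <;> norm_num) ?_ hxI
  · have h1 := ((hasDerivAt_pow (2 * i + 1) y).div_const ((2 * i + 1).factorial : ℝ)).const_mul
      (α i t)
    refine h1.congr_deriv ?_
    rw [Nat.add_sub_cancel, Nat.factorial_succ]
    push_cast
    have : ((2 * i).factorial : ℝ) ≠ 0 := by positivity
    field_simp
  · exact t1_le hD hK hb ht (abs_lt.2 hy).le i
  · exact Summable.of_norm_bounded (S8 hD hK hb) (t0_le hD hK hb ht (by norm_num))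

lemma hs_dxx {t x : ℝ} (ht : t ∈ I) (hx : |x| < 2) : HasDerivAt (hsx α t) (hsxx α t x) x := by
  have hxI : x ∈ Ioo (-2:ℝ) 2 := abs_lt.1 hx
  -- derivative terms
  have hterm : ∀ y : ℝ, ∀ i : ℕ, α (i + 1) t * (((2 * (i + 1) : ℕ) : ℝ) * y ^ (2 * (i + 1) - 1) /
      (2 * (i + 1)).factorial) = α (i + 1) t * (y ^ (2 * i + 1) / (2 * i + 1).factorial) := by
    intro y i
    have e1 : 2 * (i + 1) - 1 = 2 * i + 1 := by omega
    have e2 : ((2 * (i + 1)).factorial : ℝ) = (2 * (i + 1)) * ((2 * i + 1).factorial : ℕ) := by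
      have : 2 * (i + 1) = (2 * i + 1) + 1 := by ring
      rw [this, Nat.factorial_succ]; push_cast; ring
    rw [e1, e2]
    have : ((2 * i + 1).factorial : ℝ) ≠ 0 := by positivity
    push_cast
    field_simp
  have hle : ∀ i : ℕ, ∀ y ∈ Ioo (-2:ℝ) 2,
      ‖α i t * (((2 * i : ℕ) : ℝ) * y ^ (2 * i - 1) / (2 * i).factorial)‖ ≤
        2 * K * maj (8 * D) i := by
    intro i y hy
    rcases i with _ | i
    · simp only [mul_zero, Nat.cast_zero, zero_mul, zero_div, norm_zero]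
      have := maj_nonneg (by positivity : 0 ≤ 8 * D) 0
      positivity
    · rw [hterm]
      exact t2_le hD hK hb ht (abs_lt.2 hy).le i
  have h := hasDerivAt_tsum_of_isPreconnected (u := fun i => 2 * K * maj (8 * D) i)
    (g := fun i y => α i t * (y ^ (2 * i) / (2 * i).factorial))
    (g' := fun i y => α i t * (((2 * i : ℕ) : ℝ) * y ^ (2 * i - 1) / (2 * i).factorial))
    (S8 hD hK hb) isOpen_Ioo isPreconnected_Ioo (fun i y _ => ?_) hle
    (y₀ := 0) (by constructor <;> norm_num) ?_ hxI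
  · refine h.congr_deriv ?_
    have hsum : Summable fun i => α i t * (((2 * i : ℕ) : ℝ) * x ^ (2 * i - 1) /
        (2 * i).factorial) := Summable.of_norm_bounded (S8 hD hK hb) fun i => hle i x hxI
    rw [hsum.tsum_eq_zero_add]
    simp_rw [hterm]
    simp only [mul_zero, Nat.cast_zero, zero_mul, zero_div, zero_add]
    rfl
  · exact ((hasDerivAt_pow (2 * i) y).div_const _).const_mul _
  · exact Summable.of_norm_bounded (S8 hD hK hb) (t1_le hD hK hb ht (by norm_num))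

lemma hs_dt (hI : IsOpen I) (hI' : IsPreconnected I)
    (hd : ∀ i, ∀ t ∈ I, HasDerivAt (α i) (α (i + 1) t) t) {t x : ℝ} (ht : t ∈ I)
    (hx : |x| ≤ 2) : HasDerivAt (fun s => hs α s x) (hsxx α t x) t := by
  unfold hs hsxx
  exact hasDerivAt_tsum_of_isPreconnected (u := fun i => 2 * K * maj (8 * D) (i + 1))
    (g := fun i s => α i s * (x ^ (2 * i + 1) / (2 * i + 1).factorial))
    (g' := fun i s => α (i + 1) s * (x ^ (2 * i + 1) / (2 * i + 1).factorial))
    (S8' hD hK hb) hI hI' (fun i s hs => (hd i s hs).mul_const _)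
    (fun i s hs => t2_le hD hK hb hs hx i) ht
    (Summable.of_norm_bounded (S8 hD hK hb) (t0_le hD hK hb ht hx)) ht

lemma hs_cont (hc : ∀ i, ContinuousOn (α i) I) :
    ContinuousOn (fun q : ℝ × ℝ => hs α q.1 q.2) (I ×ˢ Icc 0 1) := by
  unfold hs
  refine continuousOn_tsum (u := fun i => 2 * K * maj (8 * D) i) (fun i => ?_) (S8 hD hK hb)
    fun i q hq => t0_le hD hK hb hq.1 (by rw [abs_of_nonneg hq.2.1]; linarith [hq.2.2]) i
  exact ((hc i).comp continuousOn_fst fun q hq => hq.1).mul (by fun_prop)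

lemma hsx_cont (hc : ∀ i, ContinuousOn (α i) I) :
    ContinuousOn (fun q : ℝ × ℝ => hsx α q.1 q.2) (I ×ˢ Icc 0 1) := by
  unfold hsx
  refine continuousOn_tsum (u := fun i => 2 * K * maj (8 * D) i) (fun i => ?_) (S8 hD hK hb)
    fun i q hq => t1_le hD hK hb hq.1 (by rw [abs_of_nonneg hq.2.1]; linarith [hq.2.2]) i
  exact ((hc i).comp continuousOn_fst fun q hq => hq.1).mul (by fun_prop)

lemma hsxx_cont (hc : ∀ i, ContinuousOn (α i) I) :
    ContinuousOn (fun q : ℝ × ℝ => hsxx α q.1 q.2) (I ×ˢ Icc 0 1) := by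
  unfold hsxx
  refine continuousOn_tsum (u := fun i => 2 * K * maj (8 * D) (i + 1)) (fun i => ?_)
    (S8' hD hK hb)
    fun i q hq => t2_le hD hK hb hq.1 (by rw [abs_of_nonneg hq.2.1]; linarith [hq.2.2]) i
  exact ((hc (i + 1)).comp continuousOn_fst fun q hq => hq.1).mul (by fun_prop)

end

end Pool.Agent.Y308.BC
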