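import Pool.Agent.Y308.BC.Mild

/-! # Slope bound and the slope function -/

set_option autoImplicit false

open MeasureTheory Set Real Filter Topology intervalIntegral
open scoped ENNReal NNReal

namespace Pool.Agent.Y308.BC

variable {c : ℝ → ℝ} {F : ℝ → ℝ → ℝ} {B : ℝ}

lemma prim_deriv {g : ℝ → ℝ} {s : ℝ} (hg : ContinuousOn g (Ioi 0))
    (hi : IntervalIntegrable g volume 0 s) (hs : 0 < s) :
    HasDerivAt (fun t => ∫ u in (0:ℝ)..t, g u) (g s) s :=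
  intervalIntegral.integral_hasDerivAt_right hi
      (hg.stronglyMeasurableAtFilter isOpen_Ioi s hs) (hg.continuousAt (Ioi_mem_nhds hs))

lemma prim_cont {g : ℝ → ℝ} {T : ℝ} (hT : 0 ≤ T) (hi : IntervalIntegrable g volume 0 T) :
    ContinuousOn (fun t => ∫ u in (0:ℝ)..t, g u) (Icc 0 T) := by
  have h1 := intervalIntegral.continuousOn_primitive_interval' hi left_mem_uIcc
  rw [uIcc_of_le hT] at h1
  exact h1

lemma ii_sub {g : ℝ → ℝ} {s t : ℝ} (hi : IntervalIntegrable g volume 0 t) (hs : 0 ≤ s)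
    (hst : s ≤ t) : IntervalIntegrable g volume 0 s :=
  hi.mono_set (by
    rw [uIcc_of_le hs, uIcc_of_le (hs.trans hst)]
    exact Icc_subset_Icc le_rfl hst)

lemma le_of_deriv_nonpos {Z Z' : ℝ → ℝ} {t : ℝ} (ht : 0 ≤ t) (hc : ContinuousOn Z (Icc 0 t))
    (hd : ∀ s ∈ Ioo 0 t, HasDerivAt Z (Z' s) s) (h0 : ∀ s ∈ Ioo 0 t, Z' s ≤ 0) : Z t ≤ Z 0 := by
  have h1 : AntitoneOn Z (Icc 0 t) := by
    refine antitoneOn_of_deriv_nonpos (convex_Icc 0 t) hc ?_ ?_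
    · rw [interior_Icc]
      intro s hs; exact (hd s hs).differentiableAt.differentiableWithinAt
    · rw [interior_Icc]
      intro s hs; rw [(hd s hs).deriv]; exact h0 s hs
  exact h1 ⟨le_rfl, ht⟩ ⟨ht, le_rfl⟩ ht

lemma lamrn_cont (c : ℝ → ℝ) (h : Adm F B) (S : Finset ℕ) :
    ContinuousOn (fun s => ∑ n ∈ S, lam n * rn c F n s ^ 2) (Ici 0) :=
  continuousOn_finsetSum _ fun n _ => ((rn_cont c h n).pow 2).const_mul _ |> fun h => h

lemma ii_Ici {g : ℝ → ℝ} (hg : ContinuousOn g (Ici 0)) {t : ℝ} (ht : 0 ≤ t) :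
    IntervalIntegrable g volume 0 t := by
  apply ContinuousOn.intervalIntegrable
  rw [uIcc_of_le ht]
  exact hg.mono Icc_subset_Ici_self

lemma slope_bound (hc : MemLp c 2 mu) (h : Adm F B) {t : ℝ} (ht : 0 ≤ t) (S : Finset ℕ) {f : ℝ}
    (hf : ∀ s ∈ Ioo 0 t, ∫ x in (0:ℝ)..1, F s x ^ 2 ≤ f) :
    (∑ n ∈ S, rn c F n t ^ 2) + ∫ s in (0:ℝ)..t, ∑ n ∈ S, lam n * rn c F n s ^ 2 ≤
      (∫ x in (0:ℝ)..1, c x ^ 2) + f * t := by
  have hi := ii_Ici (lamrn_cont c h S) ht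
  have hZ := le_of_deriv_nonpos (Z := fun s => (∑ n ∈ S, rn c F n s ^ 2) +
      (∫ s in (0:ℝ)..s, ∑ n ∈ S, lam n * rn c F n s ^ 2) - f * s)
    (Z' := fun s => (∑ n ∈ S, 2 * rn c F n s * (-(lam n) * rn c F n s - kk n * Fc F n s)) +
      (∑ n ∈ S, lam n * rn c F n s ^ 2) - f) ht ?_ ?_ ?_
  · simp only [intervalIntegral.integral_same, mul_zero, sub_zero, add_zero, rn_zero] at hZ
    have h1 := bessel_es hc S
    linarith
  · refine ContinuousOn.sub (ContinuousOn.add ?_ (prim_cont ht hi)) (by fun_prop)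
    exact (continuousOn_finsetSum _ fun n _ => (rn_cont c h n).pow 2).mono Icc_subset_Ici_self
  · intro s hs
    have h1 : HasDerivAt (fun s => ∑ n ∈ S, rn c F n s ^ 2)
        (∑ n ∈ S, 2 * rn c F n s * (-(lam n) * rn c F n s - kk n * Fc F n s)) s := by
      refine HasDerivAt.fun_sum fun n _ => ?_
      refine ((rn_deriv c h n hs.1).pow 2).congr_deriv ?_
      push_cast; ring
    have h2 := prim_deriv ((lamrn_cont c h S).mono Ioi_subset_Ici_self) (ii_sub hi hs.1.le hs.2.le)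
      hs.1
    have h3 : HasDerivAt (fun s => f * s) f s := by
      simpa using (hasDerivAt_id s).const_mul f
    exact (h1.add h2).sub h3
  · intro s hs
    have h1 := Fc_bessel h hs.1 S
    have h2 := hf s hs
    have h3 : (∑ n ∈ S, 2 * rn c F n s * (-(lam n) * rn c F n s - kk n * Fc F n s)) +
      (∑ n ∈ S, lam n * rn c F n s ^ 2) ≤ ∑ n ∈ S, Fc F n s ^ 2 := by
      rw [← Finset.sum_add_distrib]
      refine Finset.sum_le_sum fun n _ => ?_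
      unfold lam
      nlinarith [sq_nonneg (kk n * rn c F n s + Fc F n s)]
    linarith

/-- `L²` bound of the mild solution -/
lemma RR_sq_le (hc : MemLp c 2 mu) (h : Adm F B) {t : ℝ} (ht : 0 < t) {f : ℝ}
    (hf : ∀ s ∈ Ioo 0 t, ∫ x in (0:ℝ)..1, F s x ^ 2 ≤ f) :
    ∫ x in (0:ℝ)..1, RR c F t x ^ 2 ≤ (∫ x in (0:ℝ)..1, c x ^ 2) + f * t := by
  have h1 := RR_sq_hasSum hc h ht
  refine hasSum_le_of_sum_le h1 fun S => ?_
  have h2 := slope_bound hc h ht.le S hf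
  have h3 : 0 ≤ ∫ s in (0:ℝ)..t, ∑ n ∈ S, lam n * rn c F n s ^ 2 :=
    intervalIntegral.integral_nonneg ht.le fun s _ => Finset.sum_nonneg fun n _ => by
      have := lam_pos n; positivity
  linarith

lemma DJ_le (hc : MemLp c 2 mu) (h : Adm F B) {t : ℝ} (ht : 0 ≤ t) (J : ℕ) {f : ℝ}
    (hf : ∀ s ∈ Ioo 0 t, ∫ x in (0:ℝ)..1, F s x ^ 2 ≤ f) :
    ∫ s in (0:ℝ)..t, DJ c F J s ≤ (∫ x in (0:ℝ)..1, c x ^ 2) + f * t := by
  have h2 := slope_bound hc h ht (Finset.range J) hf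
  have h3 : 0 ≤ ∑ n ∈ Finset.range J, rn c F n t ^ 2 := Finset.sum_nonneg fun n _ => sq_nonneg _
  unfold DJ
  linarith

/-- space-time measure -/
noncomputable def nu (a b : ℝ) : Measure (ℝ × ℝ) := (volume.restrict (Ioc a b)).prod mu

instance (a b : ℝ) : IsFiniteMeasure (nu a b) := by
  unfold nu; infer_instance

lemma nu_eq (a b : ℝ) : nu a b = volume.restrict (Ioc a b ×ˢ Ioo 0 1) := by
  unfold nu mu
  rw [Measure.prod_restrict]
  rfl

lemma meas_nu {f : ℝ × ℝ → ℝ} {a b : ℝ} (hf : ContinuousOn f (Ioc a b ×ˢ Ioo 0 1)) :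
    AEStronglyMeasurable f (nu a b) := by
  rw [nu_eq]
  exact hf.aestronglyMeasurable (measurableSet_Ioc.prod measurableSet_Ioo)

lemma bdd_nu {f : ℝ × ℝ → ℝ} {a b C : ℝ} (hb : ∀ t ∈ Ioc a b, ∀ x ∈ Ioo (0:ℝ) 1, |f (t, x)| ≤ C) :
    ∀ᵐ q ∂(nu a b), |f q| ≤ C := by
  rw [nu_eq]
  exact ae_restrict_of_forall_mem (measurableSet_Ioc.prod measurableSet_Ioo)
    fun q hq => hb q.1 hq.1 q.2 hq.2

lemma memLp_nu {f : ℝ × ℝ → ℝ} {a b C : ℝ} (hf : ContinuousOn f (Ioc a b ×ˢ Ioo 0 1))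
    (hb : ∀ t ∈ Ioc a b, ∀ x ∈ Ioo (0:ℝ) 1, |f (t, x)| ≤ C) : MemLp f 2 (nu a b) :=
  MemLp.of_bound (meas_nu hf) C (bdd_nu hb)

lemma memLp_nu' {f : ℝ × ℝ → ℝ} {a b : ℝ} (hf : ContinuousOn f (Icc a b ×ˢ Icc 0 1)) :
    MemLp f 2 (nu a b) := by
  obtain ⟨C, hC⟩ := (isCompact_Icc.prod isCompact_Icc).exists_bound_of_continuousOn hf
  exact memLp_nu (C := C) (hf.mono (prod_mono Ioc_subset_Icc_self Ioo_subset_Icc_self))
    fun t ht x hx => hC (t, x) ⟨Ioc_subset_Icc_self ht, Ioo_subset_Icc_self hx⟩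

lemma int_nu {f : ℝ × ℝ → ℝ} {a b : ℝ} (hab : a ≤ b) (hf : Integrable f (nu a b)) :
    ∫ q, f q ∂(nu a b) = ∫ t in a..b, ∫ x in (0:ℝ)..1, f (t, x) := by
  unfold nu at hf ⊢
  rw [MeasureTheory.integral_prod f hf, intervalIntegral.integral_of_le hab]
  simp_rw [ii_mu]

lemma int_upto (g : ℝ → ℝ) {x : ℝ} (hx : x ∈ Icc (0:ℝ) 1) :
    ∫ z in (0:ℝ)..x, g z = ∫ z, g z * (Iic x).indicator (fun _ => (1:ℝ)) z ∂mu := by
  have h1 : (fun z => g z * (Iic x).indicator (fun _ => (1:ℝ)) z) = (Iic x).indicator g := by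
    funext z
    by_cases hz : z ∈ Iic x
    · rw [indicator_of_mem hz, indicator_of_mem hz, mul_one]
    · rw [indicator_of_notMem hz, indicator_of_notMem hz, mul_zero]
  rw [h1, MeasureTheory.integral_indicator measurableSet_Iic, intervalIntegral.integral_of_le hx.1]
  unfold mu
  rw [Measure.restrict_restrict measurableSet_Iic]
  refine setIntegral_congr_set ?_
  have h2 : (Iic x ∩ Ioo (0:ℝ) 1 : Set ℝ) =ᵐ[volume] (Iic x ∩ Ioc (0:ℝ) 1 : Set ℝ) :=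
    (EventuallyEq.refl _ _).inter Ioo_ae_eq_Ioc
  have h3 : (Iic x ∩ Ioc (0:ℝ) 1 : Set ℝ) = Ioc 0 x := by
    ext z; simp only [mem_inter_iff, mem_Iic, mem_Ioc]
    constructor
    · rintro ⟨h4, h5, _⟩; exact ⟨h5, h4⟩
    · rintro ⟨h4, h5⟩; exact ⟨h5, h4, h5.trans hx.2⟩
  rw [h3] at h2
  exact h2.symm

lemma mem_ind (x : ℝ) : MemLp ((Iic x).indicator (fun _ => (1:ℝ))) 2 mu :=
  (memLp_const (1:ℝ)).indicator measurableSet_Iic

lemma rJx_mem (c : ℝ → ℝ) (h : Adm F B) (J : ℕ) {τ : ℝ} :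
    MemLp (fun q : ℝ × ℝ => rJx c F J q.1 q.2) 2 (nu 0 τ) :=
  memLp_nu' ((rJx_cont c h J).mono (prod_mono Icc_subset_Ici_self (subset_univ _)))

/-- **The slope function.** -/
theorem exists_slope (hc : MemLp c 2 mu) (h : Adm F B) {τ : ℝ} (hτ : 0 < τ) {f : ℝ}
    (hf : ∀ s ∈ Ioo 0 τ, ∫ x in (0:ℝ)..1, F s x ^ 2 ≤ f) :
    ∃ P : ℝ × ℝ → ℝ, StronglyMeasurable P ∧ MemLp P 2 (nu 0 τ) ∧
      Tendsto (fun J => ∫ q, (rJx c F J q.1 q.2 - P q) ^ 2 ∂(nu 0 τ)) atTop (𝓝 0) ∧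
      ∫ q, P q ^ 2 ∂(nu 0 τ) ≤ (∫ x in (0:ℝ)..1, c x ^ 2) + f * τ ∧
      ∀ᵐ t ∂(volume.restrict (Ioc 0 τ)), MemLp (fun x => P (t, x)) 2 mu ∧
        ∀ x ∈ Icc (0:ℝ) 1, RR c F t x = ∫ z in (0:ℝ)..x, P (t, z) := by
  have hm : ∀ J, MemLp (fun q : ℝ × ℝ => rJx c F J q.1 q.2) 2 (nu 0 τ) := fun J => rJx_mem c h J
  set a : ℕ → ℝ := fun n => ∫ s in (0:ℝ)..τ, lam n * rn c F n s ^ 2 with ha
  have ha0 : ∀ n, 0 ≤ a n := fun n => intervalIntegral.integral_nonneg hτ.le fun s _ => by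
    have := lam_pos n; positivity
  have hsum : ∀ S : Finset ℕ, ∫ s in (0:ℝ)..τ, ∑ n ∈ S, lam n * rn c F n s ^ 2 = ∑ n ∈ S, a n := by
    intro S
    rw [intervalIntegral.integral_finsetSum]
    intro n _
    have := ii_Ici (lamrn_cont c h {n}) hτ.le
    simpa using this
  have hbd : ∀ S : Finset ℕ, ∑ n ∈ S, a n ≤ (∫ x in (0:ℝ)..1, c x ^ 2) + f * τ := by
    intro S
    rw [← hsum]
    have h2 := slope_bound hc h hτ.le S hf
    have h3 : 0 ≤ ∑ n ∈ S, rn c F n τ ^ 2 := Finset.sum_nonneg fun n _ => sq_nonneg _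
    linarith
  have hasum : Summable a := summable_of_sum_le ha0 hbd
  have hinc : ∀ K J, K ≤ J → ∫ q : ℝ × ℝ, (rJx c F J q.1 q.2 - rJx c F K q.1 q.2) ^ 2 ∂(nu 0 τ) =
      ∑ n ∈ Finset.Ico K J, a n := by
    intro K J hKJ
    have hi2 : Integrable (fun q : ℝ × ℝ => (rJx c F J q.1 q.2 - rJx c F K q.1 q.2) ^ 2) (nu 0 τ) :=
      sq_int ((hm J).sub (hm K))
    rw [int_nu hτ.le hi2, ← hsum]
    congr 1
    funext t
    exact int_rJx_sub_sq c F hKJ t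
  obtain ⟨P, hPs, hPm, hPt⟩ := exists_lim hm hasum ha0 hinc
  refine ⟨P, hPs, hPm, hPt, ?_, ?_⟩
  · have h1 := tendsto_wsq (ρ := fun _ => (1:ℝ)) hm hPm aestronglyMeasurable_const (C := 1)
      (Eventually.of_forall fun _ => by simp) hPt
    simp only [one_mul] at h1
    refine le_of_tendsto' h1 fun J => ?_
    rw [int_nu hτ.le (sq_int (hm J))]
    have : ∀ t, ∫ x in (0:ℝ)..1, rJx c F J t x ^ 2 = DJ c F J t := int_rJx_sq c F J
    simp_rw [this]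
    exact DJ_le hc h hτ.le J hf
  · have hint : ∀ J, Integrable (fun q : ℝ × ℝ => (rJx c F J q.1 q.2 - P q) ^ 2) (nu 0 τ) :=
      fun J => sq_int ((hm J).sub hPm)
    have hGi : ∀ J, Integrable (fun t => ∫ x, (rJx c F J t x - P (t, x)) ^ 2 ∂mu)
        (volume.restrict (Ioc 0 τ)) := fun J => (hint J).integral_prod_left
    have hG : Tendsto (fun J => ∫ t, (∫ x, (rJx c F J t x - P (t, x)) ^ 2 ∂mu)
        ∂(volume.restrict (Ioc 0 τ))) atTop (𝓝 0) := by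
      refine hPt.congr fun J => ?_
      exact MeasureTheory.integral_prod _ (hint J)
    obtain ⟨s, hs, hae⟩ := exists_subseq hGi (fun J t => integral_nonneg fun x => sq_nonneg _) hG
    have h2 : ∀ᵐ t ∂(volume.restrict (Ioc 0 τ)), Integrable (fun x => P (t, x) ^ 2) mu :=
      (sq_int hPm).prod_right_ae
    have h3 : ∀ᵐ t ∂(volume.restrict (Ioc 0 τ)), t ∈ Ioc 0 τ := ae_restrict_mem measurableSet_Ioc
    filter_upwards [hae, h2, h3] with t h4 h5 h6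
    have hPt2 : MemLp (fun x => P (t, x)) 2 mu := by
      rw [memLp_two_iff_integrable_sq]
      · exact h5
      · exact (hPs.comp_measurable measurable_prodMk_left).aestronglyMeasurable
    refine ⟨hPt2, fun x hx => ?_⟩
    have h7 := tendsto_pair (f := fun k x => rJx c F (s k) t x) (f₀ := fun x => P (t, x))
      (fun k => memLp_cont (rJx_sec c F (s k) t).continuousOn) hPt2 (mem_ind x) h4
    simp_rw [← int_upto _ hx] at h7
    have h8 : ∀ k, ∫ z in (0:ℝ)..x, rJx c F (s k) t z = rJ c F (s k) t x := by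
      intro k
      rw [intervalIntegral.integral_eq_sub_of_hasDerivAt (f := rJ c F (s k) t)
        (fun z _ => rJ_dx c F (s k) t z) ((rJx_sec c F (s k) t).intervalIntegrable _ _),
        rJ_left, sub_zero]
    simp_rw [h8] at h7
    have h9 := (rJ_pt_tendsto hc h h6.1 x).comp hs.tendsto_atTop
    exact tendsto_nhds_unique h9 h7

end Pool.Agent.Y308.BC
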