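import Pool.Agent.Y308.BC.Trunc

/-! # Solutions on an interval, concatenation -/

set_option autoImplicit false

open MeasureTheory Set Real Filter Topology intervalIntegral
open scoped ENNReal NNReal

namespace Pool.Agent.Y308.BC

/-- integrand of the weak formulation -/
noncomputable def integrand (p : ℝ) (Y P : ℝ → ℝ → ℝ) (u : ℝ → ℝ) (φ φt φx : ℝ → ℝ → ℝ)
    (q : ℝ × ℝ) : ℝ :=
  Y q.1 q.2 * φt q.1 q.2 - P q.1 q.2 * φx q.1 q.2 +
    spd p (Y q.1 q.2) * P q.1 q.2 * φ q.1 q.2 + u q.1 * φ q.1 q.2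

/-- weak solutions on `[a,b]` in the reflected variable -/
structure Sol (p a b : ℝ) (Y P : ℝ → ℝ → ℝ) (u v : ℝ → ℝ) (R K Λ U : ℝ) : Prop where
  hab : a < b
  mY : Measurable fun q : ℝ × ℝ => Y q.1 q.2
  mP : Measurable fun q : ℝ × ℝ => P q.1 q.2
  mU : Measurable u
  bY : ∀ t ∈ Icc a b, ∀ x ∈ Icc (0:ℝ) 1, |Y t x| ≤ R
  bU : ∀ t ∈ Icc a b, |u t| ≤ U
  cont : ∀ t ∈ Icc a b, Tendsto (fun s => ∫ x in (0:ℝ)..1, (Y s x - Y t x) ^ 2) (𝓝[Icc a b] t)
    (𝓝 0)
  P2 : MemLp (fun q : ℝ × ℝ => P q.1 q.2) 2 (nu a b)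
  P2le : ∫ q : ℝ × ℝ, P q.1 q.2 ^ 2 ∂(nu a b) ≤ K
  slope : ∀ᵐ t ∂(volume.restrict (Ioc a b)), ∀ x ∈ Icc (0:ℝ) 1, Y t x = ∫ z in (0:ℝ)..x, P t z
  bdry : ∀ t ∈ Ioc a b, Y t 1 = v t
  vL : ∀ s ∈ Icc a b, ∀ t ∈ Icc a b, |v s - v t| ≤ Λ * |s - t|
  va : v a = 0
  vb : v b = 0
  weak : ∀ φ φt φx : ℝ → ℝ → ℝ, Test φ φt φx →
    (∫ x in (0:ℝ)..1, Y b x * φ b x) - (∫ x in (0:ℝ)..1, Y a x * φ a x) =
      ∫ q, integrand p Y P u φ φt φx q ∂(nu a b)

lemma Ioo_Ioc (a b : ℝ) : volume.restrict (Ioc a b) = volume.restrict (Ioo a b) :=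
  Measure.restrict_congr_set Ioo_ae_eq_Ioc.symm

lemma nu_Ioo (a b : ℝ) : nu a b = volume.restrict (Ioo a b ×ˢ Ioo 0 1) := by
  unfold nu mu
  rw [Ioo_Ioc, Measure.prod_restrict]
  rfl

lemma ae_nu (a b : ℝ) : ∀ᵐ q ∂(nu a b), q.1 ∈ Ioo a b ∧ q.2 ∈ Ioo (0:ℝ) 1 := by
  rw [nu_Ioo]
  exact ae_restrict_of_forall_mem (measurableSet_Ioo.prod measurableSet_Ioo) fun q hq => hq

lemma spd_meas {Y : ℝ → ℝ → ℝ} (p : ℝ) (mY : Measurable fun q : ℝ × ℝ => Y q.1 q.2) :
    Measurable fun q : ℝ × ℝ => spd p (Y q.1 q.2) := by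
  unfold spd
  have : Measurable fun q : ℝ × ℝ => |Y q.1 q.2| := mY.abs
  exact (this.pow_const p).const_mul _

lemma spd_bdd {p : ℝ} (hp : 0 < p) {y R : ℝ} (h : |y| ≤ R) : |spd p y| ≤ (1 + p) * R ^ p := by
  unfold spd
  rw [abs_of_nonneg (by positivity)]
  exact mul_le_mul_of_nonneg_left (Real.rpow_le_rpow (abs_nonneg _) h hp.le) (by linarith)

lemma integrand_int {p a b R U : ℝ} (hp : 0 < p) {Y P : ℝ → ℝ → ℝ} {u : ℝ → ℝ}
    (mY : Measurable fun q : ℝ × ℝ => Y q.1 q.2) (mU : Measurable u)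
    (bY : ∀ t ∈ Icc a b, ∀ x ∈ Icc (0:ℝ) 1, |Y t x| ≤ R) (bU : ∀ t ∈ Icc a b, |u t| ≤ U)
    (P2 : MemLp (fun q : ℝ × ℝ => P q.1 q.2) 2 (nu a b)) {φ φt φx : ℝ → ℝ → ℝ}
    (hT : Test φ φt φx) : Integrable (integrand p Y P u φ φt φx) (nu a b) := by
  have mt := cont_mem hT.ct a b
  have mx := cont_mem hT.cx a b
  have m0 := cont_mem hT.c0 a b
  have hYm : MemLp (fun q : ℝ × ℝ => Y q.1 q.2) 2 (nu a b) := by
    refine MemLp.of_bound mY.aestronglyMeasurable R ?_
    filter_upwards [ae_nu a b] with q hq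
    exact bY q.1 (Ioo_subset_Icc_self hq.1) q.2 (Ioo_subset_Icc_self hq.2)
  have hUm : MemLp (fun q : ℝ × ℝ => u q.1) 2 (nu a b) := by
    refine MemLp.of_bound (mU.comp measurable_fst).aestronglyMeasurable U ?_
    filter_upwards [ae_nu a b] with q hq
    exact bU q.1 (Ioo_subset_Icc_self hq.1)
  have hSP : MemLp (fun q : ℝ × ℝ => spd p (Y q.1 q.2) * P q.1 q.2) 2 (nu a b) := by
    refine memLp_mul_bdd P2 (spd_meas p mY).aestronglyMeasurable (C := (1 + p) * R ^ p) ?_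
    filter_upwards [ae_nu a b] with q hq
    exact spd_bdd hp (bY q.1 (Ioo_subset_Icc_self hq.1) q.2 (Ioo_subset_Icc_self hq.2))
  exact (((mul_int hYm mt).sub (mul_int P2 mx)).add (mul_int hSP m0)).add (mul_int hUm m0)

section
variable {p a b : ℝ} {Y P : ℝ → ℝ → ℝ} {u v : ℝ → ℝ} {R K Λ U : ℝ}

lemma Sol.mono (h : Sol p a b Y P u v R K Λ U) {R' K' Λ' U' : ℝ} (hR : R ≤ R') (hK : K ≤ K')
    (hΛ : Λ ≤ Λ') (hU : U ≤ U') : Sol p a b Y P u v R' K' Λ' U' where
  hab := h.hab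
  mY := h.mY
  mP := h.mP
  mU := h.mU
  bY := fun t ht x hx => (h.bY t ht x hx).trans hR
  bU := fun t ht => (h.bU t ht).trans hU
  cont := h.cont
  P2 := h.P2
  P2le := h.P2le.trans hK
  slope := h.slope
  bdry := h.bdry
  vL := fun s hs t ht => (h.vL s hs t ht).trans (mul_le_mul_of_nonneg_right hΛ (abs_nonneg _))
  va := h.va
  vb := h.vb
  weak := h.weak

lemma Sol.congr (h : Sol p a b Y P u v R K Λ U) {Y' P' : ℝ → ℝ → ℝ} {u' v' : ℝ → ℝ}
    (mY' : Measurable fun q : ℝ × ℝ => Y' q.1 q.2)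
    (mP' : Measurable fun q : ℝ × ℝ => P' q.1 q.2) (mU' : Measurable u')
    (eY : ∀ t ∈ Icc a b, ∀ x ∈ Icc (0:ℝ) 1, Y' t x = Y t x)
    (eP : ∀ t ∈ Ioo a b, ∀ x ∈ Icc (0:ℝ) 1, P' t x = P t x)
    (eU : ∀ t ∈ Ioo a b, u' t = u t) (bU' : ∀ t ∈ Icc a b, |u' t| ≤ U)
    (eV : ∀ t ∈ Icc a b, v' t = v t) : Sol p a b Y' P' u' v' R K Λ U := by
  have aP : (fun q : ℝ × ℝ => P' q.1 q.2) =ᵐ[nu a b] fun q => P q.1 q.2 := by
    filter_upwards [ae_nu a b] with q hq
    exact eP q.1 hq.1 q.2 (Ioo_subset_Icc_self hq.2)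
  have ha : a ∈ Icc a b := ⟨le_rfl, h.hab.le⟩
  have hb : b ∈ Icc a b := ⟨h.hab.le, le_rfl⟩
  have eI : ∀ t ∈ Icc a b, ∀ φ : ℝ → ℝ, ∫ x in (0:ℝ)..1, Y' t x * φ x =
      ∫ x in (0:ℝ)..1, Y t x * φ x := by
    intro t ht φ
    refine intervalIntegral.integral_congr fun x hx => ?_
    rw [uIcc_of_le zero_le_one] at hx
    rw [eY t ht x hx]
  exact
  { hab := h.hab
    mY := mY'
    mP := mP'
    mU := mU'
    bY := fun t ht x hx => by rw [eY t ht x hx]; exact h.bY t ht x hx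
    bU := bU'
    cont := fun t ht => by
      refine (h.cont t ht).congr' ?_
      filter_upwards [self_mem_nhdsWithin] with s hs
      refine intervalIntegral.integral_congr fun x hx => ?_
      rw [uIcc_of_le zero_le_one] at hx
      rw [eY t ht x hx, eY s hs x hx]
    P2 := (memLp_congr_ae aP).2 h.P2
    P2le := by
      refine le_trans (le_of_eq (integral_congr_ae ?_)) h.P2le
      filter_upwards [aP] with q hq
      rw [hq]
    slope := by
      have h1 := h.slope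
      rw [Ioo_Ioc] at h1 ⊢
      filter_upwards [h1, ae_restrict_mem measurableSet_Ioo] with t ht ht2 x hx
      rw [eY t (Ioo_subset_Icc_self ht2) x hx, ht x hx]
      refine intervalIntegral.integral_congr fun z hz => ?_
      rw [uIcc_of_le hx.1] at hz
      exact (eP t ht2 z ⟨hz.1, hz.2.trans hx.2⟩).symm
    bdry := fun t ht => by
      rw [eY t (Ioc_subset_Icc_self ht) 1 ⟨zero_le_one, le_rfl⟩, eV t (Ioc_subset_Icc_self ht)]
      exact h.bdry t ht
    vL := fun s hs t ht => by rw [eV s hs, eV t ht]; exact h.vL s hs t ht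
    va := by rw [eV a ha]; exact h.va
    vb := by rw [eV b hb]; exact h.vb
    weak := fun φ φt φx hT => by
      rw [eI b hb, eI a ha, h.weak φ φt φx hT]
      refine integral_congr_ae ?_
      filter_upwards [ae_nu a b] with q hq
      unfold integrand
      rw [eY q.1 (Ioo_subset_Icc_self hq.1) q.2 (Ioo_subset_Icc_self hq.2),
        eP q.1 hq.1 q.2 (Ioo_subset_Icc_self hq.2), eU q.1 hq.1] }

lemma Ioc_add {a b c : ℝ} (hab : a ≤ b) (hbc : b ≤ c) :
    (volume : Measure ℝ).restrict (Ioc a c) =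
      volume.restrict (Ioc a b) + volume.restrict (Ioc b c) := by
  rw [← Ioc_union_Ioc_eq_Ioc hab hbc, Measure.restrict_union _ measurableSet_Ioc]
  rw [Set.disjoint_left]
  intro x h1 h2
  exact absurd h1.2 (not_le.2 h2.1)

lemma nu_add {a b c : ℝ} (hab : a ≤ b) (hbc : b ≤ c) : nu a c = nu a b + nu b c := by
  unfold nu
  rw [Ioc_add hab hbc, Measure.add_prod]

lemma Sol.trans {c K' : ℝ} (hp : 0 < p) (h1 : Sol p a b Y P u v R K Λ U)
    (h2 : Sol p b c Y P u v R K' Λ U) : Sol p a c Y P u v R (K + K') Λ U := by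
  have hab := h1.hab
  have hbc := h2.hab
  have hnu := nu_add hab.le hbc.le
  have sqi : Integrable (fun q : ℝ × ℝ => P q.1 q.2 ^ 2) (nu a c) := by
    rw [hnu]
    exact (sq_int h1.P2).add_measure (sq_int h2.P2)
  have bY : ∀ t ∈ Icc a c, ∀ x ∈ Icc (0:ℝ) 1, |Y t x| ≤ R := by
    intro t ht x hx
    rcases le_total t b with h | h
    · exact h1.bY t ⟨ht.1, h⟩ x hx
    · exact h2.bY t ⟨h, ht.2⟩ x hx
  have bU : ∀ t ∈ Icc a c, |u t| ≤ U := by
    intro t ht
    rcases le_total t b with h | h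
    · exact h1.bU t ⟨ht.1, h⟩
    · exact h2.bU t ⟨h, ht.2⟩
  have hΛ : 0 ≤ Λ := by
    have h3 := h1.vL a ⟨le_rfl, hab.le⟩ b ⟨hab.le, le_rfl⟩
    have h4 : 0 < |a - b| := abs_pos.2 (sub_ne_zero.2 hab.ne)
    by_contra hneg
    push Not at hneg
    have := mul_neg_of_neg_of_pos hneg h4
    linarith [abs_nonneg (v a - v b)]
  exact
  { hab := hab.trans hbc
    mY := h1.mY
    mP := h1.mP
    mU := h1.mU
    bY := bY
    bU := bU
    cont := fun t ht => by
      have e : Icc a c = Icc a b ∪ Icc b c := (Icc_union_Icc_eq_Icc hab.le hbc.le).symm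
      rw [e, nhdsWithin_union, tendsto_sup]
      constructor
      · rcases le_or_gt t b with h | h
        · exact h1.cont t ⟨ht.1, h⟩
        · have : 𝓝[Icc a b] t = ⊥ := by
            rw [← notMem_closure_iff_nhdsWithin_eq_bot, closure_Icc]
            exact fun h3 => absurd h3.2 (not_le.2 h)
          rw [this]; exact tendsto_bot
      · rcases le_or_gt b t with h | h
        · exact h2.cont t ⟨h, ht.2⟩
        · have : 𝓝[Icc b c] t = ⊥ := by
            rw [← notMem_closure_iff_nhdsWithin_eq_bot, closure_Icc]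
            exact fun h3 => absurd h3.1 (not_le.2 h)
          rw [this]; exact tendsto_bot
    P2 := by
      rw [memLp_two_iff_integrable_sq h1.mP.aestronglyMeasurable]
      exact sqi
    P2le := by
      rw [hnu, integral_add_measure (sq_int h1.P2) (sq_int h2.P2)]
      exact add_le_add h1.P2le h2.P2le
    slope := by
      rw [Ioc_add hab.le hbc.le, ae_add_measure_iff]
      exact ⟨h1.slope, h2.slope⟩
    bdry := fun t ht => by
      rcases le_or_gt t b with h | h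
      · exact h1.bdry t ⟨ht.1, h⟩
      · exact h2.bdry t ⟨h, ht.2⟩
    vL := by
      have key : ∀ s ∈ Icc a c, ∀ t ∈ Icc a c, s ≤ t → |v s - v t| ≤ Λ * |s - t| := by
        intro s hs t ht hst
        rcases le_total t b with h | h
        · exact h1.vL s ⟨hs.1, hst.trans h⟩ t ⟨ht.1, h⟩
        · rcases le_total b s with h' | h'
          · exact h2.vL s ⟨h', hs.2⟩ t ⟨h, ht.2⟩
          · have e1 := h1.vL s ⟨hs.1, h'⟩ b ⟨hab.le, le_rfl⟩
            have e2 := h2.vL b ⟨le_rfl, hbc.le⟩ t ⟨h, ht.2⟩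
            have e3 := abs_sub_le (v s) (v b) (v t)
            rw [abs_of_nonpos (sub_nonpos.2 h')] at e1
            rw [abs_of_nonpos (sub_nonpos.2 h)] at e2
            rw [abs_of_nonpos (sub_nonpos.2 hst)]
            nlinarith
      intro s hs t ht
      rcases le_total s t with h | h
      · exact key s hs t ht h
      · rw [abs_sub_comm, abs_sub_comm s t]; exact key t ht s hs h
    va := h1.va
    vb := h2.vb
    weak := fun φ φt φx hT => by
      have i1 := integrand_int hp h1.mY h1.mU h1.bY h1.bU h1.P2 hT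
      have i2 := integrand_int hp h2.mY h2.mU h2.bY h2.bU h2.P2 hT
      rw [hnu, integral_add_measure i1 i2, ← h1.weak φ φt φx hT, ← h2.weak φ φt φx hT]
      ring }

lemma mp_shift (a b c : ℝ) :
    MeasurePreserving (fun x : ℝ => x - a) (volume.restrict (Ioc (b + a) (c + a)))
      (volume.restrict (Ioc b c)) := by
  have h := (measurePreserving_sub_right (volume : Measure ℝ) a).restrict_preimage
    (measurableSet_Ioc (a := b) (b := c))
  rwa [preimage_sub_const_Ioc] at h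

lemma mp_shift2 (a b c : ℝ) :
    MeasurePreserving (fun q : ℝ × ℝ => (q.1 - a, q.2)) (nu (b + a) (c + a)) (nu b c) :=
  (mp_shift a b c).prod (MeasurePreserving.id mu)

lemma me_shift2 (a : ℝ) : MeasurableEmbedding (fun q : ℝ × ℝ => (q.1 - a, q.2)) :=
  ((MeasurableEquiv.subRight a).prodCongr (MeasurableEquiv.refl ℝ)).measurableEmbedding

lemma Test.shift {φ φt φx : ℝ → ℝ → ℝ} (hT : Test φ φt φx) (a : ℝ) :
    Test (fun t => φ (t + a)) (fun t => φt (t + a)) (fun t => φx (t + a)) where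
  c0 := hT.c0.comp (f := fun q : ℝ × ℝ => (q.1 + a, q.2)) (by fun_prop)
  ct := hT.ct.comp (f := fun q : ℝ × ℝ => (q.1 + a, q.2)) (by fun_prop)
  cx := hT.cx.comp (f := fun q : ℝ × ℝ => (q.1 + a, q.2)) (by fun_prop)
  dt := fun t x => (hT.dt (t + a) x).comp_add_const t a
  dx := fun t x => hT.dx (t + a) x
  z0 := fun t => hT.z0 (t + a)
  z1 := fun t => hT.z1 (t + a)

lemma Sol.shift (h : Sol p a b Y P u v R K Λ U) (c : ℝ) :
    Sol p (a + c) (b + c) (fun t => Y (t - c)) (fun t => P (t - c)) (fun t => u (t - c))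
      (fun t => v (t - c)) R K Λ U where
  hab := by have := h.hab; linarith
  mY := h.mY.comp (f := fun q : ℝ × ℝ => (q.1 - c, q.2)) (by fun_prop)
  mP := h.mP.comp (f := fun q : ℝ × ℝ => (q.1 - c, q.2)) (by fun_prop)
  mU := h.mU.comp (f := fun t : ℝ => t - c) (by fun_prop)
  bY := fun t ht x hx => h.bY (t - c) ⟨by linarith [ht.1], by linarith [ht.2]⟩ x hx
  bU := fun t ht => h.bU (t - c) ⟨by linarith [ht.1], by linarith [ht.2]⟩
  cont := fun t ht => by
    have h1 := h.cont (t - c) ⟨by linarith [ht.1], by linarith [ht.2]⟩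
    refine h1.comp (f := fun s : ℝ => s - c) ?_
    refine tendsto_nhdsWithin_iff.2 ⟨?_, ?_⟩
    · exact ((continuous_id.sub continuous_const).tendsto t).mono_left nhdsWithin_le_nhds
    · filter_upwards [self_mem_nhdsWithin] with s hs
      exact ⟨by linarith [hs.1], by linarith [hs.2]⟩
  P2 := h.P2.comp_measurePreserving (mp_shift2 c a b)
  P2le := by
    have := (mp_shift2 c a b).integral_comp (me_shift2 c) (fun q : ℝ × ℝ => P q.1 q.2 ^ 2)
    rw [this]; exact h.P2le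
  slope := (mp_shift c a b).quasiMeasurePreserving.ae h.slope
  bdry := fun t ht => h.bdry (t - c) ⟨by linarith [ht.1], by linarith [ht.2]⟩
  vL := fun s hs t ht => by
    have := h.vL (s - c) ⟨by linarith [hs.1], by linarith [hs.2]⟩ (t - c)
      ⟨by linarith [ht.1], by linarith [ht.2]⟩
    rwa [sub_sub_sub_cancel_right] at this
  va := by simpa using h.va
  vb := by simpa using h.vb
  weak := fun φ φt φx hT => by
    have h1 := h.weak _ _ _ (hT.shift c)
    have h2 := (mp_shift2 c a b).integral_comp (me_shift2 c)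
      (integrand p Y P u (fun t => φ (t + c)) (fun t => φt (t + c)) (fun t => φx (t + c)))
    rw [← h2] at h1
    have e1 : b + c - c = b := by ring
    have e2 : a + c - c = a := by ring
    rw [e1, e2, h1]
    congr 1
    funext q
    unfold integrand
    simp only [sub_add_cancel]

end

end Pool.Agent.Y308.BC
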