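import Pool.Agent.Y308.BC.Basis

set_option autoImplicit false

open MeasureTheory Set Real Filter Topology intervalIntegral
open scoped ENNReal NNReal

namespace Pool.Agent.Y308.BC

/-- frequencies -/
noncomputable def kk (n : ℕ) : ℝ := ((n : ℝ) + 1) * π
/-- eigenvalues -/
noncomputable def lam (n : ℕ) : ℝ := kk n ^ 2
/-- sine system -/
noncomputable def es (n : ℕ) (x : ℝ) : ℝ := √2 * Real.sin (kk n * x)
/-- cosine system -/
noncomputable def ec (n : ℕ) (x : ℝ) : ℝ := √2 * Real.cos (kk n * x)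
/-- full cosine system -/
noncomputable def ecf (n : ℕ) (x : ℝ) : ℝ := if n = 0 then 1 else √2 * Real.cos ((n : ℝ) * π * x)

lemma kk_pos (n : ℕ) : 0 < kk n := by unfold kk; positivity
lemma kk_ge (n : ℕ) : (n : ℝ) + 1 ≤ kk n := by
  unfold kk
  have := Real.pi_gt_three
  nlinarith [Nat.cast_nonneg (α := ℝ) n]
lemma lam_pos (n : ℕ) : 0 < lam n := by unfold lam; have := kk_pos n; positivity
lemma ecf_succ (n : ℕ) (x : ℝ) : ecf (n + 1) x = ec n x := by
  unfold ecf ec kk
  rw [if_neg (Nat.succ_ne_zero n)]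
  push_cast
  rfl
lemma ecf_zero (x : ℝ) : ecf 0 x = 1 := if_pos rfl

@[fun_prop] lemma es_cont (n : ℕ) : Continuous (es n) := by unfold es; fun_prop
@[fun_prop] lemma ec_cont (n : ℕ) : Continuous (ec n) := by unfold ec; fun_prop
@[fun_prop] lemma ecf_cont (n : ℕ) : Continuous (ecf n) := by
  rcases n with _ | n
  · have : ecf 0 = fun _ => 1 := by funext x; exact ecf_zero x
    rw [this]; fun_prop
  · have : ecf (n + 1) = ec n := by funext x; exact ecf_succ n x
    rw [this]; fun_prop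

lemma sqrt2_sq : √2 * √2 = (2 : ℝ) := Real.mul_self_sqrt (by norm_num)

lemma es_le (n : ℕ) (x : ℝ) : |es n x| ≤ √2 := by
  unfold es
  rw [abs_mul, abs_of_nonneg (Real.sqrt_nonneg 2)]
  have := Real.abs_sin_le_one (kk n * x)
  nlinarith [Real.sqrt_nonneg 2, abs_nonneg (Real.sin (kk n * x))]

lemma ec_le (n : ℕ) (x : ℝ) : |ec n x| ≤ √2 := by
  unfold ec
  rw [abs_mul, abs_of_nonneg (Real.sqrt_nonneg 2)]
  have := Real.abs_cos_le_one (kk n * x)
  nlinarith [Real.sqrt_nonneg 2, abs_nonneg (Real.cos (kk n * x))]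

lemma es_zero (n : ℕ) : es n 0 = 0 := by unfold es; simp
lemma es_one (n : ℕ) : es n 1 = 0 := by
  unfold es kk
  rw [mul_one]
  have : Real.sin (((n : ℝ) + 1) * π) = 0 := by
    have := Real.sin_nat_mul_pi (n + 1)
    push_cast at this
    exact this
  rw [this, mul_zero]

lemma hasDerivAt_es (n : ℕ) (x : ℝ) : HasDerivAt (es n) (kk n * ec n x) x := by
  unfold es ec
  have h1 : HasDerivAt (fun y => kk n * y) (kk n) x := by
    simpa using (hasDerivAt_id x).const_mul (kk n)
  exact ((h1.sin).const_mul (√2)).congr_deriv (by ring)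

lemma hasDerivAt_ec (n : ℕ) (x : ℝ) : HasDerivAt (ec n) (-(kk n) * es n x) x := by
  unfold es ec
  have h1 : HasDerivAt (fun y => kk n * y) (kk n) x := by
    simpa using (hasDerivAt_id x).const_mul (kk n)
  exact ((h1.cos).const_mul (√2)).congr_deriv (by ring)

lemma int_cos (k : ℤ) : ∫ x in (0:ℝ)..1, Real.cos ((k : ℝ) * π * x) = if k = 0 then 1 else 0 := by
  split_ifs with h
  · subst h; simp
  · have hne : (k : ℝ) * π ≠ 0 := mul_ne_zero (by exact_mod_cast h) Real.pi_ne_zero
    rw [intervalIntegral.integral_comp_mul_left (fun y => Real.cos y) hne]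
    rw [integral_cos]
    simp only [mul_one, mul_zero, Real.sin_zero, sub_zero, Real.sin_int_mul_pi, smul_zero]

lemma ioo_int (f : ℝ → ℝ) : ∫ x in Ioo (0:ℝ) 1, f x = ∫ x in (0:ℝ)..1, f x := by
  rw [intervalIntegral.integral_of_le zero_le_one, integral_Ioc_eq_integral_Ioo]

lemma es_orth (m n : ℕ) : ∫ x in (0:ℝ)..1, es m x * es n x = if m = n then 1 else 0 := by
  have h1 : ∀ x, es m x * es n x = Real.cos ((((m : ℤ) - n : ℤ) : ℝ) * π * x) -
      Real.cos ((((m : ℤ) + n + 2 : ℤ) : ℝ) * π * x) := by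
    intro x
    unfold es kk
    have e1 : Real.cos ((((m : ℤ) - n : ℤ) : ℝ) * π * x) =
        Real.cos (((m : ℝ) + 1) * π * x - ((n : ℝ) + 1) * π * x) := by
      congr 1; push_cast; ring
    have e2 : Real.cos ((((m : ℤ) + n + 2 : ℤ) : ℝ) * π * x) =
        Real.cos (((m : ℝ) + 1) * π * x + ((n : ℝ) + 1) * π * x) := by
      congr 1; push_cast; ring
    rw [e1, e2, Real.cos_sub, Real.cos_add]
    linear_combination (Real.sin (((m : ℝ) + 1) * π * x) * Real.sin (((n : ℝ) + 1) * π * x)) *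
      sqrt2_sq
  simp_rw [h1]
  rw [intervalIntegral.integral_sub (by apply Continuous.intervalIntegrable; fun_prop)
    (by apply Continuous.intervalIntegrable; fun_prop), int_cos, int_cos]
  have h2 : ¬ ((m : ℤ) + n + 2 = 0) := by positivity
  rw [if_neg h2, sub_zero]
  by_cases h : m = n
  · rw [if_pos h, if_pos (by rw [h]; ring)]
  · rw [if_neg h, if_neg (by intro h3; apply h; omega)]

lemma ecf_orth (m n : ℕ) : ∫ x in (0:ℝ)..1, ecf m x * ecf n x = if m = n then 1 else 0 := by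
  have key : ∀ m n : ℕ, ∫ x in (0:ℝ)..1, ec m x * ec n x = if m = n then 1 else 0 := by
    intro m n
    have h1 : ∀ x, ec m x * ec n x = Real.cos ((((m : ℤ) - n : ℤ) : ℝ) * π * x) +
        Real.cos ((((m : ℤ) + n + 2 : ℤ) : ℝ) * π * x) := by
      intro x
      unfold ec kk
      have e1 : Real.cos ((((m : ℤ) - n : ℤ) : ℝ) * π * x) =
          Real.cos (((m : ℝ) + 1) * π * x - ((n : ℝ) + 1) * π * x) := by
        congr 1; push_cast; ring
      have e2 : Real.cos ((((m : ℤ) + n + 2 : ℤ) : ℝ) * π * x) =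
          Real.cos (((m : ℝ) + 1) * π * x + ((n : ℝ) + 1) * π * x) := by
        congr 1; push_cast; ring
      rw [e1, e2, Real.cos_sub, Real.cos_add]
      linear_combination (Real.cos (((m : ℝ) + 1) * π * x) * Real.cos (((n : ℝ) + 1) * π * x)) *
        sqrt2_sq
    simp_rw [h1]
    rw [intervalIntegral.integral_add (by apply Continuous.intervalIntegrable; fun_prop)
      (by apply Continuous.intervalIntegrable; fun_prop), int_cos, int_cos]
    have h2 : ¬ ((m : ℤ) + n + 2 = 0) := by positivity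
    rw [if_neg h2, add_zero]
    by_cases h : m = n
    · rw [if_pos h, if_pos (by rw [h]; ring)]
    · rw [if_neg h, if_neg (by intro h3; apply h; omega)]
  have key2 : ∀ n : ℕ, ∫ x in (0:ℝ)..1, ec n x = 0 := by
    intro n
    have h1 : ∀ x, ec n x = √2 * Real.cos ((((n : ℤ) + 1 : ℤ) : ℝ) * π * x) := by
      intro x; unfold ec kk; push_cast; rfl
    simp_rw [h1]
    rw [intervalIntegral.integral_const_mul, int_cos, if_neg (by positivity), mul_zero]
  rcases m with _ | m <;> rcases n with _ | n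
  · simp [ecf_zero]
  · simp only [ecf_zero, ecf_succ, one_mul, key2]
    simp
  · simp only [ecf_zero, ecf_succ, mul_one, key2]
    simp
  · simp only [ecf_succ, key]
    simp

/-- coefficient -/
noncomputable def cf (φ f : ℝ → ℝ) : ℝ := ∫ x in (0:ℝ)..1, f x * φ x

lemma memLp_cont {f : ℝ → ℝ} (hf : ContinuousOn f (Icc 0 1)) : MemLp f 2 mu := by
  obtain ⟨C, hC⟩ := (isCompact_Icc (a := (0:ℝ)) (b := 1)).exists_bound_of_continuousOn hf
  refine MemLp.of_bound ((hf.mono Ioo_subset_Icc_self).aestronglyMeasurable measurableSet_Ioo) C ?_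
  exact ae_restrict_of_forall_mem measurableSet_Ioo fun x hx => hC x (Ioo_subset_Icc_self hx)

lemma memLp_bdd {f : ℝ → ℝ} (hf : Measurable f) {C : ℝ} (hC : ∀ x ∈ Ioo (0:ℝ) 1, |f x| ≤ C) :
    MemLp f 2 mu :=
  MemLp.of_bound hf.aestronglyMeasurable C
    (ae_restrict_of_forall_mem measurableSet_Ioo fun x hx => hC x hx)

lemma ii_of_mem {f g : ℝ → ℝ} (hf : MemLp f 2 mu) (hg : MemLp g 2 mu) :
    IntervalIntegrable (fun x => f x * g x) volume 0 1 := by
  rw [intervalIntegrable_iff_integrableOn_Ioo_of_le zero_le_one]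
  exact hf.integrable_mul hg

lemma ii_sq {f : ℝ → ℝ} (hf : MemLp f 2 mu) :
    IntervalIntegrable (fun x => f x ^ 2) volume 0 1 := by
  have := ii_of_mem hf hf
  refine this.congr (by intro x _; simp only; ring)

lemma ii_one {f : ℝ → ℝ} (hf : MemLp f 2 mu) : IntervalIntegrable f volume 0 1 := by
  rw [intervalIntegrable_iff_integrableOn_Ioo_of_le zero_le_one]
  exact hf.integrable (by norm_num)

lemma cf_sub {φ f g : ℝ → ℝ} (hφ : Continuous φ) (hf : MemLp f 2 mu) (hg : MemLp g 2 mu) :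
    cf φ (fun x => f x - g x) = cf φ f - cf φ g := by
  unfold cf
  rw [← intervalIntegral.integral_sub (ii_of_mem hf (memLp_cont hφ.continuousOn))
    (ii_of_mem hg (memLp_cont hφ.continuousOn))]
  congr 1; funext x; ring

lemma pyth (φ : ℕ → ℝ → ℝ) (hφ : ∀ n, Continuous (φ n))
    (hon : ∀ m n, ∫ x in (0:ℝ)..1, φ m x * φ n x = if m = n then 1 else 0)
    {f : ℝ → ℝ} (hf : MemLp f 2 mu) (J : ℕ) :
    ∫ x in (0:ℝ)..1, (f x - ∑ n ∈ Finset.range J, cf (φ n) f * φ n x) ^ 2 =
      (∫ x in (0:ℝ)..1, f x ^ 2) - ∑ n ∈ Finset.range J, cf (φ n) f ^ 2 := by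
  have hm : ∀ n, MemLp (φ n) 2 mu := fun n => memLp_cont (hφ n).continuousOn
  set P : ℝ → ℝ := fun x => ∑ n ∈ Finset.range J, cf (φ n) f * φ n x with hP
  have hPc : Continuous P := by
    rw [hP]; exact continuous_finsetSum _ fun n _ => (hφ n).const_mul _ |> fun h => h
  have hPm : MemLp P 2 mu := memLp_cont hPc.continuousOn
  have e1 : ∫ x in (0:ℝ)..1, f x * P x = ∑ n ∈ Finset.range J, cf (φ n) f ^ 2 := by
    have : ∀ x, f x * P x = ∑ n ∈ Finset.range J, cf (φ n) f * (f x * φ n x) := by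
      intro x; rw [hP]; simp only [Finset.mul_sum]
      refine Finset.sum_congr rfl fun n _ => by ring
    simp_rw [this]
    rw [intervalIntegral.integral_finsetSum fun n _ => (ii_of_mem hf (hm n)).const_mul _]
    refine Finset.sum_congr rfl fun n _ => ?_
    rw [intervalIntegral.integral_const_mul]
    unfold cf; ring
  have e2 : ∫ x in (0:ℝ)..1, P x * P x = ∑ n ∈ Finset.range J, cf (φ n) f ^ 2 := by
    have : ∀ x, P x * P x = ∑ n ∈ Finset.range J, ∑ m ∈ Finset.range J,
        (cf (φ n) f * cf (φ m) f) * (φ n x * φ m x) := by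
      intro x; rw [hP]; simp only [Finset.sum_mul_sum]
      refine Finset.sum_congr rfl fun n _ => Finset.sum_congr rfl fun m _ => by ring
    simp_rw [this]
    rw [intervalIntegral.integral_finsetSum]
    · refine Finset.sum_congr rfl fun n hn => ?_
      rw [intervalIntegral.integral_finsetSum]
      · simp_rw [intervalIntegral.integral_const_mul, hon]
        rw [Finset.sum_eq_single n]
        · rw [if_pos rfl]; ring
        · intro m _ hmn; rw [if_neg (Ne.symm hmn), mul_zero]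
        · intro h; exact absurd hn h
      · intro m _; exact (ii_of_mem (hm n) (hm m)).const_mul _
    · intro n _
      apply Continuous.intervalIntegrable
      exact continuous_finsetSum _ fun m _ => ((hφ n).mul (hφ m)).const_mul _ |> fun h => h
  have e3 : ∀ x, (f x - P x) ^ 2 = (f x ^ 2 - 2 * (f x * P x)) + P x * P x := by intro x; ring
  show ∫ x in (0:ℝ)..1, (f x - P x) ^ 2 = _
  simp_rw [e3]
  rw [intervalIntegral.integral_add ((ii_sq hf).sub ((ii_of_mem hf hPm).const_mul 2))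
    (ii_of_mem hPm hPm), intervalIntegral.integral_sub (ii_sq hf) ((ii_of_mem hf hPm).const_mul 2),
    intervalIntegral.integral_const_mul, e1, e2]
  ring

lemma bessel (φ : ℕ → ℝ → ℝ) (hφ : ∀ n, Continuous (φ n))
    (hon : ∀ m n, ∫ x in (0:ℝ)..1, φ m x * φ n x = if m = n then 1 else 0)
    {f : ℝ → ℝ} (hf : MemLp f 2 mu) (S : Finset ℕ) :
    ∑ n ∈ S, cf (φ n) f ^ 2 ≤ ∫ x in (0:ℝ)..1, f x ^ 2 := by
  obtain ⟨J, hJ⟩ : ∃ J, S ⊆ Finset.range J := by
    refine ⟨S.sup id + 1, fun n hn => ?_⟩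
    rw [Finset.mem_range]
    have : n ≤ S.sup id := Finset.le_sup (f := id) hn
    omega
  have h1 := pyth φ hφ hon hf J
  have h2 : 0 ≤ ∫ x in (0:ℝ)..1, (f x - ∑ n ∈ Finset.range J, cf (φ n) f * φ n x) ^ 2 :=
    intervalIntegral.integral_nonneg zero_le_one fun x _ => sq_nonneg _
  have h3 : ∑ n ∈ S, cf (φ n) f ^ 2 ≤ ∑ n ∈ Finset.range J, cf (φ n) f ^ 2 :=
    Finset.sum_le_sum_of_subset_of_nonneg hJ fun n _ _ => sq_nonneg _
  linarith

lemma bessel_es {f : ℝ → ℝ} (hf : MemLp f 2 mu) (S : Finset ℕ) :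
    ∑ n ∈ S, cf (es n) f ^ 2 ≤ ∫ x in (0:ℝ)..1, f x ^ 2 :=
  bessel es es_cont es_orth hf S

lemma bessel_ec {f : ℝ → ℝ} (hf : MemLp f 2 mu) (S : Finset ℕ) :
    ∑ n ∈ S, cf (ec n) f ^ 2 ≤ ∫ x in (0:ℝ)..1, f x ^ 2 := by
  have hon : ∀ m n, ∫ x in (0:ℝ)..1, ec m x * ec n x = if m = n then 1 else 0 := by
    intro m n
    have := ecf_orth (m + 1) (n + 1)
    simp only [ecf_succ] at this
    rw [this]; simp
  exact bessel ec ec_cont hon hf S

lemma hasSum_es {f : ℝ → ℝ} (hf : MemLp f 2 mu) :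
    HasSum (fun n => cf (es n) f ^ 2) (∫ x in (0:ℝ)..1, f x ^ 2) := by
  have := parseval_of_complete es es_cont (fun m n => by rw [ioo_int]; exact es_orth m n) (by
    intro h hh h0
    apply sine_complete h hh
    intro n
    have h1 := h0 n
    have h2 : ∀ x, h x * es n x = √2 * (h x * Real.sin (((n : ℝ) + 1) * π * x)) := by
      intro x; unfold es kk; ring
    simp_rw [h2] at h1
    rw [MeasureTheory.integral_const_mul] at h1
    exact (mul_eq_zero.1 h1).resolve_left (by positivity)) f hf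
  simp_rw [ioo_int] at this
  exact this

lemma hasSum_ecf {f : ℝ → ℝ} (hf : MemLp f 2 mu) :
    HasSum (fun n => cf (ecf n) f ^ 2) (∫ x in (0:ℝ)..1, f x ^ 2) := by
  have := parseval_of_complete ecf ecf_cont (fun m n => by rw [ioo_int]; exact ecf_orth m n) (by
    intro h hh h0
    apply cosine_complete h hh
    intro n
    have h1 := h0 n
    rcases n with _ | n
    · simpa [ecf_zero] using h1
    · have h2 : ∀ x, h x * ecf (n + 1) x = √2 * (h x * Real.cos (((n + 1 : ℕ) : ℝ) * π * x)) := by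
        intro x; rw [ecf_succ]; unfold ec kk; push_cast; ring
      simp_rw [h2] at h1
      rw [MeasureTheory.integral_const_mul] at h1
      exact (mul_eq_zero.1 h1).resolve_left (by positivity)) f hf
  simp_rw [ioo_int] at this
  exact this

/-- sine partial sums converge in `L²` -/
lemma tendsto_es {f : ℝ → ℝ} (hf : MemLp f 2 mu) :
    Tendsto (fun J : ℕ => ∫ x in (0:ℝ)..1, (f x - ∑ n ∈ Finset.range J, cf (es n) f * es n x) ^ 2)
      atTop (𝓝 0) := by
  simp_rw [fun J => pyth es es_cont es_orth hf J]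
  have := (hasSum_es hf).tendsto_sum_nat
  have h2 := this.const_sub (∫ x in (0:ℝ)..1, f x ^ 2)
  simpa using h2

/-- cosine partial sums converge in `L²` -/
lemma tendsto_ecf {f : ℝ → ℝ} (hf : MemLp f 2 mu) :
    Tendsto (fun J : ℕ => ∫ x in (0:ℝ)..1,
      (f x - ∑ n ∈ Finset.range J, cf (ecf n) f * ecf n x) ^ 2) atTop (𝓝 0) := by
  simp_rw [fun J => pyth ecf ecf_cont ecf_orth hf J]
  have := (hasSum_ecf hf).tendsto_sum_nat
  have h2 := this.const_sub (∫ x in (0:ℝ)..1, f x ^ 2)
  simpa using h2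

end Pool.Agent.Y308.BC
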