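import Pool.Agent.Y308.BC.Piece

/-! # The convexity-type bound for the truncated nonlinearity -/

set_option autoImplicit false

open MeasureTheory Set Real Filter Topology intervalIntegral
open scoped ENNReal NNReal

namespace Pool.Agent.Y308.BC

/-- `q G(h+q) - Q(h+q) + Q(h)` -/
noncomputable def Th (p M h q : ℝ) : ℝ := q * GG p M (h + q) - QQ p M (h + q) + QQ p M h

variable {p M : ℝ}

lemma Th_deriv (hp : 0 < p) (h q : ℝ) :
    HasDerivAt (fun q => Th p M h q) (q * dG p M (h + q)) q := by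
  have h1 : HasDerivAt (fun q => GG p M (h + q)) (dG p M (h + q)) q := by
    simpa using (GG_deriv (M := M) hp (h + q)).comp_const_add h q
  have h2 : HasDerivAt (fun q => QQ p M (h + q)) (GG p M (h + q)) q := by
    simpa using (QQ_deriv (M := M) hp (h + q)).comp_const_add h q
  have h3 := (((hasDerivAt_id q).mul h1).sub h2).add_const (QQ p M h)
  refine h3.congr_deriv ?_
  simp only [id]; ring

lemma Th_zero (h : ℝ) : Th p M h 0 = 0 := by unfold Th; simp

lemma Th_symm (h q : ℝ) : Th p M (-h) (-q) = Th p M h q := by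
  unfold Th
  have e : -h + -q = -(h + q) := by ring
  rw [e, GG_neg, QQ_neg, QQ_neg]; ring

/-- comparison on `[a,∞)` -/
lemma Th_mono (hp : 0 < p) (h a : ℝ) {E E' : ℝ → ℝ} {S : Set ℝ} (hS : Convex ℝ S)
    (hE : ∀ q, HasDerivAt E (E' q) q) (hle : ∀ q ∈ S, E' q ≤ q * dG p M (h + q))
    (ha : a ∈ S) {q : ℝ} (hq : q ∈ S) (haq : a ≤ q) :
    E q - E a ≤ Th p M h q - Th p M h a := by
  have h1 : MonotoneOn (fun q => Th p M h q - E q) S := by
    refine monotoneOn_of_deriv_nonneg hS ?_ ?_ ?_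
    · exact fun q _ => ((Th_deriv hp h q).sub (hE q)).continuousAt.continuousWithinAt
    · exact fun q _ => ((Th_deriv hp h q).sub (hE q)).differentiableAt.differentiableWithinAt
    · intro q hq
      have hd : HasDerivAt (fun q => Th p M h q - E q) (q * dG p M (h + q) - E' q) q :=
        (Th_deriv hp h q).sub (hE q)
      rw [hd.deriv]
      linarith [hle q (interior_subset hq)]
  have := h1 ha hq haq
  simp only at this
  linarith

lemma Th_pos_pos (hp : 0 < p) {h q : ℝ} (hh : 0 ≤ h) (hM : h ≤ M) (hq : 0 ≤ q) :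
    h ^ p * q ^ 2 / 2 ≤ Th p M h q := by
  have h1 := Th_mono (M := M) hp h 0 (E := fun q => h ^ p * q ^ 2 / 2) (E' := fun q => h ^ p * q)
    (convex_Ici 0) (fun q => by
      have := ((hasDerivAt_pow 2 q).const_mul (h ^ p)).div_const 2
      refine this.congr_deriv ?_
      push_cast; ring) (fun s hs => ?_) (by simp) (show q ∈ Ici 0 from hq) hq
  · rw [Th_zero] at h1
    have e0 : h ^ p * (0:ℝ) ^ 2 / 2 = 0 := by ring
    rw [e0] at h1
    linarith
  · have hs0 : 0 ≤ s := hs
    have h2 : h ^ p ≤ dG p M (h + s) := by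
      unfold dG
      have h3 : h ≤ min |h + s| M := le_min ((by linarith : h ≤ h + s).trans (le_abs_self _)) hM
      have h4 : h ^ p ≤ (min |h + s| M) ^ p := Real.rpow_le_rpow hh h3 hp.le
      have h5 : 0 ≤ (min |h + s| M) ^ p := Real.rpow_nonneg (hh.trans h3) _
      nlinarith
    rw [mul_comm]
    exact mul_le_mul_of_nonneg_left h2 hs0

lemma Th_neg_pos (hp : 0 < p) (hp1 : p ≤ 1) {h q : ℝ} (hh : 0 < h) (hM : h ≤ M) (hq : 0 ≤ q) :
    h ^ p * q ^ 2 / 18 ≤ Th p M (-h) q := by
  have hhp : 0 < h ^ p := Real.rpow_pos_of_pos hh p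
  -- on `[0, 2h]`
  have part1 : ∀ s ∈ Icc 0 (2 * h), h ^ p * (s ^ 2 / 2 - 2 * s ^ 3 / (3 * h) + s ^ 4 / (4 * h ^ 2)) ≤
      Th p M (-h) s := by
    intro s hs
    have h1 := Th_mono (M := M) hp (-h) 0
      (E := fun s => h ^ p * (s ^ 2 / 2 - 2 * s ^ 3 / (3 * h) + s ^ 4 / (4 * h ^ 2)))
      (E' := fun s => h ^ p * (s * (1 - s / h) ^ 2))
      (convex_Icc 0 (2 * h)) (fun s => by
        have e1 := ((hasDerivAt_pow 2 s).div_const 2)
        have e2 := (((hasDerivAt_pow 3 s).const_mul 2).div_const (3 * h))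
        have e3 := ((hasDerivAt_pow 4 s).div_const (4 * h ^ 2))
        refine (((e1.sub e2).add e3).const_mul (h ^ p)).congr_deriv ?_
        push_cast
        field_simp
        ring) (fun s hs => ?_) ⟨le_rfl, by linarith⟩ hs hs.1
    · rw [Th_zero] at h1
      simpa using h1
    · have hs0 : 0 ≤ s := hs.1
      have hs2 : s ≤ 2 * h := hs.2
      have h2 : h ^ p * (1 - s / h) ^ 2 ≤ dG p M (-h + s) := by
        unfold dG
        have e1 : |-h + s| ≤ h := by rw [abs_le]; constructor <;> linarith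
        rw [min_eq_left (e1.trans hM)]
        have e2 : |-h + s| = h * |1 - s / h| := by
          rw [← abs_of_pos hh, ← abs_mul, abs_of_pos hh]
          rw [mul_sub, mul_div_cancel₀ _ hh.ne', mul_one, abs_sub_comm]
          congr 1; ring
        rw [e2, Real.mul_rpow hh.le (abs_nonneg _)]
        have e3 : |1 - s / h| ≤ 1 := by
          rw [abs_le]
          have : s / h ≤ 2 := by rw [div_le_iff₀ hh]; linarith
          have : 0 ≤ s / h := by positivity
          constructor <;> linarith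
        have e4 : (1 - s / h) ^ 2 ≤ |1 - s / h| ^ p := by
          rw [← sq_abs]
          rw [← Real.rpow_natCast |1 - s / h| 2]
          apply Real.rpow_le_rpow_of_exponent_ge' (abs_nonneg _) e3 hp.le
          push_cast; linarith
        have e5 : 0 ≤ h ^ p * |1 - s / h| ^ p := by positivity
        have e6 : h ^ p * (1 - s / h) ^ 2 ≤ h ^ p * |1 - s / h| ^ p :=
          mul_le_mul_of_nonneg_left e4 hhp.le
        nlinarith
      calc h ^ p * (s * (1 - s / h) ^ 2) = s * (h ^ p * (1 - s / h) ^ 2) := by ring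
        _ ≤ _ := mul_le_mul_of_nonneg_left h2 hs0
  rcases le_total q (2 * h) with hq2 | hq2
  · refine le_trans ?_ (part1 q ⟨hq, hq2⟩)
    have e1 : q ^ 2 / 2 - 2 * q ^ 3 / (3 * h) + q ^ 4 / (4 * h ^ 2) =
        q ^ 2 / 18 + q ^ 2 * (q / (2 * h) - 2 / 3) ^ 2 := by
      field_simp; ring
    rw [e1]
    have e2 : 0 ≤ q ^ 2 * (q / (2 * h) - 2 / 3) ^ 2 := by positivity
    nlinarith
  · -- on `[2h, ∞)`
    have h1 := Th_mono (M := M) hp (-h) (2 * h) (E := fun q => h ^ p * q ^ 2 / 2)
      (E' := fun q => h ^ p * q)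
      (convex_Ici (2 * h)) (fun q => by
        have := ((hasDerivAt_pow 2 q).const_mul (h ^ p)).div_const 2
        refine this.congr_deriv ?_
        push_cast; ring) (fun s hs => ?_) (by simp) (show q ∈ Ici (2 * h) from hq2) hq2
    · have h2 := part1 (2 * h) ⟨by linarith, le_rfl⟩
      have e1 : h ^ p * ((2 * h) ^ 2 / 2 - 2 * (2 * h) ^ 3 / (3 * h) + (2 * h) ^ 4 / (4 * h ^ 2)) =
          h ^ p * (2 / 3 * h ^ 2) := by
        field_simp; ring
      rw [e1] at h2
      have h3 : h ^ p * q ^ 2 / 18 ≤ h ^ p * (2 / 3 * h ^ 2) + (h ^ p * q ^ 2 / 2 -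
          h ^ p * (2 * h) ^ 2 / 2) := by
        have : 0 ≤ h ^ p * (4 / 9 * q ^ 2 - 4 / 3 * h ^ 2) := by
          apply mul_nonneg hhp.le; nlinarith
        nlinarith
      linarith
    · have hs2 : 2 * h ≤ s := hs
      have h2 : h ^ p ≤ dG p M (-h + s) := by
        unfold dG
        have h3 : h ≤ min |-h + s| M :=
          le_min ((by linarith : h ≤ -h + s).trans (le_abs_self _)) hM
        have h4 : h ^ p ≤ (min |-h + s| M) ^ p := Real.rpow_le_rpow hh.le h3 hp.le
        nlinarith
      rw [mul_comm]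
      exact mul_le_mul_of_nonneg_left h2 (by linarith)

/-- **Main lower bound.** -/
theorem Th_ge (hp : 0 < p) (hp1 : p ≤ 1) {h q : ℝ} (hM : |h| ≤ M) :
    |h| ^ p * q ^ 2 / 18 ≤ Th p M h q := by
  have key : ∀ h q : ℝ, |h| ≤ M → 0 ≤ q → |h| ^ p * q ^ 2 / 18 ≤ Th p M h q := by
    intro h q hM hq
    rcases le_or_gt 0 h with h0 | h0
    · rw [abs_of_nonneg h0] at hM ⊢
      have := Th_pos_pos hp h0 hM hq
      have h1 : 0 ≤ h ^ p * q ^ 2 := by positivity
      linarith
    · rw [abs_of_neg h0] at hM ⊢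
      have := Th_neg_pos hp hp1 (neg_pos.2 h0) hM hq
      rwa [neg_neg] at this
  rcases le_total 0 q with hq | hq
  · exact key h q hM hq
  · have := key (-h) (-q) (by rwa [abs_neg]) (by linarith)
    rw [Th_symm, abs_neg] at this
    simpa using this

/-- growth of the increments of `G` -/
lemma GG_incr (hp : 0 < p) (hp1 : p ≤ 1/2) (hM : 0 ≤ M) {a h q : ℝ} (hh : |h| ≤ a) :
    |GG p M (h + q) - GG p M h| ≤ 2 * |q| * (1 + a + |q|) := by
  have h1 : GG p M (h + q) - GG p M h = ∫ s in h..(h + q), dG p M s := by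
    unfold GG
    rw [intervalIntegral.integral_interval_sub_left] <;>
      exact (dG_cont hp).intervalIntegrable _ _
  rw [h1]
  have h2 : ∀ s ∈ uIoc h (h + q), ‖dG p M s‖ ≤ 2 * (1 + a + |q|) := by
    intro s hs
    rw [Real.norm_eq_abs, abs_of_nonneg (dG_nonneg hp hM s)]
    have h3 := dG_le' hp hM s
    have h4 : |s| ≤ a + |q| := by
      have h5 : s ∈ uIcc h (h + q) := uIoc_subset_uIcc hs
      have h6 := abs_sub_left_of_mem_uIcc h5
      have h7 : |s - h| ≤ |q| := by
        have e : h + q - h = q := by ring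
        rw [e] at h6; exact h6
      have h8 : |s| ≤ |s - h| + |h| := by
        have := abs_add_le (s - h) h
        rwa [sub_add_cancel] at this
      linarith
    have h5 : |s| ^ p ≤ 1 + |s| := by
      rcases le_total |s| 1 with h6 | h6
      · have : |s| ^ p ≤ 1 := Real.rpow_le_one (abs_nonneg _) h6 hp.le
        linarith [abs_nonneg s]
      · have : |s| ^ p ≤ |s| ^ (1:ℝ) := Real.rpow_le_rpow_of_exponent_le h6 (by linarith)
        rw [Real.rpow_one] at this
        linarith
    have h6 : 0 ≤ |s| ^ p := Real.rpow_nonneg (abs_nonneg _) _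
    nlinarith [abs_nonneg q, abs_nonneg s]
  have h3 := intervalIntegral.norm_integral_le_of_norm_le_const h2
  rw [Real.norm_eq_abs] at h3
  refine h3.trans (le_of_eq ?_)
  have : h + q - h = q := by ring
  rw [this]; ring

end Pool.Agent.Y308.BC
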