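import Pool.Agent.Y308.BC.Weak2

/-! # The truncated nonlinearity -/

set_option autoImplicit false

open MeasureTheory Set Real Filter Topology intervalIntegral
open scoped ENNReal NNReal

namespace Pool.Agent.Y308.BC

/-- the transport speed `γ|y|^{γ-1}`, `γ = 1 + p` -/
noncomputable def spd (p y : ℝ) : ℝ := (1 + p) * |y| ^ p

/-- truncated speed -/
noncomputable def dG (p M y : ℝ) : ℝ := (1 + p) * (min |y| M) ^ p
/-- its primitive -/
noncomputable def GG (p M y : ℝ) : ℝ := ∫ s in (0:ℝ)..y, dG p M s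
/-- primitive of the primitive -/
noncomputable def QQ (p M y : ℝ) : ℝ := ∫ s in (0:ℝ)..y, GG p M s

variable {p M : ℝ}

lemma dG_cont (hp : 0 < p) : Continuous (dG p M) := by
  unfold dG
  have : Continuous fun y : ℝ => (min |y| M) ^ p :=
    (continuous_abs.min continuous_const).rpow_const fun x => Or.inr hp.le
  fun_prop

lemma dG_eq (h : ℝ) (hM : |h| ≤ M) : dG p M h = spd p h := by
  unfold dG spd; rw [min_eq_left hM]

lemma dG_nonneg (hp : 0 < p) (hM : 0 ≤ M) (y : ℝ) : 0 ≤ dG p M y := by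
  unfold dG
  have : 0 ≤ (min |y| M) ^ p := Real.rpow_nonneg (le_min (abs_nonneg _) hM) _
  positivity

lemma dG_le (hp : 0 < p) (hM : 0 ≤ M) (y : ℝ) : dG p M y ≤ (1 + p) * M ^ p := by
  unfold dG
  have : (min |y| M) ^ p ≤ M ^ p :=
    Real.rpow_le_rpow (le_min (abs_nonneg _) hM) (min_le_right _ _) hp.le
  exact mul_le_mul_of_nonneg_left this (by linarith)

lemma dG_le' (hp : 0 < p) (hM : 0 ≤ M) (y : ℝ) : dG p M y ≤ (1 + p) * |y| ^ p := by
  unfold dG
  have : (min |y| M) ^ p ≤ |y| ^ p :=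
    Real.rpow_le_rpow (le_min (abs_nonneg _) hM) (min_le_left _ _) hp.le
  exact mul_le_mul_of_nonneg_left this (by linarith)

lemma dG_abs_le (hp : 0 < p) (hM : 0 ≤ M) (y : ℝ) : |dG p M y| ≤ (1 + p) * M ^ p := by
  rw [abs_of_nonneg (dG_nonneg hp hM y)]; exact dG_le hp hM y

lemma dG_neg (y : ℝ) : dG p M (-y) = dG p M y := by unfold dG; rw [abs_neg]

lemma GG_deriv (hp : 0 < p) (y : ℝ) : HasDerivAt (GG p M) (dG p M y) y :=
  intervalIntegral.integral_hasDerivAt_right ((dG_cont hp).intervalIntegrable _ _)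
    (dG_cont hp).aestronglyMeasurable.stronglyMeasurableAtFilter (dG_cont hp).continuousAt

lemma GG_cont (hp : 0 < p) : Continuous (GG p M) :=
  continuous_iff_continuousAt.2 fun y => (GG_deriv hp y).continuousAt

lemma QQ_deriv (hp : 0 < p) (y : ℝ) : HasDerivAt (QQ p M) (GG p M y) y :=
  intervalIntegral.integral_hasDerivAt_right ((GG_cont hp).intervalIntegrable _ _)
    (GG_cont hp).aestronglyMeasurable.stronglyMeasurableAtFilter (GG_cont hp).continuousAt

lemma GG_zero : GG p M 0 = 0 := by unfold GG; simp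
lemma QQ_zero : QQ p M 0 = 0 := by unfold QQ; simp

lemma GG_lip (hp : 0 < p) (hM : 0 ≤ M) (a b : ℝ) :
    |GG p M a - GG p M b| ≤ ((1 + p) * M ^ p) * |a - b| := by
  have h1 : GG p M a - GG p M b = ∫ s in b..a, dG p M s := by
    unfold GG
    rw [intervalIntegral.integral_interval_sub_left] <;>
      exact (dG_cont hp).intervalIntegrable _ _
  rw [h1]
  have := intervalIntegral.norm_integral_le_of_norm_le_const (a := b) (b := a)
    (f := dG p M) (C := (1 + p) * M ^ p) fun x _ => dG_abs_le hp hM x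
  rw [Real.norm_eq_abs] at this
  exact this

lemma GG_abs_le (hp : 0 < p) (hM : 0 ≤ M) (y : ℝ) : |GG p M y| ≤ ((1 + p) * M ^ p) * |y| := by
  have := GG_lip hp hM y 0
  rwa [GG_zero, sub_zero, sub_zero] at this

lemma GG_neg (y : ℝ) : GG p M (-y) = -GG p M y := by
  unfold GG
  have h1 := intervalIntegral.integral_comp_neg (a := 0) (b := y) (fun s => dG p M s)
  simp_rw [dG_neg] at h1
  rw [h1, neg_zero, intervalIntegral.integral_symm]

lemma QQ_neg (y : ℝ) : QQ p M (-y) = QQ p M y := by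
  unfold QQ
  have h1 := intervalIntegral.integral_comp_neg (a := 0) (b := y) (fun s => GG p M s)
  simp_rw [GG_neg] at h1
  rw [intervalIntegral.integral_neg, neg_zero] at h1
  rw [intervalIntegral.integral_symm, ← h1, neg_neg]

end Pool.Agent.Y308.BC
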