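import Pool.Agent.Y308.BC.Fix

/-! # Weak formulation of the mild solution -/

set_option autoImplicit false

open MeasureTheory Set Real Filter Topology intervalIntegral
open scoped ENNReal NNReal

namespace Pool.Agent.Y308.BC

/-- test functions, vanishing at `x = 0` and `x = 1` -/
structure Test (φ φt φx : ℝ → ℝ → ℝ) : Prop where
  c0 : Continuous fun q : ℝ × ℝ => φ q.1 q.2
  ct : Continuous fun q : ℝ × ℝ => φt q.1 q.2
  cx : Continuous fun q : ℝ × ℝ => φx q.1 q.2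
  dt : ∀ t x, HasDerivAt (fun s => φ s x) (φt t x) t
  dx : ∀ t x, HasDerivAt (φ t) (φx t x) x
  z0 : ∀ t, φ t 0 = 0
  z1 : ∀ t, φ t 1 = 0

variable {c : ℝ → ℝ} {F : ℝ → ℝ → ℝ} {B : ℝ} {φ φt φx : ℝ → ℝ → ℝ}

lemma Test.s0 (hT : Test φ φt φx) (t : ℝ) : Continuous (φ t) := by
  have := hT.c0.comp (f := fun x : ℝ => (t, x)) (by fun_prop); exact this
lemma Test.st (hT : Test φ φt φx) (t : ℝ) : Continuous (φt t) := by
  have := hT.ct.comp (f := fun x : ℝ => (t, x)) (by fun_prop); exact this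
lemma Test.sx (hT : Test φ φt φx) (t : ℝ) : Continuous (φx t) := by
  have := hT.cx.comp (f := fun x : ℝ => (t, x)) (by fun_prop); exact this

lemma Test.param (hT : Test φ φt φx) {e : ℝ → ℝ} (he : Continuous e) (t : ℝ) :
    HasDerivAt (fun t => ∫ x in (0:ℝ)..1, e x * φ t x) (∫ x in (0:ℝ)..1, e x * φt t x) t := by
  have hc : Continuous fun q : ℝ × ℝ => e q.2 * φt q.1 q.2 := (he.comp continuous_snd).mul hT.ct
  obtain ⟨C, hC⟩ := ((isCompact_Icc (a := t - 1) (b := t + 1)).prod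
    (isCompact_Icc (a := (0:ℝ)) (b := 1))).exists_bound_of_continuousOn hc.continuousOn
  refine (intervalIntegral.hasDerivAt_integral_of_dominated_loc_of_deriv_le
    (F := fun t x => e x * φ t x) (F' := fun t x => e x * φt t x) (s := Icc (t - 1) (t + 1))
    (bound := fun _ => C) (Icc_mem_nhds (by linarith) (by linarith)) ?_ ?_ ?_ ?_ ?_ ?_).2
  · exact Eventually.of_forall fun s => (he.mul (hT.s0 s)).aestronglyMeasurable
  · exact (he.mul (hT.s0 t)).intervalIntegrable _ _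
  · exact (he.mul (hT.st t)).aestronglyMeasurable
  · refine Eventually.of_forall fun x hx s hs => ?_
    rw [uIoc_of_le zero_le_one] at hx
    exact hC (s, x) ⟨hs, Ioc_subset_Icc_self hx⟩
  · exact intervalIntegrable_const
  · exact Eventually.of_forall fun x _ s _ => (hT.dt s x).const_mul (e x)

lemma cont_mem {f : ℝ × ℝ → ℝ} (hf : Continuous f) (a b : ℝ) : MemLp f 2 (nu a b) :=
  memLp_nu' hf.continuousOn

lemma rJ_mem (c : ℝ → ℝ) (h : Adm F B) (J : ℕ) (τ : ℝ) :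
    MemLp (fun q : ℝ × ℝ => rJ c F J q.1 q.2) 2 (nu 0 τ) :=
  memLp_nu' ((rJ_cont c h J).mono (prod_mono Icc_subset_Ici_self (subset_univ _)))

lemma ecf_le (n : ℕ) (x : ℝ) : |ecf n x| ≤ √2 := by
  rcases n with _ | n
  · rw [ecf_zero, abs_one]
    exact Real.one_le_sqrt.2 (by norm_num)
  · rw [ecf_succ]; exact ec_le n x

lemma fJ_mem (h : Adm F B) (J : ℕ) (τ : ℝ) :
    MemLp (fun q : ℝ × ℝ => fJ F J q.1 q.2) 2 (nu 0 τ) := by
  refine memLp_nu (C := ∑ n ∈ Finset.range (J + 1), B * √2)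
    ((fJ_cont h J).mono (prod_mono Ioc_subset_Ioi_self (subset_univ _))) fun t ht x _ => ?_
  unfold fJ
  refine (Finset.abs_sum_le_sum_abs _ _).trans (Finset.sum_le_sum fun n _ => ?_)
  rw [abs_mul]
  refine mul_le_mul ?_ (ecf_le n x) (abs_nonneg _) h.nonneg
  have h1 := bessel ecf ecf_cont ecf_orth (h.memLp ht.1) {n}
  rw [Finset.sum_singleton] at h1
  have h2 := int_sq_le (h.sec ht.1) (h.bdd t ht.1)
  exact abs_le_of_sq_le_sq (h1.trans h2) h.nonneg

lemma F_mem (h : Adm F B) (τ : ℝ) : MemLp (fun q : ℝ × ℝ => F q.1 q.2) 2 (nu 0 τ) :=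
  memLp_nu (C := B) (h.cont.mono (prod_mono Ioc_subset_Ioi_self Ioo_subset_Icc_self))
    fun t ht x hx => h.bdd t ht.1 x (Ioo_subset_Icc_self hx)

lemma weak_rJ (c : ℝ → ℝ) (h : Adm F B) (hT : Test φ φt φx) (J : ℕ) {τ : ℝ} (hτ : 0 < τ) :
    (∫ x in (0:ℝ)..1, rJ c F J τ x * φ τ x) - (∫ x in (0:ℝ)..1, rJ c F J 0 x * φ 0 x) =
      ∫ q, (rJ c F J q.1 q.2 * φt q.1 q.2 -
        (rJx c F J q.1 q.2 + fJ F J q.1 q.2) * φx q.1 q.2) ∂(nu 0 τ) := by
  have hZ : ∀ t, ∫ x in (0:ℝ)..1, rJ c F J t x * φ t x =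
      ∑ n ∈ Finset.range J, rn c F n t * ∫ x in (0:ℝ)..1, es n x * φ t x := by
    intro t
    have e : ∀ x, rJ c F J t x * φ t x =
        ∑ n ∈ Finset.range J, rn c F n t * (es n x * φ t x) := by
      intro x; unfold rJ; rw [Finset.sum_mul]
      exact Finset.sum_congr rfl fun n _ => by ring
    simp_rw [e]
    rw [intervalIntegral.integral_finsetSum]
    · simp_rw [intervalIntegral.integral_const_mul]
    · intro n _
      exact (((es_cont n).mul (hT.s0 t)).intervalIntegrable _ _).const_mul _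
  have hint : Integrable (fun q : ℝ × ℝ => rJ c F J q.1 q.2 * φt q.1 q.2 -
        (rJx c F J q.1 q.2 + fJ F J q.1 q.2) * φx q.1 q.2) (nu 0 τ) := by
    refine (mul_int (rJ_mem c h J τ) (cont_mem hT.ct 0 τ)).sub
      (mul_int (f := fun q : ℝ × ℝ => rJx c F J q.1 q.2 + fJ F J q.1 q.2) ?_ (cont_mem hT.cx 0 τ))
    exact (rJx_mem c h J).add (fJ_mem h J τ)
  rw [int_nu hτ.le hint]
  have hI : IntervalIntegrable (fun t => ∫ x in (0:ℝ)..1, (rJ c F J t x * φt t x -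
        (rJx c F J t x + fJ F J t x) * φx t x)) volume 0 τ := by
    rw [intervalIntegrable_iff_integrableOn_Ioc_of_le hτ.le]
    unfold nu at hint
    have := hint.integral_prod_left
    simp_rw [ii_mu]
    exact this
  rw [intervalIntegral.integral_eq_sub_of_hasDerivAt_of_le hτ.le
    (f := fun t => ∫ x in (0:ℝ)..1, rJ c F J t x * φ t x) ?_ ?_ hI]
  · simp_rw [hZ]
    refine continuousOn_finsetSum _ fun n _ => ContinuousOn.mul
      ((rn_cont c h n).mono Icc_subset_Ici_self) ?_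
    exact fun t _ => (hT.param (es_cont n) t).continuousAt.continuousWithinAt
  · intro t ht
    simp_rw [hZ]
    have h1 := HasDerivAt.fun_sum (u := Finset.range J)
      (A := fun n t => rn c F n t * ∫ x in (0:ℝ)..1, es n x * φ t x)
      (A' := fun n => (-(lam n) * rn c F n t - kk n * Fc F n t) *
        (∫ x in (0:ℝ)..1, es n x * φ t x) + rn c F n t * ∫ x in (0:ℝ)..1, es n x * φt t x)
      (x := t) (fun n _ => (rn_deriv c h n ht.1).mul (hT.param (es_cont n) t))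
    refine h1.congr_deriv ?_
    rw [Finset.sum_add_distrib]
    have e1 : ∑ n ∈ Finset.range J, (-(lam n) * rn c F n t - kk n * Fc F n t) *
        (∫ x in (0:ℝ)..1, es n x * φ t x) = ∫ x in (0:ℝ)..1, φ t x * gJ c F J t x := by
      have e : ∀ x, φ t x * gJ c F J t x =
          ∑ n ∈ Finset.range J, (-(lam n) * rn c F n t - kk n * Fc F n t) * (es n x * φ t x) := by
        intro x; unfold gJ; rw [Finset.mul_sum]
        exact Finset.sum_congr rfl fun n _ => by ring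
      simp_rw [e]
      rw [intervalIntegral.integral_finsetSum]
      · simp_rw [intervalIntegral.integral_const_mul]
      · intro n _
        exact (((es_cont n).mul (hT.s0 t)).intervalIntegrable _ _).const_mul _
    have e2 : ∑ n ∈ Finset.range J, rn c F n t * (∫ x in (0:ℝ)..1, es n x * φt t x) =
        ∫ x in (0:ℝ)..1, rJ c F J t x * φt t x := by
      have e : ∀ x, rJ c F J t x * φt t x =
          ∑ n ∈ Finset.range J, rn c F n t * (es n x * φt t x) := by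
        intro x; unfold rJ; rw [Finset.sum_mul]
        exact Finset.sum_congr rfl fun n _ => by ring
      simp_rw [e]
      rw [intervalIntegral.integral_finsetSum]
      · simp_rw [intervalIntegral.integral_const_mul]
      · intro n _
        exact (((es_cont n).mul (hT.st t)).intervalIntegrable _ _).const_mul _
    rw [e1, e2]
    have e3 := intervalIntegral.integral_mul_deriv_eq_deriv_mul (a := 0) (b := 1)
      (u := φ t) (v := fun x => rJx c F J t x + fJ F J t x) (u' := φx t)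
      (v' := fun x => gJ c F J t x) (fun x _ => hT.dx t x) (fun x _ => flux_dx c F J t x)
      ((hT.sx t).intervalIntegrable _ _) (by apply Continuous.intervalIntegrable; fun_prop)
    rw [hT.z0, hT.z1, zero_mul, zero_mul, sub_zero, zero_sub] at e3
    rw [e3]
    have hc1 : Continuous fun x => rJ c F J t x * φt t x := (rJ_sec c F J t).mul (hT.st t)
    have hc2 : Continuous fun x => (rJx c F J t x + fJ F J t x) * φx t x :=
      ((rJx_sec c F J t).add (fJ_sec F J t)).mul (hT.sx t)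
    rw [intervalIntegral.integral_sub (hc1.intervalIntegrable _ _) (hc2.intervalIntegrable _ _)]
    have e4 : ∫ x in (0:ℝ)..1, φx t x * (rJx c F J t x + fJ F J t x) =
        ∫ x in (0:ℝ)..1, (rJx c F J t x + fJ F J t x) * φx t x := by
      congr 1; funext x; ring
    rw [e4]; ring

lemma RR_mem_nu {m : ℝ} (hcm : Measurable c) (hm : 0 ≤ m)
    (hcb : ∀ x ∈ Ioo (0:ℝ) 1, |c x| ≤ m) (hF : Adm F B) (τ : ℝ) :
    MemLp (fun q : ℝ × ℝ => RR c F q.1 q.2) 2 (nu 0 τ) := by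
  have hcM : MemLp c 2 mu := memLp_bdd hcm hcb
  refine memLp_nu (C := m + √2 * C0 * (8 * τ ^ (1/8 : ℝ) * B))
    ((RR_cont hcM hF).mono (prod_mono Ioc_subset_Ioi_self (subset_univ _))) fun t ht x hx => ?_
  have h3 := RR_bdd hcm hm hcb hF ht.1 (Ioo_subset_Icc_self hx) hF.nonneg
    (fun u hu => int_sq_le (hF.sec hu.1) (hF.bdd u hu.1))
  have h4 : t ^ (1/8 : ℝ) ≤ τ ^ (1/8 : ℝ) := Real.rpow_le_rpow ht.1.le ht.2 (by norm_num)
  have h5 : √2 * C0 * (8 * t ^ (1/8 : ℝ) * B) ≤ √2 * C0 * (8 * τ ^ (1/8 : ℝ) * B) := by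
    have := C0_nonneg
    have := hF.nonneg
    gcongr
  linarith

/-- space-time `L²` convergence of the sections -/
lemma rJ_nu_tendsto {m : ℝ} (hcm : Measurable c) (hm : 0 ≤ m)
    (hcb : ∀ x ∈ Ioo (0:ℝ) 1, |c x| ≤ m) (hF : Adm F B) {τ : ℝ} (hτ : 0 < τ) :
    Tendsto (fun J => ∫ q : ℝ × ℝ, (rJ c F J q.1 q.2 - RR c F q.1 q.2) ^ 2 ∂(nu 0 τ)) atTop
      (𝓝 0) := by
  have hcM : MemLp c 2 mu := memLp_bdd hcm hcb
  have hi : ∀ J, Integrable (fun q : ℝ × ℝ => (rJ c F J q.1 q.2 - RR c F q.1 q.2) ^ 2) (nu 0 τ) :=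
    fun J => sq_int ((rJ_mem c hF J τ).sub (RR_mem_nu hcm hm hcb hF τ))
  refine squeeze_zero (fun J => integral_nonneg fun q => sq_nonneg _) (fun J => ?_) (int_eb_tendsto hcM hF 1 hτ.le)
  rw [int_nu hτ.le (hi J)]
  refine intervalIntegral.integral_mono_on_of_le_Ioo hτ.le ?_ (ii_eb hcM hF 1 J hτ.le) ?_
  · rw [intervalIntegrable_iff_integrableOn_Ioc_of_le hτ.le]
    have h1 := hi J
    unfold nu at h1
    have := h1.integral_prod_left
    simp_rw [ii_mu]
    exact this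
  · intro s hs
    unfold eb
    have h1 : 0 ≤ ∫ x in (0:ℝ)..1, (F s x - fJ F J s x) ^ 2 :=
      intervalIntegral.integral_nonneg zero_le_one fun x _ => sq_nonneg _
    have h2 : 0 ≤ ∫ x in (0:ℝ)..1, (RR c F s x - rJ c F J s x) ^ 2 :=
      intervalIntegral.integral_nonneg zero_le_one fun x _ => sq_nonneg _
    have h3 : ∫ x in (0:ℝ)..1, (rJ c F J s x - RR c F s x) ^ 2 =
        ∫ x in (0:ℝ)..1, (RR c F s x - rJ c F J s x) ^ 2 := by
      congr 1; funext x; ring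
    rw [h3]; linarith

lemma fJ_nu_tendsto {m : ℝ} (hcm : Measurable c)
    (hcb : ∀ x ∈ Ioo (0:ℝ) 1, |c x| ≤ m) (hF : Adm F B) {τ : ℝ} (hτ : 0 < τ) :
    Tendsto (fun J => ∫ q : ℝ × ℝ, (fJ F J q.1 q.2 - F q.1 q.2) ^ 2 ∂(nu 0 τ)) atTop
      (𝓝 0) := by
  have hcM : MemLp c 2 mu := memLp_bdd hcm hcb
  have hi : ∀ J, Integrable (fun q : ℝ × ℝ => (fJ F J q.1 q.2 - F q.1 q.2) ^ 2) (nu 0 τ) :=
    fun J => sq_int ((fJ_mem hF J τ).sub (F_mem hF τ))
  refine squeeze_zero (fun J => integral_nonneg fun q => sq_nonneg _) (fun J => ?_) (int_eb_tendsto hcM hF 1 hτ.le)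
  rw [int_nu hτ.le (hi J)]
  refine intervalIntegral.integral_mono_on_of_le_Ioo hτ.le ?_ (ii_eb hcM hF 1 J hτ.le) ?_
  · rw [intervalIntegrable_iff_integrableOn_Ioc_of_le hτ.le]
    have h1 := hi J
    unfold nu at h1
    have := h1.integral_prod_left
    simp_rw [ii_mu]
    exact this
  · intro s hs
    unfold eb
    have h1 : 0 ≤ ∫ x in (0:ℝ)..1, (F s x - fJ F J s x) ^ 2 :=
      intervalIntegral.integral_nonneg zero_le_one fun x _ => sq_nonneg _
    have h2 : 0 ≤ ∫ x in (0:ℝ)..1, (RR c F s x - rJ c F J s x) ^ 2 :=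
      intervalIntegral.integral_nonneg zero_le_one fun x _ => sq_nonneg _
    have h3 : ∫ x in (0:ℝ)..1, (fJ F J s x - F s x) ^ 2 =
        ∫ x in (0:ℝ)..1, (F s x - fJ F J s x) ^ 2 := by
      congr 1; funext x; ring
    rw [h3]; linarith

/-- weak identity of the mild solution -/
lemma weak_r {m : ℝ} (hcm : Measurable c) (hm : 0 ≤ m)
    (hcb : ∀ x ∈ Ioo (0:ℝ) 1, |c x| ≤ m) (hF : Adm F B) (hT : Test φ φt φx) {τ : ℝ} (hτ : 0 < τ)
    {P : ℝ × ℝ → ℝ} (hPm : MemLp P 2 (nu 0 τ))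
    (hPt : Tendsto (fun J => ∫ q, (rJx c F J q.1 q.2 - P q) ^ 2 ∂(nu 0 τ)) atTop (𝓝 0)) :
    (∫ x in (0:ℝ)..1, RR c F τ x * φ τ x) - (∫ x in (0:ℝ)..1, c x * φ 0 x) =
      ∫ q, (RR c F q.1 q.2 * φt q.1 q.2 - P q * φx q.1 q.2 - F q.1 q.2 * φx q.1 q.2)
        ∂(nu 0 τ) := by
  have hcM : MemLp c 2 mu := memLp_bdd hcm hcb
  have mt := cont_mem hT.ct 0 τ
  have mx := cont_mem hT.cx 0 τ
  have l1 : Tendsto (fun J => ∫ x in (0:ℝ)..1, rJ c F J τ x * φ τ x) atTop
      (𝓝 (∫ x in (0:ℝ)..1, RR c F τ x * φ τ x)) := by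
    simp_rw [ii_mu]
    refine tendsto_pair (fun J => memLp_cont (rJ_sec c F J τ).continuousOn) (RR_mem hcM hF hτ)
      (memLp_cont (hT.s0 τ).continuousOn) ?_
    simp_rw [← ii_mu]
    refine (rJ_tendsto hcM hF hτ).congr fun J => ?_
    congr 1; funext x; ring
  have l2 : Tendsto (fun J => ∫ x in (0:ℝ)..1, rJ c F J 0 x * φ 0 x) atTop
      (𝓝 (∫ x in (0:ℝ)..1, c x * φ 0 x)) := by
    simp_rw [ii_mu]
    refine tendsto_pair (fun J => memLp_cont (rJ_sec c F J 0).continuousOn) hcM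
      (memLp_cont (hT.s0 0).continuousOn) ?_
    simp_rw [← ii_mu]
    refine (tendsto_es hcM).congr fun J => ?_
    simp_rw [rJ_zero]
    congr 1; funext x; ring
  have l3 := tendsto_pair (fun J => rJ_mem c hF J τ) (RR_mem_nu hcm hm hcb hF τ) mt
    (rJ_nu_tendsto hcm hm hcb hF hτ)
  have l4 := tendsto_pair (fun J => rJx_mem c hF J) hPm mx hPt
  have l5 := tendsto_pair (fun J => fJ_mem hF J τ) (F_mem hF τ) mx (fJ_nu_tendsto hcm hcb hF hτ)
  have e1 : ∀ J, (∫ x in (0:ℝ)..1, rJ c F J τ x * φ τ x) - (∫ x in (0:ℝ)..1, rJ c F J 0 x * φ 0 x)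
      = (∫ q, rJ c F J q.1 q.2 * φt q.1 q.2 ∂(nu 0 τ)) -
        (∫ q, rJx c F J q.1 q.2 * φx q.1 q.2 ∂(nu 0 τ)) -
        ∫ q, fJ F J q.1 q.2 * φx q.1 q.2 ∂(nu 0 τ) := by
    intro J
    rw [weak_rJ c hF hT J hτ]
    have i1 : Integrable (fun q : ℝ × ℝ => rJ c F J q.1 q.2 * φt q.1 q.2) (nu 0 τ) :=
      mul_int (rJ_mem c hF J τ) mt
    have i2 : Integrable (fun q : ℝ × ℝ => rJx c F J q.1 q.2 * φx q.1 q.2) (nu 0 τ) :=
      mul_int (rJx_mem c hF J) mx
    have i3 : Integrable (fun q : ℝ × ℝ => fJ F J q.1 q.2 * φx q.1 q.2) (nu 0 τ) :=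
      mul_int (fJ_mem hF J τ) mx
    have i4 : Integrable (fun q : ℝ × ℝ => rJ c F J q.1 q.2 * φt q.1 q.2 -
      rJx c F J q.1 q.2 * φx q.1 q.2) (nu 0 τ) := i1.sub i2
    rw [← integral_sub i1 i2, ← integral_sub i4 i3]
    congr 1; funext q; ring
  have l6 := (l3.sub l4).sub l5
  have l7 := (l1.sub l2).congr e1
  rw [tendsto_nhds_unique l7 l6]
  have i1 : Integrable (fun q : ℝ × ℝ => RR c F q.1 q.2 * φt q.1 q.2) (nu 0 τ) :=
    mul_int (RR_mem_nu hcm hm hcb hF τ) mt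
  have i2 : Integrable (fun q : ℝ × ℝ => P q * φx q.1 q.2) (nu 0 τ) := mul_int hPm mx
  have i3 : Integrable (fun q : ℝ × ℝ => F q.1 q.2 * φx q.1 q.2) (nu 0 τ) :=
    mul_int (F_mem hF τ) mx
  have i4 : Integrable (fun q : ℝ × ℝ => RR c F q.1 q.2 * φt q.1 q.2 - P q * φx q.1 q.2)
    (nu 0 τ) := i1.sub i2
  rw [integral_sub i4 i3, integral_sub i1 i2]

end Pool.Agent.Y308.BC
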